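import Mathlib

set_option autoImplicit false

/-!
Basic definitions: irreducible representations, subhomogeneous C*-algebras,
inductive limits of sequences of C*-algebras, ASH algebras, and the standard Borel space
of sequences in the unit ball of `B(H)` with the weak operator topology.
-/

open scoped Topology
open Filter

namespace Run7.h836

universe u

/-- A representation `π` of a C*-algebra on a Hilbert space `K` is irreducible: it is not zero and
the only closed invariant subspaces are `0` and `K`. -/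
def IsIrredRep {A : Type u} [NonUnitalCStarAlgebra A] {K : Type u} [NormedAddCommGroup K]
    [InnerProductSpace ℂ K] [CompleteSpace K] (π : A →⋆ₙₐ[ℂ] (K →L[ℂ] K)) : Prop :=
  (∃ a, π a ≠ 0) ∧ ∀ W : Submodule ℂ K, IsClosed (W : Set K) →
    (∀ a : A, ∀ ξ ∈ W, π a ξ ∈ W) → W = ⊥ ∨ W = ⊤

/-- `A` is subhomogeneous: for some `N` every irreducible representation of `A` has dimension at
most `N`. -/
def Subhomogeneous (A : Type u) [NonUnitalCStarAlgebra A] : Prop :=
  ∃ N : ℕ, ∀ (K : Type u) [NormedAddCommGroup K] [InnerProductSpace ℂ K] [CompleteSpace K]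
    (π : A →⋆ₙₐ[ℂ] (K →L[ℂ] K)), IsIrredRep π → Module.rank ℂ K ≤ (N : Cardinal)

/-- The composite connecting map `A n → A (n + m)` of a sequence of C*-algebras. -/
def iter {A : ℕ → Type u} [∀ n, NonUnitalCStarAlgebra (A n)]
    (φ : ∀ n, A n →⋆ₙₐ[ℂ] A (n + 1)) (n : ℕ) : ∀ m : ℕ, A n → A (n + m)
  | 0 => fun a => a
  | m + 1 => fun a => φ (n + m) (iter φ n m a)

/-- `B`, with the maps `ψ n : A n → B`, is the inductive limit (in the category of C*-algebras) of
the sequence `A 0 → A 1 → ⋯` with connecting *-homomorphisms `φ n`. -/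
structure IsIndLim {A : ℕ → Type u} [∀ n, NonUnitalCStarAlgebra (A n)]
    (φ : ∀ n, A n →⋆ₙₐ[ℂ] A (n + 1)) {B : Type u} [NonUnitalCStarAlgebra B]
    (ψ : ∀ n, A n →⋆ₙₐ[ℂ] B) : Prop where
  compat : ∀ n a, ψ (n + 1) (φ n a) = ψ n a
  dense : Dense (⋃ n, Set.range (ψ n))
  norm_eq : ∀ n a, Tendsto (fun m => ‖iter φ n m a‖) atTop (𝓝 ‖ψ n a‖)

/-- `B` is approximately subhomogeneous (ASH): it is (isomorphic to) the inductive limit of a
sequence of subhomogeneous C*-algebras with *-homomorphisms as connecting maps. -/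
def IsASH (B : Type u) [NonUnitalCStarAlgebra B] : Prop :=
  ∃ (A : ℕ → Type u) (_ : ∀ n, NonUnitalCStarAlgebra (A n))
    (φ : ∀ n, A n →⋆ₙₐ[ℂ] A (n + 1)) (ψ : ∀ n, A n →⋆ₙₐ[ℂ] B),
    (∀ n, Subhomogeneous (A n)) ∧ IsIndLim φ ψ

/-- The closed unit ball of `B(H)`. -/
def Ball1 (H : Type u) [NormedAddCommGroup H] [InnerProductSpace ℂ H] : Type u :=
  {T : H →L[ℂ] H // ‖T‖ ≤ 1}

/-- The closed unit ball of `B(H)` carries the weak operator topology. -/
noncomputable instance (H : Type u) [NormedAddCommGroup H] [InnerProductSpace ℂ H] :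
    TopologicalSpace (Ball1 H) :=
  TopologicalSpace.induced
    (fun T : Ball1 H => (ContinuousLinearMapWOT.ofCLM T.1 : H →WOT[ℂ] H)) inferInstance

/-- The (nonunital) *-algebra generated by the operators `γ n`, closed in norm: `C*(γ) ⊆ B(H)`. -/
noncomputable def cstar {H : Type u} [NormedAddCommGroup H] [InnerProductSpace ℂ H]
    [CompleteSpace H] (γ : ℕ → Ball1 H) : NonUnitalStarSubalgebra ℂ (H →L[ℂ] H) :=
  (NonUnitalStarAlgebra.adjoin ℂ (Set.range fun n => (γ n).1)).topologicalClosure

noncomputable instance {H : Type u} [NormedAddCommGroup H] [InnerProductSpace ℂ H]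
    [CompleteSpace H] (γ : ℕ → Ball1 H) : NonUnitalCStarAlgebra (cstar γ) :=
  NonUnitalStarSubalgebra.nonUnitalCStarAlgebra _
    (h_closed := NonUnitalStarSubalgebra.isClosed_topologicalClosure _)

end Run7.h836
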