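import Mathlib
import Pool.Agent.Run7.h836.Defs

set_option autoImplicit false

/-!
Shared definitions for the rank theory of concrete C*-algebras.
-/

open scoped Topology
open Filter

namespace Run7.h836

universe u

section
variable {H : Type u} [NormedAddCommGroup H] [InnerProductSpace ℂ H]

/-- finite rank operator -/
def FinRk (T : H →L[ℂ] H) : Prop := FiniteDimensional ℂ (LinearMap.range (T : H →ₗ[ℂ] H))

/-- dimension of `p W` -/
noncomputable def rk (W : Submodule ℂ H) (p : H →L[ℂ] H) : ℕ :=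
  Module.finrank ℂ (W.map (p : H →ₗ[ℂ] H))

variable [CompleteSpace H]

/-- `W` is a finite dimensional `B`-invariant subspace. -/
def Inv (B : NonUnitalStarSubalgebra ℂ (H →L[ℂ] H)) (W : Submodule ℂ H) : Prop :=
  FiniteDimensional ℂ W ∧ ∀ T ∈ B, ∀ ξ ∈ W, T ξ ∈ W

/-- A concrete form of subhomogeneity: a closed invariant subspace on which `B` acts irreducibly
has dimension at most `N`. -/
def SubhomOn (B : NonUnitalStarSubalgebra ℂ (H →L[ℂ] H)) (N : ℕ) : Prop :=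
  ∀ W : Submodule ℂ H, IsClosed (W : Set H) → (∀ T ∈ B, ∀ ξ ∈ W, T ξ ∈ W) →
    (∃ T ∈ B, ∃ ξ ∈ W, T ξ ≠ 0) →
    (∀ W' : Submodule ℂ H, W' ≤ W → IsClosed (W' : Set H) → (∀ T ∈ B, ∀ ξ ∈ W', T ξ ∈ W') →
      W' = ⊥ ∨ W' = W) → Module.rank ℂ W ≤ (N : Cardinal)

/-- The span of the ranges of the finite rank elements of `B`. -/
def Soc (B : NonUnitalStarSubalgebra ℂ (H →L[ℂ] H)) : Submodule ℂ H :=
  ⨆ T ∈ {T | T ∈ B ∧ FinRk T}, LinearMap.range (T : H →ₗ[ℂ] H)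

/-- `Rel B P Q c`: along the sequence `B n`, the rank of `P` minus the rank of `Q` is `c` in all
large enough finite dimensional invariant subspaces. -/
def Rel (B : ℕ → NonUnitalStarSubalgebra ℂ (H →L[ℂ] H)) (P Q : H →L[ℂ] H) (c : ℤ) : Prop :=
  ∃ p q : ℕ → (H →L[ℂ] H), (∀ n, p n ∈ B n ∧ IsStarProjection (p n)) ∧
    (∀ n, q n ∈ B n ∧ IsStarProjection (q n)) ∧ Tendsto p atTop (𝓝 P) ∧ Tendsto q atTop (𝓝 Q) ∧
    ∀ᶠ n in atTop, ∃ F : Finset H, (F : Set H) ⊆ Soc (B n) ∧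
      ∀ W : Submodule ℂ H, Inv (B n) W → (F : Set H) ⊆ W → (rk W (p n) : ℤ) - rk W (q n) = c

/-- The closure of the union of the `B n`. -/
def AA (B : ℕ → NonUnitalStarSubalgebra ℂ (H →L[ℂ] H)) : Set (H →L[ℂ] H) :=
  closure (⋃ n, (B n : Set (H →L[ℂ] H)))

/-- Certificate that `P` and `Q` have the same rank in every finite dimensional representation
killing the compacts. -/
structure Cert (A : Set (H →L[ℂ] H)) (P Q F T₁ T₂ : H →L[ℂ] H) : Prop where
  P_mem : P ∈ A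
  Q_mem : Q ∈ A
  F_mem : F ∈ A
  T₁_mem : T₁ ∈ A
  T₂_mem : T₂ ∈ A
  P_proj : IsStarProjection P
  Q_proj : IsStarProjection Q
  F_sa : IsSelfAdjoint F
  F_norm : ‖F‖ ≤ 1
  FP : F * P = P * F
  FQ : F * Q = Q * F
  T₁_eq : Q * T₁ * P = T₁
  T₂_eq : Q * T₂ * P = T₂
  T₁_norm : ‖T₁‖ ≤ 1
  T₂_norm : ‖T₂‖ ≤ 1
  comm_P : ∀ a ∈ A, IsCompactOperator (F * (P * a * P) - (P * a * P) * F)
  comm_Q : ∀ a ∈ A, IsCompactOperator (F * (Q * a * Q) - (Q * a * Q) * F)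
  c₁ : IsCompactOperator (star T₁ * T₁ - F * F * P)
  c₂ : IsCompactOperator (T₁ * star T₁ - F * F * Q)
  c₃ : IsCompactOperator (star T₂ * T₂ - (P - F * P) * (P - F * P))
  c₄ : IsCompactOperator (T₂ * star T₂ - (Q - F * Q) * (Q - F * Q))

end

end Run7.h836
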