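import Mathlib
import Pool.Agent.Run7.h836.Base

set_option autoImplicit false

/-!
Weighted partial permutations of a Hilbert basis.
-/

open scoped Topology InnerProductSpace
open Filter

namespace Run7.h836

universe u v

variable {Ω : Type v} {H : Type u} [NormedAddCommGroup H] [InnerProductSpace ℂ H]

theorem ext_basis (b : HilbertBasis Ω ℂ H) {S T : H →L[ℂ] H} (h : ∀ ω, S (b ω) = T (b ω)) :
    S = T := by
  have hd := b.dense_span
  have h1 : Set.EqOn S T (Submodule.span ℂ (Set.range b) : Set H) := by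
    intro x hx
    have := LinearMap.eqOn_span (f := (S : H →ₗ[ℂ] H)) (g := (T : H →ₗ[ℂ] H)) (s := Set.range b)
      (by rintro _ ⟨ω, rfl⟩; exact h ω)
    exact this hx
  have h2 : Dense (Submodule.span ℂ (Set.range b) : Set H) := by
    rw [← Submodule.dense_iff_topologicalClosure_eq_top] at hd
    exact hd
  exact ContinuousLinearMap.ext fun x => congrFun (S.continuous.ext_on h2 T.continuous h1) x

/-- coefficient function of the image of `v` -/
noncomputable def popFun (e : Ω ≃. Ω) (c : Ω → ℂ) (v : Ω → ℂ) (ω' : Ω) : ℂ :=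
  (e.symm ω').elim 0 (fun ω => c ω * v ω)

theorem popFun_sum_le (e : Ω ≃. Ω) (c : Ω → ℂ) (C : ℝ) (hC : ∀ ω, ‖c ω‖ ≤ C)
    (v : lp (fun _ : Ω => ℂ) 2) (s : Finset Ω) :
    ∑ ω' ∈ s, ‖popFun e c v ω'‖ ^ (2 : ENNReal).toReal ≤ (C * ‖v‖) ^ (2 : ENNReal).toReal := by
  classical
  have hC0 : ∀ ω : Ω, 0 ≤ C := fun ω => (norm_nonneg _).trans (hC ω)
  let t : Finset Ω := (s.filter fun ω' => (e.symm ω').isSome = true).attach.image
    (fun ω' => (e.symm ω'.1).get (by simpa using (Finset.mem_filter.1 ω'.2).2))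
  have h2 : (2 : ENNReal).toReal = (2 : ℕ) := by norm_num
  rw [h2]
  simp only [Real.rpow_natCast]
  rcases isEmpty_or_nonempty Ω with hΩ | ⟨⟨ω0⟩⟩
  · have : s = ∅ := Finset.eq_empty_of_isEmpty s
    subst this
    simp only [Finset.sum_empty]
    positivity
  have hCC := hC0 ω0
  calc ∑ ω' ∈ s, ‖popFun e c v ω'‖ ^ 2
      = ∑ ω' ∈ s.filter (fun ω' => (e.symm ω').isSome = true), ‖popFun e c v ω'‖ ^ 2 := by
        rw [Finset.sum_filter]
        apply Finset.sum_congr rfl
        intro ω' _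
        split_ifs with h
        · rfl
        · simp only [Option.isSome_iff_ne_none, ne_eq, not_not] at h
          simp [popFun, h]
    _ = ∑ ω ∈ t, ‖c ω * v ω‖ ^ 2 := by
        rw [Finset.sum_image, ← Finset.sum_attach]
        · apply Finset.sum_congr rfl
          rintro ⟨ω', hω'⟩ _
          simp only [popFun]
          obtain ⟨ω, hω⟩ := Option.isSome_iff_exists.1 ((Finset.mem_filter.1 hω').2)
          simp [hω]
        · rintro ⟨x, hx⟩ _ ⟨y, hy⟩ _ hxy
          simp only at hxy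
          obtain ⟨ω, hω⟩ := Option.isSome_iff_exists.1 ((Finset.mem_filter.1 hx).2)
          obtain ⟨ω2, hω2⟩ := Option.isSome_iff_exists.1 ((Finset.mem_filter.1 hy).2)
          simp only [hω, hω2, Option.get_some] at hxy
          subst hxy
          rw [PEquiv.eq_some_iff] at hω hω2
          rw [hω] at hω2
          simpa using hω2
    _ ≤ ∑ ω ∈ t, C ^ 2 * ‖v ω‖ ^ 2 := by
        apply Finset.sum_le_sum
        intro ω _
        rw [norm_mul, mul_pow]
        gcongr
        exact hC ω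
    _ = C ^ 2 * ∑ ω ∈ t, ‖v ω‖ ^ 2 := by rw [Finset.mul_sum]
    _ ≤ C ^ 2 * ‖v‖ ^ 2 := by
        gcongr
        have := lp.sum_rpow_le_norm_rpow (p := 2) (by norm_num) v t
        rw [h2] at this
        simpa only [Real.rpow_natCast] using this
    _ = (C * ‖v‖) ^ 2 := by ring

theorem exists_pop (b : HilbertBasis Ω ℂ H) (e : Ω ≃. Ω) (c : Ω → ℂ) (C : ℝ) (hC0 : 0 ≤ C)
    (hC : ∀ ω, ‖c ω‖ ≤ C) :
    ∃ T : H →L[ℂ] H, (∀ ω, T (b ω) = (e ω).elim 0 (fun ω' => c ω • b ω')) ∧ ‖T‖ ≤ C := by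
  classical
  let L : lp (fun _ : Ω => ℂ) 2 →ₗ[ℂ] lp (fun _ : Ω => ℂ) 2 :=
    { toFun := fun v => ⟨popFun e c v, memℓp_gen' (fun s => popFun_sum_le e c C hC v s)⟩
      map_add' := fun v w => by
        apply Subtype.ext
        funext ω'
        simp only [popFun]
        show _ = popFun e c v ω' + popFun e c w ω'
        simp only [popFun]
        cases e.symm ω' <;> simp [mul_add]
      map_smul' := fun r v => by
        apply Subtype.ext
        funext ω'
        show _ = r * popFun e c v ω'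
        simp only [popFun]
        cases e.symm ω' <;> simp; ring }
  have hL : ∀ v, ‖L v‖ ≤ C * ‖v‖ := fun v =>
    lp.norm_le_of_forall_sum_le (by norm_num) (by positivity) (popFun_sum_le e c C hC v)
  let T : H →L[ℂ] H := LinearMap.mkContinuous
    (b.repr.symm.toLinearEquiv.toLinearMap ∘ₗ L ∘ₗ b.repr.toLinearEquiv.toLinearMap) C (by
      intro x
      have := hL (b.repr x)
      simpa using this)
  refine ⟨T, fun ω => ?_, LinearMap.mkContinuous_norm_le _ hC0 _⟩
  show b.repr.symm (L (b.repr (b ω))) = _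
  rw [b.repr_self]
  apply b.repr.injective
  rw [LinearIsometryEquiv.apply_symm_apply]
  apply Subtype.ext
  funext ω'
  show popFun e c (lp.single 2 ω (1 : ℂ)) ω' = _
  simp only [popFun]
  rcases h : e ω with _ | ω1
  · simp only [Option.elim_none, map_zero]
    rcases h' : e.symm ω' with _ | ω2
    · simp
    · rw [PEquiv.eq_some_iff] at h'
      have hne : ω2 ≠ ω := by rintro rfl; rw [h] at h'; cases h'
      simp [hne]
  · simp only [Option.elim_some, map_smul, b.repr_self]
    rw [lp.coeFn_smul, Pi.smul_apply]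
    rcases h' : e.symm ω' with _ | ω2
    · have hne : ω' ≠ ω1 := by
        rintro rfl
        rw [← PEquiv.eq_some_iff, h'] at h
        cases h
      simp [hne]
    · rw [PEquiv.eq_some_iff] at h'
      by_cases hω : ω2 = ω
      · subst hω
        rw [h] at h'
        cases h'
        simp
      · have hne : ω' ≠ ω1 := by
          rintro rfl
          exact hω (e.inj h' h)
        simp [hω, hne]

/-- matrix unit -/
noncomputable def mu (b : HilbertBasis Ω ℂ H) (ω' ω : Ω) : H →L[ℂ] H :=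
  InnerProductSpace.rankOne ℂ (b ω') (b ω)

theorem mu_apply (b : HilbertBasis Ω ℂ H) (ω' ω : Ω) (x : H) :
    mu b ω' ω x = ⟪b ω, x⟫_ℂ • b ω' := rfl

open Classical in
theorem inner_basis (b : HilbertBasis Ω ℂ H) (ω ω' : Ω) :
    ⟪b ω, b ω'⟫_ℂ = if ω = ω' then 1 else 0 :=
  orthonormal_iff_ite.1 b.orthonormal ω ω'

open Classical in
theorem mu_basis (b : HilbertBasis Ω ℂ H) (ω' ω ω₁ : Ω) :
    mu b ω' ω (b ω₁) = if ω = ω₁ then b ω' else 0 := by
  rw [mu_apply, inner_basis]
  split_ifs <;> simp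

theorem norm_mu (b : HilbertBasis Ω ℂ H) (ω' ω : Ω) : ‖mu b ω' ω‖ = 1 := by
  simp [mu, b.orthonormal.1]

def Bdd (c : Ω → ℂ) : Prop := ∃ C : ℝ, 0 ≤ C ∧ ∀ ω, ‖c ω‖ ≤ C

theorem Bdd.mk' {c : Ω → ℂ} {C : ℝ} (hC : ∀ ω, ‖c ω‖ ≤ C) : Bdd c :=
  ⟨|C|, abs_nonneg _, fun ω => (hC ω).trans (le_abs_self C)⟩

open Classical in
/-- the operator `b ω ↦ c ω • b (e ω)` -/
noncomputable def pop (b : HilbertBasis Ω ℂ H) (e : Ω ≃. Ω) (c : Ω → ℂ) : H →L[ℂ] H :=
  if h : Bdd c then (exists_pop b e c h.choose h.choose_spec.1 h.choose_spec.2).choose else 0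

theorem pop_basis (b : HilbertBasis Ω ℂ H) (e : Ω ≃. Ω) {c : Ω → ℂ} (h : Bdd c) (ω : Ω) :
    pop b e c (b ω) = (e ω).elim 0 (fun ω' => c ω • b ω') := by
  rw [pop, dif_pos h]
  exact (exists_pop b e c h.choose h.choose_spec.1 h.choose_spec.2).choose_spec.1 ω

theorem pop_norm_le (b : HilbertBasis Ω ℂ H) (e : Ω ≃. Ω) {c : Ω → ℂ} {C : ℝ} (hC0 : 0 ≤ C)
    (hC : ∀ ω, ‖c ω‖ ≤ C) : ‖pop b e c‖ ≤ C := by
  obtain ⟨T, hT, hn⟩ := exists_pop b e c C hC0 hC
  have : pop b e c = T := ext_basis b fun ω => by rw [hT, pop_basis b e ⟨C, hC0, hC⟩]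
  rw [this]; exact hn

theorem Bdd.symm {c : Ω → ℂ} (h : Bdd c) (e : Ω ≃. Ω) :
    Bdd (fun ω' => (e.symm ω').elim 0 (fun ω => star (c ω))) := by
  obtain ⟨C, hC0, hC⟩ := h
  refine ⟨C, hC0, fun ω' => ?_⟩
  rcases h1 : e.symm ω' with _ | ω
  · simpa [h1] using hC0
  · simpa [h1] using hC ω

theorem Bdd.sub {c c' : Ω → ℂ} (h : Bdd c) (h' : Bdd c') : Bdd (fun ω => c ω - c' ω) := by
  obtain ⟨C, hC0, hC⟩ := h
  obtain ⟨C', hC0', hC'⟩ := h'
  exact ⟨C + C', by positivity, fun ω => (norm_sub_le _ _).trans (add_le_add (hC ω) (hC' ω))⟩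

theorem pop_sub (b : HilbertBasis Ω ℂ H) (e : Ω ≃. Ω) {c c' : Ω → ℂ} (h : Bdd c) (h' : Bdd c') :
    pop b e c - pop b e c' = pop b e (fun ω => c ω - c' ω) := by
  apply ext_basis b
  intro ω
  rw [sub_apply, pop_basis b e h, pop_basis b e h', pop_basis b e (h.sub h')]
  cases e ω <;> simp [sub_smul]

variable [CompleteSpace H]

theorem star_mu (b : HilbertBasis Ω ℂ H) (ω' ω : Ω) : star (mu b ω' ω) = mu b ω ω' :=
  InnerProductSpace.adjoint_rankOne _ _

theorem star_pop (b : HilbertBasis Ω ℂ H) (e : Ω ≃. Ω) {c : Ω → ℂ} (h : Bdd c) :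
    star (pop b e c) = pop b e.symm (fun ω' => (e.symm ω').elim 0 (fun ω => star (c ω))) := by
  classical
  apply ext_basis b
  intro ω
  have hi : ∀ x y : H, (∀ ω', ⟪b ω', x⟫_ℂ = ⟪b ω', y⟫_ℂ) → x = y := by
    intro x y hxy
    apply b.repr.injective
    apply Subtype.ext
    funext ω'
    rw [b.repr_apply_apply, b.repr_apply_apply]
    exact hxy ω'
  apply hi
  intro ω'
  rw [ContinuousLinearMap.star_eq_adjoint, ContinuousLinearMap.adjoint_inner_right,
    pop_basis b e h, pop_basis b e.symm (h.symm e)]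
  rcases h1 : e ω' with _ | ω1
  · simp only [Option.elim_none, inner_zero_left]
    rcases h2 : e.symm ω with _ | ω2
    · simp
    · have hne : ω' ≠ ω2 := by
        rintro rfl
        rw [PEquiv.eq_some_iff, h1] at h2
        cases h2
      simp [inner_smul_right, inner_basis, hne]
  · simp only [Option.elim_some, inner_smul_left]
    rcases h2 : e.symm ω with _ | ω2
    · have hne : ω1 ≠ ω := by
        rintro rfl
        rw [← PEquiv.eq_some_iff, h2] at h1
        cases h1
      simp [inner_basis, hne]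
    · rw [PEquiv.eq_some_iff] at h2
      by_cases hω : ω' = ω2
      · subst hω
        rw [h1] at h2
        cases h2
        simp [inner_smul_right, b.orthonormal.1]
      · have hne : ω1 ≠ ω := by
          rintro rfl
          exact hω (e.inj h1 h2)
        simp [inner_basis, hne, hω]

theorem star_pop_basis (b : HilbertBasis Ω ℂ H) (e : Ω ≃. Ω) {c : Ω → ℂ} (h : Bdd c) (ω : Ω) :
    star (pop b e c) (b ω) = (e.symm ω).elim 0 (fun ω' => star (c ω') • b ω') := by
  rw [star_pop b e h, pop_basis b e.symm (h.symm e)]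
  cases e.symm ω <;> simp

/-- span of matrix units with indices in `S` -/
noncomputable def muSpan (b : HilbertBasis Ω ℂ H) (S : Set Ω) : Submodule ℂ (H →L[ℂ] H) :=
  Submodule.span ℂ {T | ∃ ω ∈ S, ∃ ω' ∈ S, T = mu b ω' ω}

omit [CompleteSpace H] in
theorem pop_mem_closure (b : HilbertBasis Ω ℂ H) (e : Ω ≃. Ω) {c : Ω → ℂ} (S : Set Ω)
    (hS : ∀ ω, c ω ≠ 0 → ∀ ω' ∈ e ω, ω ∈ S ∧ ω' ∈ S) (hb : Bdd c)
    (hfin : ∀ ε : ℝ, 0 < ε → {ω | ε ≤ ‖c ω‖}.Finite) :
    pop b e c ∈ closure (muSpan b S : Set (H →L[ℂ] H)) := by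
  classical
  rw [Metric.mem_closure_iff]
  intro ε hε
  have hf := hfin (ε / 2) (by positivity)
  let s := hf.toFinset
  refine ⟨∑ ω ∈ s, (e ω).elim 0 (fun ω' => c ω • mu b ω' ω), ?_, ?_⟩
  · refine Submodule.sum_mem _ fun ω hω => ?_
    rcases h1 : e ω with _ | ω'
    · simp
    · simp only [Option.elim_some]
      by_cases hc : c ω = 0
      · simp [hc]
      · exact Submodule.smul_mem _ _ (Submodule.subset_span
          ⟨ω, (hS ω hc ω' h1).1, ω', (hS ω hc ω' h1).2, rfl⟩)
  · have hb' : Bdd (fun ω => if ω ∈ s then 0 else c ω) := by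
      obtain ⟨C, hC0, hC⟩ := hb
      refine ⟨C, hC0, fun ω => ?_⟩
      show ‖(if ω ∈ s then 0 else c ω)‖ ≤ C
      split_ifs
      · simpa using hC0
      · exact hC ω
    have h1 : pop b e c - ∑ ω ∈ s, (e ω).elim 0 (fun ω' => c ω • mu b ω' ω) =
        pop b e (fun ω => if ω ∈ s then 0 else c ω) := by
      apply ext_basis b
      intro ω
      rw [sub_apply, pop_basis b e hb, pop_basis b e hb',
        sum_apply]
      have h2 : ∀ ω1 ∈ s, ((e ω1).elim 0 (fun ω' => c ω1 • mu b ω' ω1) : H →L[ℂ] H) (b ω) =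
          if ω1 = ω then (e ω).elim 0 (fun ω' => c ω • b ω') else 0 := by
        intro ω1 _
        rcases h3 : e ω1 with _ | ω2
        · split_ifs with h4
          · subst h4; simp [h3]
          · simp
        · simp only [Option.elim_some, smul_apply, mu_basis]
          split_ifs with h4
          · subst h4; simp [h3]
          · simp
      rw [Finset.sum_congr rfl h2, Finset.sum_ite_eq']
      split_ifs with h4
      · cases e ω <;> simp
      · cases e ω <;> simp
    rw [dist_eq_norm, h1]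
    refine (pop_norm_le b e (C := ε / 2) (by positivity) fun ω => ?_).trans_lt (by linarith)
    split_ifs with h4
    · simp; positivity
    · have : ω ∉ {ω | ε / 2 ≤ ‖c ω‖} := fun h => h4 (hf.mem_toFinset.2 h)
      simp only [Set.mem_ofPred_eq, not_le] at this
      exact this.le

omit [CompleteSpace H] in
theorem isCompactOperator_mu (b : HilbertBasis Ω ℂ H) (ω' ω : Ω) :
    IsCompactOperator (mu b ω' ω) := by
  have h1 : IsCompactOperator (ContinuousLinearMap.toSpanSingleton ℂ (b ω') : ℂ →L[ℂ] H) :=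
    isCompactOperator_of_locallyCompactSpace_rng _
  have : (mu b ω' ω) = (ContinuousLinearMap.toSpanSingleton ℂ (b ω')) ∘L (innerSL ℂ (b ω)) := rfl
  rw [this]
  exact h1.comp_clm _

/-- the set of compact operators is closed -/
theorem isClosed_compact : IsClosed {T : H →L[ℂ] H | IsCompactOperator T} :=
  isClosed_setOfPred_isCompactOperator

theorem compact_of_mem_closure_muSpan (b : HilbertBasis Ω ℂ H) (S : Set Ω) {T : H →L[ℂ] H}
    (hT : T ∈ closure (muSpan b S : Set (H →L[ℂ] H))) : IsCompactOperator T := by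
  have h1 : (muSpan b S : Set (H →L[ℂ] H)) ⊆ {T : H →L[ℂ] H | IsCompactOperator T} := by
    have : muSpan b S ≤ compactOperator (RingHom.id ℂ) H H := by
      rw [muSpan, Submodule.span_le]
      rintro _ ⟨ω, _, ω', _, rfl⟩
      exact isCompactOperator_mu b ω' ω
    exact this
  exact (closure_minimal h1 isClosed_compact) hT

theorem pop_compact (b : HilbertBasis Ω ℂ H) (e : Ω ≃. Ω) {c : Ω → ℂ} (hb : Bdd c)
    (hfin : ∀ ε : ℝ, 0 < ε → {ω | ε ≤ ‖c ω‖}.Finite) : IsCompactOperator (pop b e c) :=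
  compact_of_mem_closure_muSpan b Set.univ (pop_mem_closure b e Set.univ (by simp) hb hfin)

end Run7.h836
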