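import Mathlib
import Pool.Agent.Run7.h836.Pop

set_option autoImplicit false

/-!
Block operators along orthonormal families.
-/

open scoped Topology InnerProductSpace
open Filter

namespace Run7.h836

universe u v w

variable {H : Type u} [NormedAddCommGroup H] [InnerProductSpace ℂ H]

/-- synthesis operator of a finite family -/
noncomputable def Jw {ι : Type v} [Fintype ι] (w : ι → H) : EuclideanSpace ℂ ι →L[ℂ] H :=
  LinearMap.toContinuousLinearMap
    { toFun := fun v => ∑ i, v i • w i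
      map_add' := fun x y => by simp [add_smul, Finset.sum_add_distrib]
      map_smul' := fun r x => by simp [Finset.smul_sum, smul_smul] }

theorem Jw_apply {ι : Type v} [Fintype ι] (w : ι → H) (x : EuclideanSpace ℂ ι) :
    Jw w x = ∑ i, x i • w i := rfl

theorem Jw_single {ι : Type v} [Fintype ι] [DecidableEq ι] (w : ι → H) (i : ι) :
    Jw w (EuclideanSpace.single i (1 : ℂ)) = w i := by
  rw [Jw_apply, Finset.sum_eq_single i]
  · simp
  · intro j _ hj; simp [hj]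
  · simp

theorem norm_sq_sum_Jw {I : Type v} {ι : I → Type w} [∀ i, Fintype (ι i)] {W : (Σ i, ι i) → H}
    (hW : Orthonormal ℂ W) (z : ∀ i, EuclideanSpace ℂ (ι i)) (t : Finset I) :
    ‖∑ i ∈ t, Jw (fun X => W ⟨i, X⟩) (z i)‖ ^ 2 = ∑ i ∈ t, ‖z i‖ ^ 2 := by
  have h1 : ∑ i ∈ t, Jw (fun X => W ⟨i, X⟩) (z i) =
      ∑ p ∈ t.sigma (fun _ => Finset.univ), (z p.1 p.2) • W p := by
    rw [Finset.sum_sigma]
    rfl
  have h2 := hW.inner_sum (fun p : Σ i, ι i => z p.1 p.2) (fun p : Σ i, ι i => z p.1 p.2)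
    (t.sigma (fun _ => Finset.univ))
  rw [inner_self_eq_norm_sq_to_K] at h2
  have h3 : ((∑ i ∈ t, ‖z i‖ ^ 2 : ℝ) : ℂ) =
      ∑ p ∈ t.sigma (fun _ => Finset.univ), (starRingEnd ℂ) (z p.1 p.2) * z p.1 p.2 := by
    rw [Finset.sum_sigma]
    push_cast
    refine Finset.sum_congr rfl fun i _ => ?_
    rw [← Complex.ofReal_pow, EuclideanSpace.norm_sq_eq]
    push_cast
    refine Finset.sum_congr rfl fun X _ => ?_
    rw [Complex.conj_mul']
  rw [← h1, ← h3] at h2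
  apply Complex.ofReal_injective
  rw [← h2]
  push_cast
  rfl

theorem norm_Jw {ι : Type v} [Fintype ι] {w : ι → H} (hw : Orthonormal ℂ w)
    (x : EuclideanSpace ℂ ι) : ‖Jw w x‖ = ‖x‖ := by
  have h := norm_sq_sum_Jw (I := Unit) (ι := fun _ => ι) (W := fun p => w p.2)
    (hw.comp _ (by rintro ⟨_, a⟩ ⟨_, c⟩ h; simp at h; subst h; rfl)) (fun _ => x) {()}
  simp only [Finset.sum_singleton] at h
  exact (pow_left_inj₀ (norm_nonneg _) (norm_nonneg _) (by norm_num)).1 h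

variable [CompleteSpace H]

theorem adjoint_Jw_apply {ι : Type v} [Fintype ι] [DecidableEq ι] (w : ι → H) (y : H) (i : ι) :
    ContinuousLinearMap.adjoint (Jw w) y i = ⟪w i, y⟫_ℂ := by
  have h := ContinuousLinearMap.adjoint_inner_right (Jw w) (EuclideanSpace.single i (1 : ℂ)) y
  rw [Jw_single] at h
  rw [← h, EuclideanSpace.inner_single_left]
  simp

theorem adjoint_Jw_Jw {ι : Type v} [Fintype ι] [DecidableEq ι] {w : ι → H}
    (hw : Orthonormal ℂ w) (x : EuclideanSpace ℂ ι) :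
    ContinuousLinearMap.adjoint (Jw w) (Jw w x) = x := by
  ext i
  rw [adjoint_Jw_apply, Jw_apply]
  exact hw.inner_right_fintype _ i

theorem adjoint_Jw_zero {ι : Type v} [Fintype ι] [DecidableEq ι] {w : ι → H} {y : H}
    (h : ∀ i, ⟪w i, y⟫_ℂ = 0) : ContinuousLinearMap.adjoint (Jw w) y = 0 := by
  ext i
  rw [adjoint_Jw_apply, h i]
  rfl

section family
variable {I : Type v} {ι : I → Type w} [∀ i, Fintype (ι i)]

/-- block operator -/
noncomputable def Bk (W' W : (Σ i, ι i) → H)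
    (K : ∀ i, EuclideanSpace ℂ (ι i) →L[ℂ] EuclideanSpace ℂ (ι i)) (i : I) : H →L[ℂ] H :=
  (Jw fun X => W' ⟨i, X⟩) ∘L K i ∘L ContinuousLinearMap.adjoint (Jw fun X => W ⟨i, X⟩)

theorem norm_sum_Bk_le {W' W : (Σ i, ι i) → H} (hW' : Orthonormal ℂ W') (hW : Orthonormal ℂ W)
    (K : ∀ i, EuclideanSpace ℂ (ι i) →L[ℂ] EuclideanSpace ℂ (ι i)) (t : Finset I) {C : ℝ}
    (hC0 : 0 ≤ C) (hC : ∀ i ∈ t, ‖K i‖ ≤ C) : ‖∑ i ∈ t, Bk W' W K i‖ ≤ C := by
  classical
  refine ContinuousLinearMap.opNorm_le_bound _ hC0 fun y => ?_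
  rw [sum_apply]
  have h1 : ‖∑ i ∈ t, Bk W' W K i y‖ ^ 2 ≤ (C * ‖y‖) ^ 2 := by
    have h2 := norm_sq_sum_Jw hW'
      (fun i => K i (ContinuousLinearMap.adjoint (Jw fun X => W ⟨i, X⟩) y)) t
    have h3 : ∀ i, Bk W' W K i y = Jw (fun X => W' ⟨i, X⟩)
        (K i (ContinuousLinearMap.adjoint (Jw fun X => W ⟨i, X⟩) y)) := fun i => rfl
    simp only [h3]
    rw [h2]
    have h4 : ∀ i, ‖ContinuousLinearMap.adjoint (Jw fun X => W ⟨i, X⟩) y‖ ^ 2 =
        ∑ X, ‖⟪W ⟨i, X⟩, y⟫_ℂ‖ ^ 2 := by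
      intro i
      rw [EuclideanSpace.norm_sq_eq]
      exact Finset.sum_congr rfl fun X _ => by rw [adjoint_Jw_apply]
    calc ∑ i ∈ t, ‖K i (ContinuousLinearMap.adjoint (Jw fun X => W ⟨i, X⟩) y)‖ ^ 2
        ≤ ∑ i ∈ t, C ^ 2 * ‖ContinuousLinearMap.adjoint (Jw fun X => W ⟨i, X⟩) y‖ ^ 2 := by
          refine Finset.sum_le_sum fun i hi => ?_
          rw [← mul_pow]
          have := (K i).le_of_opNorm_le (hC i hi)
            (ContinuousLinearMap.adjoint (Jw fun X => W ⟨i, X⟩) y)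
          gcongr
      _ = C ^ 2 * ∑ p ∈ t.sigma (fun _ => Finset.univ), ‖⟪W p, y⟫_ℂ‖ ^ 2 := by
          rw [Finset.sum_sigma, Finset.mul_sum]
          refine Finset.sum_congr rfl fun i _ => ?_
          rw [h4]
      _ ≤ C ^ 2 * ‖y‖ ^ 2 := by
          gcongr
          exact hW.sum_inner_products_le y
      _ = (C * ‖y‖) ^ 2 := by ring
  exact (sq_le_sq₀ (norm_nonneg _) (by positivity)).1 h1

theorem summable_Bk {W' W : (Σ i, ι i) → H} (hW' : Orthonormal ℂ W') (hW : Orthonormal ℂ W)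
    (K : ∀ i, EuclideanSpace ℂ (ι i) →L[ℂ] EuclideanSpace ℂ (ι i))
    (hK : ∀ ε : ℝ, 0 < ε → {i | ε ≤ ‖K i‖}.Finite) : Summable (Bk W' W K) := by
  classical
  rw [summable_iff_vanishing_norm]
  intro ε hε
  refine ⟨(hK (ε / 2) (by positivity)).toFinset, fun t ht => ?_⟩
  refine (norm_sum_Bk_le hW' hW K t (C := ε / 2) (by positivity) fun i hi => ?_).trans_lt
    (by linarith)
  have h1 : i ∉ (hK (ε / 2) (by positivity)).toFinset := fun h =>
    Finset.disjoint_left.1 ht hi h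
  simp only [Set.Finite.mem_toFinset, Set.mem_ofPred_eq, not_le] at h1
  exact h1.le

/-- the sum of the blocks -/
noncomputable def Dl (W' W : (Σ i, ι i) → H)
    (K : ∀ i, EuclideanSpace ℂ (ι i) →L[ℂ] EuclideanSpace ℂ (ι i)) : H →L[ℂ] H :=
  ∑' i, Bk W' W K i

theorem Dl_apply {W' W : (Σ i, ι i) → H}
    {K : ∀ i, EuclideanSpace ℂ (ι i) →L[ℂ] EuclideanSpace ℂ (ι i)} (hs : Summable (Bk W' W K))
    (y : H) : Dl W' W K y = ∑' i, Bk W' W K i y := by
  have := (ContinuousLinearMap.apply ℂ H y).map_tsum hs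
  simpa [Dl] using this

theorem Dl_J [∀ i, DecidableEq (ι i)] {W' W : (Σ i, ι i) → H} (hW : Orthonormal ℂ W)
    {K : ∀ i, EuclideanSpace ℂ (ι i) →L[ℂ] EuclideanSpace ℂ (ι i)} (hs : Summable (Bk W' W K))
    (i : I) (x : EuclideanSpace ℂ (ι i)) :
    Dl W' W K (Jw (fun X => W ⟨i, X⟩) x) = Jw (fun X => W' ⟨i, X⟩) (K i x) := by
  rw [Dl_apply hs, tsum_eq_single i]
  · show Jw (fun X => W' ⟨i, X⟩) (K i (ContinuousLinearMap.adjoint (Jw fun X => W ⟨i, X⟩)
      (Jw (fun X => W ⟨i, X⟩) x))) = _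
    have hWi : Orthonormal ℂ (fun X => W ⟨i, X⟩) :=
      hW.comp (fun X => ⟨i, X⟩) (by intro a c h; simpa using h)
    rw [adjoint_Jw_Jw hWi]
  · intro j hj
    show Jw (fun X => W' ⟨j, X⟩) (K j (ContinuousLinearMap.adjoint (Jw fun X => W ⟨j, X⟩)
      (Jw (fun X => W ⟨i, X⟩) x))) = 0
    rw [adjoint_Jw_zero, map_zero, map_zero]
    intro X
    rw [Jw_apply, inner_sum]
    refine Finset.sum_eq_zero fun Y _ => ?_
    rw [inner_smul_right, hW.2 (by intro h; exact hj (congrArg Sigma.fst h)), mul_zero]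

theorem Dl_zero [∀ i, DecidableEq (ι i)] {W' W : (Σ i, ι i) → H}
    {K : ∀ i, EuclideanSpace ℂ (ι i) →L[ℂ] EuclideanSpace ℂ (ι i)} (hs : Summable (Bk W' W K))
    {y : H} (hy : ∀ p, ⟪W p, y⟫_ℂ = 0) : Dl W' W K y = 0 := by
  rw [Dl_apply hs]
  convert tsum_zero with i
  show Jw (fun X => W' ⟨i, X⟩) (K i (ContinuousLinearMap.adjoint (Jw fun X => W ⟨i, X⟩) y)) = 0
  rw [adjoint_Jw_zero (fun X => hy ⟨i, X⟩), map_zero, map_zero]

theorem Dl_mem_closure {Ω : Type w} (b : HilbertBasis Ω ℂ H) (S : Set Ω)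
    (e' e : (Σ i, ι i) → Ω) (he' : ∀ p, e' p ∈ S) (he : ∀ p, e p ∈ S)
    {K : ∀ i, EuclideanSpace ℂ (ι i) →L[ℂ] EuclideanSpace ℂ (ι i)}
    (hs : Summable (Bk (fun p => b (e' p)) (fun p => b (e p)) K)) :
    Dl (fun p => b (e' p)) (fun p => b (e p)) K ∈ closure (muSpan b S : Set (H →L[ℂ] H)) := by
  classical
  refine mem_closure_of_tendsto hs.hasSum (Eventually.of_forall fun t => ?_)
  refine Submodule.sum_mem _ fun i _ => ?_
  have : Bk (fun p => b (e' p)) (fun p => b (e p)) K i =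
      ∑ X, ∑ Y, (K i (EuclideanSpace.single X 1) Y) • mu b (e' ⟨i, Y⟩) (e ⟨i, X⟩) := by
    apply ContinuousLinearMap.ext
    intro y
    have h1 : ContinuousLinearMap.adjoint (Jw fun X => b (e ⟨i, X⟩)) y =
        ∑ X, ⟪b (e ⟨i, X⟩), y⟫_ℂ • EuclideanSpace.single X (1 : ℂ) := by
      ext X
      rw [adjoint_Jw_apply]
      simp [Pi.single_apply]
    show Jw (fun X => b (e' ⟨i, X⟩)) (K i (ContinuousLinearMap.adjoint
      (Jw fun X => b (e ⟨i, X⟩)) y)) = _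
    rw [h1, map_sum, map_sum, sum_apply]
    refine Finset.sum_congr rfl fun X _ => ?_
    rw [map_smul, map_smul, Jw_apply, sum_apply, Finset.smul_sum]
    refine Finset.sum_congr rfl fun Y _ => ?_
    rw [smul_apply, mu_apply, smul_smul, smul_smul, mul_comm]
  rw [this]
  refine Submodule.sum_mem _ fun X _ => Submodule.sum_mem _ fun Y _ => Submodule.smul_mem _ _ ?_
  exact Submodule.subset_span ⟨e ⟨i, X⟩, he _, e' ⟨i, Y⟩, he' _, rfl⟩

end family

end Run7.h836
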