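import Mathlib

set_option autoImplicit false

/-!
Joint eigenbases of a symmetric operator and a normal operator, and an abstract approximation
lemma.
-/

open scoped Topology InnerProductSpace
open Filter

namespace Run7.h836

universe u v

section joint
variable {E : Type u} [NormedAddCommGroup E] [InnerProductSpace ℂ E] [FiniteDimensional ℂ E]

theorem exists_common_eigenvector (A B : E →ₗ[ℂ] E) (hAB : ∀ x, A (B x) = B (A x))
    (W : Submodule ℂ E) (hW : W ≠ ⊥) (hA : ∀ x ∈ W, A x ∈ W) (hB : ∀ x ∈ W, B x ∈ W) :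
    ∃ ζ ∈ W, ‖ζ‖ = 1 ∧ ∃ lam mu : ℂ, A ζ = lam • ζ ∧ B ζ = mu • ζ := by
  have : Nontrivial W := (Submodule.nontrivial_iff_ne_bot).2 hW
  obtain ⟨lam, hlam⟩ := Module.End.exists_eigenvalue (A.restrict hA)
  obtain ⟨w, hw⟩ := hlam.exists_hasEigenvector
  let U : Submodule ℂ E := W ⊓ LinearMap.ker (A - lam • LinearMap.id)
  have hU : U ≠ ⊥ := by
    intro h
    have h1 : (w : E) ∈ U := by
      refine ⟨w.2, ?_⟩
      rw [SetLike.mem_coe, LinearMap.mem_ker]
      have := congrArg (Subtype.val) hw.apply_eq_smul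
      simp only [LinearMap.sub_apply, LinearMap.smul_apply, LinearMap.id_apply]
      rw [sub_eq_zero]
      simpa using this
    rw [h, Submodule.mem_bot] at h1
    exact hw.2 (Subtype.ext h1)
  have hBU : ∀ x ∈ U, B x ∈ U := by
    rintro x ⟨h1, h2⟩
    refine ⟨hB x h1, ?_⟩
    simp only [LinearMap.mem_ker, LinearMap.sub_apply, LinearMap.smul_apply, LinearMap.id_apply,
      SetLike.mem_coe] at h2 ⊢
    rw [hAB, sub_eq_zero.1 h2, map_smul, sub_self]
  have : Nontrivial U := (Submodule.nontrivial_iff_ne_bot).2 hU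
  obtain ⟨mu, hmu⟩ := Module.End.exists_eigenvalue (B.restrict hBU)
  obtain ⟨u, hu⟩ := hmu.exists_hasEigenvector
  have hu0 : (u : E) ≠ 0 := fun h => hu.2 (Subtype.ext h)
  have hn : ‖(u : E)‖ ≠ 0 := norm_ne_zero_iff.2 hu0
  refine ⟨((‖(u : E)‖⁻¹ : ℝ) : ℂ) • (u : E), W.smul_mem _ u.2.1, ?_, lam, mu, ?_, ?_⟩
  · rw [norm_smul, Complex.norm_real, norm_inv, norm_norm, inv_mul_cancel₀ hn]
  · have h2 := u.2.2
    simp only [LinearMap.mem_ker, LinearMap.sub_apply, LinearMap.smul_apply, LinearMap.id_apply,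
      SetLike.mem_coe] at h2
    rw [map_smul, sub_eq_zero.1 h2, smul_comm]
  · have := congrArg (Subtype.val) hu.apply_eq_smul
    have h3 : B (u : E) = mu • (u : E) := by simpa using this
    rw [map_smul, h3, smul_comm]

theorem exists_joint_aux (A B B' : E →ₗ[ℂ] E) (hA : ∀ x y, ⟪A x, y⟫_ℂ = ⟪x, A y⟫_ℂ)
    (hB : ∀ x y, ⟪B x, y⟫_ℂ = ⟪x, B' y⟫_ℂ) (hBB : ∀ x, B (B' x) = B' (B x))
    (hAB : ∀ x, A (B x) = B (A x)) (k : ℕ) : ∀ W : Submodule ℂ E,
    Module.finrank ℂ W = k → (∀ x ∈ W, A x ∈ W) → (∀ x ∈ W, B x ∈ W) → (∀ x ∈ W, B' x ∈ W) →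
    ∃ v : Fin k → E, Orthonormal ℂ v ∧ (∀ i, v i ∈ W) ∧
      ∀ i, ∃ lam mu : ℂ, A (v i) = lam • v i ∧ B (v i) = mu • v i := by
  induction k with
  | zero =>
    intro W _ _ _ _
    exact ⟨Fin.elim0, ⟨fun i => i.elim0, fun i => i.elim0⟩, fun i => i.elim0, fun i => i.elim0⟩
  | succ k ih =>
    intro W hk hAW hBW hBW'
    have hW : W ≠ ⊥ := by
      rintro rfl
      simp at hk
    obtain ⟨ζ, hζ, hn, lam, mu, h1, h2⟩ := exists_common_eigenvector A B hAB W hW hAW hBW
    have h2' : B' ζ = (starRingEnd ℂ mu) • ζ := by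
      rw [← sub_eq_zero, ← inner_self_eq_zero (𝕜 := ℂ)]
      have e1 : ⟪B' ζ, B' ζ⟫_ℂ = (mu * starRingEnd ℂ mu) * ⟪ζ, ζ⟫_ℂ := by
        rw [← hB, hBB, h2, map_smul, inner_smul_left, ← inner_conj_symm, ← hB, h2,
          inner_smul_left, map_mul, inner_conj_symm, Complex.conj_conj]
        ring
      have e2 : ⟪B' ζ, ζ⟫_ℂ = mu * ⟪ζ, ζ⟫_ℂ := by
        rw [← inner_conj_symm, ← hB, h2, inner_smul_left, map_mul, inner_conj_symm,
          Complex.conj_conj]
      have e3 : ⟪ζ, B' ζ⟫_ℂ = starRingEnd ℂ mu * ⟪ζ, ζ⟫_ℂ := by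
        rw [← hB, h2, inner_smul_left]
      rw [inner_sub_left, inner_sub_right, inner_sub_right, e1, inner_smul_right, e2,
        inner_smul_left, inner_smul_left, inner_smul_right, e3]
      simp only [Complex.conj_conj]
      ring
    let W' : Submodule ℂ E := W ⊓ (ℂ ∙ ζ)ᗮ
    have hmem : ∀ x, x ∈ W' ↔ x ∈ W ∧ ⟪ζ, x⟫_ℂ = 0 := by
      intro x
      simp only [W', Submodule.mem_inf, Submodule.mem_orthogonal_singleton_iff_inner_right]
    have hfr : Module.finrank ℂ W' = k := by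
      have hle : (ℂ ∙ ζ) ≤ W := by
        rw [Submodule.span_singleton_le_iff_mem]; exact hζ
      have h3 := Submodule.finrank_add_inf_finrank_orthogonal hle
      have h4 : Module.finrank ℂ (ℂ ∙ ζ) = 1 :=
        finrank_span_singleton (by rintro rfl; simp at hn)
      have h5 : ((ℂ ∙ ζ)ᗮ ⊓ W : Submodule ℂ E) = W' := inf_comm _ _
      rw [h4, h5, hk] at h3
      omega
    obtain ⟨v, hv1, hv2, hv3⟩ := ih W' hfr
      (fun x hx => by
        rw [hmem] at hx ⊢
        exact ⟨hAW x hx.1, by rw [← hA, h1, inner_smul_left, hx.2, mul_zero]⟩)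
      (fun x hx => by
        rw [hmem] at hx ⊢
        refine ⟨hBW x hx.1, ?_⟩
        have : ⟪ζ, B x⟫_ℂ = ⟪B' ζ, x⟫_ℂ := by
          rw [← inner_conj_symm, hB, inner_conj_symm]
        rw [this, h2', inner_smul_left, hx.2, mul_zero])
      (fun x hx => by
        rw [hmem] at hx ⊢
        exact ⟨hBW' x hx.1, by rw [← hB, h2, inner_smul_left, hx.2, mul_zero]⟩)
    refine ⟨Fin.cons ζ v, ?_, ?_, ?_⟩
    · constructor
      · intro i
        refine Fin.cases ?_ (fun i => ?_) i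
        · simpa using hn
        · simpa using hv1.1 i
      · intro i j hij
        revert hij
        refine Fin.cases ?_ (fun i => ?_) i <;> refine Fin.cases ?_ (fun j => ?_) j
        · intro h; exact absurd rfl h
        · intro _
          simpa using ((hmem _).1 (hv2 j)).2
        · intro _
          rw [← inner_conj_symm]
          simpa using congrArg (starRingEnd ℂ) ((hmem _).1 (hv2 i)).2
        · intro h
          simpa using hv1.2 (fun h' => h (by rw [h']))
    · intro i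
      refine Fin.cases ?_ (fun i => ?_) i
      · simpa using hζ
      · simpa using ((hmem _).1 (hv2 i)).1
    · intro i
      refine Fin.cases ?_ (fun i => ?_) i
      · exact ⟨lam, mu, by simpa using h1, by simpa using h2⟩
      · simpa using hv3 i

theorem exists_joint {ι : Type v} [Fintype ι] (hι : Fintype.card ι = Module.finrank ℂ E)
    (A B B' : E →ₗ[ℂ] E) (hA : ∀ x y, ⟪A x, y⟫_ℂ = ⟪x, A y⟫_ℂ)
    (hB : ∀ x y, ⟪B x, y⟫_ℂ = ⟪x, B' y⟫_ℂ) (hBB : ∀ x, B (B' x) = B' (B x))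
    (hAB : ∀ x, A (B x) = B (A x)) :
    ∃ (v : OrthonormalBasis ι ℂ E) (lam mu : ι → ℂ), ∀ i, A (v i) = lam i • v i ∧
      B (v i) = mu i • v i := by
  obtain ⟨v, hv1, -, hv3⟩ := exists_joint_aux A B B' hA hB hBB hAB (Module.finrank ℂ E) ⊤
    (finrank_top ℂ E) (fun _ _ => trivial) (fun _ _ => trivial) (fun _ _ => trivial)
  choose lam mu h using hv3
  let e : ι ≃ Fin (Module.finrank ℂ E) := Fintype.equivFinOfCardEq hι
  have hcard : Fintype.card (Fin (Module.finrank ℂ E)) = Module.finrank ℂ E := by simp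
  let b := OrthonormalBasis.mk (v := v) hv1
    (hv1.linearIndependent.span_eq_top_of_card_eq_finrank' hcard).ge
  refine ⟨b.reindex e.symm, fun i => lam (e i), fun i => mu (e i), fun i => ?_⟩
  have hb : b.reindex e.symm i = v (e i) := by simp [b]
  rw [hb]
  exact h (e i)

end joint

end Run7.h836
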