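import Mathlib
import Pool.Agent.Run7.h836.P5a
import Pool.Agent.Run7.h836.Ash2

set_option autoImplicit false

/-!
The abstract chain lemma.
-/

open scoped Topology InnerProductSpace
open Filter

namespace Run7.h836

section
variable {X : Type} [Fintype X] [DecidableEq X]

/-- basis vector -/
noncomputable abbrev eb (y : X) : EuclideanSpace ℂ X := EuclideanSpace.single y (1 : ℂ)

theorem inner_eb (y y' : X) : ⟪eb y, eb y'⟫_ℂ = if y = y' then 1 else 0 := by
  rw [EuclideanSpace.inner_single_left]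
  simp [Pi.single_apply]

theorem orth_eb {ψ : X → X} (hψ : Function.Injective ψ) : Orthonormal ℂ (fun y => eb (ψ y)) := by
  rw [orthonormal_iff_ite]
  intro y y'
  rw [inner_eb]
  simp [hψ.eq_iff]

theorem ext_eb {E : Type} [NormedAddCommGroup E] [InnerProductSpace ℂ E]
    {S T : EuclideanSpace ℂ X →L[ℂ] E} (h : ∀ y, S (eb y) = T (eb y)) : S = T := by
  apply ContinuousLinearMap.ext
  intro v
  have hv : v = ∑ y, v y • eb y := by
    ext y
    simp [Pi.single_apply]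
  rw [hv, map_sum, map_sum]
  refine Finset.sum_congr rfl fun y _ => ?_
  rw [map_smul, map_smul, h]

/-- norm of a weighted permutation -/
theorem norm_wp {ψ : X → X} (hψ : Function.Injective ψ) (α : X → ℂ) {δ : ℝ} (hδ : 0 ≤ δ)
    (hα : ∀ y, ‖α y‖ ≤ δ) (v : EuclideanSpace ℂ X) :
    ‖Jw (fun y => α y • eb (ψ y)) v‖ ≤ δ * ‖v‖ := by
  have h1 : Jw (fun y => α y • eb (ψ y)) v =
      Jw (fun y => eb (ψ y)) (WithLp.toLp 2 (fun y => v y * α y) : EuclideanSpace ℂ X) := by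
    rw [Jw_apply, Jw_apply]
    refine Finset.sum_congr rfl fun y _ => ?_
    rw [smul_smul]
  rw [h1, norm_Jw (orth_eb hψ)]
  have h2 : ‖(WithLp.toLp 2 (fun y => v y * α y) : EuclideanSpace ℂ X)‖ ^ 2 ≤ (δ * ‖v‖) ^ 2 := by
    rw [EuclideanSpace.norm_sq_eq, mul_pow, EuclideanSpace.norm_sq_eq, Finset.mul_sum]
    refine Finset.sum_le_sum fun y _ => ?_
    rw [norm_mul, mul_pow, mul_comm]
    have := hα y
    gcongr
  exact (sq_le_sq₀ (norm_nonneg _) (by positivity)).1 h2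

/-- data of the chain -/
structure CD (X : Type) [Fintype X] [DecidableEq X] where
  τ : X → X
  pr : X → X
  θ : X → ℝ
  θp : X → ℝ
  σ : X → ℝ
  φ : X → ℝ
  φ' : X → ℝ
  δ : ℝ
  τ_inj : Function.Injective τ
  pr_pr : ∀ y, pr (pr y) = y
  θ_pr : ∀ y, θ (pr y) = θ y
  θp_pr : ∀ y, θp (pr y) = θp y
  σ_sq : ∀ y, σ y * σ y = 1
  σ_pr : ∀ y, pr y ≠ y → σ (pr y) = - σ y
  θ_fix : ∀ y, pr y = y → θ y = 0 ∧ θp y = 0
  key : ∀ y, ∃ (y' : X) (ε : ℂ), φ' y' = φ' y ∧
    (Real.cos (θp y) : ℂ) • eb (τ y) + ((σ y * Real.sin (θp y) : ℝ) : ℂ) • eb (τ (pr y)) =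
      ε • ((Real.cos (θ y') : ℂ) • eb y' + ((σ y' * Real.sin (θ y') : ℝ) : ℂ) • eb (pr y'))
  δ0 : 0 ≤ δ
  h1 : ∀ y, |φ y - φ' y| ≤ δ
  h2 : ∀ y, |φ (pr y) - φ' y| ≤ δ
  h3 : ∀ y, |Real.cos (θ y) - Real.cos (θp y)| ≤ δ
  h4 : ∀ y, |Real.sin (θ y) - Real.sin (θp y)| ≤ δ
  h5 : ∀ y, |1 - φ' y| ≤ 1

namespace CD
variable (C : CD X)

/-- rotated basis -/
noncomputable def rot (ϑ : X → ℝ) (y : X) : EuclideanSpace ℂ X :=
  (Real.cos (ϑ y) : ℂ) • eb y + ((C.σ y * Real.sin (ϑ y) : ℝ) : ℂ) • eb (C.pr y)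

theorem rot_orth (ϑ : X → ℝ) (hpr : ∀ y, ϑ (C.pr y) = ϑ y) (hfix : ∀ y, C.pr y = y → ϑ y = 0) :
    Orthonormal ℂ (C.rot ϑ) := by
  rw [orthonormal_iff_ite]
  intro y y'
  unfold rot
  simp only [inner_add_left, inner_add_right, inner_smul_left, inner_smul_right, inner_eb,
    Complex.conj_ofReal]
  have hinj : (C.pr y = C.pr y') ↔ y = y' :=
    ⟨fun h => by rw [← C.pr_pr y, h, C.pr_pr], fun h => by rw [h]⟩
  by_cases h : y = y'
  · subst h
    simp only [if_true]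
    have hcs := Real.cos_sq_add_sin_sq (ϑ y)
    have hs := C.σ_sq y
    by_cases h2 : C.pr y = y
    · have h3 := hfix y h2
      simp [h2, h3]
    · have h2' : ¬ y = C.pr y := fun h => h2 h.symm
      simp only [if_neg h2', if_neg h2, mul_one, mul_zero, add_zero, zero_add]
      rw [← Complex.ofReal_mul, ← Complex.ofReal_mul, ← Complex.ofReal_add]
      have : Real.cos (ϑ y) * Real.cos (ϑ y) +
        C.σ y * Real.sin (ϑ y) * (C.σ y * Real.sin (ϑ y)) = 1 := by
        calc _ = Real.cos (ϑ y) ^ 2 + (C.σ y * C.σ y) * Real.sin (ϑ y) ^ 2 := by ring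
          _ = 1 := by rw [hs, one_mul, hcs]
      rw [this]; simp
  · have hh : ¬ C.pr y = C.pr y' := fun h' => h (hinj.1 h')
    simp only [if_neg h, if_neg hh]
    by_cases h2 : C.pr y = y'
    · have h3 : y = C.pr y' := by rw [← h2, C.pr_pr]
      simp only [if_pos h2, if_pos h3]
      have h4 : C.σ y' = - C.σ y := by
        rw [← h2]
        exact C.σ_pr y (fun h' => h (by rw [← h2, h']))
      have h5 : ϑ y' = ϑ y := by rw [← h2, hpr]
      rw [h4, h5]
      push_cast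
      ring
    · have h3 : ¬ y = C.pr y' := fun h' => h2 (by rw [h', C.pr_pr])
      simp only [if_neg h2, if_neg h3]
      simp

theorem pr_inj : Function.Injective C.pr := fun a c h => by rw [← C.pr_pr a, h, C.pr_pr]

/-- operator with entries on the diagonal and on the pairing -/
theorem norm_two (α β : X → ℂ) {d : ℝ} (hd : 0 ≤ d) (hα : ∀ y, ‖α y‖ ≤ d) (hβ : ∀ y, ‖β y‖ ≤ d)
    (v : EuclideanSpace ℂ X) :
    ‖Jw (fun y => α y • eb y + β y • eb (C.pr y)) v‖ ≤ 2 * d * ‖v‖ := by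
  have h1 : Jw (fun y => α y • eb y + β y • eb (C.pr y)) v =
      Jw (fun y => α y • eb (id y)) v + Jw (fun y => β y • eb (C.pr y)) v := by
    rw [Jw_apply, Jw_apply, Jw_apply, ← Finset.sum_add_distrib]
    refine Finset.sum_congr rfl fun y _ => ?_
    rw [smul_add]; rfl
  rw [h1]
  calc _ ≤ _ := norm_add_le _ _
    _ ≤ d * ‖v‖ + d * ‖v‖ := add_le_add (norm_wp Function.injective_id α hd hα v)
        (norm_wp C.pr_inj β hd hβ v)
    _ = 2 * d * ‖v‖ := by ring

/-- a finite-dimensional isometry is an equivalence -/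
theorem exists_equiv (w : X → EuclideanSpace ℂ X) (hw : Orthonormal ℂ w) :
    ∃ U : EuclideanSpace ℂ X ≃ₗᵢ[ℂ] EuclideanSpace ℂ X, ∀ v, U v = Jw w v := by
  let L : EuclideanSpace ℂ X →ₗᵢ[ℂ] EuclideanSpace ℂ X :=
    { toLinearMap := (Jw w : EuclideanSpace ℂ X →ₗ[ℂ] EuclideanSpace ℂ X)
      norm_map' := fun v => norm_Jw hw v }
  exact ⟨L.toLinearIsometryEquiv rfl, fun v => rfl⟩

theorem chain_abstract : ∃ (η : OrthonormalBasis X ℂ (EuclideanSpace ℂ X)) (lam kap : X → ℂ),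
    (∀ v : EuclideanSpace ℂ X, ‖∑ y, ((C.φ y : ℂ) * v y) • EuclideanSpace.single y (1 : ℂ) -
        ∑ c, (lam c * ⟪η c, v⟫_ℂ) • η c‖ ≤ 4 * C.δ * ‖v‖) ∧
    (∀ v : EuclideanSpace ℂ X,
      ‖∑ y, ((1 - C.φ y : ℂ) * v y) • EuclideanSpace.single (C.τ y) (1 : ℂ) -
        ∑ c, (kap c * ⟪η c, v⟫_ℂ) • η c‖ ≤ 4 * C.δ * ‖v‖) := by
  have hWo := C.rot_orth C.θ C.θ_pr (fun y h => (C.θ_fix y h).1)
  have hKo := C.rot_orth C.θp C.θp_pr (fun y h => (C.θ_fix y h).2)
  obtain ⟨W, hW⟩ := exists_equiv _ hWo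
  obtain ⟨K, hK⟩ := exists_equiv _ hKo
  obtain ⟨T, hT⟩ := exists_equiv _ (orth_eb C.τ_inj)
  let F : EuclideanSpace ℂ X →L[ℂ] EuclideanSpace ℂ X := Jw (fun y => (C.φ' y : ℂ) • eb y)
  let P : EuclideanSpace ℂ X ≃ₗᵢ[ℂ] EuclideanSpace ℂ X := (K.trans T).trans W.symm
  have hFe : ∀ y, F (eb y) = (C.φ' y : ℂ) • eb y := fun y => Jw_single _ y
  have hWe : ∀ y, W (eb y) = C.rot C.θ y := fun y => by rw [hW]; exact Jw_single _ y
  have hKe : ∀ y, K (eb y) = C.rot C.θp y := fun y => by rw [hK]; exact Jw_single _ y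
  have hTe : ∀ y, T (eb y) = eb (C.τ y) := fun y => by rw [hT]; exact Jw_single _ y
  have hWP : ∀ v, W (P v) = T (K v) := fun v => by simp [P]
  -- `P` commutes with `F`
  have hPF : ∀ v, F (P v) = P (F v) := by
    have h0 : (F ∘L (P.toContinuousLinearEquiv : EuclideanSpace ℂ X →L[ℂ] EuclideanSpace ℂ X)) =
        ((P.toContinuousLinearEquiv : EuclideanSpace ℂ X →L[ℂ] EuclideanSpace ℂ X) ∘L F) := by
      apply ext_eb
      intro y
      show F (P (eb y)) = P (F (eb y))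
      obtain ⟨y', ε, h1, h2⟩ := C.key y
      have h3 : P (eb y) = ε • eb y' := by
        apply W.injective
        rw [hWP, hKe, map_smul, hWe]
        unfold rot
        rw [map_add, map_smul, map_smul, hTe, hTe]
        exact h2
      rw [h3, map_smul, hFe, hFe, map_smul, h3, h1, smul_comm]
    intro v
    exact congrArg (fun S : EuclideanSpace ℂ X →L[ℂ] EuclideanSpace ℂ X => S v) h0
  have hFsa : ∀ x y, ⟪F x, y⟫_ℂ = ⟪x, F y⟫_ℂ := by
    intro x y
    have hF : ∀ v, F v = ∑ z, (v z * (C.φ' z : ℂ)) • eb z := by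
      intro v
      show ∑ z, v z • ((C.φ' z : ℂ) • eb z) = _
      exact Finset.sum_congr rfl fun z _ => by rw [smul_smul]
    have hFz : ∀ v z, F v z = v z * (C.φ' z : ℂ) := by
      intro v z
      rw [hF]
      simp [Pi.single_apply]
    rw [PiLp.inner_apply, PiLp.inner_apply]
    refine Finset.sum_congr rfl fun z _ => ?_
    rw [hFz, hFz]
    simp
    ring
  have hPad : ∀ x y, ⟪P x, y⟫_ℂ = ⟪x, P.symm y⟫_ℂ := by
    intro x y
    rw [← P.symm.inner_map_map, P.symm_apply_apply]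
  obtain ⟨ζ, lam, mu, hζ⟩ := exists_joint (ι := X) (E := EuclideanSpace ℂ X) (by simp)
    (F : EuclideanSpace ℂ X →ₗ[ℂ] EuclideanSpace ℂ X)
    (P.toLinearEquiv : EuclideanSpace ℂ X →ₗ[ℂ] EuclideanSpace ℂ X)
    (P.symm.toLinearEquiv : EuclideanSpace ℂ X →ₗ[ℂ] EuclideanSpace ℂ X) hFsa hPad
    (fun x => by simp) hPF
  have hζF : ∀ c, F (ζ c) = lam c • ζ c := fun c => (hζ c).1
  have hζP : ∀ c, P (ζ c) = mu c • ζ c := fun c => (hζ c).2
  have hexp : ∀ v, v = ∑ c, ⟪ζ c, v⟫_ℂ • ζ c := fun v => (ζ.sum_repr' v).symm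
  refine ⟨ζ.map W, lam, fun c => mu c * (1 - lam c), ?_, ?_⟩
  · intro v
    obtain ⟨u, rfl⟩ := W.surjective v
    have e1 : ∑ c, (lam c * ⟪(ζ.map W) c, W u⟫_ℂ) • (ζ.map W) c = W (F u) := by
      conv_rhs => rw [hexp u]
      rw [map_sum, map_sum]
      refine Finset.sum_congr rfl fun c _ => ?_
      rw [OrthonormalBasis.map_apply, W.inner_map_map, map_smul, map_smul, hζF, map_smul,
        smul_smul, mul_comm]
    have e2 : ∑ y, ((C.φ y : ℂ) * W u y) • EuclideanSpace.single y (1 : ℂ) =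
        Jw (fun y => (C.φ y : ℂ) • eb y) (W u) := by
      rw [Jw_apply]
      exact Finset.sum_congr rfl fun y _ => by rw [smul_smul, mul_comm]
    have e3 : (Jw (fun y => (C.φ y : ℂ) • eb y)) (W u) - W (F u) =
        Jw (fun y => ((Real.cos (C.θ y) * (C.φ y - C.φ' y) : ℝ) : ℂ) • eb y +
          ((C.σ y * Real.sin (C.θ y) * (C.φ (C.pr y) - C.φ' y) : ℝ) : ℂ) • eb (C.pr y)) u := by
      have h0 : (Jw (fun y => (C.φ y : ℂ) • eb y)) ∘L
          (W.toContinuousLinearEquiv : EuclideanSpace ℂ X →L[ℂ] EuclideanSpace ℂ X) -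
          (W.toContinuousLinearEquiv : EuclideanSpace ℂ X →L[ℂ] EuclideanSpace ℂ X) ∘L F =
          Jw (fun y => ((Real.cos (C.θ y) * (C.φ y - C.φ' y) : ℝ) : ℂ) • eb y +
          ((C.σ y * Real.sin (C.θ y) * (C.φ (C.pr y) - C.φ' y) : ℝ) : ℂ) • eb (C.pr y)) := by
        apply ext_eb
        intro y
        show (Jw (fun y => (C.φ y : ℂ) • eb y)) (W (eb y)) - W (F (eb y)) = _
        rw [hFe, map_smul, hWe]
        conv_rhs => rw [Jw_single]
        unfold rot
        rw [map_add, map_smul, map_smul, Jw_single, Jw_single]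
        simp only [smul_add, smul_smul]
        push_cast
        module
      exact congrArg (fun S : EuclideanSpace ℂ X →L[ℂ] EuclideanSpace ℂ X => S u) h0
    rw [e1, e2, e3, W.norm_map]
    have hσ : ∀ y, |C.σ y| = 1 := fun y => by
      have := C.σ_sq y
      nlinarith [abs_nonneg (C.σ y), abs_mul_abs_self (C.σ y)]
    refine (C.norm_two _ _ C.δ0 (fun y => ?_) (fun y => ?_) u).trans ?_
    · rw [Complex.norm_real, Real.norm_eq_abs, abs_mul]
      calc _ ≤ 1 * C.δ := mul_le_mul (Real.abs_cos_le_one _) (C.h1 y) (abs_nonneg _) zero_le_one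
        _ = C.δ := one_mul _
    · rw [Complex.norm_real, Real.norm_eq_abs, abs_mul, abs_mul, hσ, one_mul]
      calc _ ≤ 1 * C.δ := mul_le_mul (Real.abs_sin_le_one _) (C.h2 y) (abs_nonneg _) zero_le_one
        _ = C.δ := one_mul _
    · have := norm_nonneg u
      have := C.δ0
      nlinarith [mul_nonneg C.δ0 (norm_nonneg u)]
  · intro v
    obtain ⟨u, rfl⟩ := W.surjective v
    have e1 : ∑ c, (mu c * (1 - lam c) * ⟪(ζ.map W) c, W u⟫_ℂ) • (ζ.map W) c =
        T (K (u - F u)) := by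
      rw [← hWP]
      conv_rhs => rw [hexp u]
      rw [map_sum, ← Finset.sum_sub_distrib, map_sum, map_sum]
      refine Finset.sum_congr rfl fun c _ => ?_
      rw [OrthonormalBasis.map_apply, W.inner_map_map, map_smul F, hζF, smul_smul, ← sub_smul,
        map_smul, map_smul, hζP, map_smul, smul_smul]
      congr 1; ring
    have e2 : ∑ y, ((1 - C.φ y : ℂ) * W u y) • EuclideanSpace.single (C.τ y) (1 : ℂ) =
        T (Jw (fun y => ((1 - C.φ y : ℝ) : ℂ) • eb y) (W u)) := by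
      rw [Jw_apply, map_sum]
      refine Finset.sum_congr rfl fun y _ => ?_
      rw [map_smul, map_smul, hTe, smul_smul]
      congr 1
      push_cast; ring
    have e3 : (Jw (fun y => ((1 - C.φ y : ℝ) : ℂ) • eb y)) (W u) - K (u - F u) =
        Jw (fun y => ((Real.cos (C.θ y) * (1 - C.φ y) - Real.cos (C.θp y) * (1 - C.φ' y) : ℝ) : ℂ)
          • eb y + ((C.σ y * (Real.sin (C.θ y) * (1 - C.φ (C.pr y)) -
            Real.sin (C.θp y) * (1 - C.φ' y)) : ℝ) : ℂ) • eb (C.pr y)) u := by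
      have h0 : (Jw (fun y => ((1 - C.φ y : ℝ) : ℂ) • eb y)) ∘L
          (W.toContinuousLinearEquiv : EuclideanSpace ℂ X →L[ℂ] EuclideanSpace ℂ X) -
          (K.toContinuousLinearEquiv : EuclideanSpace ℂ X →L[ℂ] EuclideanSpace ℂ X) ∘L
            (ContinuousLinearMap.id ℂ _ - F) =
          Jw (fun y => ((Real.cos (C.θ y) * (1 - C.φ y) -
            Real.cos (C.θp y) * (1 - C.φ' y) : ℝ) : ℂ)
          • eb y + ((C.σ y * (Real.sin (C.θ y) * (1 - C.φ (C.pr y)) -
            Real.sin (C.θp y) * (1 - C.φ' y)) : ℝ) : ℂ) • eb (C.pr y)) := by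
        apply ext_eb
        intro y
        show (Jw (fun y => ((1 - C.φ y : ℝ) : ℂ) • eb y)) (W (eb y)) - K (eb y - F (eb y)) = _
        rw [hFe, map_sub, map_smul, hWe, hKe]
        conv_rhs => rw [Jw_single]
        unfold rot
        rw [map_add, map_smul, map_smul, Jw_single, Jw_single]
        simp only [smul_add, smul_smul]
        push_cast
        module
      exact congrArg (fun S : EuclideanSpace ℂ X →L[ℂ] EuclideanSpace ℂ X => S u) h0
    rw [e1, e2, ← map_sub, T.norm_map, e3, W.norm_map]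
    have hσ : ∀ y, |C.σ y| = 1 := fun y => by
      have := C.σ_sq y
      nlinarith [abs_nonneg (C.σ y), abs_mul_abs_self (C.σ y)]
    have hgen : ∀ (p q r s : ℝ), |p| ≤ 1 → |r - s| ≤ C.δ → |p - q| ≤ C.δ → |1 - s| ≤ 1 →
        |p * (1 - r) - q * (1 - s)| ≤ 2 * C.δ := by
      intro p q r s h1 h2 h3 h4
      have : p * (1 - r) - q * (1 - s) = p * (s - r) + (p - q) * (1 - s) := by ring
      rw [this]
      calc _ ≤ |p * (s - r)| + |(p - q) * (1 - s)| := abs_add_le _ _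
        _ = |p| * |r - s| + |p - q| * |1 - s| := by rw [abs_mul, abs_mul, abs_sub_comm s r]
        _ ≤ 1 * C.δ + C.δ * 1 := add_le_add
            (mul_le_mul h1 h2 (abs_nonneg _) zero_le_one)
            (mul_le_mul h3 h4 (abs_nonneg _) C.δ0)
        _ = 2 * C.δ := by ring
    refine (C.norm_two _ _ (d := 2 * C.δ) (by have := C.δ0; positivity) (fun y => ?_)
      (fun y => ?_) u).trans ?_
    · rw [Complex.norm_real, Real.norm_eq_abs]
      exact hgen _ _ _ _ (Real.abs_cos_le_one _) (C.h1 y) (C.h3 y) (C.h5 y)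
    · rw [Complex.norm_real, Real.norm_eq_abs, abs_mul, hσ, one_mul]
      exact hgen _ _ _ _ (Real.abs_sin_le_one _) (C.h2 y) (C.h4 y) (C.h5 y)
    · apply le_of_eq; ring

end CD

end

end Run7.h836
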