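import Mathlib
import Pool.Agent.Run7.h836.P5b

set_option autoImplicit false

/-!
The concrete chain.
-/

open scoped Topology InnerProductSpace
open Filter

namespace Run7.h836

/-- parameters -/
structure Par where
  a : ℕ
  b : ℕ
  R : ℕ
  P : ℕ
  NA : ℕ
  NB : ℕ
  hR : 1 ≤ R
  hP : P = 2 * R
  ha : P ≤ a
  hb : P ≤ b
  hNA : NA = a * R
  hNB : NB = b * R

namespace Par
variable (p : Par)

theorem a_pos : 0 < p.a := by have := p.ha; have := p.hP; have := p.hR; omega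
theorem b_pos : 0 < p.b := by have := p.hb; have := p.hP; have := p.hR; omega
theorem P_pos : 0 < p.P := by have := p.hP; have := p.hR; omega
theorem NA_pos : 0 < p.NA := by rw [p.hNA]; exact Nat.mul_pos p.a_pos p.hR
theorem NB_pos : 0 < p.NB := by rw [p.hNB]; exact Nat.mul_pos p.b_pos p.hR

/-- index set -/
abbrev XP : Type := Fin p.NA ⊕ Fin p.NB

def tau : p.XP → p.XP
  | .inl l => if h : (l : ℕ) + 1 < p.NA then .inl ⟨l + 1, h⟩
      else .inr ⟨p.NB - 1, by have := p.NB_pos; omega⟩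
  | .inr l => if (l : ℕ) = 0 then .inl ⟨0, p.NA_pos⟩
      else .inr ⟨l - 1, by have := l.2; omega⟩

theorem tau_inj : Function.Injective p.tau := by
  have hA := p.NA_pos
  have hB := p.NB_pos
  rintro (⟨l, hl⟩ | ⟨l, hl⟩) (⟨l', hl'⟩ | ⟨l', hl'⟩) h <;> simp only [tau] at h <;>
    split_ifs at h <;> simp at h ⊢ <;> omega

def A (r q : ℕ) : p.XP := .inl ⟨(p.a * r + q) % p.NA, Nat.mod_lt _ p.NA_pos⟩
def B (r q : ℕ) : p.XP := .inr ⟨(p.b * r + q) % p.NB, Nat.mod_lt _ p.NB_pos⟩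

theorem ltA {r q : ℕ} (hr : r < p.R) (hq : q < p.a) : p.a * r + q < p.NA := by
  rw [p.hNA]
  calc _ < p.a * r + p.a := by omega
    _ = p.a * (r + 1) := by ring
    _ ≤ p.a * p.R := Nat.mul_le_mul_left _ hr

theorem ltB {r q : ℕ} (hr : r < p.R) (hq : q < p.b) : p.b * r + q < p.NB := by
  rw [p.hNB]
  calc _ < p.b * r + p.b := by omega
    _ = p.b * (r + 1) := by ring
    _ ≤ p.b * p.R := Nat.mul_le_mul_left _ hr

theorem A_eq {r q : ℕ} (hr : r < p.R) (hq : q < p.a) : p.A r q = .inl ⟨p.a * r + q, p.ltA hr hq⟩ := by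
  unfold A; simp only [Nat.mod_eq_of_lt (p.ltA hr hq)]

theorem B_eq {r q : ℕ} (hr : r < p.R) (hq : q < p.b) : p.B r q = .inr ⟨p.b * r + q, p.ltB hr hq⟩ := by
  unfold B; simp only [Nat.mod_eq_of_lt (p.ltB hr hq)]

theorem cover (y : p.XP) : (∃ r q, r < p.R ∧ q < p.a ∧ y = p.A r q) ∨
    (∃ r q, r < p.R ∧ q < p.b ∧ y = p.B r q) := by
  rcases y with ⟨l, hl⟩ | ⟨l, hl⟩
  · left
    have h1 : l / p.a < p.R := Nat.div_lt_of_lt_mul (by rw [← p.hNA]; exact hl)
    have h2 : l % p.a < p.a := Nat.mod_lt _ p.a_pos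
    refine ⟨l / p.a, l % p.a, h1, h2, ?_⟩
    rw [p.A_eq h1 h2]
    simp only [Nat.div_add_mod]
  · right
    have h1 : l / p.b < p.R := Nat.div_lt_of_lt_mul (by rw [← p.hNB]; exact hl)
    have h2 : l % p.b < p.b := Nat.mod_lt _ p.b_pos
    refine ⟨l / p.b, l % p.b, h1, h2, ?_⟩
    rw [p.B_eq h1 h2]
    simp only [Nat.div_add_mod]

/-- a function given in coordinates -/
def co {Z : Type} (f g : ℕ → ℕ → Z) (y : p.XP) : Z :=
  Sum.elim (fun l : Fin p.NA => f ((l : ℕ) / p.a) ((l : ℕ) % p.a))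
    (fun l : Fin p.NB => g ((l : ℕ) / p.b) ((l : ℕ) % p.b)) y

theorem co_A {Z : Type} (f g : ℕ → ℕ → Z) {r q : ℕ} (hr : r < p.R) (hq : q < p.a) :
    p.co f g (p.A r q) = f r q := by
  rw [p.A_eq hr hq]
  simp only [co, Sum.elim_inl]
  rw [Nat.mul_add_div p.a_pos, Nat.mul_add_mod, Nat.div_eq_of_lt hq, Nat.mod_eq_of_lt hq, add_zero]

theorem co_B {Z : Type} (f g : ℕ → ℕ → Z) {r q : ℕ} (hr : r < p.R) (hq : q < p.b) :
    p.co f g (p.B r q) = g r q := by
  rw [p.B_eq hr hq]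
  simp only [co, Sum.elim_inr]
  rw [Nat.mul_add_div p.b_pos, Nat.mul_add_mod, Nat.div_eq_of_lt hq, Nat.mod_eq_of_lt hq, add_zero]

noncomputable def kap : ℝ := Real.pi / (2 * p.P)

noncomputable def th : p.XP → ℝ := p.co (fun _ q => ((q - (p.a - p.P) : ℕ) : ℝ) * p.kap)
  (fun _ q => if p.b - p.P ≤ q then ((p.b - 1 - q : ℕ) : ℝ) * p.kap else 0)
noncomputable def thp : p.XP → ℝ := p.co
  (fun _ q => if p.a - p.P ≤ q then ((q - (p.a - p.P) + 1 : ℕ) : ℝ) * p.kap else 0)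
  (fun _ q => if p.b - p.P ≤ q then ((p.b - 1 - q + 1 : ℕ) : ℝ) * p.kap else 0)
def pr : p.XP → p.XP := p.co
  (fun r q => if p.a - p.P ≤ q then p.B r (p.b - 1 - (q - (p.a - p.P))) else p.A r q)
  (fun r q => if p.b - p.P ≤ q then p.A r ((p.a - p.P) + (p.b - 1 - q)) else p.B r q)
noncomputable def sg : p.XP → ℝ := p.co (fun _ _ => 1) (fun _ _ => -1)
noncomputable def ph' : p.XP → ℝ := p.co (fun r _ => (r : ℝ) / p.R)
  (fun r q => if p.b - p.P ≤ q then ((r + 1 : ℕ) : ℝ) / p.R else (r : ℝ) / p.R)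
noncomputable def ph : p.XP → ℝ
  | .inl l => (l : ℕ) / ((p.NA : ℝ) - 1)
  | .inr l => (l : ℕ) / ((p.NB : ℝ) - 1)

/-- the paired elements -/
def PA (r j : ℕ) : p.XP := p.A r ((p.a - p.P) + j)
def PB (r j : ℕ) : p.XP := p.B r (p.b - 1 - j)

theorem cases4 (y : p.XP) :
    (∃ r q, r < p.R ∧ q < p.a - p.P ∧ y = p.A r q) ∨
    (∃ r q, r < p.R ∧ q < p.b - p.P ∧ y = p.B r q) ∨
    (∃ r j, r < p.R ∧ j < p.P ∧ y = p.PA r j) ∨
    (∃ r j, r < p.R ∧ j < p.P ∧ y = p.PB r j) := by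
  have ha := p.ha
  have hb := p.hb
  have hP := p.P_pos
  rcases p.cover y with ⟨r, q, hr, hq, rfl⟩ | ⟨r, q, hr, hq, rfl⟩
  · by_cases h : q < p.a - p.P
    · exact .inl ⟨r, q, hr, h, rfl⟩
    · refine .inr (.inr (.inl ⟨r, q - (p.a - p.P), hr, by omega, ?_⟩))
      unfold PA
      congr 1; omega
  · by_cases h : q < p.b - p.P
    · exact .inr (.inl ⟨r, q, hr, h, rfl⟩)
    · refine .inr (.inr (.inr ⟨r, p.b - 1 - q, hr, by omega, ?_⟩))
      unfold PB
      congr 1; omega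

section eval
variable {p} {r q j : ℕ} 

theorem ltPA (hj : j < p.P) : p.a - p.P + j < p.a := by have := p.ha; omega
theorem ltPB (_hj : j < p.P) : p.b - 1 - j < p.b := by have := p.b_pos; omega
theorem gePB (hj : j < p.P) : p.b - p.P ≤ p.b - 1 - j := by have := p.hb; omega

theorem pr_A (hr : r < p.R) (hq : q < p.a - p.P) : p.pr (p.A r q) = p.A r q := by
  unfold pr; rw [p.co_A _ _ hr (by omega), if_neg (by omega)]
theorem pr_B (hr : r < p.R) (hq : q < p.b - p.P) : p.pr (p.B r q) = p.B r q := by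
  unfold pr; rw [p.co_B _ _ hr (by omega), if_neg (by omega)]
theorem pr_PA (hr : r < p.R) (hj : j < p.P) : p.pr (p.PA r j) = p.PB r j := by
  unfold pr PA PB
  rw [p.co_A _ _ hr (ltPA hj), if_pos (by omega)]
  congr 1; omega
theorem pr_PB (hr : r < p.R) (hj : j < p.P) : p.pr (p.PB r j) = p.PA r j := by
  unfold pr PA PB
  rw [p.co_B _ _ hr (ltPB hj), if_pos (gePB hj)]
  congr 1; have := p.hb; omega

theorem th_A (hr : r < p.R) (hq : q ≤ p.a - p.P) : p.th (p.A r q) = 0 := by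
  have := p.ha; have := p.P_pos
  unfold th; rw [p.co_A _ _ hr (by omega)]
  have : q - (p.a - p.P) = 0 := by omega
  rw [this]; simp
theorem th_B (hr : r < p.R) (hq : q < p.b - p.P) : p.th (p.B r q) = 0 := by
  unfold th; rw [p.co_B _ _ hr (by omega), if_neg (by omega)]
theorem th_PA (hr : r < p.R) (hj : j < p.P) : p.th (p.PA r j) = j * p.kap := by
  unfold th PA; rw [p.co_A _ _ hr (ltPA hj)]
  congr 2; omega
theorem th_PB (hr : r < p.R) (hj : j < p.P) : p.th (p.PB r j) = j * p.kap := by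
  unfold th PB; rw [p.co_B _ _ hr (ltPB hj), if_pos (gePB hj)]
  congr 2; have := p.hb; omega

theorem thp_A (hr : r < p.R) (hq : q < p.a - p.P) : p.thp (p.A r q) = 0 := by
  unfold thp; rw [p.co_A _ _ hr (by omega), if_neg (by omega)]
theorem thp_B (hr : r < p.R) (hq : q < p.b - p.P) : p.thp (p.B r q) = 0 := by
  unfold thp; rw [p.co_B _ _ hr (by omega), if_neg (by omega)]
theorem thp_PA (hr : r < p.R) (hj : j < p.P) : p.thp (p.PA r j) = ((j + 1 : ℕ) : ℝ) * p.kap := by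
  unfold thp PA; rw [p.co_A _ _ hr (ltPA hj), if_pos (by omega)]
  congr 3; omega
theorem thp_PB (hr : r < p.R) (hj : j < p.P) : p.thp (p.PB r j) = ((j + 1 : ℕ) : ℝ) * p.kap := by
  unfold thp PB; rw [p.co_B _ _ hr (ltPB hj), if_pos (gePB hj)]
  congr 3; have := p.hb; omega

theorem sg_A (hr : r < p.R) (hq : q < p.a) : p.sg (p.A r q) = 1 := by
  unfold sg; rw [p.co_A _ _ hr hq]
theorem sg_B (hr : r < p.R) (hq : q < p.b) : p.sg (p.B r q) = -1 := by
  unfold sg; rw [p.co_B _ _ hr hq]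
theorem sg_PA (hr : r < p.R) (hj : j < p.P) : p.sg (p.PA r j) = 1 := sg_A hr (ltPA hj)
theorem sg_PB (hr : r < p.R) (hj : j < p.P) : p.sg (p.PB r j) = -1 := sg_B hr (ltPB hj)

theorem ph'_A (hr : r < p.R) (hq : q < p.a) : p.ph' (p.A r q) = (r : ℝ) / p.R := by
  unfold ph'; rw [p.co_A _ _ hr hq]
theorem ph'_PA (hr : r < p.R) (hj : j < p.P) : p.ph' (p.PA r j) = (r : ℝ) / p.R := ph'_A hr (ltPA hj)
theorem ph'_B (hr : r < p.R) (hq : q < p.b - p.P) : p.ph' (p.B r q) = (r : ℝ) / p.R := by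
  unfold ph'; rw [p.co_B _ _ hr (by omega), if_neg (by omega)]
theorem ph'_PB (hr : r < p.R) (hj : j < p.P) :
    p.ph' (p.PB r j) = ((r + 1 : ℕ) : ℝ) / p.R := by
  unfold ph' PB; rw [p.co_B _ _ hr (ltPB hj), if_pos (gePB hj)]

theorem tau_A (hr : r < p.R) (hq : q + 1 < p.a) : p.tau (p.A r q) = p.A r (q + 1) := by
  have h := p.ltA hr hq
  rw [p.A_eq hr (by omega), p.A_eq hr hq]
  simp only [tau]
  rw [dif_pos (by omega)]
  simp only [Sum.inl.injEq, Fin.mk.injEq]; omega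

theorem tau_A' (hr : r + 1 < p.R) (hq : q + 1 = p.a) : p.tau (p.A r q) = p.A (r + 1) 0 := by
  have h := p.ltA hr (q := 0) p.a_pos
  have h1 : p.a * (r + 1) = p.a * r + p.a := by ring
  rw [p.A_eq (by omega) (by omega), p.A_eq hr p.a_pos]
  simp only [tau]
  rw [dif_pos (by omega)]
  simp only [Sum.inl.injEq, Fin.mk.injEq]; omega

theorem tau_A'' (hr : r + 1 = p.R) (hq : q + 1 = p.a) :
    p.tau (p.A r q) = p.B r (p.b - 1) := by
  have hb := p.b_pos
  have h1 : p.a * (r + 1) = p.a * r + p.a := by ring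
  have h2 : p.b * (r + 1) = p.b * r + p.b := by ring
  have h3 : p.NA = p.a * r + p.a := by rw [p.hNA, ← hr, h1]
  have h4 : p.NB = p.b * r + p.b := by rw [p.hNB, ← hr, h2]
  rw [p.A_eq (by omega) (by omega), p.B_eq (by omega) (by omega)]
  simp only [tau]
  rw [dif_neg (by omega)]
  simp only [Sum.inr.injEq, Fin.mk.injEq]; omega

theorem tau_B (hr : r < p.R) (hq : q + 1 < p.b) : p.tau (p.B r (q + 1)) = p.B r q := by
  rw [p.B_eq hr hq, p.B_eq hr (by omega)]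
  simp only [tau]
  rw [if_neg (by omega)]
  simp only [Sum.inr.injEq, Fin.mk.injEq]; omega

theorem tau_B' (hr : r + 1 < p.R) : p.tau (p.B (r + 1) 0) = p.B r (p.b - 1) := by
  have hb := p.b_pos
  have h1 : p.b * (r + 1) = p.b * r + p.b := by ring
  rw [p.B_eq hr hb, p.B_eq (by omega) (by omega)]
  simp only [tau]
  rw [if_neg (by omega)]
  simp only [Sum.inr.injEq, Fin.mk.injEq]; omega

theorem tau_B'' (hr : 0 < p.R) : p.tau (p.B 0 0) = p.A 0 0 := by
  have hb := p.b_pos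
  rw [p.B_eq hr hb, p.A_eq hr p.a_pos]
  simp only [tau]
  rw [if_pos (by omega)]
  simp only [Sum.inl.injEq, Fin.mk.injEq]; omega

theorem PB_zero : p.PB r 0 = p.B r (p.b - 1) := rfl
theorem PA_zero : p.PA r 0 = p.A r (p.a - p.P) := rfl

end eval

end Par

end Run7.h836
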