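import Mathlib
import Pool.Agent.Run7.h836.P5c

set_option autoImplicit false

/-!
The concrete chain satisfies the axioms.
-/

open scoped Topology InnerProductSpace
open Filter

namespace Run7.h836
namespace Par
variable (p : Par)

theorem Rpos : (0 : ℝ) < p.R := by exact_mod_cast p.hR

theorem kap_pos : 0 < p.kap := by
  unfold kap
  have := p.P_pos
  have : (0 : ℝ) < p.P := by exact_mod_cast this
  have := Real.pi_pos
  positivity

theorem kap_le : p.kap ≤ 1 / p.R := by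
  unfold kap
  rw [p.hP]
  push_cast
  have h := p.Rpos
  rw [div_le_div_iff₀ (by positivity) h]
  have := Real.pi_le_four
  nlinarith

theorem P_kap : (p.P : ℝ) * p.kap = Real.pi / 2 := by
  unfold kap
  have := p.P_pos
  have : (0 : ℝ) < p.P := by exact_mod_cast this
  field_simp

/-- the key relation -/
def Key (y : p.XP) : Prop := ∃ (y' : p.XP) (ε : ℂ), p.ph' y' = p.ph' y ∧
    (Real.cos (p.thp y) : ℂ) • eb (p.tau y) +
      ((p.sg y * Real.sin (p.thp y) : ℝ) : ℂ) • eb (p.tau (p.pr y)) =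
      ε • ((Real.cos (p.th y') : ℂ) • eb y' +
        ((p.sg y' * Real.sin (p.th y') : ℝ) : ℂ) • eb (p.pr y'))

variable {p}

theorem keyX {y : p.XP} (h1 : p.thp y = 0) (h2 : p.th (p.tau y) = 0)
    (h3 : p.ph' (p.tau y) = p.ph' y) : p.Key y :=
  ⟨p.tau y, 1, h3, by rw [h1, h2]; simp⟩

theorem keyY {y : p.XP} (h1 : p.thp y = Real.pi / 2) (h2 : p.th (p.tau (p.pr y)) = 0)
    (h3 : p.ph' (p.tau (p.pr y)) = p.ph' y) : p.Key y :=
  ⟨p.tau (p.pr y), (p.sg y : ℂ), h3, by rw [h1, h2]; simp⟩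

theorem keyZ {y y' : p.XP} (h1 : p.tau y = y') (h2 : p.th y' = p.thp y)
    (h3 : p.ph' y' = p.ph' y) (h4 : p.tau (p.pr y) = p.pr y') (h5 : p.sg y' = p.sg y) : p.Key y :=
  ⟨y', 1, h3, by rw [h1, h2, h4, h5]; simp⟩

theorem tau_B_gen {r q : ℕ} (hr : r < p.R) (hq : q ≤ p.b - p.P) :
    p.th (p.tau (p.B r q)) = 0 ∧ p.ph' (p.tau (p.B r q)) = (r : ℝ) / p.R := by
  have hP := p.P_pos
  have hb := p.hb
  rcases q with _ | q
  · rcases r with _ | r
    · rw [tau_B'' hr]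
      exact ⟨th_A hr (by omega), ph'_A hr p.a_pos⟩
    · rw [tau_B' hr]
      have h1 := th_PB (r := r) (by omega) hP
      have h2 := ph'_PB (r := r) (by omega) hP
      rw [PB_zero] at h1 h2
      exact ⟨by rw [h1]; simp, h2⟩
  · rw [tau_B hr (by omega)]
    exact ⟨th_B hr (by omega), ph'_B hr (by omega)⟩

theorem key_all (y : p.XP) : p.Key y := by
  have hP := p.P_pos
  have ha := p.ha
  have hb := p.hb
  rcases p.cases4 y with ⟨r, q, hr, hq, rfl⟩ | ⟨r, q, hr, hq, rfl⟩ | ⟨r, j, hr, hj, rfl⟩ |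
    ⟨r, j, hr, hj, rfl⟩
  · refine keyX (thp_A hr hq) ?_ ?_
    · rw [tau_A hr (by omega)]; exact th_A hr (by omega)
    · rw [tau_A hr (by omega), ph'_A hr (by omega), ph'_A hr (by omega)]
  · have h := tau_B_gen (p := p) hr hq.le
    exact keyX (thp_B hr hq) h.1 (by rw [h.2, ph'_B hr hq])
  · by_cases h : j + 1 < p.P
    · refine keyZ (y' := p.PA r (j + 1)) ?_ ?_ ?_ ?_ ?_
      · unfold PA; rw [tau_A hr (by omega), add_assoc]
      · rw [th_PA hr h, thp_PA hr hj]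
      · rw [ph'_PA hr h, ph'_PA hr hj]
      · rw [pr_PA hr hj, pr_PA hr h]
        unfold PB
        have : p.b - 1 - j = (p.b - 1 - (j + 1)) + 1 := by omega
        rw [this, tau_B hr (by omega)]
      · rw [sg_PA hr h, sg_PA hr hj]
    · have hj' : j + 1 = p.P := by omega
      have h1 : p.pr (p.PA r j) = p.B r (p.b - p.P) := by
        rw [pr_PA hr hj]; unfold PB; congr 1; omega
      have h2 := tau_B_gen (p := p) (r := r) (q := p.b - p.P) hr le_rfl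
      refine keyY ?_ ?_ ?_
      · rw [thp_PA hr hj, hj', p.P_kap]
      · rw [h1]; exact h2.1
      · rw [h1, h2.2, ph'_PA hr hj]
  · by_cases h : j + 1 < p.P
    · refine keyZ (y' := p.PB r (j + 1)) ?_ ?_ ?_ ?_ ?_
      · unfold PB
        have : p.b - 1 - j = (p.b - 1 - (j + 1)) + 1 := by omega
        rw [this, tau_B hr (by omega)]
      · rw [th_PB hr h, thp_PB hr hj]
      · rw [ph'_PB hr h, ph'_PB hr hj]
      · rw [pr_PB hr hj, pr_PB hr h]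
        unfold PA; rw [tau_A hr (by omega), add_assoc]
      · rw [sg_PB hr h, sg_PB hr hj]
    · have hj' : j + 1 = p.P := by omega
      have h1 : p.pr (p.PB r j) = p.A r (p.a - 1) := by
        rw [pr_PB hr hj]; unfold PA; congr 1; omega
      have haa : p.a - 1 + 1 = p.a := by omega
      refine keyY ?_ ?_ ?_
      · rw [thp_PB hr hj, hj', p.P_kap]
      · rw [h1]
        by_cases h3 : r + 1 < p.R
        · rw [tau_A' h3 haa]; exact th_A h3 (by omega)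
        · rw [tau_A'' (by omega) haa, ← PB_zero, th_PB hr hP]; simp
      · rw [h1, ph'_PB hr hj]
        by_cases h3 : r + 1 < p.R
        · rw [tau_A' h3 haa]; exact ph'_A h3 (by omega)
        · rw [tau_A'' (by omega) haa, ← PB_zero, ph'_PB hr hP]

/-- the row interval -/
theorem row_bound (N a R r q : ℕ) (hN : N = a * R) (hN2 : 2 ≤ N) (hr : r < R) (hq : q < a) :
    (r : ℝ) / R ≤ ((a * r + q : ℕ) : ℝ) / ((N : ℝ) - 1) ∧
      ((a * r + q : ℕ) : ℝ) / ((N : ℝ) - 1) ≤ ((r + 1 : ℕ) : ℝ) / R := by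
  have hR : (0 : ℝ) < R := by
    have : 0 < R := by omega
    exact_mod_cast this
  have hN1 : (0 : ℝ) < (N : ℝ) - 1 := by
    have : (2 : ℝ) ≤ N := by exact_mod_cast hN2
    linarith
  have h1 : (r : ℝ) + 1 ≤ R := by exact_mod_cast hr
  have h2 : (q : ℝ) + 1 ≤ a := by exact_mod_cast hq
  have h3 : (N : ℝ) = a * R := by exact_mod_cast hN
  have hr0 : (0 : ℝ) ≤ r := Nat.cast_nonneg _
  have hq0 : (0 : ℝ) ≤ q := Nat.cast_nonneg _
  constructor
  · rw [div_le_div_iff₀ hR hN1, h3]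
    push_cast
    nlinarith
  · rw [div_le_div_iff₀ hN1 hR, h3]
    push_cast
    nlinarith

theorem ph_A {r q : ℕ} (h2 : 2 ≤ p.NA) (hr : r < p.R) (hq : q < p.a) :
    (r : ℝ) / p.R ≤ p.ph (p.A r q) ∧ p.ph (p.A r q) ≤ ((r + 1 : ℕ) : ℝ) / p.R := by
  rw [p.A_eq hr hq]
  exact row_bound p.NA p.a p.R r q p.hNA h2 hr hq

theorem ph_B {r q : ℕ} (h2 : 2 ≤ p.NB) (hr : r < p.R) (hq : q < p.b) :
    (r : ℝ) / p.R ≤ p.ph (p.B r q) ∧ p.ph (p.B r q) ≤ ((r + 1 : ℕ) : ℝ) / p.R := by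
  rw [p.B_eq hr hq]
  exact row_bound p.NB p.b p.R r q p.hNB h2 hr hq

theorem two_le_NA (p : Par) : 2 ≤ p.NA := by
  have := p.ha; have := p.hP; have := p.hR
  rw [p.hNA]; nlinarith

theorem two_le_NB (p : Par) : 2 ≤ p.NB := by
  have := p.hb; have := p.hP; have := p.hR
  rw [p.hNB]; nlinarith

theorem close {x y u : ℝ} {r : ℕ} (h1 : (r : ℝ) / p.R ≤ x ∧ x ≤ ((r + 1 : ℕ) : ℝ) / p.R)
    (h2 : (r : ℝ) / p.R ≤ y ∧ y ≤ ((r + 1 : ℕ) : ℝ) / p.R) (hu : u = 1 / p.R) :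
    |x - y| ≤ u := by
  have hR := p.Rpos
  have h3 : ((r + 1 : ℕ) : ℝ) / p.R = (r : ℝ) / p.R + 1 / p.R := by push_cast; ring
  rw [h3] at h1 h2
  rw [abs_le, hu]
  constructor <;> linarith [h1.1, h1.2, h2.1, h2.2]

theorem low_mem (p : Par) (r : ℕ) :
    (r : ℝ) / p.R ≤ (r : ℝ) / p.R ∧ (r : ℝ) / p.R ≤ ((r + 1 : ℕ) : ℝ) / p.R := by
  have hR := p.Rpos
  refine ⟨le_rfl, ?_⟩
  gcongr
  omega

theorem high_mem (p : Par) (r : ℕ) :
    (r : ℝ) / p.R ≤ ((r + 1 : ℕ) : ℝ) / p.R ∧ ((r + 1 : ℕ) : ℝ) / p.R ≤ ((r + 1 : ℕ) : ℝ) / p.R := by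
  have hR := p.Rpos
  refine ⟨?_, le_rfl⟩
  gcongr
  omega

theorem ph_PA {r j : ℕ} (hr : r < p.R) (hj : j < p.P) :
    (r : ℝ) / p.R ≤ p.ph (p.PA r j) ∧ p.ph (p.PA r j) ≤ ((r + 1 : ℕ) : ℝ) / p.R :=
  ph_A p.two_le_NA hr (ltPA hj)
theorem ph_PB {r j : ℕ} (hr : r < p.R) (hj : j < p.P) :
    (r : ℝ) / p.R ≤ p.ph (p.PB r j) ∧ p.ph (p.PB r j) ≤ ((r + 1 : ℕ) : ℝ) / p.R :=
  ph_B p.two_le_NB hr (ltPB hj)

theorem th_close (y : p.XP) : |p.th y - p.thp y| ≤ 1 / p.R := by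
  have h0 := p.Rpos
  have hk := p.kap_pos
  have hk' := p.kap_le
  have hP := p.P_pos
  have ha := p.ha
  rcases p.cases4 y with ⟨r, q, hr, hq, rfl⟩ | ⟨r, q, hr, hq, rfl⟩ | ⟨r, j, hr, hj, rfl⟩ |
    ⟨r, j, hr, hj, rfl⟩
  · rw [th_A hr hq.le, thp_A hr hq]; simp
  · rw [th_B hr hq, thp_B hr hq]; simp
  · rw [th_PA hr hj, thp_PA hr hj]
    have : (j : ℝ) * p.kap - ((j + 1 : ℕ) : ℝ) * p.kap = - p.kap := by push_cast; ring
    rw [this, abs_neg, abs_of_pos hk]; exact hk'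
  · rw [th_PB hr hj, thp_PB hr hj]
    have : (j : ℝ) * p.kap - ((j + 1 : ℕ) : ℝ) * p.kap = - p.kap := by push_cast; ring
    rw [this, abs_neg, abs_of_pos hk]; exact hk'

/-- the chain data -/
noncomputable def toCD (p : Par) : CD p.XP where
  τ := p.tau
  pr := p.pr
  θ := p.th
  θp := p.thp
  σ := p.sg
  φ := p.ph
  φ' := p.ph'
  δ := 1 / p.R
  τ_inj := p.tau_inj
  pr_pr y := by
    rcases p.cases4 y with ⟨r, q, hr, hq, rfl⟩ | ⟨r, q, hr, hq, rfl⟩ | ⟨r, j, hr, hj, rfl⟩ |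
      ⟨r, j, hr, hj, rfl⟩
    · rw [pr_A hr hq, pr_A hr hq]
    · rw [pr_B hr hq, pr_B hr hq]
    · rw [pr_PA hr hj, pr_PB hr hj]
    · rw [pr_PB hr hj, pr_PA hr hj]
  θ_pr y := by
    rcases p.cases4 y with ⟨r, q, hr, hq, rfl⟩ | ⟨r, q, hr, hq, rfl⟩ | ⟨r, j, hr, hj, rfl⟩ |
      ⟨r, j, hr, hj, rfl⟩
    · rw [pr_A hr hq]
    · rw [pr_B hr hq]
    · rw [pr_PA hr hj, th_PA hr hj, th_PB hr hj]
    · rw [pr_PB hr hj, th_PA hr hj, th_PB hr hj]
  θp_pr y := by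
    rcases p.cases4 y with ⟨r, q, hr, hq, rfl⟩ | ⟨r, q, hr, hq, rfl⟩ | ⟨r, j, hr, hj, rfl⟩ |
      ⟨r, j, hr, hj, rfl⟩
    · rw [pr_A hr hq]
    · rw [pr_B hr hq]
    · rw [pr_PA hr hj, thp_PA hr hj, thp_PB hr hj]
    · rw [pr_PB hr hj, thp_PA hr hj, thp_PB hr hj]
  σ_sq y := by
    rcases p.cover y with ⟨r, q, hr, hq, rfl⟩ | ⟨r, q, hr, hq, rfl⟩
    · rw [sg_A hr hq]; norm_num
    · rw [sg_B hr hq]; norm_num
  σ_pr y h := by
    rcases p.cases4 y with ⟨r, q, hr, hq, rfl⟩ | ⟨r, q, hr, hq, rfl⟩ | ⟨r, j, hr, hj, rfl⟩ |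
      ⟨r, j, hr, hj, rfl⟩
    · exact absurd (pr_A hr hq) h
    · exact absurd (pr_B hr hq) h
    · rw [pr_PA hr hj, sg_PA hr hj, sg_PB hr hj]
    · rw [pr_PB hr hj, sg_PA hr hj, sg_PB hr hj]; norm_num
  θ_fix y h := by
    have ha := p.ha
    rcases p.cases4 y with ⟨r, q, hr, hq, rfl⟩ | ⟨r, q, hr, hq, rfl⟩ | ⟨r, j, hr, hj, rfl⟩ |
      ⟨r, j, hr, hj, rfl⟩
    · exact ⟨th_A hr hq.le, thp_A hr hq⟩
    · exact ⟨th_B hr hq, thp_B hr hq⟩
    · rw [pr_PA hr hj] at h; simp [PA, PB, A, B] at h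
    · rw [pr_PB hr hj] at h; simp [PA, PB, A, B] at h
  key y := key_all y
  δ0 := by have := p.Rpos; positivity
  h1 y := by
    have ha := p.ha
    have hb := p.hb
    have hP := p.P_pos
    rcases p.cases4 y with ⟨r, q, hr, hq, rfl⟩ | ⟨r, q, hr, hq, rfl⟩ | ⟨r, j, hr, hj, rfl⟩ |
      ⟨r, j, hr, hj, rfl⟩
    · rw [ph'_A hr (by omega)]
      exact close (ph_A p.two_le_NA hr (by omega)) (p.low_mem r) rfl
    · rw [ph'_B hr hq]
      exact close (ph_B p.two_le_NB hr (by omega)) (p.low_mem r) rfl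
    · rw [ph'_PA hr hj]
      exact close (ph_PA hr hj) (p.low_mem r) rfl
    · rw [ph'_PB hr hj]
      exact close (ph_PB hr hj) (p.high_mem r) rfl
  h2 y := by
    have ha := p.ha
    have hb := p.hb
    have hP := p.P_pos
    rcases p.cases4 y with ⟨r, q, hr, hq, rfl⟩ | ⟨r, q, hr, hq, rfl⟩ | ⟨r, j, hr, hj, rfl⟩ |
      ⟨r, j, hr, hj, rfl⟩
    · rw [pr_A hr hq, ph'_A hr (by omega)]
      exact close (ph_A p.two_le_NA hr (by omega)) (p.low_mem r) rfl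
    · rw [pr_B hr hq, ph'_B hr hq]
      exact close (ph_B p.two_le_NB hr (by omega)) (p.low_mem r) rfl
    · rw [pr_PA hr hj, ph'_PA hr hj]
      exact close (ph_PB hr hj) (p.low_mem r) rfl
    · rw [pr_PB hr hj, ph'_PB hr hj]
      exact close (ph_PA hr hj) (p.high_mem r) rfl
  h3 y := (Real.abs_cos_sub_cos_le _ _).trans (th_close y)
  h4 y := (Real.abs_sin_sub_sin_le _ _).trans (th_close y)
  h5 y := by
    have ha := p.ha
    have hb := p.hb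
    have hP := p.P_pos
    have h0 := p.Rpos
    have hgen : ∀ s : ℕ, s ≤ p.R → |1 - (s : ℝ) / p.R| ≤ 1 := by
      intro s hs
      have h1 : (s : ℝ) ≤ p.R := by exact_mod_cast hs
      have h2 : (s : ℝ) / p.R ≤ 1 := by rw [div_le_one h0]; exact h1
      have h3 : 0 ≤ (s : ℝ) / p.R := by positivity
      rw [abs_le]; constructor <;> linarith
    rcases p.cases4 y with ⟨r, q, hr, hq, rfl⟩ | ⟨r, q, hr, hq, rfl⟩ | ⟨r, j, hr, hj, rfl⟩ |
      ⟨r, j, hr, hj, rfl⟩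
    · rw [ph'_A hr (by omega)]; exact hgen r hr.le
    · rw [ph'_B hr hq]; exact hgen r hr.le
    · rw [ph'_PA hr hj]; exact hgen r hr.le
    · rw [ph'_PB hr hj]; exact hgen (r + 1) hr

end Par

end Run7.h836
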