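import Mathlib
import Pool.Agent.Run7.h836.P5d

set_option autoImplicit false

open scoped Topology InnerProductSpace
open Filter

namespace Run7.h836

/-- Index set of the chain model: an `A`-chain of length `2·4^n'` and a `B`-chain of length
`2·4^n`. -/
abbrev XX (n n' : ℕ) : Type := Fin (2 * 4 ^ n') ⊕ Fin (2 * 4 ^ n)

/-- the weight of the `a`-th element of a chain of length `2·4^n` -/
noncomputable def wt (n a : ℕ) : ℝ := (a : ℝ) / (2 * 4 ^ n - 1)

noncomputable def phX (n n' : ℕ) : XX n n' → ℝ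
  | .inl l => wt n' l
  | .inr l => wt n l

/-- `A_l ↦ A_{l+1}`, last `A` ↦ last `B`, `B_l ↦ B_{l-1}`, `B_0 ↦ A_0` -/
def tauX (n n' : ℕ) : XX n n' → XX n n'
  | .inl l => if h : (l : ℕ) + 1 < 2 * 4 ^ n' then .inl ⟨l + 1, h⟩
      else .inr ⟨2 * 4 ^ n - 1, by have : 0 < 4 ^ n := by positivity
                                   omega⟩
  | .inr l => if (l : ℕ) = 0 then .inl ⟨0, by positivity⟩
      else .inr ⟨l - 1, by have := l.2; omega⟩

/-- the parameters of the chain -/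
def parX (n n' : ℕ) : Par where
  a := 2 * 2 ^ (2 * n' - min n n')
  b := 2 * 2 ^ (2 * n - min n n')
  R := 2 ^ (min n n')
  P := 2 * 2 ^ (min n n')
  NA := 2 * 4 ^ n'
  NB := 2 * 4 ^ n
  hR := Nat.one_le_two_pow
  hP := rfl
  ha := Nat.mul_le_mul_left 2 (Nat.pow_le_pow_right (by norm_num) (by omega))
  hb := Nat.mul_le_mul_left 2 (Nat.pow_le_pow_right (by norm_num) (by omega))
  hNA := by
    rw [mul_assoc, ← pow_add, show 4 = 2 ^ 2 by norm_num, ← pow_mul]
    congr 2; omega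
  hNB := by
    rw [mul_assoc, ← pow_add, show 4 = 2 ^ 2 by norm_num, ← pow_mul]
    congr 2; omega

/-- PIECE 5 (Berg's technique for the chain). -/
theorem chain_approx : ∃ C : ℝ, 0 ≤ C ∧ ∀ n n' : ℕ,
    ∃ (η : OrthonormalBasis (XX n n') ℂ (EuclideanSpace ℂ (XX n n'))) (lam kap : XX n n' → ℂ),
      (∀ v : EuclideanSpace ℂ (XX n n'),
        ‖∑ X, ((phX n n' X : ℂ) * v X) • EuclideanSpace.single X (1 : ℂ) -
          ∑ c, (lam c * ⟪η c, v⟫_ℂ) • η c‖ ≤ C / 2 ^ (min n n') * ‖v‖) ∧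
      (∀ v : EuclideanSpace ℂ (XX n n'),
        ‖∑ X, ((1 - phX n n' X : ℂ) * v X) • EuclideanSpace.single (tauX n n' X) (1 : ℂ) -
          ∑ c, (kap c * ⟪η c, v⟫_ℂ) • η c‖ ≤ C / 2 ^ (min n n') * ‖v‖) := by
  refine ⟨4, by norm_num, fun n n' => ?_⟩
  obtain ⟨η, lam, kap, h1, h2⟩ := (parX n n').toCD.chain_abstract
  have hφ : ∀ X : XX n n', (parX n n').toCD.φ X = phX n n' X := by
    rintro (l | l)
    · show ((l : ℕ) : ℝ) / (((2 * 4 ^ n' : ℕ) : ℝ) - 1) = (l : ℝ) / (2 * 4 ^ n' - 1)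
      push_cast; rfl
    · show ((l : ℕ) : ℝ) / (((2 * 4 ^ n : ℕ) : ℝ) - 1) = (l : ℝ) / (2 * 4 ^ n - 1)
      push_cast; rfl
  have hτ : ∀ X : XX n n', (parX n n').toCD.τ X = tauX n n' X := by
    rintro (l | l)
    · rfl
    · rfl
  have hδ : 4 * (parX n n').toCD.δ = 4 / 2 ^ (min n n') := by
    show 4 * (1 / ((2 ^ (min n n') : ℕ) : ℝ)) = _
    push_cast; ring
  refine ⟨η, lam, kap, fun v => ?_, fun v => ?_⟩
  · have := h1 v
    rw [hδ] at this
    refine le_trans (le_of_eq ?_) this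
    congr 1
    congr 1
    exact Finset.sum_congr rfl fun X _ => by rw [← hφ X]; rfl
  · have := h2 v
    rw [hδ] at this
    refine le_trans (le_of_eq ?_) this
    congr 1
    congr 1
    exact Finset.sum_congr rfl fun X _ => by rw [← hφ X, ← hτ X]; rfl

end Run7.h836
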