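import Mathlib
import Pool.Agent.Run7.h836.Pop
import Pool.Agent.Run7.h836.P5

set_option autoImplicit false

/-!
The operators attached to a graded graph.
-/

open scoped Topology InnerProductSpace
open Filter

namespace Run7.h836

universe u v

/-- graded graph data: level, bound on the number of children, marked vertices, children -/
structure GD (V : Type) where
  lev : V → ℕ
  bd : V → ℕ
  bt : V → Bool
  ch : V → ℕ → Option V

structure GD.Good {V : Type} (G : GD V) : Prop where
  ch_bd : ∀ x i, G.bd x ≤ i → G.ch x i = none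
  lev_ch : ∀ x i x', G.ch x i = some x' → G.lev x' = G.lev x + 1
  fin_lev : ∀ k, {x | G.lev x = k}.Finite

/-- side (`true` = plus half), part (`true` = `q`), position -/
abbrev T3 : Type := Bool × Bool × ℕ

/-- start vertex, path, copy, (side, part, position) -/
abbrev Om (V : Type) : Type := V × List ℕ × Option ℕ × T3

namespace GD

variable {V : Type} (G : GD V)

/-- end of the path `l` starting at `x` -/
def endp : V → List ℕ → Option V
  | x, [] => some x
  | x, i :: l => (G.ch x i).bind fun x' => endp x' l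

@[simp] theorem endp_nil (x : V) : G.endp x [] = some x := rfl

theorem endp_cons (x : V) (i : ℕ) (l : List ℕ) :
    G.endp x (i :: l) = (G.ch x i).bind fun x' => G.endp x' l := rfl

theorem endp_append (x : V) (l l' : List ℕ) :
    G.endp x (l ++ l') = (G.endp x l).bind fun x' => G.endp x' l' := by
  induction l generalizing x with
  | nil => simp
  | cons i l ih =>
    simp only [List.cons_append, endp_cons]
    cases G.ch x i with
    | none => rfl
    | some x' => simpa using ih x'

/-- size exponent of the half with end `e` and copy `o` -/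
def ex (e : V) (o : Option ℕ) : ℕ := G.lev e + o.getD 0

/-- size exponent -/
def nn (ω : Om V) : ℕ := (G.endp ω.1 ω.2.1).elim 0 fun e => G.ex e ω.2.2.1

end GD

/-- dimension of the part `s` of the half of side `side` of exponent `n` -/
def dimS : Bool → Bool → ℕ → ℕ
  | false, false, n => 2 * 4 ^ n
  | false, true, n => 2 * 4 ^ n + 1
  | true, false, n => 2 * 4 ^ n
  | true, true, n => 2 * 4 ^ n - 1

/-- chain position -/
def idx : T3 → ℕ
  | (false, false, a) => a
  | (false, true, a) => a - 1
  | (true, false, a) => a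
  | (true, true, a) => a + 1

/-- valid basis vectors -/
def GD.Valid {V : Type} (G : GD V) (ω : Om V) : Prop :=
  ∃ e, G.endp ω.1 ω.2.1 = some e ∧ (ω.2.2.1 = none → G.bt e = true ∧ ω.2.2.2.1 = false) ∧
    ω.2.2.2.2.2 < dimS ω.2.2.2.1 ω.2.2.2.2.1 (G.ex e ω.2.2.1)

/-- `f`-weight -/
noncomputable def GD.fw {V : Type} (G : GD V) (ω : Om V) : ℝ := wt (G.nn ω) (idx ω.2.2.2)

theorem wt_nonneg (n a : ℕ) : 0 ≤ wt n a := by
  have : (1 : ℝ) ≤ 4 ^ n := one_le_pow₀ (by norm_num)
  unfold wt
  apply div_nonneg (by positivity)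
  linarith

theorem wt_le_one {n a : ℕ} (h : a < 2 * 4 ^ n) : wt n a ≤ 1 := by
  have h1 : (1 : ℝ) ≤ 4 ^ n := one_le_pow₀ (by norm_num)
  unfold wt
  rw [div_le_one (by linarith)]
  have h2 : ((a + 1 : ℕ) : ℝ) ≤ ((2 * 4 ^ n : ℕ) : ℝ) := by exact_mod_cast h
  push_cast at h2
  linarith

theorem GD.Valid.idx_lt {V : Type} {G : GD V} {ω : Om V} (h : G.Valid ω) :
    idx ω.2.2.2 < 2 * 4 ^ (G.nn ω) := by
  obtain ⟨x, l, o, side, s, a⟩ := ω
  obtain ⟨e, he, -, ha⟩ := h
  simp only at he ha ⊢
  have hn : G.nn (x, l, o, side, s, a) = G.ex e o := by simp [GD.nn, he]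
  rw [hn]
  have : 0 < 4 ^ G.ex e o := by positivity
  cases side <;> cases s <;> simp only [dimS, idx] at ha ⊢ <;> omega

theorem GD.fw_nonneg {V : Type} (G : GD V) (ω : Om V) : 0 ≤ G.fw ω := wt_nonneg _ _

theorem GD.Valid.fw_le {V : Type} {G : GD V} {ω : Om V} (h : G.Valid ω) : G.fw ω ≤ 1 :=
  wt_le_one h.idx_lt

/-- the partial bijection of `t₁`: `A_l^p ↦ A_l^q`, `B_l^p ↦ B_l^q` -/
def s1 : T3 ≃. T3 where
  toFun
    | (false, false, a) => some (false, true, a + 1)
    | (true, false, a + 1) => some (true, true, a)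
    | _ => none
  invFun
    | (false, true, a + 1) => some (false, false, a)
    | (true, true, a) => some (true, false, a + 1)
    | _ => none
  inv := by
    rintro ⟨_ | _, _ | _, _ | a⟩ ⟨_ | _, _ | _, _ | a'⟩ <;> simp [eq_comm]

/-- the partial bijection of `t₂`: `A_l^p ↦ A_{l+1}^q`, `B_l^p ↦ B_{l-1}^q` -/
def s2 : T3 ≃. T3 where
  toFun
    | (false, false, a) => some (false, true, a)
    | (true, false, a) => some (true, true, a)
    | _ => none
  invFun
    | (false, true, a) => some (false, false, a)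
    | (true, true, a) => some (true, false, a)
    | _ => none
  inv := by
    rintro ⟨_ | _, _ | _, a⟩ ⟨_ | _, _ | _, a'⟩ <;> simp [eq_comm]

/-- the bijection of `w` between the `p` part and the `q` part of a minus half together with a
plus half of the same size -/
def sw : T3 ≃. T3 where
  toFun
    | (false, false, a) => some (false, true, a + 1)
    | (true, false, a + 1) => some (true, true, a)
    | (true, false, 0) => some (false, true, 0)
    | _ => none
  invFun
    | (false, true, a + 1) => some (false, false, a)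
    | (true, true, a) => some (true, false, a + 1)
    | (false, true, 0) => some (true, false, 0)
    | _ => none
  inv := by
    rintro ⟨_ | _, _ | _, _ | a⟩ ⟨_ | _, _ | _, _ | a'⟩ <;> simp [eq_comm]

/-- a partial bijection of slots acting on the basis -/
def liftS {V : Type} (e : T3 ≃. T3) : Om V ≃. Om V where
  toFun ω := (e ω.2.2.2).map fun r => (ω.1, ω.2.1, ω.2.2.1, r)
  invFun ω := (e.symm ω.2.2.2).map fun r => (ω.1, ω.2.1, ω.2.2.1, r)
  inv := by
    rintro ⟨x, l, o, r⟩ ⟨x', l', o', r'⟩
    simp only [Option.mem_def, Option.map_eq_some_iff, Prod.mk.injEq]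
    constructor
    · rintro ⟨r2, h1, rfl, rfl, rfl, rfl⟩
      exact ⟨r', (PEquiv.eq_some_iff e).1 h1, rfl, rfl, rfl, rfl⟩
    · rintro ⟨r2, h1, rfl, rfl, rfl, rfl⟩
      exact ⟨r, (PEquiv.eq_some_iff e).2 h1, rfl, rfl, rfl, rfl⟩

open Classical in
/-- the partial bijection adding the step `i` from `x` in front of the path -/
noncomputable def consE {V : Type} (G : GD V) (x : V) (i : ℕ) : Om V ≃. Om V where
  toFun ω := if G.ch x i = some ω.1 then some (x, i :: ω.2.1, ω.2.2) else none
  invFun ω := if ω.1 = x ∧ ω.2.1.head? = some i then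
      (G.ch x i).map (fun x' => (x', ω.2.1.tail, ω.2.2)) else none
  inv := by
    rintro ⟨y, l, r⟩ ⟨y', l', r'⟩
    simp only [Option.mem_def]
    constructor
    · intro h
      split_ifs at h with h1
      obtain ⟨rfl, h2⟩ := h1
      rcases l' with _ | ⟨j, l'⟩
      · simp at h2
      · simp only [List.head?_cons, Option.some.injEq] at h2
        subst h2
        simp only [List.tail_cons, Option.map_eq_some_iff, Prod.mk.injEq] at h
        obtain ⟨x', h3, rfl, rfl, rfl⟩ := h
        simp [h3]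
    · intro h
      split_ifs at h with h1
      simp only [Option.some.injEq, Prod.mk.injEq] at h
      obtain ⟨rfl, rfl, rfl⟩ := h
      simp [h1]

/-- names of the generators -/
inductive Gen (V : Type) : Type
  | mu (ω' ω : Om V)
  | E (x : V) (s : Bool)
  | F (x : V)
  | T1 (x : V)
  | T2 (x : V)
  | S (x : V) (i : ℕ)
  | W (x : V)

section
variable {V : Type} {H : Type u} [NormedAddCommGroup H] [InnerProductSpace ℂ H]

/-- diagonal operator -/
noncomputable def dop {Ω : Type v} (b : HilbertBasis Ω ℂ H) (c : Ω → ℂ) : H →L[ℂ] H :=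
  pop b (PEquiv.refl Ω) c

theorem dop_basis {Ω : Type v} (b : HilbertBasis Ω ℂ H) {c : Ω → ℂ} (h : Bdd c) (ω : Ω) :
    dop b c (b ω) = c ω • b ω := by
  rw [dop, pop_basis b _ h]; rfl

open Classical in
noncomputable def cE (G : GD V) (x : V) (s : Bool) (ω : Om V) : ℂ :=
  if G.Valid ω ∧ ω.1 = x ∧ ω.2.2.2.2.1 = s then 1 else 0

open Classical in
noncomputable def cF (G : GD V) (x : V) (ω : Om V) : ℂ :=
  if G.Valid ω ∧ ω.1 = x then (G.fw ω : ℂ) else 0

open Classical in
noncomputable def cT2 (G : GD V) (x : V) (ω : Om V) : ℂ :=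
  if G.Valid ω ∧ ω.1 = x then ((1 - G.fw ω : ℝ) : ℂ) else 0

open Classical in
noncomputable def cS (G : GD V) (ω : Om V) : ℂ := if G.Valid ω then 1 else 0

open Classical in
noncomputable def cW (G : GD V) (x : V) (ω : Om V) : ℂ :=
  if G.Valid ω ∧ ω.1 = x ∧ ω.2.1 = [] ∧ ω.2.2.1 ≠ none then 1 else 0

open Classical in
/-- the generators -/
noncomputable def gen (G : GD V) (b : HilbertBasis (Om V) ℂ H) : Gen V → (H →L[ℂ] H)
  | .mu ω' ω => if G.Valid ω' ∧ G.Valid ω then mu b ω' ω else 0
  | .E x s => dop b (cE G x s)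
  | .F x => dop b (cF G x)
  | .T1 x => pop b (liftS s1) (cF G x)
  | .T2 x => pop b (liftS s2) (cT2 G x)
  | .S x i => pop b (consE G x i) (cS G)
  | .W x => pop b (liftS sw) (cW G x)

theorem cE_le (G : GD V) (x : V) (s : Bool) (ω : Om V) : ‖cE G x s ω‖ ≤ 1 := by
  unfold cE; split_ifs <;> simp
theorem cF_le (G : GD V) (x : V) (ω : Om V) : ‖cF G x ω‖ ≤ 1 := by
  unfold cF; split_ifs with h
  · rw [Complex.norm_real, Real.norm_eq_abs, abs_of_nonneg (G.fw_nonneg ω)]; exact h.1.fw_le
  · simp
theorem cT2_le (G : GD V) (x : V) (ω : Om V) : ‖cT2 G x ω‖ ≤ 1 := by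
  unfold cT2; split_ifs with h
  · have := G.fw_nonneg ω
    have := h.1.fw_le
    rw [Complex.norm_real, Real.norm_eq_abs, abs_of_nonneg (by linarith)]
    linarith
  · simp
theorem cS_le (G : GD V) (ω : Om V) : ‖cS G ω‖ ≤ 1 := by
  unfold cS; split_ifs <;> simp
theorem cW_le (G : GD V) (x : V) (ω : Om V) : ‖cW G x ω‖ ≤ 1 := by
  unfold cW; split_ifs <;> simp

theorem bE (G : GD V) (x : V) (s : Bool) : Bdd (cE G x s) := ⟨1, zero_le_one, cE_le G x s⟩
theorem bF (G : GD V) (x : V) : Bdd (cF G x) := ⟨1, zero_le_one, cF_le G x⟩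
theorem bT2 (G : GD V) (x : V) : Bdd (cT2 G x) := ⟨1, zero_le_one, cT2_le G x⟩
theorem bS (G : GD V) : Bdd (cS G) := ⟨1, zero_le_one, cS_le G⟩
theorem bW (G : GD V) (x : V) : Bdd (cW G x) := ⟨1, zero_le_one, cW_le G x⟩

theorem gen_norm_le (G : GD V) (b : HilbertBasis (Om V) ℂ H) (g : Gen V) : ‖gen G b g‖ ≤ 1 := by
  cases g with
  | mu ω' ω =>
    simp only [gen]
    split_ifs
    · rw [norm_mu]
    · simp
  | E x s => exact pop_norm_le b _ zero_le_one (cE_le G x s)
  | F x => exact pop_norm_le b _ zero_le_one (cF_le G x)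
  | T1 x => exact pop_norm_le b _ zero_le_one (cF_le G x)
  | T2 x => exact pop_norm_le b _ zero_le_one (cT2_le G x)
  | S x i => exact pop_norm_le b _ zero_le_one (cS_le G)
  | W x => exact pop_norm_le b _ zero_le_one (cW_le G x)

variable [CompleteSpace H]

/-- the C*-algebra of the graph -/
noncomputable def AG (G : GD V) (b : HilbertBasis (Om V) ℂ H) :
    NonUnitalStarSubalgebra ℂ (H →L[ℂ] H) :=
  (NonUnitalStarAlgebra.adjoin ℂ (Set.range (gen G b))).topologicalClosure

instance (G : GD V) (b : HilbertBasis (Om V) ℂ H) :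
    IsClosed (AG G b : Set (H →L[ℂ] H)) :=
  NonUnitalStarSubalgebra.isClosed_topologicalClosure _

theorem gen_mem (G : GD V) (b : HilbertBasis (Om V) ℂ H) (g : Gen V) : gen G b g ∈ AG G b :=
  NonUnitalStarSubalgebra.le_topologicalClosure _
    (NonUnitalStarAlgebra.subset_adjoin ℂ _ ⟨g, rfl⟩)

end

end Run7.h836
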