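import Mathlib
import Pool.Agent.Run7.h836.Alg

set_option autoImplicit false

open scoped Topology InnerProductSpace
open Filter

namespace Run7.h836

universe u v

variable {V : Type} {G : GD V}

theorem GD.Good.lev_endp (hG : G.Good) {x e : V} {l : List ℕ} (h : G.endp x l = some e) :
    G.lev e = G.lev x + l.length := by
  induction l generalizing x with
  | nil => simp only [GD.endp_nil, Option.some.injEq] at h; subst h; simp
  | cons i l ih =>
    rw [GD.endp_cons] at h
    rcases h1 : G.ch x i with _ | x'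
    · rw [h1] at h; simp at h
    · rw [h1] at h
      simp only [Option.bind_some] at h
      rw [ih h, hG.lev_ch x i x' h1, List.length_cons]
      omega

theorem GD.Good.finite_lev (hG : G.Good) (K : ℕ) : {x | G.lev x ≤ K}.Finite := by
  have : {x | G.lev x ≤ K} = ⋃ k ∈ Finset.range (K + 1), {x | G.lev x = k} := by
    ext x; simp [Nat.lt_succ_iff]
  rw [this]
  exact Set.Finite.biUnion (Finset.finite_toSet _) fun k _ => hG.fin_lev k

theorem GD.Good.finite_paths_aux (hG : G.Good) (K m : ℕ) :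
    {p : V × List ℕ | p.2.length = m ∧ ∃ e, G.endp p.1 p.2 = some e ∧ G.lev e ≤ K}.Finite := by
  induction m with
  | zero =>
    refine Set.Finite.subset ((hG.finite_lev K).image fun x => (x, ([] : List ℕ))) ?_
    rintro ⟨x, l⟩ ⟨hl, e, he, hK⟩
    simp only [List.length_eq_zero_iff] at hl
    subst hl
    simp only [GD.endp_nil, Option.some.injEq] at he
    subst he
    exact ⟨x, hK, rfl⟩
  | succ m ih =>
    have h1 : (⋃ x ∈ {x | G.lev x ≤ K}, ⋃ i ∈ {i | i < G.bd x}, (fun p : V × List ℕ =>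
        (x, i :: p.2)) '' {p : V × List ℕ | p.2.length = m ∧ ∃ e, G.endp p.1 p.2 = some e ∧
          G.lev e ≤ K}).Finite :=
      Set.Finite.biUnion (hG.finite_lev K) fun x _ =>
        Set.Finite.biUnion (Set.finite_lt_nat _) fun i _ => ih.image _
    refine h1.subset ?_
    rintro ⟨x, l⟩ ⟨hl, e, he, hK⟩
    rcases l with _ | ⟨i, l⟩
    · simp at hl
    · simp only [List.length_cons, Nat.add_right_cancel_iff] at hl
      simp only at he
      have hlev := hG.lev_endp he
      rw [GD.endp_cons] at he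
      rcases h2 : G.ch x i with _ | x'
      · rw [h2] at he; simp at he
      · rw [h2] at he
        simp only [Option.bind_some] at he
        have hi : i < G.bd x := by
          by_contra hcon
          rw [hG.ch_bd x i (by omega)] at h2
          cases h2
        simp only [Set.mem_iUnion]
        exact ⟨x, by simp only [Set.mem_ofPred_eq]; omega, i, hi, (x', l), ⟨hl, e, he, hK⟩, rfl⟩

theorem GD.Good.finite_paths (hG : G.Good) (K : ℕ) :
    {p : V × List ℕ | ∃ e, G.endp p.1 p.2 = some e ∧ G.lev e ≤ K}.Finite := by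
  have h1 : (⋃ m ∈ {m | m < K + 1}, {p : V × List ℕ | p.2.length = m ∧ ∃ e,
      G.endp p.1 p.2 = some e ∧ G.lev e ≤ K}).Finite :=
    Set.Finite.biUnion (Set.finite_lt_nat _) fun m _ => hG.finite_paths_aux K m
  refine h1.subset ?_
  rintro ⟨x, l⟩ ⟨e, he, hK⟩
  have := hG.lev_endp he
  simp only [Set.mem_iUnion]
  exact ⟨l.length, by simp only [Set.mem_ofPred_eq]; simp only at this; omega, rfl, e, he, hK⟩

theorem dimS_le (side s : Bool) (n : ℕ) : dimS side s n ≤ 2 * 4 ^ n + 1 := by
  cases side <;> cases s <;> simp only [dimS] <;> omega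

theorem finite_T3 (K : ℕ) : {r : T3 | r.2.2 < K}.Finite := by
  have : {r : T3 | r.2.2 < K} ⊆ (Set.univ : Set Bool) ×ˢ ((Set.univ : Set Bool) ×ˢ {a | a < K}) := by
    rintro ⟨a, c, d⟩ h
    simpa using h
  exact Set.Finite.subset (Set.finite_univ.prod (Set.finite_univ.prod (Set.finite_lt_nat K))) this

theorem finite_opt (K : ℕ) : {o : Option ℕ | o.getD 0 ≤ K}.Finite := by
  have : {o : Option ℕ | o.getD 0 ≤ K} ⊆ insert none (some '' {i | i < K + 1}) := by
    rintro (_ | i) h
    · simp
    · simp only [Option.getD_some, Set.mem_ofPred_eq] at h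
      right
      exact ⟨i, by simp only [Set.mem_ofPred_eq]; omega, rfl⟩
  exact Set.Finite.subset (((Set.finite_lt_nat _).image _).insert _) this

theorem GD.Good.finite_valid (hG : G.Good) (K : ℕ) : {ω : Om V | G.Valid ω ∧ G.nn ω ≤ K}.Finite := by
  have h1 : ((fun q : (V × List ℕ) × Option ℕ × T3 => ((q.1.1, q.1.2, q.2.1, q.2.2) : Om V)) ''
      ({p : V × List ℕ | ∃ e, G.endp p.1 p.2 = some e ∧ G.lev e ≤ K} ×ˢ
        ({o : Option ℕ | o.getD 0 ≤ K} ×ˢ {r : T3 | r.2.2 < 2 * 4 ^ K + 1}))).Finite :=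
    ((hG.finite_paths K).prod ((finite_opt K).prod (finite_T3 _))).image _
  refine h1.subset ?_
  rintro ⟨x, l, o, side, s, a⟩ ⟨⟨e, he, ho, ha⟩, hn⟩
  simp only at he ho ha
  have hn' : G.ex e o ≤ K := by
    simpa [GD.nn, he] using hn
  refine ⟨((x, l), o, side, s, a), ⟨⟨e, he, ?_⟩, ?_, ?_⟩, rfl⟩
  · unfold GD.ex at hn'; omega
  · show o.getD 0 ≤ K
    unfold GD.ex at hn'; omega
  · show a < 2 * 4 ^ K + 1
    have h2 := dimS_le side s (G.ex e o)
    have h3 : 4 ^ G.ex e o ≤ 4 ^ K := Nat.pow_le_pow_right (by norm_num) hn'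
    omega

end Run7.h836
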