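import Mathlib
import Pool.Agent.Run7.h836.Fin

set_option autoImplicit false

open scoped Topology InnerProductSpace
open Filter

namespace Run7.h836

universe u v

section general
variable {Ω : Type v} {H : Type u} [NormedAddCommGroup H] [InnerProductSpace ℂ H]
  (b : HilbertBasis Ω ℂ H)

theorem mulA (S T : H →L[ℂ] H) (x : H) : (S * T) x = S (T x) := rfl

theorem Bdd.mul {c c' : Ω → ℂ} (h : Bdd c) (h' : Bdd c') : Bdd (fun ω => c ω * c' ω) := by
  obtain ⟨C, hC0, hC⟩ := h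
  obtain ⟨C', hC0', hC'⟩ := h'
  exact ⟨C * C', by positivity, fun ω => by
    rw [norm_mul]; exact mul_le_mul (hC ω) (hC' ω) (norm_nonneg _) hC0⟩

theorem Bdd.star {c : Ω → ℂ} (h : Bdd c) : Bdd (fun ω => star (c ω)) := by
  obtain ⟨C, hC0, hC⟩ := h
  exact ⟨C, hC0, fun ω => by simpa using hC ω⟩

theorem Bdd.elim {c : Ω → ℂ} (h : Bdd c) (e : Ω → Option Ω) :
    Bdd (fun ω => (e ω).elim 0 (fun ω' => c ω')) := by
  obtain ⟨C, hC0, hC⟩ := h
  refine ⟨C, hC0, fun ω => ?_⟩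
  rcases h1 : e ω with _ | ω'
  · simpa [h1] using hC0
  · simpa [h1] using hC ω'

theorem Bdd.elim' {c : Ω → ℂ} (h : Bdd c) (e : Ω → Option Ω) :
    Bdd (fun ω => (e ω).elim 0 (fun _ => c ω)) := by
  obtain ⟨C, hC0, hC⟩ := h
  refine ⟨C, hC0, fun ω => ?_⟩
  rcases h1 : e ω with _ | ω'
  · simpa [h1] using hC0
  · simpa [h1] using hC ω

theorem dop_mul {c c' : Ω → ℂ} (h : Bdd c) (h' : Bdd c') :
    dop b c * dop b c' = dop b (fun ω => c ω * c' ω) := by
  apply ext_basis b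
  intro ω
  rw [mulA, dop_basis b h', dop_basis b (h.mul h'), map_smul,
    dop_basis b h, smul_smul, mul_comm]

theorem dop_sub {c c' : Ω → ℂ} (h : Bdd c) (h' : Bdd c') :
    dop b c - dop b c' = dop b (fun ω => c ω - c' ω) := pop_sub b _ h h'

theorem pop_congr {e : Ω ≃. Ω} {c c' : Ω → ℂ} (h : ∀ ω ω', e ω = some ω' → c ω = c' ω)
    (hb : Bdd c) (hb' : Bdd c') : pop b e c = pop b e c' := by
  apply ext_basis b
  intro ω
  rw [pop_basis b e hb, pop_basis b e hb']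
  rcases h1 : e ω with _ | ω'
  · rfl
  · simp [h ω ω' h1]

variable [CompleteSpace H]

theorem star_dop {c : Ω → ℂ} (h : Bdd c) : star (dop b c) = dop b (fun ω => star (c ω)) := by
  apply ext_basis b
  intro ω
  rw [dop, star_pop_basis b _ h, dop_basis b h.star]
  rfl

theorem dop_isSelfAdjoint {c : Ω → ℂ} (h : Bdd c) (hr : ∀ ω, star (c ω) = c ω) :
    IsSelfAdjoint (dop b c) := by
  rw [IsSelfAdjoint, star_dop b h]
  congr 1
  funext ω
  exact hr ω

theorem dop_isStarProjection {c : Ω → ℂ} (hr : ∀ ω, c ω = 0 ∨ c ω = 1) :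
    IsStarProjection (dop b c) := by
  have h : Bdd c := ⟨1, zero_le_one, fun ω => by rcases hr ω with h | h <;> simp [h]⟩
  constructor
  · rw [IsIdempotentElem, dop_mul b h h]
    congr 1
    funext ω
    rcases hr ω with h | h <;> simp [h]
  · exact dop_isSelfAdjoint b h fun ω => by rcases hr ω with h | h <;> simp [h]

theorem star_pop_mul_self (e : Ω ≃. Ω) {c : Ω → ℂ} (h : Bdd c) :
    star (pop b e c) * pop b e c = dop b (fun ω => (e ω).elim 0 (fun _ => star (c ω) * c ω)) := by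
  apply ext_basis b
  intro ω
  have h2 : Bdd (fun ω => (e ω).elim 0 (fun _ => star (c ω) * c ω)) := (h.star.mul h).elim' _
  rw [mulA, pop_basis b e h, dop_basis b h2]
  rcases h1 : e ω with _ | ω'
  · simp
  · simp only [Option.elim_some, map_smul]
    rw [star_pop_basis b e h, (PEquiv.eq_some_iff e).2 h1]
    simp [smul_smul, mul_comm]

theorem pop_mul_star_self (e : Ω ≃. Ω) {c : Ω → ℂ} (h : Bdd c) :
    pop b e c * star (pop b e c) =
      dop b (fun ω' => (e.symm ω').elim 0 (fun ω => c ω * star (c ω))) := by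
  apply ext_basis b
  intro ω
  have h2 : Bdd (fun ω' => (e.symm ω').elim 0 (fun ω => c ω * star (c ω))) :=
    (h.mul h.star).elim _
  rw [mulA, star_pop_basis b e h, dop_basis b h2]
  rcases h1 : e.symm ω with _ | ω'
  · simp
  · simp only [Option.elim_some, map_smul]
    rw [pop_basis b e h, (PEquiv.eq_some_iff e).1 h1]
    simp [smul_smul, mul_comm]

theorem star_pop_compact (e : Ω ≃. Ω) {c : Ω → ℂ} (hb : Bdd c)
    (hfin : ∀ ε : ℝ, 0 < ε → {ω | ε ≤ ‖c ω‖}.Finite) : IsCompactOperator (star (pop b e c) : H →L[ℂ] H) := by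
  rw [star_pop b e hb]
  apply pop_compact b _ (hb.symm e)
  intro ε hε
  have h1 : ((⋃ ω ∈ {ω | ε ≤ ‖c ω‖}, {ω' | e ω = some ω'}) : Set Ω).Finite := by
    refine Set.Finite.biUnion (hfin ε hε) fun ω _ => ?_
    apply Set.Subsingleton.finite
    intro a ha a' ha'
    simp only [Set.mem_ofPred_eq] at ha ha'
    rw [ha] at ha'
    exact Option.some_injective _ ha'
  refine h1.subset ?_
  intro ω' hω'
  simp only [Set.mem_ofPred_eq] at hω'
  rcases h2 : e.symm ω' with _ | ω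
  · rw [h2] at hω'; simp at hω'; linarith
  · rw [h2] at hω'
    simp only [Option.elim_some, norm_star] at hω'
    simp only [Set.mem_iUnion]
    exact ⟨ω, hω', (PEquiv.eq_some_iff e).1 h2⟩

omit [CompleteSpace H] in
theorem dop_mul_pop_sub (e : Ω ≃. Ω) {c d : Ω → ℂ} (hc : Bdd c) (hd : Bdd d) :
    dop b d * pop b e c - pop b e c * dop b d =
      pop b e (fun ω => (e ω).elim 0 (fun ω' => (d ω' - d ω) * c ω)) := by
  have hB : Bdd (fun ω => (e ω).elim 0 (fun ω' => (d ω' - d ω) * c ω)) := by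
    obtain ⟨C, hC0, hC⟩ := hc
    obtain ⟨D, hD0, hD⟩ := hd
    refine ⟨(D + D) * C, by positivity, fun ω => ?_⟩
    rcases h1 : e ω with _ | ω'
    · simp [h1]; positivity
    · simp only [h1, Option.elim_some, norm_mul]
      gcongr
      · exact (norm_sub_le _ _).trans (add_le_add (hD _) (hD _))
      · exact hC ω
  apply ext_basis b
  intro ω
  rw [sub_apply, mulA, mulA, pop_basis b e hc,
    dop_basis b hd, map_smul, pop_basis b e hc, pop_basis b e hB]
  rcases h1 : e ω with _ | ω'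
  · simp
  · simp only [Option.elim_some, map_smul, dop_basis b hd, smul_smul, ← sub_smul]
    congr 1
    ring

end general

section graph
variable {V : Type} {G : GD V}

theorem s1_spec {r r' : T3} (h : s1 r = some r') :
    r.1 = r'.1 ∧ r.2.1 = false ∧ r'.2.1 = true ∧ idx r' = idx r ∧
      ∀ n, r.2.2 < dimS r.1 r.2.1 n ↔ r'.2.2 < dimS r'.1 r'.2.1 n := by
  obtain ⟨_ | _, _ | _, _ | a⟩ := r <;> simp only [s1, PEquiv.coe_mk, Option.some.injEq,
    reduceCtorEq] at h <;> subst h <;> simp [idx, dimS] <;> intro n <;>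
    have : 0 < 4 ^ n := by positivity
  all_goals omega

theorem sw_spec {r r' : T3} (h : sw r = some r') :
    r.2.1 = false ∧ r'.2.1 = true ∧ idx r' = idx r ∧
      ∀ n, r.2.2 < dimS r.1 r.2.1 n ↔ r'.2.2 < dimS r'.1 r'.2.1 n := by
  obtain ⟨_ | _, _ | _, _ | a⟩ := r <;> simp only [sw, PEquiv.coe_mk, Option.some.injEq,
    reduceCtorEq] at h <;> subst h <;> simp [idx, dimS] <;> intro n <;>
    have : 0 < 4 ^ n := by positivity
  all_goals omega

theorem s2_spec {r r' : T3} (h : s2 r = some r') :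
    r.1 = r'.1 ∧ r.2.1 = false ∧ r'.2.1 = true ∧ r.2.2 = r'.2.2 := by
  obtain ⟨_ | _, _ | _, a⟩ := r <;> simp only [s2, PEquiv.coe_mk, Option.some.injEq,
    reduceCtorEq] at h <;> subst h <;> simp

theorem liftS_some {e : T3 ≃. T3} {ω ω' : Om V} (h : liftS e ω = some ω') :
    ω'.1 = ω.1 ∧ ω'.2.1 = ω.2.1 ∧ ω'.2.2.1 = ω.2.2.1 ∧ e ω.2.2.2 = some ω'.2.2.2 := by
  obtain ⟨x, l, o, r⟩ := ω
  obtain ⟨x', l', o', r'⟩ := ω'
  simp only [liftS, PEquiv.coe_mk, Option.map_eq_some_iff, Prod.mk.injEq] at h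
  obtain ⟨r2, h1, rfl, rfl, rfl, rfl⟩ := h
  exact ⟨rfl, rfl, rfl, h1⟩

theorem nn_congr {ω ω' : Om V} (h1 : ω'.1 = ω.1) (h2 : ω'.2.1 = ω.2.1) (h3 : ω'.2.2.1 = ω.2.2.1) :
    G.nn ω' = G.nn ω := by
  unfold GD.nn; rw [h1, h2, h3]

theorem valid_s1 {ω ω' : Om V} (h : liftS s1 ω = some ω') : G.Valid ω ↔ G.Valid ω' := by
  obtain ⟨h1, h2, h3, h4⟩ := liftS_some h
  obtain ⟨h5, h6, h7, h8, h9⟩ := s1_spec h4
  unfold GD.Valid
  rw [h1, h2, h3, ← h5]
  constructor
  · rintro ⟨e, he, ho, ha⟩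
    refine ⟨e, he, ho, ?_⟩
    have := (h9 (G.ex e ω.2.2.1)).1 ha
    rwa [← h5] at this
  · rintro ⟨e, he, ho, ha⟩
    refine ⟨e, he, ho, ?_⟩
    apply (h9 (G.ex e ω.2.2.1)).2
    rwa [← h5]

theorem fw_s1 {ω ω' : Om V} (h : liftS s1 ω = some ω') : G.fw ω' = G.fw ω := by
  obtain ⟨h1, h2, h3, h4⟩ := liftS_some h
  obtain ⟨h5, h6, h7, h8, h9⟩ := s1_spec h4
  unfold GD.fw
  rw [nn_congr h1 h2 h3, h8]

theorem valid_sw {ω ω' : Om V} (h : liftS sw ω = some ω') (ho : ω.2.2.1 ≠ none) :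
    G.Valid ω ↔ G.Valid ω' := by
  obtain ⟨h1, h2, h3, h4⟩ := liftS_some h
  obtain ⟨h6, h7, h8, h9⟩ := sw_spec h4
  unfold GD.Valid
  rw [h1, h2, h3]
  constructor
  · rintro ⟨e, he, ho', ha⟩
    exact ⟨e, he, fun h => absurd h ho, (h9 (G.ex e ω.2.2.1)).1 ha⟩
  · rintro ⟨e, he, ho', ha⟩
    exact ⟨e, he, fun h => absurd h ho, (h9 (G.ex e ω.2.2.1)).2 ha⟩

theorem fw_sw {ω ω' : Om V} (h : liftS sw ω = some ω') : G.fw ω' = G.fw ω := by
  obtain ⟨h1, h2, h3, h4⟩ := liftS_some h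
  obtain ⟨h6, h7, h8, h9⟩ := sw_spec h4
  unfold GD.fw
  rw [nn_congr h1 h2 h3, h8]

theorem wt_last (n : ℕ) : wt n (2 * 4 ^ n - 1) = 1 := by
  have h1 : 1 ≤ 4 ^ n := Nat.one_le_pow _ _ (by norm_num)
  have h2 : (1 : ℝ) ≤ 4 ^ n := one_le_pow₀ (by norm_num)
  unfold wt
  rw [Nat.cast_sub (by omega)]
  push_cast
  exact div_self (by linarith)

theorem wt_succ_sub (n a : ℕ) : |wt n (a + 1) - wt n a| ≤ 1 / 4 ^ n := by
  have h2 : (1 : ℝ) ≤ 4 ^ n := one_le_pow₀ (by norm_num)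
  unfold wt
  rw [← sub_div, abs_div, abs_of_pos (show (0 : ℝ) < 2 * 4 ^ n - 1 by linarith)]
  push_cast
  rw [add_sub_cancel_left, abs_one]
  apply one_div_le_one_div_of_le (by linarith) (by linarith)

/-- The `t₂` step changes `f` by at most `4^{-n}`; a valid source with nonzero weight goes to a
valid target. -/
theorem valid_s2 {ω ω' : Om V} (h : liftS s2 ω = some ω') (hv : G.Valid ω) (hf : G.fw ω ≠ 1) :
    G.Valid ω' := by
  obtain ⟨x, l, o, side, s, a⟩ := ω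
  obtain ⟨x', l', o', side', s', a'⟩ := ω'
  obtain ⟨h1, h2, h3, h4⟩ := liftS_some h
  obtain ⟨h5, h6, h7, h8⟩ := s2_spec h4
  simp only at h1 h2 h3 h5 h6 h7 h8
  subst h1 h2 h3 h5 h6 h7 h8
  obtain ⟨e, he, ho, ha⟩ := hv
  refine ⟨e, he, ho, ?_⟩
  simp only at he ha ⊢
  have hn : G.nn (x', l', o', side, false, a) = G.ex e o' := by simp [GD.nn, he]
  cases side
  · simp only [dimS] at ha ⊢; omega
  · simp only [dimS] at ha ⊢
    have : a ≠ 2 * 4 ^ G.ex e o' - 1 := by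
      rintro rfl
      apply hf
      unfold GD.fw
      rw [hn]
      exact wt_last _
    omega

theorem fw_s2 {ω ω' : Om V} (h : liftS s2 ω = some ω') :
    |G.fw ω' - G.fw ω| ≤ 1 / 4 ^ (G.nn ω) := by
  obtain ⟨x, l, o, side, s, a⟩ := ω
  obtain ⟨x', l', o', side', s', a'⟩ := ω'
  obtain ⟨h1, h2, h3, h4⟩ := liftS_some h
  obtain ⟨h5, h6, h7, h8⟩ := s2_spec h4
  simp only at h1 h2 h3 h5 h6 h7 h8
  subst h1 h2 h3 h5 h6 h7 h8
  have hn : G.nn (x', l', o', side, true, a) = G.nn (x', l', o', side, false, a) := rfl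
  unfold GD.fw
  rw [hn]
  cases side
  · simp only [idx]
    rcases a with _ | a
    · simp
    · rw [abs_sub_comm]
      simpa using wt_succ_sub _ a
  · simp only [idx]
    exact wt_succ_sub _ a

theorem GD.Good.finite_decay (hG : G.Good) (d : Om V → ℂ) (C : ℝ)
    (h1 : ∀ ω, d ω ≠ 0 → G.Valid ω) (h2 : ∀ ω, G.Valid ω → ‖d ω‖ ≤ C / 4 ^ (G.nn ω)) (ε : ℝ)
    (hε : 0 < ε) : {ω | ε ≤ ‖d ω‖}.Finite := by
  have h3 : Tendsto (fun n : ℕ => C / 4 ^ n) atTop (𝓝 0) := by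
    have := (tendsto_pow_atTop_nhds_zero_of_lt_one (r := (1 / 4 : ℝ)) (by norm_num)
      (by norm_num)).const_mul C
    simpa [div_eq_mul_inv, inv_pow] using this
  obtain ⟨K, hK⟩ := Filter.eventually_atTop.1 (h3.eventually (gt_mem_nhds hε))
  refine (hG.finite_valid K).subset ?_
  intro ω hω
  simp only [Set.mem_ofPred_eq] at hω ⊢
  have hd : d ω ≠ 0 := by
    intro h0
    rw [h0, norm_zero] at hω
    linarith
  refine ⟨h1 ω hd, ?_⟩
  by_contra hcon
  push Not at hcon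
  have := hK (G.nn ω) hcon.le
  have := h2 ω (h1 ω hd)
  linarith

end graph

end Run7.h836
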