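import Mathlib
import Pool.Agent.Run7.h836.NonAsh1

set_option autoImplicit false

/-!
The matching of halves given by a nonnegative integer solution.
-/

open scoped Topology InnerProductSpace
open Filter

namespace Run7.h836

universe u v

variable {V : Type}

/-- copies of `e` matched with halves one level below -/
def Src (G : GD V) (γ : V → ℕ) (e : V) : Option ℕ → Prop
  | none => G.bt e = true
  | some i => i < γ e

structure Mat (G : GD V) (γ : V → ℕ) where
  mt : V → Option ℕ → ℕ × ℕ
  maps : ∀ e o, Src G γ e o → ∃ e', G.ch e (mt e o).1 = some e' ∧ (mt e o).2 < γ e'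
  inj : ∀ e o o', Src G γ e o → Src G γ e o' → mt e o = mt e o' → o = o'
  surj : ∀ e ε i' e', G.ch e ε = some e' → i' < γ e' → ∃ o, Src G γ e o ∧ mt e o = (ε, i')

theorem exists_mat {G : GD V} (hG : G.Good) {γ : V → ℕ}
    (hγ : ∀ x, γ x + (if G.bt x then 1 else 0) =
      ∑ i ∈ Finset.range (G.bd x), (G.ch x i).elim 0 γ) : Nonempty (Mat G γ) := by
  classical
  let S : V → Finset (Option ℕ) := fun e =>
    (if G.bt e then {none} else ∅) ∪ (Finset.range (γ e)).map ⟨some, Option.some_injective _⟩
  let T : V → Finset (Σ _ : ℕ, ℕ) := fun e =>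
    (Finset.range (G.bd e)).sigma fun ε => Finset.range ((G.ch e ε).elim 0 γ)
  have hS : ∀ e o, o ∈ S e ↔ Src G γ e o := by
    intro e o
    simp only [S, Finset.mem_union, Finset.mem_map, Finset.mem_range, Function.Embedding.coeFn_mk]
    rcases o with _ | i
    · simp only [Src]
      constructor
      · rintro (h | ⟨a, -, h⟩)
        · split_ifs at h with h1
          · exact h1
          · simp at h
        · cases h
      · intro h; left; simp [h]
    · simp only [Src]
      constructor
      · rintro (h | ⟨a, ha, h⟩)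
        · split_ifs at h with h1
          · simp at h
          · simp at h
        · cases h; exact ha
      · intro h; right; exact ⟨i, h, rfl⟩
  have hcS : ∀ e, (S e).card = γ e + if G.bt e then 1 else 0 := by
    intro e
    simp only [S]
    rw [Finset.card_union_of_disjoint]
    · rw [Finset.card_map, Finset.card_range]
      split_ifs <;> simp [add_comm]
    · rw [Finset.disjoint_left]
      intro o ho ho'
      simp only [Finset.mem_map, Finset.mem_range, Function.Embedding.coeFn_mk] at ho'
      obtain ⟨a, -, rfl⟩ := ho'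
      split_ifs at ho <;> simp at ho
  have hcT : ∀ e, (T e).card = ∑ i ∈ Finset.range (G.bd e), (G.ch e i).elim 0 γ := by
    intro e
    simp only [T, Finset.card_sigma, Finset.card_range]
  have hc : ∀ e, (S e).card = (T e).card := fun e => by rw [hcS, hcT, hγ]
  let φ : ∀ e, S e ≃ T e := fun e => Finset.equivOfCardEq (hc e)
  have hT : ∀ e ε i', (⟨ε, i'⟩ : Σ _ : ℕ, ℕ) ∈ T e ↔ ∃ e', G.ch e ε = some e' ∧ i' < γ e' := by
    intro e ε i'
    simp only [T, Finset.mem_sigma, Finset.mem_range]
    constructor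
    · rintro ⟨-, h2⟩
      rcases h : G.ch e ε with _ | e'
      · simp [h] at h2
      · exact ⟨e', rfl, by simpa [h] using h2⟩
    · rintro ⟨e', h1, h2⟩
      refine ⟨?_, by simpa [h1] using h2⟩
      by_contra hcon
      rw [hG.ch_bd e ε (by omega)] at h1
      cases h1
  refine ⟨⟨fun e o => if h : o ∈ S e then ((φ e ⟨o, h⟩).1.1, (φ e ⟨o, h⟩).1.2) else (0, 0),
    ?_, ?_, ?_⟩⟩
  · intro e o ho
    rw [dif_pos ((hS e o).2 ho)]
    exact (hT e _ _).1 (φ e ⟨o, (hS e o).2 ho⟩).2
  · intro e o o' ho ho' h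
    rw [dif_pos ((hS e o).2 ho), dif_pos ((hS e o').2 ho')] at h
    have h2 : φ e ⟨o, (hS e o).2 ho⟩ = φ e ⟨o', (hS e o').2 ho'⟩ := by
      apply Subtype.ext
      simp only [Prod.mk.injEq] at h
      exact Sigma.ext h.1 (heq_of_eq h.2)
    have := (φ e).injective h2
    simpa using this
  · intro e ε i' e' h1 h2
    let t : T e := ⟨⟨ε, i'⟩, (hT e ε i').2 ⟨e', h1, h2⟩⟩
    refine ⟨((φ e).symm t).1, (hS e _).1 ((φ e).symm t).2, ?_⟩
    rw [dif_pos ((φ e).symm t).2]
    have : φ e ⟨((φ e).symm t).1, ((φ e).symm t).2⟩ = t := by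
      simp
    rw [this]

variable {G : GD V} {γ : V → ℕ} (M : Mat G γ)

namespace Mat

open Classical in
/-- relative path of the partner -/
noncomputable def dl (e : V) (o : Option ℕ) : List ℕ :=
  if Src G γ e o then [(M.mt e o).1] else []

open Classical in
/-- copy of the partner -/
noncomputable def jj (e : V) (o : Option ℕ) : ℕ :=
  if Src G γ e o then (M.mt e o).2 else o.getD 0

/-- exponent of the partner -/
noncomputable def n2 (e : V) (o : Option ℕ) : ℕ := G.lev e + (M.dl e o).length + M.jj e o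

/-- The embedding of the chain model: the `B`-chain goes to the minus half `(x, l, o)`, the
`A`-chain to the partner, which is a plus half. -/
noncomputable def emb (s : Bool) (x : V) (l : List ℕ) (e : V) (o : Option ℕ) :
    XX (G.ex e o) (M.n2 e o) → Om V
  | .inl a => if s = false then (x, l ++ M.dl e o, some (M.jj e o), true, false, a)
      else if (a : ℕ) = 0 then (x, l, o, false, true, 0)
      else (x, l ++ M.dl e o, some (M.jj e o), true, true, a - 1)
  | .inr a => if s = false then (x, l, o, false, false, a) else (x, l, o, false, true, a + 1)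

/-- allowed half -/
def Ok (G : GD V) (x : V) (l : List ℕ) (e : V) (o : Option ℕ) : Prop :=
  G.endp x l = some e ∧ (o = none → G.bt e = true)

end Mat

theorem src_none_or {e : V} {o : Option ℕ} (h : ¬ Src G γ e o) (ho : o = none → G.bt e = true) :
    ∃ i, o = some i ∧ γ e ≤ i := by
  rcases o with _ | i
  · exact absurd (ho rfl) h
  · exact ⟨i, rfl, by simpa [Src] using h⟩

/-- the end of the partner's path -/
theorem Mat.endp_partner (hG : G.Good) {x : V} {l : List ℕ} {e : V} {o : Option ℕ}
    (h : Mat.Ok G x l e o) :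
    ∃ e', G.endp x (l ++ M.dl e o) = some e' ∧ G.lev e' = G.lev e + (M.dl e o).length ∧
      ((Src G γ e o ∧ (M.dl e o).length = 1 ∧ G.ch e (M.mt e o).1 = some e' ∧ M.jj e o < γ e') ∨
        (¬ Src G γ e o ∧ M.dl e o = [] ∧ e' = e ∧ o = some (M.jj e o) ∧ γ e ≤ M.jj e o)) := by
  by_cases hs : Src G γ e o
  · obtain ⟨e', h1, h2⟩ := M.maps e o hs
    have hd : M.dl e o = [(M.mt e o).1] := by unfold Mat.dl; rw [if_pos hs]
    have hj : M.jj e o = (M.mt e o).2 := by unfold Mat.jj; rw [if_pos hs]
    refine ⟨e', ?_, ?_, Or.inl ⟨hs, ?_, h1, ?_⟩⟩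
    · rw [GD.endp_append, h.1, hd]
      simp [GD.endp_cons, h1]
    · rw [hd, hG.lev_ch e _ e' h1]; rfl
    · rw [hd]; rfl
    · rw [hj]; exact h2
  · obtain ⟨i, rfl, hi⟩ := src_none_or hs h.2
    have hd : M.dl e (some i) = [] := by unfold Mat.dl; rw [if_neg hs]
    have hj : M.jj e (some i) = i := by unfold Mat.jj; rw [if_neg hs]; rfl
    refine ⟨e, ?_, ?_, Or.inr ⟨hs, hd, rfl, ?_, ?_⟩⟩
    · rw [hd, List.append_nil]; exact h.1
    · rw [hd]; simp
    · rw [hj]
    · rw [hj]; exact hi

theorem Mat.valid_emb (hG : G.Good) {x : V} {l : List ℕ} {e : V} {o : Option ℕ}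
    (h : Mat.Ok G x l e o) (s : Bool) (X : XX (G.ex e o) (M.n2 e o)) :
    G.Valid (M.emb s x l e o X) := by
  obtain ⟨e', h1, h2, h3⟩ := M.endp_partner hG h
  have hex : G.ex e' (some (M.jj e o)) = M.n2 e o := by
    unfold GD.ex Mat.n2; rw [h2]; rfl
  have hp : 0 < 4 ^ G.ex e o := by positivity
  rcases X with ⟨a, ha⟩ | ⟨a, ha⟩
  · cases s
    · refine ⟨e', h1, fun h => by simp [Mat.emb] at h, ?_⟩
      show a < dimS true false (G.ex e' (some (M.jj e o)))
      rw [hex]; exact ha
    · by_cases h0 : a = 0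
      · refine ⟨e, ?_, ?_, ?_⟩
        · simp only [Mat.emb, h0]; exact h.1
        · simp only [Mat.emb, h0]; exact fun ho => ⟨h.2 ho, rfl⟩
        · simp only [Mat.emb, h0]
          show 0 < 2 * 4 ^ G.ex e o + 1
          omega
      · refine ⟨e', ?_, ?_, ?_⟩
        · simp only [Mat.emb, h0]; exact h1
        · simp only [Mat.emb, h0]; intro h; simp at h
        · simp only [Mat.emb, h0]
          show a - 1 < 2 * 4 ^ (G.ex e' (some (M.jj e o))) - 1
          rw [hex]; omega
  · cases s
    · exact ⟨e, h.1, fun ho => ⟨h.2 ho, rfl⟩, ha⟩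
    · refine ⟨e, h.1, fun ho => ⟨h.2 ho, rfl⟩, ?_⟩
      show a + 1 < 2 * 4 ^ G.ex e o + 1
      omega

theorem Mat.fw_emb (hG : G.Good) {x : V} {l : List ℕ} {e : V} {o : Option ℕ}
    (h : Mat.Ok G x l e o) (s : Bool) (X : XX (G.ex e o) (M.n2 e o)) :
    G.fw (M.emb s x l e o X) = phX _ _ X := by
  obtain ⟨e', h1, h2, h3⟩ := M.endp_partner hG h
  have hex : G.ex e' (some (M.jj e o)) = M.n2 e o := by
    unfold GD.ex Mat.n2; rw [h2]; rfl
  have hn1 : ∀ r, G.nn (x, l, o, r) = G.ex e o := by intro r; simp [GD.nn, h.1]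
  have hn2 : ∀ r, G.nn (x, l ++ M.dl e o, some (M.jj e o), r) = M.n2 e o := by
    intro r; simp [GD.nn, h1, hex]
  rcases X with ⟨a, ha⟩ | ⟨a, ha⟩
  · cases s
    · simp only [Mat.emb, GD.fw, phX, if_true]
      rw [hn2]; rfl
    · by_cases h0 : a = 0
      · simp only [Mat.emb, h0, GD.fw, phX]
        simp [idx, wt]
      · simp only [Mat.emb, h0, GD.fw, phX]
        simp only [Bool.true_eq_false, if_false]
        rw [hn2]
        simp only [idx]
        congr 1
        omega
  · cases s
    · simp only [Mat.emb, GD.fw, phX, if_true]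
      rw [hn1]; rfl
    · simp only [Mat.emb, GD.fw, phX, Bool.true_eq_false, if_false]
      rw [hn1]; rfl

/-- start vertex of the embedding -/
theorem Mat.emb_start (s : Bool) (x : V) (l : List ℕ) (e : V) (o : Option ℕ)
    (X : XX (G.ex e o) (M.n2 e o)) : (M.emb s x l e o X).1 = x := by
  rcases X with ⟨a, ha⟩ | ⟨a, ha⟩ <;> simp only [Mat.emb] <;> split_ifs <;> rfl

theorem Mat.emb_part (s : Bool) (x : V) (l : List ℕ) (e : V) (o : Option ℕ)
    (X : XX (G.ex e o) (M.n2 e o)) : (M.emb s x l e o X).2.2.2.2.1 = s := by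
  rcases X with ⟨a, ha⟩ | ⟨a, ha⟩ <;> cases s <;> simp only [Mat.emb] <;> split_ifs <;>
    first | rfl | simp_all

theorem Mat.emb_injective (s : Bool) (x : V) (l : List ℕ) (e : V) (o : Option ℕ) :
    Function.Injective (M.emb s x l e o) := by
  rintro (⟨a, ha⟩ | ⟨a, ha⟩) (⟨a', ha'⟩ | ⟨a', ha'⟩) h
  · cases s
    · simp only [Mat.emb, if_true, Prod.mk.injEq] at h
      simp [h.2.2.2.2.2]
    · simp only [Mat.emb, Bool.true_eq_false, if_false] at h
      split_ifs at h with h1 h2 h2
      · subst h1 h2; rfl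
      · simp at h
      · simp at h
      · simp only [Prod.mk.injEq] at h
        have : a = a' := by omega
        subst this; rfl
  · cases s
    · simp [Mat.emb] at h
    · simp only [Mat.emb, Bool.true_eq_false, if_false] at h
      split_ifs at h with h1
      · simp at h
      · simp at h
  · cases s
    · simp [Mat.emb] at h
    · simp only [Mat.emb, Bool.true_eq_false, if_false] at h
      split_ifs at h with h1
      · simp at h
      · simp at h
  · cases s
    · simp only [Mat.emb, if_true, Prod.mk.injEq] at h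
      simp [h.2.2.2.2.2]
    · simp only [Mat.emb, Bool.true_eq_false, if_false, Prod.mk.injEq] at h
      have : a = a' := by omega
      subst this; rfl

/-- The half is determined by any of its basis vectors. -/
theorem Mat.emb_half (hG : G.Good) {s s' : Bool} {x x' : V} {l l' : List ℕ} {e e' : V}
    {o o' : Option ℕ} (h : Mat.Ok G x l e o) (h' : Mat.Ok G x' l' e' o')
    {X : XX (G.ex e o) (M.n2 e o)} {X' : XX (G.ex e' o') (M.n2 e' o')}
    (heq : M.emb s x l e o X = M.emb s' x' l' e' o' X') :
    s = s' ∧ x = x' ∧ l = l' ∧ e = e' ∧ o = o' := by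
  have hs : s = s' := by
    rw [← M.emb_part s x l e o X, heq, M.emb_part]
  have hx : x = x' := by
    rw [← M.emb_start s x l e o X, heq, M.emb_start]
  subst hs hx
  -- the minus or plus half
  have hside : ∀ (l : List ℕ) (e : V) (o : Option ℕ) (X : XX (G.ex e o) (M.n2 e o)),
      ((M.emb s x l e o X).2.2.2.1 = false ∧ (M.emb s x l e o X).2.1 = l ∧
        (M.emb s x l e o X).2.2.1 = o) ∨
      ((M.emb s x l e o X).2.2.2.1 = true ∧ (M.emb s x l e o X).2.1 = l ++ M.dl e o ∧
        (M.emb s x l e o X).2.2.1 = some (M.jj e o)) := by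
    intro l e o X
    rcases X with ⟨a, ha⟩ | ⟨a, ha⟩ <;> cases s <;> simp only [Mat.emb] <;> split_ifs <;> simp_all
  have hmain : l = l' ∧ o = o' := by
    rcases hside l e o X with ⟨h1, h2, h3⟩ | ⟨h1, h2, h3⟩ <;>
      rcases hside l' e' o' X' with ⟨h4, h5, h6⟩ | ⟨h4, h5, h6⟩
    · rw [heq] at h2 h3
      exact ⟨h2.symm.trans h5, h3.symm.trans h6⟩
    · rw [heq, h4] at h1; simp at h1
    · rw [heq, h4] at h1; simp at h1
    · rw [heq] at h2 h3
      have hl := h2.symm.trans h5
      have hj : M.jj e o = M.jj e' o' := Option.some_injective _ (h3.symm.trans h6)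
      obtain ⟨f, p1, p2, p3⟩ := M.endp_partner hG h
      obtain ⟨f', q1, q2, q3⟩ := M.endp_partner hG h'
      have hff : f = f' := by
        rw [hl] at p1
        exact Option.some_injective _ (p1.symm.trans q1)
      subst hff
      rcases p3 with ⟨a1, a2, a3, a4⟩ | ⟨a1, a2, a3, a4, a5⟩ <;>
        rcases q3 with ⟨b1, b2, b3, b4⟩ | ⟨b1, b2, b3, b4, b5⟩
      · have hd : M.dl e o = [(M.mt e o).1] := by unfold Mat.dl; rw [if_pos a1]
        have hd' : M.dl e' o' = [(M.mt e' o').1] := by unfold Mat.dl; rw [if_pos b1]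
        have hjj : M.jj e o = (M.mt e o).2 := by unfold Mat.jj; rw [if_pos a1]
        have hjj' : M.jj e' o' = (M.mt e' o').2 := by unfold Mat.jj; rw [if_pos b1]
        rw [hd, hd'] at hl
        obtain ⟨hl1, hl2⟩ := List.append_inj' hl rfl
        subst hl1
        have hee : e = e' := Option.some_injective _ (h.1.symm.trans h'.1)
        subst hee
        refine ⟨rfl, M.inj e o o' a1 b1 ?_⟩
        apply Prod.ext
        · simpa using hl2
        · rw [← hjj, ← hjj', hj]
      · -- `j < γ f` and `γ f ≤ j`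
        subst b3
        omega
      · subst a3
        omega
      · rw [a2, b2, List.append_nil, List.append_nil] at hl
        exact ⟨hl, by rw [a4, b4, hj]⟩
  obtain ⟨rfl, rfl⟩ := hmain
  exact ⟨rfl, rfl, rfl, Option.some_injective _ (h.1.symm.trans h'.1), rfl⟩

/-- leftover basis vectors: unmatched plus halves -/
def Left (γ : V → ℕ) (ω : Om V) : Prop :=
  ω.2.1 = [] ∧ ω.2.2.2.1 = true ∧ ∃ i, ω.2.2.1 = some i ∧ i < γ ω.1

/-- Every valid basis vector is in a matched pair or left over. -/
theorem Mat.cover (hG : G.Good) {ω : Om V} (hv : G.Valid ω) :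
    (∃ l e o, Mat.Ok G ω.1 l e o ∧ ∃ X, M.emb ω.2.2.2.2.1 ω.1 l e o X = ω) ∨ Left γ ω := by
  obtain ⟨x, l, o, side, s, a⟩ := ω
  obtain ⟨e, he, ho, ha⟩ := hv
  simp only at he ho ha ⊢
  cases side
  · -- minus half
    left
    have hok : Mat.Ok G x l e o := ⟨he, fun h => (ho h).1⟩
    refine ⟨l, e, o, hok, ?_⟩
    cases s
    · exact ⟨.inr ⟨a, ha⟩, by simp [Mat.emb]⟩
    · rcases a with _ | a
      · refine ⟨.inl ⟨0, by positivity⟩, by simp [Mat.emb]⟩
      · refine ⟨.inr ⟨a, by simpa [dimS] using ha⟩, by simp [Mat.emb]⟩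
  · -- plus half
    rcases o with _ | i
    · have := (ho rfl).2; simp at this
    by_cases hi : i < γ e
    · rcases List.eq_nil_or_concat l with rfl | ⟨l0, ε, rfl⟩
      · right
        simp only [GD.endp_nil, Option.some.injEq] at he
        subst he
        exact ⟨rfl, rfl, i, rfl, hi⟩
      · left
        rw [List.concat_eq_append] at he ⊢
        rw [GD.endp_append] at he
        rcases h0 : G.endp x l0 with _ | e0
        · rw [h0] at he; simp at he
        · rw [h0] at he
          simp only [Option.bind_some, GD.endp_cons] at he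
          rcases h1 : G.ch e0 ε with _ | e1
          · rw [h1] at he; simp at he
          · rw [h1] at he
            simp only [Option.bind_some, GD.endp_nil, Option.some.injEq] at he
            subst he
            obtain ⟨o, hs, hmt⟩ := M.surj e0 ε i e1 h1 hi
            have hok : Mat.Ok G x l0 e0 o := ⟨h0, by rintro rfl; exact hs⟩
            have hd : M.dl e0 o = [ε] := by unfold Mat.dl; rw [if_pos hs, hmt]
            have hjj : M.jj e0 o = i := by unfold Mat.jj; rw [if_pos hs, hmt]
            have hn2 : M.n2 e0 o = G.ex e1 (some i) := by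
              unfold Mat.n2 GD.ex; rw [hd, hjj, hG.lev_ch e0 ε e1 h1]; rfl
            refine ⟨l0, e0, o, hok, ?_⟩
            cases s
            · refine ⟨.inl ⟨a, by rw [hn2]; exact ha⟩, by simp [Mat.emb, hd, hjj]⟩
            · refine ⟨.inl ⟨a + 1, by rw [hn2]; simp only [dimS] at ha; omega⟩, ?_⟩
              simp [Mat.emb, hd, hjj]
    · left
      have hs : ¬ Src G γ e (some i) := hi
      have hok : Mat.Ok G x l e (some i) := ⟨he, by simp⟩
      have hd : M.dl e (some i) = [] := by unfold Mat.dl; rw [if_neg hs]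
      have hjj : M.jj e (some i) = i := by unfold Mat.jj; rw [if_neg hs]; rfl
      have hn2 : M.n2 e (some i) = G.ex e (some i) := by
        unfold Mat.n2 GD.ex; rw [hd, hjj]; rfl
      refine ⟨l, e, some i, hok, ?_⟩
      cases s
      · refine ⟨.inl ⟨a, by rw [hn2]; exact ha⟩, by simp [Mat.emb, hd, hjj]⟩
      · refine ⟨.inl ⟨a + 1, by rw [hn2]; simp only [dimS] at ha; omega⟩, ?_⟩
        simp [Mat.emb, hd, hjj]

end Run7.h836
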