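import Mathlib
import Pool.Agent.Run7.h836.Ash1
import Pool.Agent.Run7.h836.Ash2
import Pool.Agent.Run7.h836.P5

set_option autoImplicit false

/-!
The modified operators, which act diagonally on modes.
-/

open scoped Topology InnerProductSpace
open Filter

namespace Run7.h836

universe u v

theorem eucl_expand {ι : Type v} [Fintype ι] [DecidableEq ι] (v : EuclideanSpace ℂ ι) :
    v = ∑ X, v X • EuclideanSpace.single X (1 : ℂ) := by
  ext X
  simp [Pi.single_apply]

/-- data from the chain approximation -/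
structure Dat where
  C : ℝ
  C0 : 0 ≤ C
  eta : ∀ n n', OrthonormalBasis (XX n n') ℂ (EuclideanSpace ℂ (XX n n'))
  lam : ∀ n n', XX n n' → ℂ
  kap : ∀ n n', XX n n' → ℂ
  h1 : ∀ n n', ∀ v : EuclideanSpace ℂ (XX n n'),
        ‖∑ X, ((phX n n' X : ℂ) * v X) • EuclideanSpace.single X (1 : ℂ) -
          ∑ c, (lam n n' c * ⟪eta n n' c, v⟫_ℂ) • eta n n' c‖ ≤ C / 2 ^ (min n n') * ‖v‖
  h2 : ∀ n n', ∀ v : EuclideanSpace ℂ (XX n n'),
        ‖∑ X, ((1 - phX n n' X : ℂ) * v X) • EuclideanSpace.single (tauX n n' X) (1 : ℂ) -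
          ∑ c, (kap n n' c * ⟪eta n n' c, v⟫_ℂ) • eta n n' c‖ ≤ C / 2 ^ (min n n') * ‖v‖

theorem exists_dat : Nonempty Dat := by
  obtain ⟨C, hC, h⟩ := chain_approx
  choose η lam kap h1 h2 using h
  exact ⟨⟨C, hC, η, lam, kap, h1, h2⟩⟩

noncomputable def PhX (n n' : ℕ) : EuclideanSpace ℂ (XX n n') →L[ℂ] EuclideanSpace ℂ (XX n n') :=
  LinearMap.toContinuousLinearMap
    { toFun := fun v => ∑ X, ((phX n n' X : ℂ) * v X) • EuclideanSpace.single X (1 : ℂ)
      map_add' := fun x y => by simp [mul_add, add_smul, Finset.sum_add_distrib]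
      map_smul' := fun r x => by
        rw [RingHom.id_apply, Finset.smul_sum]
        refine Finset.sum_congr rfl fun X _ => ?_
        rw [PiLp.smul_apply, smul_smul, smul_eq_mul]; congr 1; ring }

noncomputable def ThX (n n' : ℕ) : EuclideanSpace ℂ (XX n n') →L[ℂ] EuclideanSpace ℂ (XX n n') :=
  LinearMap.toContinuousLinearMap
    { toFun := fun v => ∑ X, ((1 - phX n n' X : ℂ) * v X) •
        EuclideanSpace.single (tauX n n' X) (1 : ℂ)
      map_add' := fun x y => by simp [mul_add, add_smul, Finset.sum_add_distrib]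
      map_smul' := fun r x => by
        rw [RingHom.id_apply, Finset.smul_sum]
        refine Finset.sum_congr rfl fun X _ => ?_
        rw [PiLp.smul_apply, smul_smul, smul_eq_mul]; congr 1; ring }

theorem PhX_single (n n' : ℕ) (X : XX n n') : PhX n n' (EuclideanSpace.single X 1) =
    (phX n n' X : ℂ) • EuclideanSpace.single X 1 := by
  show ∑ Y : XX n n', ((phX n n' Y : ℂ) *
    (EuclideanSpace.single X (1 : ℂ) : EuclideanSpace ℂ (XX n n')) Y) •
      EuclideanSpace.single Y (1 : ℂ) = _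
  rw [Finset.sum_eq_single X]
  · simp
  · intro Y _ hY; simp [hY]
  · simp

theorem ThX_single (n n' : ℕ) (X : XX n n') : ThX n n' (EuclideanSpace.single X 1) =
    (1 - phX n n' X : ℂ) • EuclideanSpace.single (tauX n n' X) 1 := by
  show ∑ Y : XX n n', ((1 - phX n n' Y : ℂ) *
    (EuclideanSpace.single X (1 : ℂ) : EuclideanSpace ℂ (XX n n')) Y) •
      EuclideanSpace.single (tauX n n' Y) (1 : ℂ) = _
  rw [Finset.sum_eq_single X]
  · simp
  · intro Y _ hY; simp [hY]
  · simp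

namespace Dat
variable (D : Dat)

/-- diagonal operator in the basis `eta` -/
noncomputable def MX (n n' : ℕ) (μ : XX n n' → ℂ) :
    EuclideanSpace ℂ (XX n n') →L[ℂ] EuclideanSpace ℂ (XX n n') :=
  LinearMap.toContinuousLinearMap
    { toFun := fun v => ∑ c, (μ c * ⟪D.eta n n' c, v⟫_ℂ) • D.eta n n' c
      map_add' := fun x y => by simp [inner_add_right, mul_add, add_smul, Finset.sum_add_distrib]
      map_smul' := fun r x => by
        rw [RingHom.id_apply, Finset.smul_sum]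
        refine Finset.sum_congr rfl fun X _ => ?_
        rw [inner_smul_right, smul_smul]; congr 1; ring }

theorem MX_eta (n n' : ℕ) (μ : XX n n' → ℂ) (c : XX n n') :
    D.MX n n' μ (D.eta n n' c) = μ c • D.eta n n' c := by
  show ∑ c' : XX n n', (μ c' * ⟪D.eta n n' c', D.eta n n' c⟫_ℂ) • D.eta n n' c' = _
  rw [Finset.sum_eq_single c]
  · rw [inner_self_eq_norm_sq_to_K, (D.eta n n').orthonormal.1 c]; simp
  · intro c' _ hc'
    rw [(D.eta n n').orthonormal.2 hc']; simp
  · simp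

noncomputable def Kf (n n' : ℕ) :
    EuclideanSpace ℂ (XX n n') →L[ℂ] EuclideanSpace ℂ (XX n n') :=
  D.MX n n' (D.lam n n') - PhX n n'

noncomputable def K2 (n n' : ℕ) :
    EuclideanSpace ℂ (XX n n') →L[ℂ] EuclideanSpace ℂ (XX n n') :=
  D.MX n n' (D.kap n n') - ThX n n'

theorem norm_Kf (n n' : ℕ) : ‖D.Kf n n'‖ ≤ D.C / 2 ^ (min n n') := by
  have := D.C0
  refine ContinuousLinearMap.opNorm_le_bound _ (by positivity) fun v => ?_
  rw [Kf, sub_apply, norm_sub_rev]
  exact D.h1 n n' v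

theorem norm_K2 (n n' : ℕ) : ‖D.K2 n n'‖ ≤ D.C / 2 ^ (min n n') := by
  have := D.C0
  refine ContinuousLinearMap.opNorm_le_bound _ (by positivity) fun v => ?_
  rw [K2, sub_apply, norm_sub_rev]
  exact D.h2 n n' v

end Dat

variable {V : Type} {G : GD V} {γ : V → ℕ}

/-- allowed halves with start `x` -/
abbrev Ix (G : GD V) (x : V) : Type :=
  {q : List ℕ × V × Option ℕ // Mat.Ok G x q.1 q.2.1 q.2.2}

theorem finite_src (e : V) : {o | Src G γ e o}.Finite := by
  refine (((Set.finite_lt_nat (γ e)).image some).insert none).subset ?_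
  rintro (_ | i) h
  · simp
  · right; exact ⟨i, h, rfl⟩

namespace Mat
variable (M : Mat G γ)

/-- the embedding on all halves with start `x` -/
noncomputable def ee (s : Bool) (x : V)
    (p : Σ q : Ix G x, XX (G.ex q.1.2.1 q.1.2.2) (M.n2 q.1.2.1 q.1.2.2)) : Om V :=
  M.emb s x p.1.1.1 p.1.1.2.1 p.1.1.2.2 p.2

theorem ee_injective (hG : G.Good) (s : Bool) (x : V) : Function.Injective (M.ee s x) := by
  rintro ⟨⟨⟨l, e, o⟩, hq⟩, X⟩ ⟨⟨⟨l', e', o'⟩, hq'⟩, X'⟩ h
  obtain ⟨-, -, h3, h4, h5⟩ := M.emb_half hG hq hq' h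
  simp only at h3 h4 h5
  subst h3 h4 h5
  have := M.emb_injective s x l e o h
  simp only at this
  rw [this]

theorem finite_Ix (hG : G.Good) (x : V) (K : ℕ) :
    {q : Ix G x | min (G.ex q.1.2.1 q.1.2.2) (M.n2 q.1.2.1 q.1.2.2) ≤ K}.Finite := by
  have h1 : ((⋃ p ∈ {p : V × List ℕ | ∃ e, G.endp p.1 p.2 = some e ∧ G.lev e ≤ K},
      ⋃ e ∈ {e | G.endp p.1 p.2 = some e}, ⋃ o ∈ ({o | Src G γ e o} ∪ {o : Option ℕ | o.getD 0 ≤ K}),
        ({(p.2, e, o)} : Set (List ℕ × V × Option ℕ))) : Set _).Finite := by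
    refine Set.Finite.biUnion (hG.finite_paths K) fun p _ => ?_
    refine Set.Finite.biUnion ?_ fun e _ => ?_
    · apply Set.Subsingleton.finite
      intro a ha a' ha'
      simp only [Set.mem_ofPred_eq] at ha ha'
      exact Option.some_injective _ (ha.symm.trans ha')
    · refine Set.Finite.biUnion ((finite_src e).union (finite_opt K)) fun o _ => ?_
      exact Set.finite_singleton _
  refine (h1.preimage (f := fun q : Ix G x => q.1) (Subtype.val_injective.injOn)).subset ?_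
  rintro ⟨⟨l, e, o⟩, hq⟩ hK
  simp only [Set.mem_ofPred_eq] at hK
  have hlev : G.lev e ≤ K := by
    unfold GD.ex n2 at hK
    omega
  simp only [Set.mem_preimage, Set.mem_iUnion, Set.mem_singleton_iff]
  refine ⟨(x, l), ⟨e, hq.1, hlev⟩, e, hq.1, o, ?_, rfl⟩
  by_cases hs : Src G γ e o
  · left; exact hs
  · right
    obtain ⟨e', h1, h2, h3⟩ := M.endp_partner hG hq
    rcases h3 with h3 | ⟨-, h4, -, h5, -⟩
    · exact absurd h3.1 hs
    · simp only [Set.mem_ofPred_eq]
      have h5' : o = some (M.jj e o) := h5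
      have : o.getD 0 = M.jj e o := congrArg (fun t : Option ℕ => t.getD 0) h5'
      unfold GD.ex n2 at hK
      simp only at h4
      rw [h4] at hK
      simp only [List.length_nil] at hK
      omega

variable {H : Type u} [NormedAddCommGroup H] [InnerProductSpace ℂ H]

theorem orth_ee (hG : G.Good) (b : HilbertBasis (Om V) ℂ H) (s : Bool) (x : V) :
    Orthonormal ℂ (fun p => b (M.ee s x p)) :=
  b.orthonormal.comp _ (M.ee_injective hG s x)

end Mat

theorem finite_of_norm {x : V} (hG : G.Good) (M : Mat G γ) {C : ℝ}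
    (K : ∀ q : Ix G x, EuclideanSpace ℂ (XX (G.ex q.1.2.1 q.1.2.2) (M.n2 q.1.2.1 q.1.2.2)) →L[ℂ]
      EuclideanSpace ℂ (XX (G.ex q.1.2.1 q.1.2.2) (M.n2 q.1.2.1 q.1.2.2)))
    (hK : ∀ q, ‖K q‖ ≤ C / 2 ^ (min (G.ex q.1.2.1 q.1.2.2) (M.n2 q.1.2.1 q.1.2.2))) (ε : ℝ)
    (hε : 0 < ε) : {q | ε ≤ ‖K q‖}.Finite := by
  have h3 : Tendsto (fun n : ℕ => C / 2 ^ n) atTop (𝓝 0) := by
    have := (tendsto_pow_atTop_nhds_zero_of_lt_one (r := (1 / 2 : ℝ)) (by norm_num)
      (by norm_num)).const_mul C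
    simpa [div_eq_mul_inv, inv_pow] using this
  obtain ⟨N, hN⟩ := Filter.eventually_atTop.1 (h3.eventually (gt_mem_nhds hε))
  refine (M.finite_Ix hG x N).subset ?_
  intro q hq
  simp only [Set.mem_ofPred_eq] at hq ⊢
  by_contra hcon
  push Not at hcon
  have := hN _ hcon.le
  have := hK q
  linarith

section ops
variable (M : Mat G γ) (D : Dat) {H : Type u} [NormedAddCommGroup H] [InnerProductSpace ℂ H]
  [CompleteSpace H] (b : HilbertBasis (Om V) ℂ H)

noncomputable def KfX (x : V) (q : Ix G x) := D.Kf (G.ex q.1.2.1 q.1.2.2) (M.n2 q.1.2.1 q.1.2.2)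
noncomputable def K2X (x : V) (q : Ix G x) := D.K2 (G.ex q.1.2.1 q.1.2.2) (M.n2 q.1.2.1 q.1.2.2)

/-- correction of `f` -/
noncomputable def Df (x : V) (s : Bool) : H →L[ℂ] H :=
  Dl (fun p => b (M.ee s x p)) (fun p => b (M.ee s x p)) (KfX M D x)
noncomputable def D1 (x : V) : H →L[ℂ] H :=
  Dl (fun p => b (M.ee true x p)) (fun p => b (M.ee false x p)) (KfX M D x)
noncomputable def D2 (x : V) : H →L[ℂ] H :=
  Dl (fun p => b (M.ee true x p)) (fun p => b (M.ee false x p)) (K2X M D x)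

theorem sum_f (hG : G.Good) (s s' : Bool) (x : V) :
    Summable (Bk (fun p => b (M.ee s' x p)) (fun p => b (M.ee s x p)) (KfX M D x)) :=
  summable_Bk (M.orth_ee hG b s' x) (M.orth_ee hG b s x) _
    (finite_of_norm hG M _ fun _ => D.norm_Kf _ _)

theorem sum_2 (hG : G.Good) (s s' : Bool) (x : V) :
    Summable (Bk (fun p => b (M.ee s' x p)) (fun p => b (M.ee s x p)) (K2X M D x)) :=
  summable_Bk (M.orth_ee hG b s' x) (M.orth_ee hG b s x) _
    (finite_of_norm hG M _ fun _ => D.norm_K2 _ _)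

/-- modified operators -/
noncomputable def f1 (x : V) : H →L[ℂ] H :=
  gen G b (.F x) + (Df M D b x false + Df M D b x true)
noncomputable def t1 (x : V) : H →L[ℂ] H := gen G b (.T1 x) + D1 M D b x
noncomputable def t2 (x : V) : H →L[ℂ] H := gen G b (.T2 x) + D2 M D b x

theorem valid_ee (hG : G.Good) (s : Bool) (x : V)
    (p : Σ q : Ix G x, XX (G.ex q.1.2.1 q.1.2.2) (M.n2 q.1.2.1 q.1.2.2)) :
    M.ee s x p ∈ {ω | G.Valid ω} := M.valid_emb hG p.1.2 s p.2

theorem Df_mem (hG : G.Good) (x : V) (s : Bool) :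
    Df M D b x s ∈ closure (muSpan b {ω | G.Valid ω} : Set (H →L[ℂ] H)) :=
  Dl_mem_closure b _ _ _ (valid_ee M hG s x) (valid_ee M hG s x) (sum_f M D b hG s s x)

theorem D1_mem (hG : G.Good) (x : V) :
    D1 M D b x ∈ closure (muSpan b {ω | G.Valid ω} : Set (H →L[ℂ] H)) :=
  Dl_mem_closure b _ _ _ (valid_ee M hG true x) (valid_ee M hG false x) (sum_f M D b hG _ _ x)

theorem D2_mem (hG : G.Good) (x : V) :
    D2 M D b x ∈ closure (muSpan b {ω | G.Valid ω} : Set (H →L[ℂ] H)) :=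
  Dl_mem_closure b _ _ _ (valid_ee M hG true x) (valid_ee M hG false x) (sum_2 M D b hG _ _ x)

/-- the synthesis operator of a half -/
noncomputable def JJ (s : Bool) (x : V) (l : List ℕ) (e : V) (o : Option ℕ) :
    EuclideanSpace ℂ (XX (G.ex e o) (M.n2 e o)) →L[ℂ] H :=
  Jw fun X => b (M.emb s x l e o X)

/-- modes -/
noncomputable def md (s : Bool) (x : V) (l : List ℕ) (e : V) (o : Option ℕ)
    (c : XX (G.ex e o) (M.n2 e o)) : H :=
  JJ M b s x l e o (D.eta _ _ c)

omit [CompleteSpace H] in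
theorem JJ_ext {s : Bool} {x : V} {l : List ℕ} {e : V} {o : Option ℕ} {s' : Bool} {x' : V}
    {l' : List ℕ} {T : H →L[ℂ] H}
    {K : EuclideanSpace ℂ (XX (G.ex e o) (M.n2 e o)) →L[ℂ]
      EuclideanSpace ℂ (XX (G.ex e o) (M.n2 e o))}
    (h : ∀ X, T (b (M.emb s x l e o X)) = JJ M b s' x' l' e o (K (EuclideanSpace.single X 1)))
    (v : EuclideanSpace ℂ (XX (G.ex e o) (M.n2 e o))) :
    T (JJ M b s x l e o v) = JJ M b s' x' l' e o (K v) := by
  have hv : v = ∑ X, v X • EuclideanSpace.single X (1 : ℂ) := eucl_expand v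
  conv_rhs => rw [hv]
  rw [map_sum, map_sum]
  show T (∑ X, v X • b (M.emb s x l e o X)) = _
  rw [map_sum]
  refine Finset.sum_congr rfl fun X _ => ?_
  rw [map_smul, map_smul, map_smul, h]

omit [CompleteSpace H] in
theorem JJ_zero {s : Bool} {x : V} {l : List ℕ} {e : V} {o : Option ℕ} {T : H →L[ℂ] H}
    (h : ∀ X, T (b (M.emb s x l e o X)) = 0)
    (v : EuclideanSpace ℂ (XX (G.ex e o) (M.n2 e o))) : T (JJ M b s x l e o v) = 0 := by
  show T (∑ X, v X • b (M.emb s x l e o X)) = _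
  rw [map_sum]
  refine Finset.sum_eq_zero fun X _ => ?_
  rw [map_smul, h, smul_zero]

omit [CompleteSpace H] in
theorem JJ_single (s : Bool) (x : V) (l : List ℕ) (e : V) (o : Option ℕ)
    (X : XX (G.ex e o) (M.n2 e o)) :
    JJ M b s x l e o (EuclideanSpace.single X 1) = b (M.emb s x l e o X) := Jw_single _ _

omit [CompleteSpace H] in
theorem F_JJ (hG : G.Good) (s : Bool) {x : V} {l : List ℕ} {e : V} {o : Option ℕ}
    (h : Mat.Ok G x l e o) (v : EuclideanSpace ℂ (XX (G.ex e o) (M.n2 e o))) :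
    gen G b (.F x) (JJ M b s x l e o v) = JJ M b s x l e o (PhX _ _ v) := by
  apply JJ_ext
  intro X
  rw [PhX_single, map_smul, JJ_single]
  show dop b (cF G x) _ = _
  rw [dop_basis b (bF G x)]
  congr 1
  unfold cF
  rw [if_pos ⟨M.valid_emb hG h s X, M.emb_start s x l e o X⟩, M.fw_emb hG h]

theorem s1_emb {x : V} {l : List ℕ} {e : V} {o : Option ℕ} (X : XX (G.ex e o) (M.n2 e o)) :
    liftS s1 (M.emb false x l e o X) = some (M.emb true x l e o X) ∨
      (liftS s1 (M.emb false x l e o X) = none ∧ phX _ _ X = 0) := by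
  rcases X with ⟨a, ha⟩ | ⟨a, ha⟩
  · rcases a with _ | a
    · right
      constructor
      · simp [Mat.emb, liftS, s1]
      · simp [phX, wt]
    · left
      simp [Mat.emb, liftS, s1]
  · left
    simp [Mat.emb, liftS, s1]

theorem s2_emb {x : V} {l : List ℕ} {e : V} {o : Option ℕ} (X : XX (G.ex e o) (M.n2 e o)) :
    liftS s2 (M.emb false x l e o X) = some (M.emb true x l e o (tauX _ _ X)) ∨
      phX _ _ X = 1 := by
  rcases X with ⟨a, ha⟩ | ⟨a, ha⟩
  · by_cases h : a + 1 < 2 * 4 ^ (M.n2 e o)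
    · left
      simp [Mat.emb, liftS, s2, tauX, h]
    · right
      have : a = 2 * 4 ^ (M.n2 e o) - 1 := by omega
      subst this
      exact wt_last _
  · left
    rcases a with _ | a
    · simp [Mat.emb, liftS, s2, tauX]
    · simp [Mat.emb, liftS, s2, tauX]

theorem s1_emb_true {x : V} {l : List ℕ} {e : V} {o : Option ℕ} (X : XX (G.ex e o) (M.n2 e o)) :
    liftS s1 (M.emb true x l e o X) = none := by
  rcases X with ⟨a, ha⟩ | ⟨a, ha⟩
  · by_cases h : a = 0 <;> simp [Mat.emb, liftS, s1, h]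
  · simp [Mat.emb, liftS, s1]

theorem s2_emb_true {x : V} {l : List ℕ} {e : V} {o : Option ℕ} (X : XX (G.ex e o) (M.n2 e o)) :
    liftS s2 (M.emb true x l e o X) = none := by
  rcases X with ⟨a, ha⟩ | ⟨a, ha⟩
  · by_cases h : a = 0 <;> simp [Mat.emb, liftS, s2, h]
  · simp [Mat.emb, liftS, s2]

omit [CompleteSpace H] in
theorem T1_JJ (hG : G.Good) {x : V} {l : List ℕ} {e : V} {o : Option ℕ}
    (h : Mat.Ok G x l e o) (v : EuclideanSpace ℂ (XX (G.ex e o) (M.n2 e o))) :
    gen G b (.T1 x) (JJ M b false x l e o v) = JJ M b true x l e o (PhX _ _ v) := by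
  apply JJ_ext
  intro X
  rw [PhX_single, map_smul, JJ_single]
  show pop b (liftS s1) (cF G x) _ = _
  rw [pop_basis b _ (bF G x)]
  rcases s1_emb M (x := x) (l := l) X with h1 | ⟨h1, h2⟩
  · rw [h1]
    simp only [Option.elim_some]
    congr 1
    unfold cF
    rw [if_pos ⟨M.valid_emb hG h false X, M.emb_start false x l e o X⟩, M.fw_emb hG h]
  · rw [h1, h2]; simp

omit [CompleteSpace H] in
theorem T2_JJ (hG : G.Good) {x : V} {l : List ℕ} {e : V} {o : Option ℕ}
    (h : Mat.Ok G x l e o) (v : EuclideanSpace ℂ (XX (G.ex e o) (M.n2 e o))) :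
    gen G b (.T2 x) (JJ M b false x l e o v) = JJ M b true x l e o (ThX _ _ v) := by
  apply JJ_ext
  intro X
  rw [ThX_single, map_smul, JJ_single]
  show pop b (liftS s2) (cT2 G x) _ = _
  rw [pop_basis b _ (bT2 G x)]
  have hc : cT2 G x (M.emb false x l e o X) = (1 - phX _ _ X : ℂ) := by
    unfold cT2
    rw [if_pos ⟨M.valid_emb hG h false X, M.emb_start false x l e o X⟩, M.fw_emb hG h]
    push_cast; rfl
  rw [hc]
  rcases s2_emb M (x := x) (l := l) X with h1 | h1
  · rw [h1]; rfl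
  · rw [h1]
    simp only [Complex.ofReal_one, sub_self, zero_smul]
    cases liftS s2 (M.emb false x l e o X) <;> rfl

/-- correction terms on a half with the right start -/
theorem Dl_JJ_same (hG : G.Good) (s s' : Bool) {x : V} {l : List ℕ} {e : V} {o : Option ℕ}
    (h : Mat.Ok G x l e o)
    (K : ∀ q : Ix G x, EuclideanSpace ℂ (XX (G.ex q.1.2.1 q.1.2.2) (M.n2 q.1.2.1 q.1.2.2)) →L[ℂ]
      EuclideanSpace ℂ (XX (G.ex q.1.2.1 q.1.2.2) (M.n2 q.1.2.1 q.1.2.2)))
    (hs : Summable (Bk (fun p => b (M.ee s' x p)) (fun p => b (M.ee s x p)) K))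
    (v : EuclideanSpace ℂ (XX (G.ex e o) (M.n2 e o))) :
    Dl (fun p => b (M.ee s' x p)) (fun p => b (M.ee s x p)) K (JJ M b s x l e o v) =
      JJ M b s' x l e o (K ⟨(l, e, o), h⟩ v) :=
  Dl_J (W' := fun p => b (M.ee s' x p)) (M.orth_ee hG b s x) hs ⟨(l, e, o), h⟩ v

/-- correction terms kill basis vectors of other halves -/
theorem Dl_basis_zero (s s' : Bool) {x : V}
    (K : ∀ q : Ix G x, EuclideanSpace ℂ (XX (G.ex q.1.2.1 q.1.2.2) (M.n2 q.1.2.1 q.1.2.2)) →L[ℂ]
      EuclideanSpace ℂ (XX (G.ex q.1.2.1 q.1.2.2) (M.n2 q.1.2.1 q.1.2.2)))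
    (hs : Summable (Bk (fun p => b (M.ee s' x p)) (fun p => b (M.ee s x p)) K))
    {ω : Om V} (hω : ∀ p, M.ee s x p ≠ ω) :
    Dl (fun p => b (M.ee s' x p)) (fun p => b (M.ee s x p)) K (b ω) = 0 := by
  apply Dl_zero hs
  intro p
  exact b.orthonormal.2 (hω p)

theorem f1_JJ (hG : G.Good) (s : Bool) {x : V} {l : List ℕ} {e : V} {o : Option ℕ}
    (h : Mat.Ok G x l e o) (v : EuclideanSpace ℂ (XX (G.ex e o) (M.n2 e o))) :
    f1 M D b x (JJ M b s x l e o v) = JJ M b s x l e o (D.MX _ _ (D.lam _ _) v) := by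
  have hne : ∀ s', s' ≠ s → Df M D b x s' (JJ M b s x l e o v) = 0 := by
    intro s' hs'
    apply JJ_zero
    intro X
    apply Dl_basis_zero M b s' s' _ (sum_f M D b hG s' s' x)
    intro p hp
    apply hs'
    have h1 := M.emb_part s' x p.1.1.1 p.1.1.2.1 p.1.1.2.2 p.2
    have h2 := M.emb_part s x l e o X
    have h3 : M.emb s' x p.1.1.1 p.1.1.2.1 p.1.1.2.2 p.2 = M.emb s x l e o X := hp
    rw [h3, h2] at h1
    exact h1.symm
  have heq : Df M D b x s (JJ M b s x l e o v) =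
      JJ M b s x l e o (D.Kf _ _ v) := Dl_JJ_same M b hG s s h _ (sum_f M D b hG s s x) v
  have hsum : (Df M D b x false + Df M D b x true) (JJ M b s x l e o v) =
      JJ M b s x l e o (D.Kf _ _ v) := by
    rw [add_apply]
    cases s
    · rw [heq, hne true (by simp), add_zero]
    · rw [heq, hne false (by simp), zero_add]
  rw [f1, add_apply, hsum, F_JJ M b hG s h, ← map_add]
  congr 1
  rw [Dat.Kf, sub_apply]
  abel

theorem t1_JJ (hG : G.Good) {x : V} {l : List ℕ} {e : V} {o : Option ℕ}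
    (h : Mat.Ok G x l e o) (v : EuclideanSpace ℂ (XX (G.ex e o) (M.n2 e o))) :
    t1 M D b x (JJ M b false x l e o v) = JJ M b true x l e o (D.MX _ _ (D.lam _ _) v) := by
  have heq : D1 M D b x (JJ M b false x l e o v) =
      JJ M b true x l e o (D.Kf _ _ v) := Dl_JJ_same M b hG false true h _ (sum_f M D b hG _ _ x) v
  rw [t1, add_apply, heq, T1_JJ M b hG h, ← map_add]
  congr 1
  rw [Dat.Kf, sub_apply]
  abel

theorem t2_JJ (hG : G.Good) {x : V} {l : List ℕ} {e : V} {o : Option ℕ}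
    (h : Mat.Ok G x l e o) (v : EuclideanSpace ℂ (XX (G.ex e o) (M.n2 e o))) :
    t2 M D b x (JJ M b false x l e o v) = JJ M b true x l e o (D.MX _ _ (D.kap _ _) v) := by
  have heq : D2 M D b x (JJ M b false x l e o v) =
      JJ M b true x l e o (D.K2 _ _ v) := Dl_JJ_same M b hG false true h _ (sum_2 M D b hG _ _ x) v
  rw [t2, add_apply, heq, T2_JJ M b hG h, ← map_add]
  congr 1
  rw [Dat.K2, sub_apply]
  abel

theorem t1_JJ_true (hG : G.Good) {x : V} {l : List ℕ} {e : V} {o : Option ℕ}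
    (v : EuclideanSpace ℂ (XX (G.ex e o) (M.n2 e o))) :
    t1 M D b x (JJ M b true x l e o v) = 0 := by
  apply JJ_zero
  intro X
  rw [t1, add_apply]
  have h1 : gen G b (.T1 x) (b (M.emb true x l e o X)) = 0 := by
    show pop b (liftS s1) (cF G x) _ = _
    rw [pop_basis b _ (bF G x), s1_emb_true]; rfl
  have h2 : D1 M D b x (b (M.emb true x l e o X)) = 0 := by
    apply Dl_basis_zero M b false true _ (sum_f M D b hG _ _ x)
    intro p hp
    have h1 := M.emb_part false x p.1.1.1 p.1.1.2.1 p.1.1.2.2 p.2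
    have h3 : M.emb false x p.1.1.1 p.1.1.2.1 p.1.1.2.2 p.2 = M.emb true x l e o X := hp
    rw [h3, M.emb_part] at h1
    simp at h1
  rw [h1, h2, add_zero]

theorem t2_JJ_true (hG : G.Good) {x : V} {l : List ℕ} {e : V} {o : Option ℕ}
    (v : EuclideanSpace ℂ (XX (G.ex e o) (M.n2 e o))) :
    t2 M D b x (JJ M b true x l e o v) = 0 := by
  apply JJ_zero
  intro X
  rw [t2, add_apply]
  have h1 : gen G b (.T2 x) (b (M.emb true x l e o X)) = 0 := by
    show pop b (liftS s2) (cT2 G x) _ = _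
    rw [pop_basis b _ (bT2 G x), s2_emb_true]; rfl
  have h2 : D2 M D b x (b (M.emb true x l e o X)) = 0 := by
    apply Dl_basis_zero M b false true _ (sum_2 M D b hG _ _ x)
    intro p hp
    have h1 := M.emb_part false x p.1.1.1 p.1.1.2.1 p.1.1.2.2 p.2
    have h3 : M.emb false x p.1.1.1 p.1.1.2.1 p.1.1.2.2 p.2 = M.emb true x l e o X := hp
    rw [h3, M.emb_part] at h1
    simp at h1
  rw [h1, h2, add_zero]

/-- the modified operators agree with the generators outside the matched halves of start `x` -/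
theorem ops_basis (hG : G.Good) {x : V} {ω : Om V}
    (hω : ∀ s l e o X, Mat.Ok G x l e o → M.emb s x l e o X ≠ ω) :
    f1 M D b x (b ω) = gen G b (.F x) (b ω) ∧ t1 M D b x (b ω) = gen G b (.T1 x) (b ω) ∧
      t2 M D b x (b ω) = gen G b (.T2 x) (b ω) := by
  have h1 : ∀ s, ∀ p, M.ee s x p ≠ ω := fun s p => hω s _ _ _ _ p.1.2
  refine ⟨?_, ?_, ?_⟩
  · rw [f1, add_apply, add_apply, Df, Df,
      Dl_basis_zero M b false false _ (sum_f M D b hG _ _ x) (h1 false),
      Dl_basis_zero M b true true _ (sum_f M D b hG _ _ x) (h1 true), add_zero, add_zero]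
  · rw [t1, add_apply, D1, Dl_basis_zero M b false true _ (sum_f M D b hG _ _ x) (h1 false),
      add_zero]
  · rw [t2, add_apply, D2, Dl_basis_zero M b false true _ (sum_2 M D b hG _ _ x) (h1 false),
      add_zero]

end ops

end Run7.h836
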