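import Mathlib
import Pool.Agent.Run7.h836.NonAsh1

set_option autoImplicit false

open scoped Topology InnerProductSpace
open Filter

namespace Run7.h836

universe u v

variable {V : Type} {G : GD V} {H : Type u} [NormedAddCommGroup H] [InnerProductSpace ℂ H]

open Classical in
/-- global `f` weights -/
noncomputable def cG (G : GD V) (ω : Om V) : ℂ := if G.Valid ω then (G.fw ω : ℂ) else 0

theorem bG (G : GD V) : Bdd (cG G) := by
  refine ⟨1, zero_le_one, fun ω => ?_⟩
  unfold cG; split_ifs with h
  · rw [Complex.norm_real, Real.norm_eq_abs, abs_of_nonneg (G.fw_nonneg ω)]; exact h.fw_le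
  · simp

theorem consE_some {x : V} {i : ℕ} {ω ω' : Om V} (h : consE G x i ω = some ω') :
    G.ch x i = some ω.1 ∧ ω'.1 = x ∧ ω'.2.1 = i :: ω.2.1 ∧ ω'.2.2 = ω.2.2 := by
  simp only [consE, PEquiv.coe_mk] at h
  split_ifs at h with h1
  simp only [Option.some.injEq] at h
  subst h
  exact ⟨h1, rfl, rfl, rfl⟩

theorem endp_consE {x : V} {i : ℕ} {ω ω' : Om V} (h : consE G x i ω = some ω') :
    G.endp ω'.1 ω'.2.1 = G.endp ω.1 ω.2.1 := by
  obtain ⟨h1, h2, h3, h4⟩ := consE_some h
  rw [h2, h3, GD.endp_cons, h1]
  rfl

theorem valid_consE {x : V} {i : ℕ} {ω ω' : Om V} (h : consE G x i ω = some ω') :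
    G.Valid ω ↔ G.Valid ω' := by
  have h1 := endp_consE h
  obtain ⟨-, -, -, h4⟩ := consE_some h
  unfold GD.Valid
  rw [h1, h4]

theorem fw_consE {x : V} {i : ℕ} {ω ω' : Om V} (h : consE G x i ω = some ω') :
    G.fw ω' = G.fw ω := by
  have h1 := endp_consE h
  obtain ⟨-, -, -, h4⟩ := consE_some h
  unfold GD.fw GD.nn
  rw [h1, h4]

theorem comm_zero (b : HilbertBasis (Om V) ℂ H) (e : Om V ≃. Om V) {c : Om V → ℂ} (hc : Bdd c)
    (h : ∀ ω ω', e ω = some ω' → c ω ≠ 0 → cG G ω' = cG G ω) :
    dop b (cG G) * pop b e c - pop b e c * dop b (cG G) = 0 := by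
  rw [dop_mul_pop_sub b e hc (bG G)]
  have hz : (fun ω => (e ω).elim 0 (fun ω' => (cG G ω' - cG G ω) * c ω)) = fun _ => 0 := by
    funext ω
    rcases h1 : e ω with _ | ω'
    · rfl
    · simp only [Option.elim_some]
      by_cases hc0 : c ω = 0
      · simp [hc0]
      · simp [h ω ω' h1 hc0]
  rw [hz]
  apply ext_basis b
  intro ω
  rw [pop_basis b e ⟨0, le_rfl, fun _ => by simp⟩]
  cases e ω <;> simp

variable [CompleteSpace H]

theorem cG_sa (b : HilbertBasis (Om V) ℂ H) : IsSelfAdjoint (dop b (cG G)) := by
  apply dop_isSelfAdjoint b (bG G)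
  intro ω
  unfold cG; split_ifs <;> simp

/-- the property of commuting with `f` modulo the compacts -/
def CommK (D a : H →L[ℂ] H) : Prop :=
  IsCompactOperator (D * a - a * D : H →L[ℂ] H) ∧
    IsCompactOperator (D * star a - star a * D : H →L[ℂ] H)

omit [CompleteSpace H] in
theorem compact_mul_left {T : H →L[ℂ] H} (h : IsCompactOperator T) (S : H →L[ℂ] H) :
    IsCompactOperator (S * T : H →L[ℂ] H) := h.clm_comp S

omit [CompleteSpace H] in
theorem compact_mul_right {T : H →L[ℂ] H} (h : IsCompactOperator T) (S : H →L[ℂ] H) :
    IsCompactOperator (T * S : H →L[ℂ] H) := h.comp_clm S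

omit [CompleteSpace H] in
theorem compact_sub {T S : H →L[ℂ] H} (h : IsCompactOperator T) (h' : IsCompactOperator S) :
    IsCompactOperator (T - S : H →L[ℂ] H) := h.sub h'

omit [CompleteSpace H] in
theorem compact_add {T S : H →L[ℂ] H} (h : IsCompactOperator T) (h' : IsCompactOperator S) :
    IsCompactOperator (T + S : H →L[ℂ] H) := h.add h'

omit [CompleteSpace H] in
theorem compact_zero : IsCompactOperator (0 : H →L[ℂ] H) := isCompactOperator_zero

theorem commK_of_zero {D a : H →L[ℂ] H} (hD : IsSelfAdjoint D) (h : D * a - a * D = 0) :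
    CommK D a := by
  refine ⟨by rw [h]; exact compact_zero, ?_⟩
  have : D * star a - star a * D = - star (D * a - a * D) := by
    rw [star_sub, star_mul, star_mul, hD.star_eq]; abel
  rw [this, h]
  simpa using compact_zero (H := H)

theorem commK_gen (hG : G.Good) (b : HilbertBasis (Om V) ℂ H) (g : Gen V) :
    CommK (dop b (cG G)) (gen G b g) := by
  cases g with
  | mu ω' ω =>
    simp only [gen]
    split_ifs with h
    · constructor
      · exact compact_sub (compact_mul_left (isCompactOperator_mu b ω' ω) _)
          (compact_mul_right (isCompactOperator_mu b ω' ω) _)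
      · rw [star_mu]
        exact compact_sub (compact_mul_left (isCompactOperator_mu b ω ω') _)
          (compact_mul_right (isCompactOperator_mu b ω ω') _)
    · exact commK_of_zero (cG_sa b) (by simp)
  | E x s =>
    apply commK_of_zero (cG_sa b)
    apply comm_zero b _ (bE G x s)
    intro ω ω' h _
    simp only [PEquiv.refl_apply, Option.some.injEq] at h
    rw [h]
  | F x =>
    apply commK_of_zero (cG_sa b)
    apply comm_zero b _ (bF G x)
    intro ω ω' h _
    simp only [PEquiv.refl_apply, Option.some.injEq] at h
    rw [h]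
  | T1 x =>
    apply commK_of_zero (cG_sa b)
    apply comm_zero b _ (bF G x)
    intro ω ω' h _
    unfold cG
    rw [fw_s1 h, valid_s1 h]
  | S x i =>
    apply commK_of_zero (cG_sa b)
    apply comm_zero b _ (bS G)
    intro ω ω' h _
    unfold cG
    rw [fw_consE h, valid_consE h]
  | W x =>
    apply commK_of_zero (cG_sa b)
    apply comm_zero b _ (bW G x)
    intro ω ω' h hc
    unfold cG
    unfold cW at hc
    split_ifs at hc with h1
    · rw [fw_sw h, valid_sw h h1.2.2.2]
    · simp at hc
  | T2 x =>
    have hB : Bdd (fun ω => (liftS s2 ω).elim 0 (fun ω' => (cG G ω' - cG G ω) * cT2 G x ω)) := by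
      refine ⟨2, by norm_num, fun ω => ?_⟩
      rcases h1 : liftS s2 ω with _ | ω'
      · simp [h1]
      · simp only [h1, Option.elim_some, norm_mul]
        have h2 := cT2_le G x ω
        have h3 : ‖cG G ω' - cG G ω‖ ≤ 2 := by
          have h4 : ∀ ω : Om V, ‖cG G ω‖ ≤ 1 := by
            intro ω
            unfold cG; split_ifs with h
            · rw [Complex.norm_real, Real.norm_eq_abs, abs_of_nonneg (G.fw_nonneg ω)]
              exact h.fw_le
            · simp
          calc _ ≤ _ := norm_sub_le _ _
            _ ≤ _ := by linarith [h4 ω, h4 ω']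
        calc _ ≤ 2 * 1 := mul_le_mul h3 h2 (norm_nonneg _) (by norm_num)
          _ = 2 := by norm_num
    have hfin : ∀ ε : ℝ, 0 < ε → {ω | ε ≤ ‖(fun ω => (liftS s2 ω).elim 0
        (fun ω' => (cG G ω' - cG G ω) * cT2 G x ω)) ω‖}.Finite := by
      apply hG.finite_decay _ 1
      · intro ω hω
        by_contra hv
        apply hω
        rcases h1 : liftS s2 ω with _ | ω'
        · rfl
        · simp [cT2, hv]
      · intro ω hv
        rcases h1 : liftS s2 ω with _ | ω'
        · simp only [Option.elim_none, norm_zero]; positivity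
        · simp only [Option.elim_some, norm_mul]
          by_cases hf : G.fw ω = 1
          · have : cT2 G x ω = 0 := by unfold cT2; split_ifs <;> simp [hf]
            rw [this]; simp
          · have hv' := valid_s2 h1 hv hf
            have h3 : ‖cG G ω' - cG G ω‖ ≤ 1 / 4 ^ (G.nn ω) := by
              rw [cG, cG, if_pos hv, if_pos hv', ← Complex.ofReal_sub, Complex.norm_real,
                Real.norm_eq_abs]
              exact fw_s2 h1
            calc _ ≤ 1 / 4 ^ (G.nn ω) * 1 :=
                  mul_le_mul h3 (cT2_le G x ω) (norm_nonneg _) (by positivity)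
              _ = _ := by ring
    have key : dop b (cG G) * gen G b (.T2 x) - gen G b (.T2 x) * dop b (cG G) =
        pop b (liftS s2) (fun ω => (liftS s2 ω).elim 0
          (fun ω' => (cG G ω' - cG G ω) * cT2 G x ω)) :=
      dop_mul_pop_sub b _ (bT2 G x) (bG G)
    constructor
    · rw [key]
      exact pop_compact b _ hB hfin
    · have : dop b (cG G) * star (gen G b (.T2 x)) - star (gen G b (.T2 x)) * dop b (cG G) =
          - star (dop b (cG G) * gen G b (.T2 x) - gen G b (.T2 x) * dop b (cG G)) := by
        rw [star_sub, star_mul, star_mul, (cG_sa b).star_eq]; abel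
      rw [this, key]
      exact (star_pop_compact b _ hB hfin).neg

theorem commK_AG (hG : G.Good) (b : HilbertBasis (Om V) ℂ H) {a : H →L[ℂ] H} (ha : a ∈ AG G b) :
    CommK (dop b (cG G)) a := by
  set D := dop b (cG G) with hD
  have hcl : IsClosed {a : H →L[ℂ] H | CommK D a} := by
    have h1 : IsClosed {a : H →L[ℂ] H | IsCompactOperator (D * a - a * D : H →L[ℂ] H)} :=
      isClosed_compact.preimage (by fun_prop : Continuous fun a : H →L[ℂ] H => D * a - a * D)
    have h2 : IsClosed {a : H →L[ℂ] H |
        IsCompactOperator (D * star a - star a * D : H →L[ℂ] H)} :=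
      isClosed_compact.preimage
        (by fun_prop : Continuous fun a : H →L[ℂ] H => D * star a - star a * D)
    exact h1.inter h2
  have hsub : ((NonUnitalStarAlgebra.adjoin ℂ (Set.range (gen G b))) : Set (H →L[ℂ] H)) ⊆
      {a : H →L[ℂ] H | CommK D a} := by
    intro a ha
    induction ha using NonUnitalStarAlgebra.adjoin_induction with
    | mem x hx => obtain ⟨g, rfl⟩ := hx; exact commK_gen hG b g
    | add x y _ _ hx hy =>
      constructor
      · have : D * (x + y) - (x + y) * D = (D * x - x * D) + (D * y - y * D) := by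
          rw [mul_add, add_mul]; abel
        rw [this]; exact compact_add hx.1 hy.1
      · have : D * star (x + y) - star (x + y) * D =
            (D * star x - star x * D) + (D * star y - star y * D) := by
          rw [star_add, mul_add, add_mul]; abel
        rw [this]; exact compact_add hx.2 hy.2
    | zero => exact commK_of_zero (cG_sa b) (by simp)
    | mul x y _ _ hx hy =>
      constructor
      · have : D * (x * y) - x * y * D = (D * x - x * D) * y + x * (D * y - y * D) := by
          rw [sub_mul, mul_sub, mul_assoc, mul_assoc, mul_assoc]; abel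
        rw [this]; exact compact_add (compact_mul_right hx.1 _) (compact_mul_left hy.1 _)
      · have : D * star (x * y) - star (x * y) * D =
            (D * star y - star y * D) * star x + star y * (D * star x - star x * D) := by
          rw [star_mul, sub_mul, mul_sub, mul_assoc, mul_assoc, mul_assoc]; abel
        rw [this]; exact compact_add (compact_mul_right hy.2 _) (compact_mul_left hx.2 _)
    | smul r x _ hx =>
      constructor
      · have : D * (r • x) - (r • x) * D = r • (D * x - x * D) := by
          rw [mul_smul_comm, smul_mul_assoc, smul_sub]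
        rw [this]; exact hx.1.smul r
      · have : D * star (r • x) - star (r • x) * D = star r • (D * star x - star x * D) := by
          rw [star_smul, mul_smul_comm, smul_mul_assoc, smul_sub]
        rw [this]; exact hx.2.smul (star r)
    | star x _ hx => exact ⟨hx.2, by rw [star_star]; exact hx.1⟩
  exact closure_minimal hsub hcl ha

end Run7.h836
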