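import Mathlib
import Pool.Agent.Run7.h836.NonAsh2

set_option autoImplicit false

open scoped Topology InnerProductSpace
open Filter

namespace Run7.h836

universe u v

variable {V : Type} {G : GD V} {H : Type u} [NormedAddCommGroup H] [InnerProductSpace ℂ H]
  [CompleteSpace H]

omit [InnerProductSpace ℂ H] [CompleteSpace H] [NormedAddCommGroup H] in
theorem s1_none {r : T3} (h : s1 r = none) (hr : r.2.1 = false) : idx r = 0 := by
  obtain ⟨_ | _, _ | _, _ | a⟩ := r <;> simp_all [s1, idx]

theorem s1_symm_none {r : T3} (h : s1.symm r = none) (hr : r.2.1 = true) : idx r = 0 := by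
  obtain ⟨_ | _, _ | _, _ | a⟩ := r <;> simp_all [s1, idx, PEquiv.symm]

theorem s2_ne_none {r : T3} (hr : r.2.1 = false) : s2 r ≠ none := by
  obtain ⟨_ | _, _ | _, a⟩ := r <;> simp_all [s2]

theorem s2_symm_ne_none {r : T3} (hr : r.2.1 = true) : s2.symm r ≠ none := by
  obtain ⟨_ | _, _ | _, a⟩ := r <;> simp_all [s2, PEquiv.symm]

theorem liftS_eq_none {e : T3 ≃. T3} {ω : Om V} (h : liftS e ω = none) : e ω.2.2.2 = none := by
  simpa [liftS] using h

theorem liftS_symm_eq_none {e : T3 ≃. T3} {ω : Om V} (h : (liftS e).symm ω = none) :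
    e.symm ω.2.2.2 = none := by
  have : (liftS e).symm ω = (e.symm ω.2.2.2).map fun r => (ω.1, ω.2.1, ω.2.2.1, r) := rfl
  rw [this] at h
  simpa using h

theorem fw_of_idx {ω : Om V} (h : idx ω.2.2.2 = 0) : G.fw ω = 0 := by
  unfold GD.fw wt; rw [h]; simp

theorem cE_of_T {e : T3 ≃. T3} {ω ω' : Om V} (h : liftS e ω = some ω') (x : V) :
    (ω'.1 = x ↔ ω.1 = x) := by rw [(liftS_some h).1]

theorem s1_q {ω ω' : Om V} (h : liftS s1 ω = some ω') :
    ω.2.2.2.2.1 = false ∧ ω'.2.2.2.2.1 = true :=
  ⟨(s1_spec (liftS_some h).2.2.2).2.1, (s1_spec (liftS_some h).2.2.2).2.2.1⟩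

theorem s2_q {ω ω' : Om V} (h : liftS s2 ω = some ω') :
    ω.2.2.2.2.1 = false ∧ ω'.2.2.2.2.1 = true :=
  ⟨(s2_spec (liftS_some h).2.2.2).2.1, (s2_spec (liftS_some h).2.2.2).2.2.1⟩

omit [CompleteSpace H] in
/-- `Q T P = T` for an operator from the `p` part to the `q` part -/
theorem QTP (b : HilbertBasis (Om V) ℂ H) (x : V) (e : Om V ≃. Om V) {c : Om V → ℂ} (hc : Bdd c)
    (h : ∀ ω ω', e ω = some ω' → c ω ≠ 0 → cE G x false ω = 1 ∧ cE G x true ω' = 1) :
    dop b (cE G x true) * pop b e c * dop b (cE G x false) = pop b e c := by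
  apply ext_basis b
  intro ω
  rw [mulA, mulA, dop_basis b (bE G x false), map_smul, map_smul, pop_basis b e hc]
  rcases h1 : e ω with _ | ω'
  · simp
  · simp only [Option.elim_some, map_smul, dop_basis b (bE G x true), smul_smul]
    by_cases hc0 : c ω = 0
    · simp [hc0]
    · obtain ⟨h2, h3⟩ := h ω ω' h1 hc0
      simp [h2, h3]

omit [CompleteSpace H] in
theorem cT1_ok {x : V} {ω ω' : Om V} (h : liftS s1 ω = some ω') (hc : cF G x ω ≠ 0) :
    cE G x false ω = 1 ∧ cE G x true ω' = 1 := by
  unfold cF at hc
  split_ifs at hc with h1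
  · unfold cE
    rw [if_pos ⟨h1.1, h1.2, (s1_q h).1⟩, if_pos ⟨(valid_s1 h).1 h1.1, (cE_of_T h x).2 h1.2,
      (s1_q h).2⟩]
    simp
  · simp at hc

theorem cT2_ok {x : V} {ω ω' : Om V} (h : liftS s2 ω = some ω') (hc : cT2 G x ω ≠ 0) :
    cE G x false ω = 1 ∧ cE G x true ω' = 1 := by
  unfold cT2 at hc
  split_ifs at hc with h1
  · have hf : G.fw ω ≠ 1 := by
      intro hf
      rw [hf] at hc
      simp at hc
    unfold cE
    rw [if_pos ⟨h1.1, h1.2, (s2_q h).1⟩, if_pos ⟨valid_s2 h h1.1 hf, (cE_of_T h x).2 h1.2,
      (s2_q h).2⟩]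
    simp
  · simp at hc

theorem cert_graph (hG : G.Good) (b : HilbertBasis (Om V) ℂ H) (x : V) :
    Cert (AG G b : Set (H →L[ℂ] H)) (gen G b (.E x false)) (gen G b (.E x true))
      (gen G b (.F x)) (gen G b (.T1 x)) (gen G b (.T2 x)) where
  P_mem := gen_mem G b _
  Q_mem := gen_mem G b _
  F_mem := gen_mem G b _
  T₁_mem := gen_mem G b _
  T₂_mem := gen_mem G b _
  P_proj := dop_isStarProjection b fun ω => by unfold cE; split_ifs <;> simp
  Q_proj := dop_isStarProjection b fun ω => by unfold cE; split_ifs <;> simp
  F_sa := dop_isSelfAdjoint b (bF G x) fun ω => by unfold cF; split_ifs <;> simp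
  F_norm := gen_norm_le G b _
  FP := by
    show dop b (cF G x) * dop b (cE G x false) = dop b (cE G x false) * dop b (cF G x)
    rw [dop_mul b (bF G x) (bE G x _), dop_mul b (bE G x _) (bF G x)]
    congr 1; funext ω; ring
  FQ := by
    show dop b (cF G x) * dop b (cE G x true) = dop b (cE G x true) * dop b (cF G x)
    rw [dop_mul b (bF G x) (bE G x _), dop_mul b (bE G x _) (bF G x)]
    congr 1; funext ω; ring
  T₁_eq := QTP b x _ (bF G x) fun ω ω' h hc => cT1_ok h hc
  T₂_eq := QTP b x _ (bT2 G x) fun ω ω' h hc => cT2_ok h hc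
  T₁_norm := gen_norm_le G b _
  T₂_norm := gen_norm_le G b _
  comm_P := by
    intro a ha
    have h1 := (commK_AG hG b ha).1
    have hFP : gen G b (.F x) * gen G b (.E x false) = dop b (cG G) * gen G b (.E x false) := by
      show dop b (cF G x) * dop b (cE G x false) = dop b (cG G) * dop b (cE G x false)
      rw [dop_mul b (bF G x) (bE G x _), dop_mul b (bG G) (bE G x _)]
      congr 1; funext ω
      unfold cF cG cE
      split_ifs <;> simp_all
    have hPF : gen G b (.E x false) * gen G b (.F x) = gen G b (.E x false) * dop b (cG G) := by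
      show dop b (cE G x false) * dop b (cF G x) = dop b (cE G x false) * dop b (cG G)
      rw [dop_mul b (bE G x _) (bF G x), dop_mul b (bE G x _) (bG G)]
      congr 1; funext ω
      unfold cF cG cE
      split_ifs <;> simp_all
    have hcom : dop b (cG G) * gen G b (.E x false) = gen G b (.E x false) * dop b (cG G) := by
      show dop b (cG G) * dop b (cE G x false) = dop b (cE G x false) * dop b (cG G)
      rw [dop_mul b (bG G) (bE G x _), dop_mul b (bE G x _) (bG G)]
      congr 1; funext ω; ring
    have : gen G b (.F x) * (gen G b (.E x false) * a * gen G b (.E x false)) -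
        gen G b (.E x false) * a * gen G b (.E x false) * gen G b (.F x) =
        gen G b (.E x false) * (dop b (cG G) * a - a * dop b (cG G)) * gen G b (.E x false) := by
      rw [← mul_assoc, ← mul_assoc, hFP, mul_assoc _ _ (gen G b (.F x)), hPF, hcom, ← hcom]
      rw [mul_sub, sub_mul, hcom]
      simp only [mul_assoc, hcom]
    rw [this]
    exact compact_mul_right (compact_mul_left h1 _) _
  comm_Q := by
    intro a ha
    have h1 := (commK_AG hG b ha).1
    have hFP : gen G b (.F x) * gen G b (.E x true) = dop b (cG G) * gen G b (.E x true) := by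
      show dop b (cF G x) * dop b (cE G x true) = dop b (cG G) * dop b (cE G x true)
      rw [dop_mul b (bF G x) (bE G x _), dop_mul b (bG G) (bE G x _)]
      congr 1; funext ω
      unfold cF cG cE
      split_ifs <;> simp_all
    have hPF : gen G b (.E x true) * gen G b (.F x) = gen G b (.E x true) * dop b (cG G) := by
      show dop b (cE G x true) * dop b (cF G x) = dop b (cE G x true) * dop b (cG G)
      rw [dop_mul b (bE G x _) (bF G x), dop_mul b (bE G x _) (bG G)]
      congr 1; funext ω
      unfold cF cG cE
      split_ifs <;> simp_all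
    have hcom : dop b (cG G) * gen G b (.E x true) = gen G b (.E x true) * dop b (cG G) := by
      show dop b (cG G) * dop b (cE G x true) = dop b (cE G x true) * dop b (cG G)
      rw [dop_mul b (bG G) (bE G x _), dop_mul b (bE G x _) (bG G)]
      congr 1; funext ω; ring
    have : gen G b (.F x) * (gen G b (.E x true) * a * gen G b (.E x true)) -
        gen G b (.E x true) * a * gen G b (.E x true) * gen G b (.F x) =
        gen G b (.E x true) * (dop b (cG G) * a - a * dop b (cG G)) * gen G b (.E x true) := by
      rw [← mul_assoc, ← mul_assoc, hFP, mul_assoc _ _ (gen G b (.F x)), hPF, hcom, ← hcom]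
      rw [mul_sub, sub_mul, hcom]
      simp only [mul_assoc, hcom]
    rw [this]
    exact compact_mul_right (compact_mul_left h1 _) _
  c₁ := by
    have : star (gen G b (.T1 x)) * gen G b (.T1 x) =
        gen G b (.F x) * gen G b (.F x) * gen G b (.E x false) := by
      show star (pop b (liftS s1) (cF G x)) * pop b (liftS s1) (cF G x) =
        dop b (cF G x) * dop b (cF G x) * dop b (cE G x false)
      rw [star_pop_mul_self b _ (bF G x), dop_mul b (bF G x) (bF G x),
        dop_mul b ((bF G x).mul (bF G x)) (bE G x _)]
      congr 1; funext ω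
      rcases h1 : liftS s1 ω with _ | ω'
      · simp only [Option.elim_none]
        unfold cE
        split_ifs with h2
        · unfold cF
          rw [fw_of_idx (s1_none (liftS_eq_none h1) h2.2.2)]
          simp
        · simp
      · simp only [Option.elim_some]
        unfold cE cF
        have := (s1_q h1).1
        split_ifs <;> simp_all
    rw [this, sub_self]
    exact compact_zero
  c₂ := by
    have : gen G b (.T1 x) * star (gen G b (.T1 x)) =
        gen G b (.F x) * gen G b (.F x) * gen G b (.E x true) := by
      show pop b (liftS s1) (cF G x) * star (pop b (liftS s1) (cF G x)) =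
        dop b (cF G x) * dop b (cF G x) * dop b (cE G x true)
      rw [pop_mul_star_self b _ (bF G x), dop_mul b (bF G x) (bF G x),
        dop_mul b ((bF G x).mul (bF G x)) (bE G x _)]
      congr 1; funext ω
      rcases h1 : (liftS s1).symm ω with _ | ω'
      · simp only [Option.elim_none]
        unfold cE
        split_ifs with h2
        · unfold cF
          rw [fw_of_idx (s1_symm_none (liftS_symm_eq_none h1) h2.2.2)]
          simp
        · simp
      · simp only [Option.elim_some]
        rw [PEquiv.eq_some_iff] at h1
        unfold cE cF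
        rw [fw_s1 h1, valid_s1 h1, (liftS_some h1).1]
        have := (s1_q h1).2
        split_ifs <;> simp_all
    rw [this, sub_self]
    exact compact_zero
  c₃ := by
    have hB : Bdd (fun ω => cF G x ω * cE G x false ω) := (bF G x).mul (bE G x _)
    have : star (gen G b (.T2 x)) * gen G b (.T2 x) =
        (gen G b (.E x false) - gen G b (.F x) * gen G b (.E x false)) *
          (gen G b (.E x false) - gen G b (.F x) * gen G b (.E x false)) := by
      show star (pop b (liftS s2) (cT2 G x)) * pop b (liftS s2) (cT2 G x) =
        (dop b (cE G x false) - dop b (cF G x) * dop b (cE G x false)) *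
        (dop b (cE G x false) - dop b (cF G x) * dop b (cE G x false))
      rw [star_pop_mul_self b _ (bT2 G x), dop_mul b (bF G x) (bE G x _),
        dop_sub b (bE G x _) hB, dop_mul b ((bE G x _).sub hB) ((bE G x _).sub hB)]
      congr 1; funext ω
      rcases h1 : liftS s2 ω with _ | ω'
      · simp only [Option.elim_none]
        unfold cE
        split_ifs with h2
        · exact absurd (liftS_eq_none h1) (s2_ne_none h2.2.2)
        · simp
      · simp only [Option.elim_some]
        unfold cE cF cT2
        have := (s2_q h1).1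
        split_ifs <;> simp_all
    rw [this, sub_self]
    exact compact_zero
  c₄ := by
    have hB : Bdd (fun ω => cF G x ω * cE G x true ω) := (bF G x).mul (bE G x _)
    have hB2 : Bdd (fun ω => ((liftS s2).symm ω).elim 0
        (fun ω' => cT2 G x ω' * star (cT2 G x ω'))) := ((bT2 G x).mul (bT2 G x).star).elim _
    have hB3 := ((bE G x true).sub hB).mul ((bE G x true).sub hB)
    have : gen G b (.T2 x) * star (gen G b (.T2 x)) -
        (gen G b (.E x true) - gen G b (.F x) * gen G b (.E x true)) *
          (gen G b (.E x true) - gen G b (.F x) * gen G b (.E x true)) =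
        dop b (fun ω => ((liftS s2).symm ω).elim 0
          (fun ω' => cT2 G x ω' * star (cT2 G x ω')) -
          (cE G x true ω - cF G x ω * cE G x true ω) *
            (cE G x true ω - cF G x ω * cE G x true ω)) := by
      show pop b (liftS s2) (cT2 G x) * star (pop b (liftS s2) (cT2 G x)) -
        (dop b (cE G x true) - dop b (cF G x) * dop b (cE G x true)) *
        (dop b (cE G x true) - dop b (cF G x) * dop b (cE G x true)) = _
      rw [pop_mul_star_self b _ (bT2 G x), dop_mul b (bF G x) (bE G x _),
        dop_sub b (bE G x _) hB, dop_mul b ((bE G x _).sub hB) ((bE G x _).sub hB),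
        dop_sub b hB2 hB3]
    rw [this]
    have h0 : ∀ ω : Om V, ¬ (G.Valid ω ∧ ω.1 = x) → ((liftS s2).symm ω).elim 0
          (fun ω' => cT2 G x ω' * star (cT2 G x ω')) -
          (cE G x true ω - cF G x ω * cE G x true ω) *
            (cE G x true ω - cF G x ω * cE G x true ω) = 0 := by
      intro ω hv
      have h2 : cE G x true ω = 0 := by
        unfold cE; rw [if_neg]; rintro ⟨h3, h4, -⟩; exact hv ⟨h3, h4⟩
      rw [h2]
      rcases h1 : (liftS s2).symm ω with _ | ω'
      · simp
      · rw [PEquiv.eq_some_iff] at h1
        have : cT2 G x ω' = 0 := by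
          by_contra hne
          have := (cT2_ok h1 hne).2
          rw [h2] at this
          exact zero_ne_one this
        simp [this]
    apply pop_compact b _ (hB2.sub hB3)
    apply hG.finite_decay _ 2
    · intro ω hne
      by_contra hv
      exact hne (h0 ω fun h => hv h.1)
    · intro ω hv
      by_cases hx : ω.1 = x
      swap
      · rw [h0 ω fun h => hx h.2, norm_zero]; positivity
      rcases h1 : (liftS s2).symm ω with _ | ω'
      · by_cases hq : ω.2.2.2.2.1 = true
        · exact absurd (liftS_symm_eq_none h1) (s2_symm_ne_none hq)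
        · have : cE G x true ω = 0 := by
            unfold cE; rw [if_neg]; rintro ⟨-, -, h4⟩; exact hq h4
          simp [this]
          positivity
      · rw [PEquiv.eq_some_iff] at h1
        simp only [Option.elim_some]
        have hE : cE G x true ω = 1 := by
          unfold cE; rw [if_pos ⟨hv, hx, (s2_q h1).2⟩]
        have hF : cF G x ω = (G.fw ω : ℂ) := by unfold cF; rw [if_pos ⟨hv, hx⟩]
        have hn : G.nn ω = G.nn ω' := nn_congr (liftS_some h1).1 (liftS_some h1).2.1
          (liftS_some h1).2.2.1
        have hd := fw_s2 (G := G) h1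
        rw [hE, hF]
        by_cases hv' : G.Valid ω'
        · have hT : cT2 G x ω' = ((1 - G.fw ω' : ℝ) : ℂ) := by
            unfold cT2; rw [if_pos ⟨hv', by rw [← (liftS_some h1).1]; exact hx⟩]
          rw [hT]
          have e1 : ((1 - G.fw ω' : ℝ) : ℂ) * star ((1 - G.fw ω' : ℝ) : ℂ) -
              (1 - (G.fw ω : ℂ) * 1) * (1 - (G.fw ω : ℂ) * 1) =
              (((1 - G.fw ω') * (1 - G.fw ω') - (1 - G.fw ω) * (1 - G.fw ω) : ℝ) : ℂ) := by
            simp
          rw [e1, Complex.norm_real, Real.norm_eq_abs, hn]
          have e2 : (1 - G.fw ω') * (1 - G.fw ω') - (1 - G.fw ω) * (1 - G.fw ω) =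
              (G.fw ω - G.fw ω') * (2 - G.fw ω - G.fw ω') := by ring
          rw [e2, abs_mul]
          have a1 := G.fw_nonneg ω
          have a2 := G.fw_nonneg ω'
          have a3 := hv.fw_le
          have a4 := hv'.fw_le
          have e3 : |2 - G.fw ω - G.fw ω'| ≤ 2 := by rw [abs_le]; constructor <;> linarith
          calc _ ≤ 1 / 4 ^ G.nn ω' * 2 := mul_le_mul hd e3 (abs_nonneg _) (by positivity)
            _ = 2 / 4 ^ G.nn ω' := by ring
        · have hT : cT2 G x ω' = 0 := by
            unfold cT2; rw [if_neg]; rintro ⟨h2, -⟩; exact hv' h2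
          rw [hT]
          have hf1 : G.fw ω = 1 := by
            obtain ⟨y, l, o, side, s, a⟩ := ω
            obtain ⟨y', l', o', side', s', a'⟩ := ω'
            obtain ⟨h5, h6, h7, h8⟩ := liftS_some h1
            obtain ⟨h9, h10, h11, h12⟩ := s2_spec h8
            simp only at h5 h6 h7 h9 h10 h11 h12
            subst h5 h6 h7 h9 h10 h11 h12
            obtain ⟨e, he, ho, ha⟩ := hv
            simp only at he ha
            have hn2 : G.nn (y, l, o, side', true, a') = G.ex e o := by simp [GD.nn, he]
            unfold GD.fw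
            rw [hn2]
            cases side'
            · have : ¬ (a' < 2 * 4 ^ G.ex e o) := by
                intro hlt
                exact hv' ⟨e, he, ho, by simpa [dimS] using hlt⟩
              simp only [dimS] at ha
              have ha' : a' = 2 * 4 ^ G.ex e o := by omega
              simp only [idx]
              rw [ha']
              exact wt_last _
            · exfalso
              apply hv'
              refine ⟨e, he, ho, ?_⟩
              simp only [dimS] at ha ⊢
              omega
          simp [hf1]
          positivity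

end Run7.h836
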