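import Mathlib
import Pool.Agent.Run7.h836.Base

set_option autoImplicit false

/-!
Finite subsets of the socle lie in finite dimensional invariant subspaces.
-/

open scoped Topology InnerProductSpace
open Filter

namespace Run7.h836

universe u v

variable {H : Type u} [NormedAddCommGroup H] [InnerProductSpace ℂ H] [CompleteSpace H]

/-- invariance -/
def BInv (B : NonUnitalStarSubalgebra ℂ (H →L[ℂ] H)) (W : Submodule ℂ H) : Prop :=
  ∀ T ∈ B, ∀ ξ ∈ W, T ξ ∈ W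

theorem BInv.orth {B : NonUnitalStarSubalgebra ℂ (H →L[ℂ] H)} {W : Submodule ℂ H}
    (hW : BInv B W) : BInv B Wᗮ := by
  intro T hT ξ hξ
  rw [Submodule.mem_orthogonal] at hξ ⊢
  intro y hy
  have h1 : ⟪y, T ξ⟫_ℂ = ⟪(star T) y, ξ⟫_ℂ := by
    rw [ContinuousLinearMap.star_eq_adjoint, ContinuousLinearMap.adjoint_inner_left]
  rw [h1]
  exact hξ _ (hW (star T) (star_mem hT) y hy)

theorem BInv.inf {B : NonUnitalStarSubalgebra ℂ (H →L[ℂ] H)} {W W' : Submodule ℂ H}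
    (hW : BInv B W) (hW' : BInv B W') : BInv B (W ⊓ W') :=
  fun T hT ξ hξ => ⟨hW T hT ξ hξ.1, hW' T hT ξ hξ.2⟩

theorem FinRk.star {T : H →L[ℂ] H} (hT : FinRk T) : FinRk (star T) := by
  unfold FinRk at hT ⊢
  have h1 : LinearMap.range ((Star.star T : H →L[ℂ] H) : H →ₗ[ℂ] H) ≤
      (LinearMap.range (T : H →ₗ[ℂ] H)).map ((Star.star T : H →L[ℂ] H) : H →ₗ[ℂ] H) := by
    rintro _ ⟨x, rfl⟩
    have := hT
    obtain ⟨y, hy, z, hz, hyz⟩ := Submodule.exists_add_mem_mem_orthogonal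
      (K := LinearMap.range (T : H →ₗ[ℂ] H)) x
    refine ⟨y, hy, ?_⟩
    have hz0 : (Star.star T : H →L[ℂ] H) z = 0 := by
      apply ext_inner_left ℂ
      intro w
      rw [ContinuousLinearMap.star_eq_adjoint, ContinuousLinearMap.adjoint_inner_right,
        inner_zero_right]
      exact hz _ ⟨w, rfl⟩
    rw [hyz, map_add]
    show (Star.star T : H →L[ℂ] H) y = (Star.star T : H →L[ℂ] H) y + (Star.star T : H →L[ℂ] H) z
    rw [hz0, add_zero]
  exact Submodule.finiteDimensional_of_le h1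

theorem finDim_of_sep (B : NonUnitalStarSubalgebra ℂ (H →L[ℂ] H)) {N : ℕ} (hsub : SubhomOn B N)
    {T : H →L[ℂ] H} (hT : T ∈ B) (hTf : FinRk T) (d : ℕ) : ∀ M : Submodule ℂ H,
    IsClosed (M : Set H) → BInv B M →
    (∀ W : Submodule ℂ H, W ≤ M → IsClosed (W : Set H) → BInv B W → W ≠ ⊥ → ∃ ξ ∈ W, T ξ ≠ 0) →
    Module.finrank ℂ (M.map (T : H →ₗ[ℂ] H)) = d → FiniteDimensional ℂ M := by
  have hfin : ∀ W : Submodule ℂ H, FiniteDimensional ℂ (W.map (T : H →ₗ[ℂ] H)) := by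
    intro W
    have := hTf
    unfold FinRk at this
    exact Submodule.finiteDimensional_of_le (LinearMap.map_le_range)
  have hpos : ∀ W : Submodule ℂ H, (∃ ξ ∈ W, T ξ ≠ 0) →
      0 < Module.finrank ℂ (W.map (T : H →ₗ[ℂ] H)) := by
    rintro W ⟨ξ, hξ, hne⟩
    have := hfin W
    rw [Module.finrank_pos_iff_exists_ne_zero]
    exact ⟨⟨T ξ, ⟨ξ, hξ, rfl⟩⟩, fun h => hne (congrArg Subtype.val h)⟩
  induction d using Nat.strong_induction_on with
  | _ d ih =>
    intro M hMc hMi hsep hd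
    by_cases hirr : ∀ W' : Submodule ℂ H, W' ≤ M → IsClosed (W' : Set H) → BInv B W' →
        W' = ⊥ ∨ W' = M
    · by_cases hM0 : M = ⊥
      · rw [hM0]; infer_instance
      · obtain ⟨ξ, hξ, hne⟩ := hsep M le_rfl hMc hMi hM0
        have h := hsub M hMc hMi ⟨T, hT, ξ, hξ, hne⟩ hirr
        exact Module.rank_lt_aleph0_iff.1 (h.trans_lt (Cardinal.natCast_lt_aleph0))
    · push Not at hirr
      obtain ⟨W, hWM, hWc, hWi, hW0, hWne⟩ := hirr
      have hWcomp : CompleteSpace W := hWc.completeSpace_coe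
      have hsup : W ⊔ Wᗮ ⊓ M = M := Submodule.sup_orthogonal_inf_of_hasOrthogonalProjection hWM
      set W' := Wᗮ ⊓ M with hW'
      have hW'c : IsClosed (W' : Set H) := by
        rw [hW', Submodule.coe_inf]
        exact W.isClosed_orthogonal.inter hMc
      have hW'i : BInv B W' := hWi.orth.inf hMi
      have hW'0 : W' ≠ ⊥ := by
        intro h
        rw [h, sup_bot_eq] at hsup
        exact hWne hsup
      have hW'M : W' ≤ M := inf_le_right
      have hsepW : ∀ W₁ : Submodule ℂ H, W₁ ≤ W → IsClosed (W₁ : Set H) → BInv B W₁ → W₁ ≠ ⊥ →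
          ∃ ξ ∈ W₁, T ξ ≠ 0 := fun W₁ h1 => hsep W₁ (h1.trans hWM)
      have hsepW' : ∀ W₁ : Submodule ℂ H, W₁ ≤ W' → IsClosed (W₁ : Set H) → BInv B W₁ →
          W₁ ≠ ⊥ → ∃ ξ ∈ W₁, T ξ ≠ 0 := fun W₁ h1 => hsep W₁ (h1.trans hW'M)
      have hdisj : Disjoint (W.map (T : H →ₗ[ℂ] H)) (W'.map (T : H →ₗ[ℂ] H)) := by
        have h1 : W.map (T : H →ₗ[ℂ] H) ≤ W := by
          rintro _ ⟨x, hx, rfl⟩; exact hWi T hT x hx
        have h2 : W'.map (T : H →ₗ[ℂ] H) ≤ Wᗮ := by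
          rintro _ ⟨x, hx, rfl⟩; exact (hW'i T hT x hx).1
        exact (W.isCompl_orthogonal.disjoint).mono h1 h2
      have := hfin W
      have := hfin W'
      have := hfin M
      have hsum : Module.finrank ℂ (W.map (T : H →ₗ[ℂ] H)) +
          Module.finrank ℂ (W'.map (T : H →ₗ[ℂ] H)) = Module.finrank ℂ (M.map (T : H →ₗ[ℂ] H)) := by
        have h := Submodule.finrank_sup_add_finrank_inf_eq (W.map (T : H →ₗ[ℂ] H))
          (W'.map (T : H →ₗ[ℂ] H))
        rw [disjoint_iff.1 hdisj, ← Submodule.map_sup, hsup, finrank_bot, add_zero] at h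
        exact h.symm
      have p1 := hpos W (hsep W hWM hWc hWi hW0)
      have p2 := hpos W' (hsep W' hW'M hW'c hW'i hW'0)
      have f1 := ih _ (by omega) W hWc hWi hsepW rfl
      have f2 := ih _ (by omega) W' hW'c hW'i hsepW' rfl
      rw [← hsup]
      infer_instance

/-- each vector in the range of a finite rank element lies in a finite dimensional invariant
subspace -/
theorem exists_inv_vec (B : NonUnitalStarSubalgebra ℂ (H →L[ℂ] H)) {N : ℕ} (hsub : SubhomOn B N)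
    {S : H →L[ℂ] H} (hS : S ∈ B) (hSf : FinRk S) :
    ∃ W : Submodule ℂ H, Inv B W ∧ LinearMap.range (S : H →ₗ[ℂ] H) ≤ W := by
  set T := star S with hTd
  have hT : T ∈ B := star_mem hS
  have hTf : FinRk T := hSf.star
  let Z : Submodule ℂ H :=
    { carrier := {x | T x = 0 ∧ ∀ b ∈ B, T (b x) = 0}
      add_mem' := fun {x y} hx hy => ⟨by rw [map_add, hx.1, hy.1, add_zero],
        fun b hb => by rw [map_add, map_add, hx.2 b hb, hy.2 b hb, add_zero]⟩
      zero_mem' := ⟨map_zero _, fun b _ => by rw [map_zero, map_zero]⟩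
      smul_mem' := fun r x hx => ⟨by rw [map_smul, hx.1, smul_zero],
        fun b hb => by rw [map_smul, map_smul, hx.2 b hb, smul_zero]⟩ }
  have hZi : BInv B Z := fun b hb ξ hξ =>
    ⟨hξ.2 b hb, fun c hc => hξ.2 (c * b) (mul_mem hc hb)⟩
  refine ⟨Zᗮ, ⟨?_, hZi.orth⟩, ?_⟩
  · refine finDim_of_sep B hsub hT hTf _ Zᗮ Z.isClosed_orthogonal hZi.orth ?_ rfl
    intro W hW _ hWi hW0
    by_contra hcon
    push Not at hcon
    apply hW0
    have hWZ : W ≤ Z := fun ξ hξ => ⟨hcon ξ hξ, fun b hb => hcon _ (hWi b hb ξ hξ)⟩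
    rw [eq_bot_iff]
    intro x hx
    have h1 := hWZ hx
    have h2 := hW hx
    rw [Submodule.mem_orthogonal] at h2
    exact (Submodule.mem_bot ℂ).2 (inner_self_eq_zero.1 (h2 x h1))
  · rintro _ ⟨x, rfl⟩
    rw [Submodule.mem_orthogonal]
    intro y hy
    show ⟪y, S x⟫_ℂ = 0
    have h1 : ⟪T y, x⟫_ℂ = ⟪y, S x⟫_ℂ := by
      rw [hTd, ContinuousLinearMap.star_eq_adjoint, ContinuousLinearMap.adjoint_inner_left]
    rw [← h1, hy.1, inner_zero_left]

theorem soc_inv (B : NonUnitalStarSubalgebra ℂ (H →L[ℂ] H)) : BInv B (Soc B) := by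
  intro S hS
  have h : Soc B ≤ (Soc B).comap (S : H →ₗ[ℂ] H) := by
    refine iSup₂_le fun T hT => ?_
    rintro _ ⟨x, rfl⟩
    have h1 : LinearMap.range ((S * T : H →L[ℂ] H) : H →ₗ[ℂ] H) ≤ Soc B := by
      refine le_iSup₂_of_le (S * T) ⟨mul_mem hS hT.1, ?_⟩ le_rfl
      have h2 : LinearMap.range ((S * T : H →L[ℂ] H) : H →ₗ[ℂ] H) ≤
          (LinearMap.range (T : H →ₗ[ℂ] H)).map (S : H →ₗ[ℂ] H) := by
        rintro _ ⟨y, rfl⟩
        exact ⟨T y, ⟨y, rfl⟩, rfl⟩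
      have := hT.2
      unfold FinRk at this ⊢
      exact Submodule.finiteDimensional_of_le h2
    exact h1 ⟨x, rfl⟩
  exact fun ξ hξ => h hξ

/-- PIECE 2a. Finite subsets of the socle lie in finite dimensional invariant subspaces. -/
theorem exists_inv_of_subset_soc' (B : NonUnitalStarSubalgebra ℂ (H →L[ℂ] H))
    {N : ℕ} (hsub : SubhomOn B N) (F : Finset H)
    (hF : (F : Set H) ⊆ Soc B) : ∃ W : Submodule ℂ H, Inv B W ∧ (F : Set H) ⊆ W ∧ W ≤ Soc B := by
  have hbot : Inv B (⊥ : Submodule ℂ H) := by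
    refine ⟨inferInstance, fun T _ ξ hξ => ?_⟩
    rw [Submodule.mem_bot] at hξ ⊢
    rw [hξ, map_zero]
  have hsup : ∀ W W' : Submodule ℂ H, Inv B W → Inv B W' → Inv B (W ⊔ W') := by
    intro W W' h h'
    have := h.1
    have := h'.1
    refine ⟨inferInstance, fun T hT ξ hξ => ?_⟩
    obtain ⟨x, hx, y, hy, rfl⟩ := Submodule.mem_sup.1 hξ
    rw [map_add]
    exact Submodule.add_mem_sup (h.2 T hT x hx) (h'.2 T hT y hy)
  -- the vectors in finite dimensional invariant subspaces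
  let Z : Submodule ℂ H :=
    { carrier := {x | ∃ W : Submodule ℂ H, Inv B W ∧ x ∈ W}
      add_mem' := by
        rintro x y ⟨W, hW, hx⟩ ⟨W', hW', hy⟩
        exact ⟨W ⊔ W', hsup _ _ hW hW', Submodule.add_mem_sup hx hy⟩
      zero_mem' := ⟨⊥, hbot, Submodule.zero_mem _⟩
      smul_mem' := by
        rintro r x ⟨W, hW, hx⟩
        exact ⟨W, hW, W.smul_mem r hx⟩ }
  have hSZ : Soc B ≤ Z := by
    refine iSup₂_le fun T hT => ?_
    rintro _ ⟨x, rfl⟩
    obtain ⟨W, hW, hr⟩ := exists_inv_vec B hsub hT.1 hT.2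
    exact ⟨W, hW, hr ⟨x, rfl⟩⟩
  have hmain : ∀ F : Finset H, (F : Set H) ⊆ Z → ∃ W : Submodule ℂ H, Inv B W ∧ (F : Set H) ⊆ W := by
    classical
    intro F
    induction F using Finset.induction_on with
    | empty => intro _; exact ⟨⊥, hbot, by simp⟩
    | insert x F _ ih =>
      intro h
      rw [Finset.coe_insert, Set.insert_subset_iff] at h
      obtain ⟨W, hW, hFW⟩ := ih h.2
      obtain ⟨W', hW', hx⟩ := h.1
      refine ⟨W ⊔ W', hsup _ _ hW hW', ?_⟩
      rw [Finset.coe_insert, Set.insert_subset_iff]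
      exact ⟨(le_sup_right : W' ≤ W ⊔ W') hx, fun y hy => (le_sup_left : W ≤ W ⊔ W') (hFW hy)⟩
  obtain ⟨W, hW, hFW⟩ := hmain F (fun x hx => hSZ (hF hx))
  have := hW.1
  refine ⟨W ⊓ Soc B, ⟨Submodule.finiteDimensional_of_le inf_le_left, ?_⟩,
    fun x hx => ⟨hFW hx, hF hx⟩, inf_le_right⟩
  exact BInv.inf hW.2 (soc_inv B)

end Run7.h836
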