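import Mathlib
import Pool.Agent.Run7.h836.Base

set_option autoImplicit false

/-!
Compact perturbations and norm controlled lifts.
-/

open scoped Topology InnerProductSpace
open Filter

namespace Run7.h836

universe u v

section general
variable {A : Type u} [NonUnitalCStarAlgebra A]

theorem qs_nonneg (c : A) {x : ℝ} (hx : x ∈ quasispectrum ℝ (star c * c)) : 0 ≤ x := by
  rw [Unitization.quasispectrum_eq_spectrum_inr' ℝ ℂ] at hx
  have h : ((star c * c : A) : Unitization ℂ A) = star (c : Unitization ℂ A) * c := by simp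
  rw [h] at hx
  exact spectrum_star_mul_self_nonneg x hx

theorem exists_mem_qs (c : A) {a : ℝ} (h : a < ‖c‖ ^ 2) :
    ∃ x ∈ quasispectrum ℝ (star c * c), a < x := by
  by_contra hcon
  push Not at hcon
  have hsa : IsSelfAdjoint (star c * c) := .star_mul_self c
  have h1 : ‖cfcₙ (id : ℝ → ℝ) (star c * c)‖ ≤ a := by
    apply norm_cfcₙ_le
    intro x hx
    rw [id, Real.norm_eq_abs, abs_of_nonneg (qs_nonneg c hx)]
    exact hcon x hx
  rw [cfcₙ_id ℝ (star c * c) hsa, CStarRing.norm_star_mul_self] at h1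
  nlinarith

theorem qs_le (c : A) {x : ℝ} (hx : x ∈ quasispectrum ℝ (star c * c)) : x ≤ ‖c‖ ^ 2 := by
  have hsa : IsSelfAdjoint (star c * c) := .star_mul_self c
  have h := norm_apply_le_norm_cfcₙ (id : ℝ → ℝ) (star c * c) hx
  rw [cfcₙ_id ℝ (star c * c) hsa, CStarRing.norm_star_mul_self, id, Real.norm_eq_abs,
    abs_of_nonneg (qs_nonneg c hx)] at h
  nlinarith

end general

section
variable {H : Type u} [NormedAddCommGroup H] [InnerProductSpace ℂ H] [CompleteSpace H]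

theorem finDim_of_compact_bound (M : Submodule ℂ H) (hM : IsClosed (M : Set H)) {k : H →L[ℂ] H}
    (hk : IsCompactOperator k) {η : ℝ} (hη : 0 < η) (h : ∀ x ∈ M, η * ‖x‖ ≤ ‖k x‖) :
    FiniteDimensional ℂ M := by
  have : CompleteSpace M := hM.completeSpace_coe
  let f : M →L[ℂ] H := k ∘L M.subtypeL
  have hf : IsCompactOperator f := hk.comp_clm M.subtypeL
  have hanti : AntilipschitzWith (Real.toNNReal η⁻¹) f := by
    apply AddMonoidHomClass.antilipschitz_of_bound f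
    intro x
    rw [Real.coe_toNNReal _ (by positivity)]
    have h1 := h x x.2
    calc ‖x‖ = η⁻¹ * (η * ‖(x : H)‖) := by
          rw [← mul_assoc, inv_mul_cancel₀ hη.ne', one_mul]; rfl
      _ ≤ η⁻¹ * ‖f x‖ := by gcongr; exact h1
  have hemb : Topology.IsClosedEmbedding f := hanti.isClosedEmbedding f.uniformContinuous
  have hK : IsCompact (closure (f '' Metric.closedBall 0 1)) :=
    hf.isCompact_closure_image_closedBall 1
  have hpre := hemb.isCompact_preimage hK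
  have hball : IsCompact (Metric.closedBall (0 : M) 1) :=
    hpre.of_isClosed_subset Metric.isClosed_closedBall
      (fun x hx => subset_closure ⟨x, hx, rfl⟩)
  exact FiniteDimensional.of_isCompact_closedBall₀ ℂ zero_lt_one hball

/-- the truncation function -/
noncomputable def gtr (a t : ℝ) : ℝ := max 0 (t - a)
noncomputable def wtr (a t : ℝ) : ℝ := max 0 (t - a) * Real.sqrt (t - a)

theorem gtr_cont (a : ℝ) : Continuous (gtr a) := by unfold gtr; fun_prop
theorem wtr_cont (a : ℝ) : Continuous (wtr a) := by unfold wtr; fun_prop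
theorem gtr_zero {a : ℝ} (ha : 0 ≤ a) : gtr a 0 = 0 := by unfold gtr; simp [ha]
theorem wtr_zero {a : ℝ} (ha : 0 ≤ a) : wtr a 0 = 0 := by unfold wtr; simp [ha]
theorem wtr_sq (a t : ℝ) : wtr a t * wtr a t = gtr a t * t * gtr a t - a * (gtr a t * gtr a t) := by
  unfold wtr gtr
  rcases le_total t a with h | h
  · rw [max_eq_left (by linarith)]; ring
  · rw [max_eq_right (by linarith)]
    have := Real.mul_self_sqrt (show 0 ≤ t - a by linarith)
    calc _ = (t - a) * (t - a) * (Real.sqrt (t - a) * Real.sqrt (t - a)) := by ring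
      _ = _ := by rw [this]; ring

theorem sa_inner {G : H →L[ℂ] H} (hG : IsSelfAdjoint G) (x y : H) : ⟪G x, y⟫_ℂ = ⟪x, G y⟫_ℂ := by
  rw [← ContinuousLinearMap.adjoint_inner_right, ← ContinuousLinearMap.star_eq_adjoint, hG.star_eq]

theorem star_inner (G : H →L[ℂ] H) (x y : H) : ⟪x, star G y⟫_ℂ = ⟪G x, y⟫_ℂ := by
  rw [ContinuousLinearMap.star_eq_adjoint, ContinuousLinearMap.adjoint_inner_right]

theorem key_trunc (c : H →L[ℂ] H) {a : ℝ} (ha : 0 ≤ a) (y : H) :
    a * ‖cfcₙ (gtr a) (star c * c) y‖ ^ 2 ≤ ‖c (cfcₙ (gtr a) (star c * c) y)‖ ^ 2 := by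
  set S : H →L[ℂ] H := star c * c with hS
  have hsa : IsSelfAdjoint S := .star_mul_self c
  set G := cfcₙ (gtr a) S with hG
  set W := cfcₙ (wtr a) S with hW
  have hGsa : IsSelfAdjoint G := cfcₙ_predicate _ _
  have hWsa : IsSelfAdjoint W := cfcₙ_predicate _ _
  have hg0 := gtr_zero ha
  have hw0 := wtr_zero ha
  have hgc := gtr_cont a
  have hwc := wtr_cont a
  have hid : cfcₙ (fun t : ℝ => t) S = S := cfcₙ_id' ℝ S
  have hWW : W * W = G * S * G - a • (G * G) := by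
    have h1 : W * W = cfcₙ (fun t => wtr a t * wtr a t) S :=
      (cfcₙ_mul (wtr a) (wtr a) S hwc.continuousOn hw0 hwc.continuousOn hw0).symm
    have h2 : G * G = cfcₙ (fun t => gtr a t * gtr a t) S :=
      (cfcₙ_mul (gtr a) (gtr a) S hgc.continuousOn hg0 hgc.continuousOn hg0).symm
    have h3 : G * S = cfcₙ (fun t => gtr a t * t) S := by
      rw [cfcₙ_mul (gtr a) (fun t => t) S hgc.continuousOn hg0 (by fun_prop) rfl, hid]
    have h4 : G * S * G = cfcₙ (fun t => gtr a t * t * gtr a t) S := by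
      rw [h3, cfcₙ_mul (fun t => gtr a t * t) (gtr a) S (by fun_prop) (by simp)
        hgc.continuousOn hg0]
    have h5 : a • (G * G) = cfcₙ (fun t => a * (gtr a t * gtr a t)) S := by
      rw [h2, ← cfcₙ_smul a (fun t => gtr a t * gtr a t) S (by fun_prop) (by simp [hg0])]
      rfl
    rw [h1, h4, h5, ← cfcₙ_sub (fun t => gtr a t * t * gtr a t)
      (fun t => a * (gtr a t * gtr a t)) S (by fun_prop) (by simp [hg0]) (by fun_prop)
      (by simp [hg0])]
    congr 1
    ext t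
    exact wtr_sq a t
  have e1 : ⟪W y, W y⟫_ℂ = ⟪y, (W * W) y⟫_ℂ := sa_inner hWsa _ _
  have e2 : ⟪G y, G y⟫_ℂ = ⟪y, (G * G) y⟫_ℂ := sa_inner hGsa _ _
  have e3 : ⟪c (G y), c (G y)⟫_ℂ = ⟪y, (G * S * G) y⟫_ℂ := by
    have h1 : ⟪y, (G * S * G) y⟫_ℂ = ⟪G y, S (G y)⟫_ℂ := (sa_inner hGsa y (S (G y))).symm
    rw [h1]
    exact (star_inner c _ _).symm
  have e4 : ⟪W y, W y⟫_ℂ = ⟪c (G y), c (G y)⟫_ℂ - (a : ℂ) * ⟪G y, G y⟫_ℂ := by
    rw [e1, e2, e3, hWW]
    show ⟪y, (G * S * G) y - a • (G * G) y⟫_ℂ = _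
    rw [inner_sub_right, inner_smul_right_eq_smul]
    simp
  rw [inner_self_eq_norm_sq_to_K, inner_self_eq_norm_sq_to_K, inner_self_eq_norm_sq_to_K] at e4
  have e5 : ‖W y‖ ^ 2 = ‖c (G y)‖ ^ 2 - a * ‖G y‖ ^ 2 := by
    apply Complex.ofReal_injective
    push_cast
    exact e4
  nlinarith [sq_nonneg ‖W y‖]

theorem finRk_trunc (c k : H →L[ℂ] H) (hk : IsCompactOperator k) {a : ℝ} (ha : ‖c - k‖ ^ 2 < a) :
    FinRk (cfcₙ (gtr a) (star c * c)) := by
  have ha0 : 0 ≤ a := (sq_nonneg _).trans ha.le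
  set G := cfcₙ (gtr a) (star c * c) with hG
  set η := Real.sqrt a - ‖c - k‖ with hη
  have hη0 : 0 < η := by
    rw [hη, sub_pos]
    exact Real.lt_sqrt_of_sq_lt ha
  let M : Submodule ℂ H := (LinearMap.range (G : H →ₗ[ℂ] H)).topologicalClosure
  have h1 : ∀ x ∈ LinearMap.range (G : H →ₗ[ℂ] H), η * ‖x‖ ≤ ‖k x‖ := by
    rintro x ⟨y, rfl⟩
    have h2 := key_trunc c ha0 y
    have h3 : Real.sqrt a * ‖G y‖ ≤ ‖c (G y)‖ := by
      apply le_of_sq_le_sq _ (norm_nonneg _)
      rw [mul_pow, Real.sq_sqrt ha0]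
      exact h2
    have h4 : ‖(c - k) (G y)‖ ≤ ‖c - k‖ * ‖G y‖ := (c - k).le_opNorm _
    have h5 : ‖c (G y)‖ ≤ ‖(c - k) (G y)‖ + ‖k (G y)‖ := by
      calc ‖c (G y)‖ = ‖(c - k) (G y) + k (G y)‖ := by simp
        _ ≤ _ := norm_add_le _ _
    show η * ‖G y‖ ≤ ‖k (G y)‖
    rw [hη]; nlinarith
  have h2 : ∀ x ∈ M, η * ‖x‖ ≤ ‖k x‖ := by
    intro x hx
    have hcl : IsClosed {x : H | η * ‖x‖ ≤ ‖k x‖} :=
      isClosed_le (by fun_prop) (by fun_prop)
    have := closure_minimal (s := (LinearMap.range (G : H →ₗ[ℂ] H) : Set H)) h1 hcl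
    exact this (by
      have hx' : x ∈ (M : Set H) := hx
      rwa [Submodule.topologicalClosure_coe] at hx')
  have hM : IsClosed (M : Set H) := Submodule.isClosed_topologicalClosure _
  have := finDim_of_compact_bound M hM hk hη0 h2
  exact Submodule.finiteDimensional_of_le (Submodule.le_topologicalClosure _)

/-- the inclusion -/
theorem coe_cfcₙ (B : NonUnitalStarSubalgebra ℂ (H →L[ℂ] H))
    [hB : IsClosed (B : Set (H →L[ℂ] H))] (f : ℝ → ℝ) (hf : Continuous f) (hf0 : f 0 = 0) (x : B)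
    (hx : IsSelfAdjoint x) : ((cfcₙ f x : B) : H →L[ℂ] H) = cfcₙ f (x : H →L[ℂ] H) := by
  have h := NonUnitalStarAlgHomClass.map_cfcₙ (S := ℂ) (NonUnitalStarSubalgebraClass.subtype B) f x
    hf.continuousOn hf0 continuous_subtype_val hx (by
      show IsSelfAdjoint (x : H →L[ℂ] H)
      have := hx.star_eq
      rw [isSelfAdjoint_iff]
      exact congrArg Subtype.val this)
  exact h

/-- PIECE 3a. A *-homomorphism killing the finite rank elements of `B` has norm at most the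
distance to the compacts. -/
theorem norm_le_of_compact' (B : NonUnitalStarSubalgebra ℂ (H →L[ℂ] H))
    [hB : IsClosed (B : Set (H →L[ℂ] H))] {C : Type v} [NonUnitalCStarAlgebra C]
    (ρ : B →⋆ₙₐ[ℂ] C) (hρ : ∀ T : B, FinRk (T : H →L[ℂ] H) → ρ T = 0) (c : B)
    {k : H →L[ℂ] H} (hk : IsCompactOperator k) : ‖ρ c‖ ≤ ‖(c : H →L[ℂ] H) - k‖ := by
  by_contra hcon
  push Not at hcon
  have h0 : ‖(c : H →L[ℂ] H) - k‖ ^ 2 < ‖ρ c‖ ^ 2 := by
    have := norm_nonneg ((c : H →L[ℂ] H) - k)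
    nlinarith
  obtain ⟨a, ha1, ha2⟩ := exists_between h0
  have ha0 : 0 ≤ a := (sq_nonneg _).trans ha1.le
  have hsa : IsSelfAdjoint (star c * c) := .star_mul_self c
  have h1 := finRk_trunc (c : H →L[ℂ] H) k hk ha1
  have h2 := coe_cfcₙ B (gtr a) (gtr_cont a) (gtr_zero ha0) (star c * c) hsa
  have h3 : ρ (cfcₙ (gtr a) (star c * c)) = 0 := by
    apply hρ
    rw [h2]
    exact h1
  have hρc : Continuous ρ := AddMonoidHomClass.continuous_of_bound ρ 1
    (fun x => by rw [one_mul]; exact NonUnitalStarAlgHom.norm_apply_le ρ x)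
  have hsa' : IsSelfAdjoint (ρ (star c * c)) := hsa.map ρ
  rw [NonUnitalStarAlgHomClass.map_cfcₙ (S := ℂ) ρ (gtr a) (star c * c)
    (gtr_cont a).continuousOn (gtr_zero ha0) hρc hsa hsa'] at h3
  rw [map_mul, map_star] at h3 hsa'
  obtain ⟨x, hx, hax⟩ := exists_mem_qs (ρ c) ha2
  have h4 := norm_apply_le_norm_cfcₙ (gtr a) (star (ρ c) * ρ c) hx (gtr_cont a).continuousOn
    (gtr_zero ha0) hsa'
  rw [h3, norm_zero] at h4
  have h5 : gtr a x = 0 := norm_le_zero_iff.1 h4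
  unfold gtr at h5
  rw [max_eq_right (by linarith)] at h5
  linarith

end

end Run7.h836
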