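import Mathlib
import Pool.Agent.Run7.h836.P3a

set_option autoImplicit false

/-!
Norm controlled lifts.
-/

open scoped Topology InnerProductSpace
open Filter

namespace Run7.h836

universe u v

/-- the truncation function for lifts -/
noncomputable def glf (r t : ℝ) : ℝ := r / Real.sqrt (max t (r ^ 2)) - 1

theorem glf_cont {r : ℝ} (hr : 0 < r) : Continuous (glf r) := by
  unfold glf
  refine Continuous.sub ?_ continuous_const
  refine Continuous.div continuous_const (by fun_prop) (fun t => ?_)
  have : 0 < max t (r ^ 2) := lt_max_of_lt_right (by positivity)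
  exact (Real.sqrt_pos.2 this).ne'

theorem glf_low {r t : ℝ} (hr : 0 < r) (ht : t ≤ r ^ 2) : glf r t = 0 := by
  unfold glf
  rw [max_eq_right ht, Real.sqrt_sq hr.le, div_self hr.ne', sub_self]

theorem glf_sq {r t : ℝ} (hr : 0 < r) (ht : 0 ≤ t) :
    |t + glf r t * t + t * glf r t + glf r t * t * glf r t| ≤ r ^ 2 := by
  have h1 : t + glf r t * t + t * glf r t + glf r t * t * glf r t = t * (1 + glf r t) ^ 2 := by ring
  have h2 : 1 + glf r t = r / Real.sqrt (max t (r ^ 2)) := by unfold glf; ring
  have h3 : 0 < max t (r ^ 2) := lt_max_of_lt_right (by positivity)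
  rw [h1, h2, div_pow, Real.sq_sqrt h3.le, abs_of_nonneg (by positivity), ← mul_div_assoc,
    div_le_iff₀ h3, mul_comm]
  exact mul_le_mul_of_nonneg_left (le_max_left _ _) (by positivity)

theorem exists_lift_gen {A : Type u} [NonUnitalCStarAlgebra A] {C : Type v}
    [NonUnitalCStarAlgebra C] (ρ : A →⋆ₙₐ[ℂ] C) (b : A) : ∃ b' : A, ρ b' = ρ b ∧ ‖b'‖ ≤ ‖ρ b‖ := by
  by_cases hr0 : ‖ρ b‖ = 0
  · refine ⟨0, ?_, ?_⟩
    · rw [map_zero, (norm_eq_zero.1 hr0)]
    · rw [norm_zero]; exact norm_nonneg _
  have hr : 0 < ‖ρ b‖ := lt_of_le_of_ne (norm_nonneg _) (Ne.symm hr0)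
  set r := ‖ρ b‖ with hrd
  set S := star b * b with hS
  have hsa : IsSelfAdjoint S := .star_mul_self b
  set G := cfcₙ (glf r) S with hG
  have hGsa : IsSelfAdjoint G := cfcₙ_predicate _ _
  have hgc := glf_cont hr
  have hg0 : glf r 0 = 0 := glf_low hr (by positivity)
  have hid : cfcₙ (fun t : ℝ => t) S = S := cfcₙ_id' ℝ S
  refine ⟨b + b * G, ?_, ?_⟩
  · have hρc : Continuous ρ := AddMonoidHomClass.continuous_of_bound ρ 1
      (fun x => by rw [one_mul]; exact NonUnitalStarAlgHom.norm_apply_le ρ x)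
    have h1 : ρ G = 0 := by
      rw [hG, NonUnitalStarAlgHomClass.map_cfcₙ (S := ℂ) ρ (glf r) S hgc.continuousOn hg0 hρc hsa
        (hsa.map ρ), hS, map_mul, map_star]
      apply norm_le_zero_iff.1
      apply norm_cfcₙ_le
      intro x hx
      rw [glf_low hr (qs_le (ρ b) hx), norm_zero]
    rw [map_add, map_mul, h1, mul_zero, add_zero]
  · have h1 : star (b + b * G) * (b + b * G) =
        cfcₙ (fun t => t + glf r t * t + t * glf r t + glf r t * t * glf r t) S := by
      have h2 : G * S = cfcₙ (fun t => glf r t * t) S := by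
        rw [cfcₙ_mul (glf r) (fun t => t) S hgc.continuousOn hg0 (by fun_prop) rfl, hid]
      have h3 : S * G = cfcₙ (fun t => t * glf r t) S := by
        rw [cfcₙ_mul (fun t => t) (glf r) S (by fun_prop) rfl hgc.continuousOn hg0, hid]
      have h4 : G * S * G = cfcₙ (fun t => glf r t * t * glf r t) S := by
        rw [h2, cfcₙ_mul (fun t => glf r t * t) (glf r) S (by fun_prop) (by simp)
          hgc.continuousOn hg0]
      rw [cfcₙ_add (fun t => t + glf r t * t + t * glf r t) (fun t => glf r t * t * glf r t) S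
        (by fun_prop) (by simp [hg0]) (by fun_prop) (by simp [hg0]),
        cfcₙ_add (fun t => t + glf r t * t) (fun t => t * glf r t) S
        (by fun_prop) (by simp [hg0]) (by fun_prop) (by simp [hg0]),
        cfcₙ_add (fun t => t) (fun t => glf r t * t) S
        (by fun_prop) (by simp) (by fun_prop) (by simp [hg0]), ← h2, ← h3, ← h4, hid]
      rw [star_add, star_mul, hGsa.star_eq, hS]
      noncomm_ring
    have h5 : ‖b + b * G‖ * ‖b + b * G‖ ≤ r ^ 2 := by
      rw [← CStarRing.norm_star_mul_self, h1]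
      apply norm_cfcₙ_le
      intro x hx
      exact glf_sq hr (qs_nonneg b hx)
    exact abs_le_of_sq_le_sq' (by rw [pow_two]; exact h5) hr.le |>.2

end Run7.h836
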