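import Mathlib
import Pool.Agent.Run7.h836.Base

set_option autoImplicit false

open scoped Topology InnerProductSpace
open Filter

namespace Run7.h836

universe u v

section
variable {A : Type u} [NonUnitalCStarAlgebra A] {K : Type v} [NormedAddCommGroup K]
  [InnerProductSpace ℂ K] [CompleteSpace K]

/-- restriction of a representation to a complete invariant subspace -/
noncomputable def restr (ρ : A →⋆ₙₐ[ℂ] (K →L[ℂ] K)) (W : Submodule ℂ K) [CompleteSpace W]
    (hW : ∀ a, ∀ ξ ∈ W, ρ a ξ ∈ W) : A →⋆ₙₐ[ℂ] (W →L[ℂ] W) where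
  toFun a := ((ρ a).comp W.subtypeL).codRestrict W (fun ξ => hW a ξ.1 ξ.2)
  map_smul' r a := by
    ext ξ
    show ρ (r • a) (ξ : K) = r • ρ a (ξ : K)
    rw [map_smul]; rfl
  map_zero' := by
    ext ξ
    show ρ 0 (ξ : K) = 0
    rw [map_zero]; rfl
  map_add' a c := by
    ext ξ
    show ρ (a + c) (ξ : K) = ρ a (ξ : K) + ρ c (ξ : K)
    rw [map_add]; rfl
  map_mul' a c := by
    ext ξ
    show ρ (a * c) (ξ : K) = ρ a (ρ c (ξ : K))
    rw [map_mul]; rfl
  map_star' a := by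
    rw [ContinuousLinearMap.star_eq_adjoint, ContinuousLinearMap.eq_adjoint_iff]
    intro x y
    show ⟪ρ (star a) (x : K), (y : K)⟫_ℂ = ⟪(x : K), ρ a (y : K)⟫_ℂ
    rw [map_star, ContinuousLinearMap.star_eq_adjoint, ContinuousLinearMap.adjoint_inner_left]

theorem restr_apply (ρ : A →⋆ₙₐ[ℂ] (K →L[ℂ] K)) (W : Submodule ℂ K) [CompleteSpace W]
    (hW : ∀ a, ∀ ξ ∈ W, ρ a ξ ∈ W) (a : A) (ξ : W) : (restr ρ W hW a ξ : K) = ρ a ξ := rfl

end

end Run7.h836
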