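import Mathlib
import Pool.Agent.Run7.h836.Restr

set_option autoImplicit false

/-!
Irreducible finite dimensional representations contain the rank one operators.
-/

open scoped Topology InnerProductSpace
open Filter

namespace Run7.h836

universe u v

section
variable {A : Type u} [NonUnitalCStarAlgebra A] {K : Type v} [NormedAddCommGroup K]
  [InnerProductSpace ℂ K] [CompleteSpace K]

/-- the orbit map -/
noncomputable def orb (ρ : A →⋆ₙₐ[ℂ] (K →L[ℂ] K)) (u : K) : A →ₗ[ℂ] K where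
  toFun a := ρ a u
  map_add' a c := by rw [map_add]; rfl
  map_smul' r a := by rw [map_smul]; rfl

theorem orb_surj (ρ : A →⋆ₙₐ[ℂ] (K →L[ℂ] K))
    (hirr : ∀ W : Submodule ℂ K, (∀ a, ∀ ξ ∈ W, ρ a ξ ∈ W) → W = ⊥ ∨ W = ⊤)
    (hne : ∃ a, ρ a ≠ 0) {u : K} (hu : u ≠ 0) (v : K) : ∃ a, ρ a u = v := by
  have h1 : LinearMap.range (orb ρ u) = ⊤ := by
    rcases hirr (LinearMap.range (orb ρ u)) (by
      rintro a ξ ⟨c, rfl⟩
      refine ⟨a * c, ?_⟩
      show ρ (a * c) u = ρ a (ρ c u)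
      rw [map_mul]; rfl) with h | h
    · exfalso
      let Z : Submodule ℂ K :=
        { carrier := {v | ∀ a, ρ a v = 0}
          add_mem' := fun {x y} hx hy a => by rw [map_add, hx a, hy a, add_zero]
          zero_mem' := fun a => map_zero _
          smul_mem' := fun r x hx a => by rw [map_smul, hx a, smul_zero] }
      have hZ : u ∈ Z := fun a => by
        have : ρ a u ∈ LinearMap.range (orb ρ u) := ⟨a, rfl⟩
        rw [h] at this
        exact (Submodule.mem_bot ℂ).1 this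
      rcases hirr Z (fun a ξ hξ => by rw [hξ a]; exact Z.zero_mem) with h2 | h2
      · rw [h2] at hZ
        exact hu ((Submodule.mem_bot ℂ).1 hZ)
      · obtain ⟨a, ha⟩ := hne
        apply ha
        ext v
        have : v ∈ Z := by rw [h2]; trivial
        exact this a
    · exact h
  have h2 : v ∈ LinearMap.range (orb ρ u) := by rw [h1]; trivial
  exact h2

variable [FiniteDimensional ℂ K]

theorem exists_rank_one (ρ : A →⋆ₙₐ[ℂ] (K →L[ℂ] K))
    (hirr : ∀ W : Submodule ℂ K, (∀ a, ∀ ξ ∈ W, ρ a ξ ∈ W) → W = ⊥ ∨ W = ⊤)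
    (n : ℕ) : ∀ a : A, ρ a ≠ 0 → Module.finrank ℂ (LinearMap.range (ρ a : K →ₗ[ℂ] K)) = n →
      ∃ (a' : A) (u : K), u ≠ 0 ∧ ρ a' ≠ 0 ∧ ∀ v, ∃ r : ℂ, ρ a' v = r • u := by
  induction n using Nat.strong_induction_on with
  | _ n ih =>
    intro a ha hn
    have h0 : ∃ x₁, ρ a x₁ ≠ 0 := by
      by_contra hcon
      push Not at hcon
      exact ha (by ext v; exact hcon v)
    obtain ⟨x₁, hx₁⟩ := h0
    set u := ρ a x₁ with hu
    by_cases h1 : ∀ v, ∃ r : ℂ, ρ a v = r • u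
    · exact ⟨a, u, hx₁, ha, h1⟩
    push Not at h1
    obtain ⟨x₂, hx₂⟩ := h1
    obtain ⟨c, hc⟩ := orb_surj ρ hirr ⟨a, ha⟩ hx₁ x₂
    -- `S = T ∘ ρ c` on the range of `T`
    let T : K →ₗ[ℂ] K := (ρ a : K →ₗ[ℂ] K)
    let Rg : Submodule ℂ K := LinearMap.range T
    let S : Rg →ₗ[ℂ] Rg := ((T ∘ₗ (ρ c : K →ₗ[ℂ] K)) ∘ₗ Rg.subtype).codRestrict Rg
      (fun x => ⟨_, rfl⟩)
    have huR : u ∈ Rg := ⟨x₁, rfl⟩
    have : Nontrivial Rg := ⟨⟨⟨u, huR⟩, 0, fun h => hx₁ (congrArg Subtype.val h)⟩⟩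
    obtain ⟨lam, hlam⟩ := Module.End.exists_eigenvalue (K := ℂ) S
    obtain ⟨w, hw⟩ := hlam.exists_hasEigenvector
    have hw1 : S w = lam • w := hw.apply_eq_smul
    have hw0 : w ≠ 0 := hw.2
    have hT' : ∀ v, ρ (a * c * a - lam • a) v = ρ a (ρ c (ρ a v)) - lam • ρ a v := by
      intro v
      rw [map_sub, map_mul, map_mul, map_smul]; rfl
    have hne' : ρ (a * c * a - lam • a) ≠ 0 := by
      intro h
      have h2 := hT' x₁
      rw [h] at h2
      have h3 : ρ a x₂ = lam • u := by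
        rw [← hu, hc] at h2
        have h2' : (0 : K) = ρ a x₂ - lam • u := h2
        rw [eq_comm, sub_eq_zero] at h2'
        exact h2'
      exact hx₂ lam h3
    refine ih _ ?_ (a * c * a - lam • a) hne' rfl
    rw [← hn]
    let S' : Rg →ₗ[ℂ] Rg := S - lam • (LinearMap.id : Rg →ₗ[ℂ] Rg)
    -- the range of the new operator is the image of `Rg` under `S - lam`
    have hr : LinearMap.range ((ρ (a * c * a - lam • a) : K →L[ℂ] K) : K →ₗ[ℂ] K) ≤
        (LinearMap.range S').map Rg.subtype := by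
      rintro _ ⟨v, rfl⟩
      refine ⟨S' ⟨T v, ⟨v, rfl⟩⟩, ⟨_, rfl⟩, ?_⟩
      exact (hT' v).symm
    calc Module.finrank ℂ (LinearMap.range ((ρ (a * c * a - lam • a) : K →L[ℂ] K) : K →ₗ[ℂ] K))
        ≤ Module.finrank ℂ ((LinearMap.range S').map Rg.subtype) :=
          Submodule.finrank_mono hr
      _ = Module.finrank ℂ (LinearMap.range S') :=
          Submodule.finrank_map_subtype_eq _ _
      _ < Module.finrank ℂ Rg := by
          have h4 := LinearMap.finrank_range_add_finrank_ker S'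
          have h5 : 0 < Module.finrank ℂ (LinearMap.ker S') := by
            rw [Module.finrank_pos_iff_exists_ne_zero]
            refine ⟨⟨w, ?_⟩, fun h => hw0 (congrArg Subtype.val h)⟩
            rw [LinearMap.mem_ker]
            show S w - lam • w = 0
            rw [hw1, sub_self]
          omega

/-- all rank one operators are in the image of an irreducible representation -/
theorem rank_one_mem (ρ : A →⋆ₙₐ[ℂ] (K →L[ℂ] K))
    (hirr : ∀ W : Submodule ℂ K, (∀ a, ∀ ξ ∈ W, ρ a ξ ∈ W) → W = ⊥ ∨ W = ⊤)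
    (hne : ∃ a, ρ a ≠ 0) (ξ η : K) : ∃ a : A, ∀ v, ρ a v = ⟪ξ, v⟫_ℂ • η := by
  obtain ⟨a₀, ha₀⟩ := hne
  obtain ⟨a, u, hu, ha, hr⟩ := exists_rank_one ρ hirr _ a₀ ha₀ rfl
  choose r hr using hr
  have huu : ⟪u, u⟫_ℂ ≠ 0 := inner_self_ne_zero.2 hu
  set z : K := (starRingEnd ℂ (⟪u, u⟫_ℂ)⁻¹) • (star (ρ a)) u with hz
  have hrz : ∀ v, r v = ⟪z, v⟫_ℂ := by
    intro v
    have h1 : ⟪u, ρ a v⟫_ℂ = r v * ⟪u, u⟫_ℂ := by rw [hr, inner_smul_right]
    rw [hz, inner_smul_left, starRingEnd_self_apply, ContinuousLinearMap.star_eq_adjoint,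
      ContinuousLinearMap.adjoint_inner_left, h1]
    field_simp
  have hz0 : z ≠ 0 := by
    intro h
    apply ha
    ext v
    rw [hr, hrz, h, inner_zero_left, zero_smul]; rfl
  obtain ⟨c₁, hc₁⟩ := orb_surj ρ hirr ⟨a, ha⟩ hu η
  obtain ⟨c₂, hc₂⟩ := orb_surj ρ hirr ⟨a, ha⟩ hz0 ξ
  refine ⟨c₁ * a * star c₂, fun v => ?_⟩
  have h1 : ρ (c₁ * a * star c₂) v = ρ c₁ (ρ a (star (ρ c₂) v)) := by
    rw [map_mul, map_mul, map_star]; rfl
  rw [h1, hr, map_smul, hc₁, hrz, ContinuousLinearMap.star_eq_adjoint,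
    ContinuousLinearMap.adjoint_inner_right, hc₂]

end

section
variable {H : Type u} [NormedAddCommGroup H] [InnerProductSpace ℂ H]

theorem rk_sup {W₁ W₂ : Submodule ℂ H} [FiniteDimensional ℂ W₁] [FiniteDimensional ℂ W₂]
    (p : H →L[ℂ] H) (h₁ : ∀ ξ ∈ W₁, p ξ ∈ W₁) (h₂ : ∀ ξ ∈ W₂, p ξ ∈ W₂)
    (hd : Disjoint W₁ W₂) : rk (W₁ ⊔ W₂) p = rk W₁ p + rk W₂ p := by
  unfold rk
  rw [Submodule.map_sup]
  have h := Submodule.finrank_sup_add_finrank_inf_eq (W₁.map (p : H →ₗ[ℂ] H))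
    (W₂.map (p : H →ₗ[ℂ] H))
  have h3 : W₁.map (p : H →ₗ[ℂ] H) ≤ W₁ := by
    rintro _ ⟨x, hx, rfl⟩; exact h₁ x hx
  have h4 : W₂.map (p : H →ₗ[ℂ] H) ≤ W₂ := by
    rintro _ ⟨x, hx, rfl⟩; exact h₂ x hx
  have h5 : W₁.map (p : H →ₗ[ℂ] H) ⊓ W₂.map (p : H →ₗ[ℂ] H) = ⊥ :=
    disjoint_iff.1 (hd.mono h3 h4)
  rw [h5] at h
  simpa using h

end

end Run7.h836
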