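import Mathlib
import Pool.Agent.Run7.h836.P3b
import Pool.Agent.Run7.h836.P3c

set_option autoImplicit false

/-!
The irreducible case of the certificate argument.
-/

open scoped Topology InnerProductSpace
open Filter

namespace Run7.h836

universe u v

section est
variable {H : Type u} [NormedAddCommGroup H] [InnerProductSpace ℂ H] [CompleteSpace H]

theorem sq_close (X Y : H →L[ℂ] H) {d M : ℝ} (hd : ‖X - Y‖ ≤ d) (hY : ‖Y‖ ≤ M) :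
    ‖star X * X - star Y * Y‖ ≤ d * (2 * M + d) := by
  have hd0 : 0 ≤ d := (norm_nonneg _).trans hd
  have hM0 : 0 ≤ M := (norm_nonneg _).trans hY
  have hX : ‖X‖ ≤ M + d := by
    calc ‖X‖ = ‖Y + (X - Y)‖ := by simp
      _ ≤ ‖Y‖ + ‖X - Y‖ := norm_add_le _ _
      _ ≤ M + d := add_le_add hY hd
  have h1 : star X * X - star Y * Y = star X * (X - Y) + star (X - Y) * Y := by
    rw [star_sub]; noncomm_ring
  rw [h1]
  calc _ ≤ ‖star X * (X - Y)‖ + ‖star (X - Y) * Y‖ := norm_add_le _ _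
    _ ≤ ‖star X‖ * ‖X - Y‖ + ‖star (X - Y)‖ * ‖Y‖ := add_le_add (norm_mul_le _ _) (norm_mul_le _ _)
    _ = ‖X‖ * ‖X - Y‖ + ‖X - Y‖ * ‖Y‖ := by rw [norm_star, norm_star]
    _ ≤ (M + d) * d + d * M := by gcongr
    _ = d * (2 * M + d) := by ring

theorem tri_close {a a' b b' c c' : H →L[ℂ] H} {α β γ A₁ B₁ B₂ C₁ A₂ C₂ : ℝ}
    (h1 : ‖a' - a‖ ≤ α) (h2 : ‖b' - b‖ ≤ β) (h3 : ‖c' - c‖ ≤ γ) (ha' : ‖a'‖ ≤ A₁) (hb : ‖b‖ ≤ B₁)
    (hc' : ‖c'‖ ≤ C₁) (ha : ‖a‖ ≤ A₂) (hb' : ‖b‖ ≤ B₂) (_hc : ‖c‖ ≤ C₂) :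
    ‖a' * b' * c' - a * b * c‖ ≤ A₁ * β * C₁ + α * B₁ * C₁ + A₂ * B₂ * γ := by
  have hα : 0 ≤ α := (norm_nonneg _).trans h1
  have hβ : 0 ≤ β := (norm_nonneg _).trans h2
  have hγ : 0 ≤ γ := (norm_nonneg _).trans h3
  have hA₁ : 0 ≤ A₁ := (norm_nonneg _).trans ha'
  have hA₂ : 0 ≤ A₂ := (norm_nonneg _).trans ha
  have hB₁ : 0 ≤ B₁ := (norm_nonneg _).trans hb
  have hB₂ : 0 ≤ B₂ := (norm_nonneg _).trans hb'
  have hC₁ : 0 ≤ C₁ := (norm_nonneg _).trans hc'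
  have e : a' * b' * c' - a * b * c = a' * (b' - b) * c' + (a' - a) * b * c' + a * b * (c' - c) := by
    noncomm_ring
  rw [e]
  calc _ ≤ ‖a' * (b' - b) * c' + (a' - a) * b * c'‖ + ‖a * b * (c' - c)‖ := norm_add_le _ _
    _ ≤ ‖a' * (b' - b) * c'‖ + ‖(a' - a) * b * c'‖ + ‖a * b * (c' - c)‖ := by
        gcongr; exact norm_add_le _ _
    _ ≤ ‖a'‖ * ‖b' - b‖ * ‖c'‖ + ‖a' - a‖ * ‖b‖ * ‖c'‖ + ‖a‖ * ‖b‖ * ‖c' - c‖ := by
        gcongr
        · exact (norm_mul_le _ _).trans (by gcongr; exact norm_mul_le _ _)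
        · exact (norm_mul_le _ _).trans (by gcongr; exact norm_mul_le _ _)
        · exact (norm_mul_le _ _).trans (by gcongr; exact norm_mul_le _ _)
    _ ≤ _ := by gcongr

theorem two_close {a a' b b' : H →L[ℂ] H} {α β A₂ B₁ : ℝ}
    (h1 : ‖a' - a‖ ≤ α) (h2 : ‖b' - b‖ ≤ β) (ha : ‖a‖ ≤ A₂) (hb' : ‖b'‖ ≤ B₁) :
    ‖a' * b' - a * b‖ ≤ α * B₁ + A₂ * β := by
  have hα : 0 ≤ α := (norm_nonneg _).trans h1
  have hA₂ : 0 ≤ A₂ := (norm_nonneg _).trans ha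
  have e : a' * b' - a * b = (a' - a) * b' + a * (b' - b) := by noncomm_ring
  rw [e]
  calc _ ≤ ‖(a' - a) * b'‖ + ‖a * (b' - b)‖ := norm_add_le _ _
    _ ≤ ‖a' - a‖ * ‖b'‖ + ‖a‖ * ‖b' - b‖ := add_le_add (norm_mul_le _ _) (norm_mul_le _ _)
    _ ≤ _ := by gcongr

theorem comm_close {a a' F F' : H →L[ℂ] H} (h1 : ‖a' - a‖ ≤ 2 / 1000) (h2 : ‖F' - F‖ ≤ 1 / 1000)
    (ha' : ‖a'‖ ≤ 1) (hF : ‖F‖ ≤ 1) :
    ‖(F' * a' - a' * F') - (F * a - a * F)‖ ≤ 6 / 1000 := by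
  have e : (F' * a' - a' * F') - (F * a - a * F) =
      ((F' - F) * a' + F * (a' - a)) - (a' * (F' - F) + (a' - a) * F) := by noncomm_ring
  rw [e]
  have n1 : ‖(F' - F) * a'‖ ≤ 1 / 1000 * 1 := (norm_mul_le _ _).trans (by gcongr)
  have n2 : ‖F * (a' - a)‖ ≤ 1 * (2 / 1000) := (norm_mul_le _ _).trans (by gcongr)
  have n3 : ‖a' * (F' - F)‖ ≤ 1 * (1 / 1000) := (norm_mul_le _ _).trans (by gcongr)
  have n4 : ‖(a' - a) * F‖ ≤ 2 / 1000 * 1 := (norm_mul_le _ _).trans (by gcongr)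
  refine (norm_sub_le _ _).trans ?_
  refine (add_le_add (norm_add_le _ _) (norm_add_le _ _)).trans ?_
  linarith

theorem mul3_le {a b c : H →L[ℂ] H} (h1 : ‖a‖ ≤ 1) (h2 : ‖b‖ ≤ 1) (h3 : ‖c‖ ≤ 1) :
    ‖a * b * c‖ ≤ 1 := by
  calc _ ≤ ‖a * b‖ * ‖c‖ := norm_mul_le _ _
    _ ≤ (‖a‖ * ‖b‖) * ‖c‖ := by gcongr; exact norm_mul_le _ _
    _ ≤ (1 * 1) * 1 := by gcongr
    _ = 1 := by norm_num

theorem proj_norm_le {P : H →L[ℂ] H} (hP : IsStarProjection P) : ‖P‖ ≤ 1 := by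
  have h1 : ‖P‖ * ‖P‖ = ‖P‖ := by
    rw [← CStarRing.norm_star_mul_self, hP.isSelfAdjoint.star_eq, hP.isIdempotentElem.eq]
  by_contra h
  push Not at h
  nlinarith

theorem vec_est (X Y : H →L[ℂ] H) {ξ : H} (hX : X ξ = 0) (hξ : ‖ξ‖ = 1) {e : ℝ}
    (h : ‖star X * X - star Y * Y‖ ≤ e) : ‖Y ξ‖ ^ 2 ≤ e := by
  have h1 : (star X * X - star Y * Y) ξ = - star Y (Y ξ) := by
    show star X (X ξ) - star Y (Y ξ) = _
    rw [hX, map_zero, zero_sub]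
  have h2 : ‖star Y (Y ξ)‖ ≤ e := by
    calc _ = ‖(star X * X - star Y * Y) ξ‖ := by rw [h1, norm_neg]
      _ ≤ ‖star X * X - star Y * Y‖ * ‖ξ‖ := ContinuousLinearMap.le_opNorm _ _
      _ ≤ e := by rw [hξ, mul_one]; exact h
  have h3 : (‖Y ξ‖ ^ 2 : ℝ) = ‖⟪ξ, star Y (Y ξ)⟫_ℂ‖ := by
    rw [star_inner, inner_self_eq_norm_sq_to_K]
    simp
  rw [h3]
  calc _ ≤ ‖ξ‖ * ‖star Y (Y ξ)‖ := norm_inner_le_norm _ _
    _ ≤ e := by rw [hξ, one_mul]; exact h2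

end est

section
variable {K : Type v} [NormedAddCommGroup K] [InnerProductSpace ℂ K] [CompleteSpace K]
  [FiniteDimensional ℂ K]

/-- a kernel vector in the range of the bigger projection -/
theorem exists_ker_vec {p q t : K →L[ℂ] K} (hp : p * p = p)
    (h : Module.finrank ℂ (LinearMap.range (q : K →ₗ[ℂ] K)) <
      Module.finrank ℂ (LinearMap.range (p : K →ₗ[ℂ] K))) :
    ∃ ξ : K, ‖ξ‖ = 1 ∧ p ξ = ξ ∧ (q * t * p) ξ = 0 := by
  let f : LinearMap.range (p : K →ₗ[ℂ] K) →ₗ[ℂ] LinearMap.range (q : K →ₗ[ℂ] K) :=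
    ((q : K →ₗ[ℂ] K) ∘ₗ (t : K →ₗ[ℂ] K) ∘ₗ (LinearMap.range (p : K →ₗ[ℂ] K)).subtype).codRestrict _
      (fun x => ⟨_, rfl⟩)
  obtain ⟨x, hx, hx0⟩ := Submodule.exists_mem_ne_zero_of_ne_bot
    (LinearMap.ker_ne_bot_of_finrank_lt (f := f) h)
  obtain ⟨x, y, rfl⟩ := x
  have h1 : q (t (p y)) = 0 := congrArg Subtype.val (LinearMap.mem_ker.1 hx)
  have h2 : p y ≠ 0 := fun h => hx0 (Subtype.ext h)
  have hpp : p (p y) = p y := congrArg (fun S : K →L[ℂ] K => S y) hp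
  have hn : ‖p y‖ ≠ 0 := norm_ne_zero_iff.2 h2
  refine ⟨((‖p y‖⁻¹ : ℝ) : ℂ) • p y, ?_, ?_, ?_⟩
  · rw [norm_smul, Complex.norm_real, norm_inv, norm_norm, inv_mul_cancel₀ hn]
  · rw [map_smul, hpp]
  · show q (t (p (((‖p y‖⁻¹ : ℝ) : ℂ) • p y))) = 0
    rw [map_smul, hpp, map_smul, map_smul, h1, smul_zero]

variable {H : Type u} [NormedAddCommGroup H] [InnerProductSpace ℂ H] [CompleteSpace H]

theorem irr_le (B : NonUnitalStarSubalgebra ℂ (H →L[ℂ] H))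
    [hB : IsClosed (B : Set (H →L[ℂ] H))]
    {P Q F T₁ T₂ : H →L[ℂ] H} (hPp : IsStarProjection P) (hQp : IsStarProjection Q)
    (hFsa : IsSelfAdjoint F) (hF1 : ‖F‖ ≤ 1) (hFP : F * P = P * F)
    (e₁ : Q * T₁ * P = T₁) (e₂ : Q * T₂ * P = T₂) (n₁ : ‖T₁‖ ≤ 1) (n₂ : ‖T₂‖ ≤ 1)
    (comm : ∀ a ∈ B, IsCompactOperator (F * (P * a * P) - (P * a * P) * F))
    (c₁ : IsCompactOperator (star T₁ * T₁ - F * F * P))
    (c₃ : IsCompactOperator (star T₂ * T₂ - (P - F * P) * (P - F * P)))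
    (P' Q' F' T₁' T₂' : B)
    (hP' : IsStarProjection (P' : H →L[ℂ] H)) (hQ' : IsStarProjection (Q' : H →L[ℂ] H))
    (hP : ‖(P' : H →L[ℂ] H) - P‖ ≤ 1 / 1000) (hQ : ‖(Q' : H →L[ℂ] H) - Q‖ ≤ 1 / 1000)
    (hF : ‖(F' : H →L[ℂ] H) - F‖ ≤ 1 / 1000) (hT₁ : ‖(T₁' : H →L[ℂ] H) - T₁‖ ≤ 1 / 1000)
    (hT₂ : ‖(T₂' : H →L[ℂ] H) - T₂‖ ≤ 1 / 1000)
    (ρ : B →⋆ₙₐ[ℂ] (K →L[ℂ] K)) (hρ : ∀ T : B, FinRk (T : H →L[ℂ] H) → ρ T = 0)
    (hirr : ∀ W : Submodule ℂ K, (∀ a, ∀ ξ ∈ W, ρ a ξ ∈ W) → W = ⊥ ∨ W = ⊤) :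
    Module.finrank ℂ (LinearMap.range (ρ P' : K →ₗ[ℂ] K)) ≤
      Module.finrank ℂ (LinearMap.range (ρ Q' : K →ₗ[ℂ] K)) := by
  by_contra hcon
  push Not at hcon
  have nP := proj_norm_le hPp
  have nQ := proj_norm_le hQp
  have nP' := proj_norm_le hP'
  have nQ' := proj_norm_le hQ'
  have hpp : ρ P' * ρ P' = ρ P' := by
    rw [← map_mul]
    congr 1
    exact Subtype.ext hP'.isIdempotentElem.eq
  have hne : ∃ a, ρ a ≠ 0 := by
    refine ⟨P', fun h => ?_⟩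
    have h2 : LinearMap.range (ρ P' : K →ₗ[ℂ] K) = ⊥ :=
      LinearMap.range_eq_bot.2 (by rw [h]; rfl)
    rw [h2, finrank_bot] at hcon
    omega
  have hsq : ∀ X Y : B, ρ (star X * X - star Y * Y) =
      star (ρ X) * ρ X - star (ρ Y) * ρ Y := by
    intro X Y
    rw [map_sub, map_mul, map_mul, map_star, map_star]
  obtain ⟨ξ, hξ1, hξp, hξ⟩ := exists_ker_vec (t := ρ T₁') hpp hcon
  obtain ⟨η, hη1, hηp, hη⟩ := exists_ker_vec (t := ρ T₂') hpp hcon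
  -- first estimate
  have s1 : ‖ρ F' ξ‖ ^ 2 ≤ 12 / 1000 := by
    let X : B := Q' * T₁' * P'
    let Y : B := F' * P'
    have hX : ρ X ξ = 0 := by
      show ρ (Q' * T₁' * P') ξ = 0
      rw [map_mul, map_mul]; exact hξ
    have hY : ρ Y ξ = ρ F' ξ := by
      show ρ (F' * P') ξ = _
      rw [map_mul]
      show ρ F' (ρ P' ξ) = _
      rw [hξp]
    have hXc : ‖(X : H →L[ℂ] H) - T₁‖ ≤ 3 / 1000 := by
      have := tri_close hQ hT₁ hP nQ' n₁ nP' nQ n₁ nP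
      rw [e₁] at this
      refine this.trans (by norm_num)
    have hYc : ‖(Y : H →L[ℂ] H) - F * P‖ ≤ 2 / 1000 :=
      (two_close hF hP hF1 nP').trans (by norm_num)
    have hFPn : ‖F * P‖ ≤ 1 := (norm_mul_le _ _).trans (by nlinarith [norm_nonneg F, norm_nonneg P])
    have h1 := sq_close (X : H →L[ℂ] H) T₁ hXc n₁
    have h2 := sq_close (Y : H →L[ℂ] H) (F * P) hYc hFPn
    have hFF : star (F * P) * (F * P) = F * F * P := by
      rw [star_mul, hFsa.star_eq, hPp.isSelfAdjoint.star_eq]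
      calc P * F * (F * P) = (P * F) * (F * P) := rfl
        _ = (F * P) * (F * P) := by rw [hFP]
        _ = F * (P * F) * P := by noncomm_ring
        _ = F * (F * P) * P := by rw [hFP]
        _ = F * F * (P * P) := by noncomm_ring
        _ = F * F * P := by rw [hPp.isIdempotentElem.eq]
    rw [hFF] at h2
    have h3 := norm_le_of_compact' B ρ hρ (star X * X - star Y * Y) c₁
    have h4 : ‖((star X * X - star Y * Y : B) : H →L[ℂ] H) - (star T₁ * T₁ - F * F * P)‖ ≤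
        12 / 1000 := by
      have : ((star X * X - star Y * Y : B) : H →L[ℂ] H) - (star T₁ * T₁ - F * F * P) =
        (star (X : H →L[ℂ] H) * X - star T₁ * T₁) - (star (Y : H →L[ℂ] H) * Y - F * F * P) := by
        show (star (X : H →L[ℂ] H) * X - star (Y : H →L[ℂ] H) * Y) - (star T₁ * T₁ - F * F * P) = _
        abel
      rw [this]
      refine (norm_sub_le _ _).trans ?_
      refine (add_le_add h1 h2).trans (by norm_num)
    have h5 : ‖star (ρ X) * ρ X - star (ρ Y) * ρ Y‖ ≤ 12 / 1000 := by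
      have := h3.trans h4
      rwa [hsq] at this
    have h6 := vec_est (ρ X) (ρ Y) hX hξ1 h5
    rwa [hY] at h6
  -- second estimate
  have s2 : ‖η - ρ F' η‖ ^ 2 ≤ 20 / 1000 := by
    let X : B := Q' * T₂' * P'
    let Y : B := P' - F' * P'
    have hX : ρ X η = 0 := by
      show ρ (Q' * T₂' * P') η = 0
      rw [map_mul, map_mul]; exact hη
    have hY : ρ Y η = η - ρ F' η := by
      show ρ (P' - F' * P') η = _
      rw [map_sub, map_mul]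
      show ρ P' η - ρ F' (ρ P' η) = _
      rw [hηp]
    have hXc : ‖(X : H →L[ℂ] H) - T₂‖ ≤ 3 / 1000 := by
      have := tri_close hQ hT₂ hP nQ' n₂ nP' nQ n₂ nP
      rw [e₂] at this
      refine this.trans (by norm_num)
    have hYc : ‖(Y : H →L[ℂ] H) - (P - F * P)‖ ≤ 3 / 1000 := by
      have h := two_close hF hP hF1 nP'
      have e : (Y : H →L[ℂ] H) - (P - F * P) =
          ((P' : H →L[ℂ] H) - P) - ((F' : H →L[ℂ] H) * P' - F * P) := by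
        show ((P' : H →L[ℂ] H) - (F' : H →L[ℂ] H) * P') - (P - F * P) = _
        abel
      rw [e]
      exact (norm_sub_le _ _).trans ((add_le_add hP h).trans (by norm_num))
    have hFPn : ‖F * P‖ ≤ 1 := (norm_mul_le _ _).trans (by nlinarith [norm_nonneg F, norm_nonneg P])
    have hPF : ‖P - F * P‖ ≤ 2 := (norm_sub_le _ _).trans (by linarith)
    have h1 := sq_close (X : H →L[ℂ] H) T₂ hXc n₂
    have h2 := sq_close (Y : H →L[ℂ] H) (P - F * P) hYc hPF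
    have hFF : star (P - F * P) = P - F * P := by
      rw [star_sub, star_mul, hFsa.star_eq, hPp.isSelfAdjoint.star_eq, hFP]
    rw [hFF] at h2
    have h3 := norm_le_of_compact' B ρ hρ (star X * X - star Y * Y) c₃
    have h4 : ‖((star X * X - star Y * Y : B) : H →L[ℂ] H) -
        (star T₂ * T₂ - (P - F * P) * (P - F * P))‖ ≤ 20 / 1000 := by
      have : ((star X * X - star Y * Y : B) : H →L[ℂ] H) -
          (star T₂ * T₂ - (P - F * P) * (P - F * P)) =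
        (star (X : H →L[ℂ] H) * X - star T₂ * T₂) -
          (star (Y : H →L[ℂ] H) * Y - (P - F * P) * (P - F * P)) := by
        show (star (X : H →L[ℂ] H) * X - star (Y : H →L[ℂ] H) * Y) - _ = _
        abel
      rw [this]
      refine (norm_sub_le _ _).trans ?_
      refine (add_le_add h1 h2).trans (by norm_num)
    have h5 : ‖star (ρ X) * ρ X - star (ρ Y) * ρ Y‖ ≤ 20 / 1000 := by
      have := h3.trans h4
      rwa [hsq] at this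
    have h6 := vec_est (ρ X) (ρ Y) hX hη1 h5
    rwa [hY] at h6
  have s1' : ‖ρ F' ξ‖ ≤ 11 / 100 := by
    by_contra h; push Not at h; nlinarith
  have s2' : ‖η - ρ F' η‖ ≤ 15 / 100 := by
    by_contra h; push Not at h; nlinarith
  -- the rank one operator
  obtain ⟨b₀, hb₀⟩ := rank_one_mem ρ hirr hne ξ η
  have hb₀n : ‖ρ b₀‖ ≤ 1 := by
    refine ContinuousLinearMap.opNorm_le_bound _ zero_le_one (fun v => ?_)
    rw [hb₀, norm_smul, hη1, mul_one, one_mul]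
    calc _ ≤ ‖ξ‖ * ‖v‖ := norm_inner_le_norm _ _
      _ = ‖v‖ := by rw [hξ1, one_mul]
  obtain ⟨b, hb, hbn⟩ := exists_lift_gen ρ b₀
  have nb : ‖(b : H →L[ℂ] H)‖ ≤ 1 := hbn.trans hb₀n
  have hbv : ∀ v, ρ b v = ⟪ξ, v⟫_ℂ • η := by rw [hb]; exact hb₀
  have s3 : ‖ρ (F' * (P' * b * P') - (P' * b * P') * F')‖ ≤ 6 / 1000 := by
    have h3 := norm_le_of_compact' B ρ hρ (F' * (P' * b * P') - (P' * b * P') * F')
      (comm b b.2)
    refine h3.trans ?_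
    have hPb : ‖(P' : H →L[ℂ] H) * b * P' - P * b * P‖ ≤ 2 / 1000 := by
      have := tri_close (b := (b : H →L[ℂ] H)) (b' := b) (β := 0) hP (by simp) hP nP' nb nP' nP nb nP
      refine this.trans (by norm_num)
    have nPb' : ‖(P' : H →L[ℂ] H) * b * P'‖ ≤ 1 := mul3_le nP' nb nP'
    exact comm_close hPb hF nPb' hF1
  -- evaluate at `ξ`
  have hval : ρ (F' * (P' * b * P') - (P' * b * P') * F') ξ =
      ρ F' η - ρ P' (ρ b (ρ P' (ρ F' ξ))) := by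
    rw [map_sub, map_mul ρ F', map_mul ρ (P' * b * P'), map_mul ρ (P' * b), map_mul ρ P' b]
    show ρ F' (ρ P' (ρ b (ρ P' ξ))) - ρ P' (ρ b (ρ P' (ρ F' ξ))) = _
    rw [hξp, hbv ξ, inner_self_eq_norm_sq_to_K, hξ1]
    simp [hηp]
  have hp1 : ‖ρ P'‖ ≤ 1 := (NonUnitalStarAlgHom.norm_apply_le ρ P').trans nP'
  have h7 : ‖ρ P' (ρ b (ρ P' (ρ F' ξ)))‖ ≤ 11 / 100 := by
    have hb1 : ‖ρ b‖ ≤ 1 := by rw [hb]; exact hb₀n
    calc _ ≤ ‖ρ P'‖ * ‖ρ b (ρ P' (ρ F' ξ))‖ := ContinuousLinearMap.le_opNorm _ _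
      _ ≤ 1 * ‖ρ b (ρ P' (ρ F' ξ))‖ := by gcongr
      _ = ‖ρ b (ρ P' (ρ F' ξ))‖ := one_mul _
      _ ≤ ‖ρ b‖ * ‖ρ P' (ρ F' ξ)‖ := ContinuousLinearMap.le_opNorm _ _
      _ ≤ 1 * ‖ρ P' (ρ F' ξ)‖ := by gcongr
      _ = ‖ρ P' (ρ F' ξ)‖ := one_mul _
      _ ≤ ‖ρ P'‖ * ‖ρ F' ξ‖ := ContinuousLinearMap.le_opNorm _ _
      _ ≤ 1 * ‖ρ F' ξ‖ := by gcongr
      _ ≤ 11 / 100 := by rw [one_mul]; exact s1'
  have h8 : ‖ρ (F' * (P' * b * P') - (P' * b * P') * F') ξ‖ ≤ 6 / 1000 := by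
    calc _ ≤ _ := ContinuousLinearMap.le_opNorm _ _
      _ ≤ 6 / 1000 := by rw [hξ1, mul_one]; exact s3
  rw [hval] at h8
  have h9 : ‖η‖ ≤ ‖η - ρ F' η‖ + ‖ρ F' η - ρ P' (ρ b (ρ P' (ρ F' ξ)))‖ +
      ‖ρ P' (ρ b (ρ P' (ρ F' ξ)))‖ := by
    have e : η = (η - ρ F' η) + (ρ F' η - ρ P' (ρ b (ρ P' (ρ F' ξ)))) +
        ρ P' (ρ b (ρ P' (ρ F' ξ))) := by abel
    conv_lhs => rw [e]
    exact norm_add₃_le
  rw [hη1] at h9
  linarith

end

end Run7.h836
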