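import Mathlib
import Pool.Agent.Run7.h836.P3d

set_option autoImplicit false

/-!
Rank comparison.
-/

open scoped Topology InnerProductSpace
open Filter

namespace Run7.h836

universe u v

variable {H : Type u} [NormedAddCommGroup H] [InnerProductSpace ℂ H] [CompleteSpace H]

theorem re_le (x y : H) : (⟪x, y⟫_ℂ).re ≤ ‖x‖ * ‖y‖ :=
  (Complex.re_le_norm _).trans (norm_inner_le_norm _ _)

theorem self_re (x : H) : (⟪x, x⟫_ℂ).re = ‖x‖ ^ 2 := by
  rw [inner_self_eq_norm_sq_to_K]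
  norm_cast

/-- the quadratic form of a small operator -/
theorem small_form (T : H →L[ℂ] H) {ε : ℝ} (hT : ‖T‖ ≤ ε) (x y : H) :
    |(⟪x, T y⟫_ℂ).re| ≤ ε * ‖x‖ * ‖y‖ := by
  calc _ ≤ ‖⟪x, T y⟫_ℂ‖ := Complex.abs_re_le_norm _
    _ ≤ ‖x‖ * ‖T y‖ := norm_inner_le_norm _ _
    _ ≤ ‖x‖ * (‖T‖ * ‖y‖) := by gcongr; exact T.le_opNorm _
    _ ≤ ‖x‖ * (ε * ‖y‖) := by gcongr
    _ = _ := by ring

section part
variable {ι : Type v} [Fintype ι] [DecidableEq ι] {P : H →L[ℂ] H} {p V : ι → (H →L[ℂ] H)} {ε : ℝ}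

/-- quadratic form of `∑ V i * star (V i)` -/
theorem sum_form (V : ι → (H →L[ℂ] H)) (x y : H) :
    ⟪x, (∑ i, V i * star (V i)) y⟫_ℂ = ∑ i, ⟪star (V i) x, star (V i) y⟫_ℂ := by
  have h1 : (∑ i, V i * star (V i)) y = ∑ i, V i (star (V i) y) := by
    simp
  rw [h1, inner_sum]
  refine Finset.sum_congr rfl fun i _ => ?_
  have := star_inner (star (V i)) x (star (V i) y)
  rw [star_star] at this
  exact this

omit [DecidableEq ι] in
theorem sum_form_re (h2 : ‖∑ i, V i * star (V i) - P‖ ≤ ε) (x : H) :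
    |∑ i, ‖star (V i) x‖ ^ 2 - (⟪x, P x⟫_ℂ).re| ≤ ε * ‖x‖ ^ 2 := by
  classical
  have h3 := small_form _ h2 x x
  have h4 : (⟪x, (∑ i, V i * star (V i) - P) x⟫_ℂ).re =
      ∑ i, ‖star (V i) x‖ ^ 2 - (⟪x, P x⟫_ℂ).re := by
    have : (∑ i, V i * star (V i) - P) x = (∑ i, V i * star (V i)) x - P x := rfl
    rw [this, inner_sub_right, Complex.sub_re, sum_form, Complex.re_sum]
    congr 1
    exact Finset.sum_congr rfl fun i _ => self_re _
  rw [h4] at h3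
  calc _ ≤ _ := h3
    _ = _ := by ring

theorem inj_sum (hε : 100 * (Fintype.card ι + 1) * ε ≤ 1) (hε0 : 0 ≤ ε)
    (h1 : ∀ i j, ‖star (V i) * V j - if i = j then p i else 0‖ ≤ ε)
    (h2 : ‖∑ i, V i * star (V i) - P‖ ≤ ε) (ξ : ι → H) (hξ : ∀ i, p i (ξ i) = ξ i)
    (h : P (∑ i, V i (ξ i)) = 0) : ∀ i, ξ i = 0 := by
  set y := ∑ i, V i (ξ i) with hy
  set n : ℝ := ((Fintype.card ι : ℕ) : ℝ) with hn
  have hn0 : 0 ≤ n := Nat.cast_nonneg _
  set S : ℝ := ∑ i, ‖ξ i‖ ^ 2 with hS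
  have hS0 : 0 ≤ S := Finset.sum_nonneg fun i _ => sq_nonneg _
  -- lower bound
  have l1 : S - ε * (n * S) ≤ ‖y‖ ^ 2 := by
    have e1 : ‖y‖ ^ 2 = ∑ i, ∑ j, (⟪ξ i, (star (V i) * V j) (ξ j)⟫_ℂ).re := by
      rw [← self_re, hy, sum_inner, Complex.re_sum]
      refine Finset.sum_congr rfl fun i _ => ?_
      rw [inner_sum, Complex.re_sum]
      refine Finset.sum_congr rfl fun j _ => ?_
      congr 1
      exact (star_inner (V i) (ξ i) (V j (ξ j))).symm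
    have e2 : S = ∑ i, ∑ j, (⟪ξ i, (if i = j then p i else 0) (ξ j)⟫_ℂ).re := by
      rw [hS]
      refine Finset.sum_congr rfl fun i _ => ?_
      rw [Finset.sum_eq_single i]
      · rw [if_pos rfl, hξ, self_re]
      · intro j _ hj
        rw [if_neg (Ne.symm hj)]
        show (⟪ξ i, (0 : H)⟫_ℂ).re = 0
        rw [inner_zero_right]; rfl
      · intro h; exact absurd (Finset.mem_univ i) h
    have e3 : S - ‖y‖ ^ 2 ≤ ∑ i, ∑ j, ε * ((‖ξ i‖ ^ 2 + ‖ξ j‖ ^ 2) / 2) := by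
      rw [e1, e2, ← Finset.sum_sub_distrib]
      refine Finset.sum_le_sum fun i _ => ?_
      rw [← Finset.sum_sub_distrib]
      refine Finset.sum_le_sum fun j _ => ?_
      have h3 := small_form _ (h1 i j) (ξ i) (ξ j)
      have h4 : (⟪ξ i, (star (V i) * V j - if i = j then p i else 0) (ξ j)⟫_ℂ).re =
          (⟪ξ i, (star (V i) * V j) (ξ j)⟫_ℂ).re -
            (⟪ξ i, (if i = j then p i else 0) (ξ j)⟫_ℂ).re := by
        rw [← Complex.sub_re, ← inner_sub_right]; rfl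
      rw [h4] at h3
      have h5 := (abs_le.1 h3).1
      nlinarith [sq_nonneg (‖ξ i‖ - ‖ξ j‖)]
    have e4 : ∑ i : ι, ∑ j : ι, ε * ((‖ξ i‖ ^ 2 + ‖ξ j‖ ^ 2) / 2) = ε * (n * S) := by
      simp_rw [← Finset.mul_sum, ← Finset.sum_div, Finset.sum_add_distrib]
      rw [Finset.sum_const, Finset.card_univ, nsmul_eq_mul, ← hS, ← Finset.sum_comm]
      simp only [Finset.sum_const, Finset.card_univ, nsmul_eq_mul]
      rw [← hS, ← hn]
      ring
    rw [e4] at e3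
    linarith
  -- upper bound
  have u1 : ∑ i, ‖star (V i) y‖ ^ 2 ≤ ε * ‖y‖ ^ 2 := by
    have h3 := sum_form_re h2 y
    rw [h, inner_zero_right] at h3
    exact (le_abs_self _).trans (by simpa using h3)
  have u2 : ‖y‖ ^ 2 ≤ 5 * (ε * ‖y‖ ^ 2) + S / 20 := by
    calc ‖y‖ ^ 2 = ∑ i, (⟪star (V i) y, ξ i⟫_ℂ).re := by
          rw [← self_re]
          conv_lhs => rw [hy, inner_sum]
          rw [Complex.re_sum]
          refine Finset.sum_congr rfl fun i _ => ?_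
          congr 1
          have := star_inner (star (V i)) y (ξ i)
          rw [star_star] at this
          exact this
      _ ≤ ∑ i, (5 * ‖star (V i) y‖ ^ 2 + ‖ξ i‖ ^ 2 / 20) := by
          refine Finset.sum_le_sum fun i _ => ?_
          have := re_le (star (V i) y) (ξ i)
          nlinarith [sq_nonneg (10 * ‖star (V i) y‖ - ‖ξ i‖)]
      _ = 5 * ∑ i, ‖star (V i) y‖ ^ 2 + S / 20 := by
          rw [Finset.sum_add_distrib, ← Finset.mul_sum, ← Finset.sum_div]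
      _ ≤ _ := by gcongr
  have hε1 : ε ≤ 1 / 100 := by nlinarith
  have hε2 : ε * n ≤ 1 / 100 := by nlinarith
  have hS1 : S ≤ 0 := by
    have h3 : ε * (n * S) ≤ S / 100 := by nlinarith
    have h4 : 5 * (ε * ‖y‖ ^ 2) ≤ ‖y‖ ^ 2 / 20 := by nlinarith [sq_nonneg ‖y‖]
    nlinarith
  intro i
  have h3 : ‖ξ i‖ ^ 2 ≤ S := Finset.single_le_sum (f := fun i => ‖ξ i‖ ^ 2)
    (fun i _ => sq_nonneg _) (Finset.mem_univ i)
  have h4 : ‖ξ i‖ ^ 2 = 0 := le_antisymm (h3.trans hS1) (sq_nonneg _)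
  exact norm_eq_zero.1 (by simpa using h4)

theorem inj_col (hε : 100 * (Fintype.card ι + 1) * ε ≤ 1) (hε0 : 0 ≤ ε)
    (h1 : ∀ i j, ‖star (V i) * V j - if i = j then p i else 0‖ ≤ ε)
    (h2 : ‖∑ i, V i * star (V i) - P‖ ≤ ε) (ξ : H) (hξ : P ξ = ξ)
    (h : ∀ i, p i (star (V i) ξ) = 0) : ξ = 0 := by
  set n : ℝ := ((Fintype.card ι : ℕ) : ℝ) with hn
  have hn0 : 0 ≤ n := Nat.cast_nonneg _
  set S : ℝ := ∑ i, ‖star (V i) ξ‖ ^ 2 with hS
  have hS0 : 0 ≤ S := Finset.sum_nonneg fun i _ => sq_nonneg _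
  have l1 : ‖ξ‖ ^ 2 - ε * ‖ξ‖ ^ 2 ≤ S := by
    have h3 := sum_form_re h2 ξ
    rw [hξ, self_re] at h3
    have := (abs_le.1 h3).1
    linarith
  have v1 : ∀ i, ‖V i (star (V i) ξ)‖ ^ 2 ≤ ε * ‖star (V i) ξ‖ ^ 2 := by
    intro i
    have h3 := small_form _ (h1 i i) (star (V i) ξ) (star (V i) ξ)
    have h4 : (⟪star (V i) ξ, (star (V i) * V i - if i = i then p i else 0) (star (V i) ξ)⟫_ℂ).re =
        ‖V i (star (V i) ξ)‖ ^ 2 := by
      rw [if_pos rfl]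
      have : (star (V i) * V i - p i) (star (V i) ξ) =
          star (V i) (V i (star (V i) ξ)) - p i (star (V i) ξ) := rfl
      rw [this, h i, sub_zero, star_inner, self_re]
    rw [h4] at h3
    calc _ ≤ _ := le_abs_self _
      _ ≤ _ := h3
      _ = _ := by ring
  have u1 : S ≤ 5 * (n + 1) * (ε * S) + ‖ξ‖ ^ 2 / 20 := by
    have hn1 : 0 < n + 1 := by linarith
    calc S = ∑ i, (⟪V i (star (V i) ξ), ξ⟫_ℂ).re := by
          rw [hS]
          refine Finset.sum_congr rfl fun i _ => ?_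
          rw [← star_inner, self_re]
      _ ≤ ∑ i, (5 * (n + 1) * ‖V i (star (V i) ξ)‖ ^ 2 + ‖ξ‖ ^ 2 / (20 * (n + 1))) := by
          refine Finset.sum_le_sum fun i _ => ?_
          have h3 := re_le (V i (star (V i) ξ)) ξ
          have h4 : ‖V i (star (V i) ξ)‖ * ‖ξ‖ ≤
              5 * (n + 1) * ‖V i (star (V i) ξ)‖ ^ 2 + ‖ξ‖ ^ 2 / (20 * (n + 1)) := by
            rw [← sub_nonneg]
            have : 5 * (n + 1) * ‖V i (star (V i) ξ)‖ ^ 2 + ‖ξ‖ ^ 2 / (20 * (n + 1)) -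
                ‖V i (star (V i) ξ)‖ * ‖ξ‖ =
                (10 * (n + 1) * ‖V i (star (V i) ξ)‖ - ‖ξ‖) ^ 2 / (20 * (n + 1)) := by
              field_simp; ring
            rw [this]; positivity
          exact h3.trans h4
      _ ≤ ∑ i, (5 * (n + 1) * (ε * ‖star (V i) ξ‖ ^ 2) + ‖ξ‖ ^ 2 / (20 * (n + 1))) := by
          refine Finset.sum_le_sum fun i _ => ?_
          have := v1 i
          gcongr
      _ = 5 * (n + 1) * (ε * S) + n * (‖ξ‖ ^ 2 / (20 * (n + 1))) := by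
          rw [Finset.sum_add_distrib, ← Finset.mul_sum, ← Finset.mul_sum, Finset.sum_const,
            Finset.card_univ, nsmul_eq_mul]
      _ ≤ _ := by
          gcongr
          rw [mul_div_assoc', div_le_div_iff₀ (by positivity) (by positivity)]
          nlinarith [sq_nonneg ‖ξ‖]
  have hε1 : ε ≤ 1 / 100 := by nlinarith
  have hε2 : 5 * (n + 1) * ε ≤ 1 / 20 := by nlinarith
  have hfin : ‖ξ‖ ^ 2 ≤ 0 := by
    have h3 : 5 * (n + 1) * (ε * S) ≤ S / 20 := by nlinarith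
    have h4 : ε * ‖ξ‖ ^ 2 ≤ ‖ξ‖ ^ 2 / 100 := by nlinarith [sq_nonneg ‖ξ‖]
    nlinarith
  have h4 : ‖ξ‖ ^ 2 = 0 := le_antisymm hfin (sq_nonneg _)
  exact norm_eq_zero.1 (by simpa using h4)

theorem proj_fix {P : H →L[ℂ] H} (hP : IsStarProjection P) (x : H) : P (P x) = P x :=
  congrArg (fun S : H →L[ℂ] H => S x) hP.isIdempotentElem.eq

/-- PIECE 2b. -/
theorem rk_partition' (W : Submodule ℂ H)
    [FiniteDimensional ℂ W] 
    (hε : 100 * (Fintype.card ι + 1) * ε ≤ 1)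
    (hP : IsStarProjection P) (hp : ∀ i, IsStarProjection (p i))
    (hPW : ∀ ξ ∈ W, P ξ ∈ W) (hpW : ∀ i, ∀ ξ ∈ W, p i ξ ∈ W) (hVW : ∀ i, ∀ ξ ∈ W, V i ξ ∈ W)
    (hVW' : ∀ i, ∀ ξ ∈ W, (star (V i)) ξ ∈ W)
    (h1 : ∀ i j, ‖star (V i) * V j - if i = j then p i else 0‖ ≤ ε)
    (h2 : ‖∑ i, V i * star (V i) - P‖ ≤ ε) : rk W P = ∑ i, rk W (p i) := by
  have hε0 : 0 ≤ ε := (norm_nonneg _).trans h2
  unfold rk
  rw [← Module.finrank_pi_fintype (R := ℂ) (M := fun i => W.map (p i : H →ₗ[ℂ] H))]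
  apply le_antisymm
  · let Ψ : W.map (P : H →ₗ[ℂ] H) →ₗ[ℂ] (Π i, W.map (p i : H →ₗ[ℂ] H)) :=
      LinearMap.pi fun i => (((p i : H →ₗ[ℂ] H) ∘ₗ ((star (V i) : H →L[ℂ] H) : H →ₗ[ℂ] H)) ∘ₗ
        (W.map (P : H →ₗ[ℂ] H)).subtype).codRestrict _ (fun x => by
          obtain ⟨x, y, hy, rfl⟩ := x
          exact ⟨star (V i) (P y), hVW' i _ (hPW _ hy), rfl⟩)
    refine LinearMap.finrank_le_finrank_of_injective (f := Ψ) ?_
    rw [← LinearMap.ker_eq_bot, eq_bot_iff]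
    intro x hx
    obtain ⟨x, y, hy, rfl⟩ := x
    rw [LinearMap.mem_ker] at hx
    have h3 : ∀ i, p i (star (V i) (P y)) = 0 := fun i =>
      congrArg (fun f : (Π i, W.map (p i : H →ₗ[ℂ] H)) => (f i : H)) hx
    have h4 := inj_col hε hε0 h1 h2 (P y) (proj_fix hP y) h3
    rw [Submodule.mem_bot]
    exact Subtype.ext h4
  · let L : (Π i, W.map (p i : H →ₗ[ℂ] H)) →ₗ[ℂ] H :=
      ∑ i, (V i : H →ₗ[ℂ] H) ∘ₗ (W.map (p i : H →ₗ[ℂ] H)).subtype ∘ₗ LinearMap.proj i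
    have hL : ∀ x, L x = ∑ i, V i (x i : H) := by
      intro x
      simp [L]
    let Φ : (Π i, W.map (p i : H →ₗ[ℂ] H)) →ₗ[ℂ] W.map (P : H →ₗ[ℂ] H) :=
      ((P : H →ₗ[ℂ] H) ∘ₗ L).codRestrict _ (fun x => by
          refine ⟨L x, ?_, rfl⟩
          rw [hL]
          refine W.sum_mem fun i _ => hVW i _ ?_
          obtain ⟨y, hy, hyx⟩ := (x i).2
          rw [← hyx]; exact hpW i y hy)
    refine LinearMap.finrank_le_finrank_of_injective (f := Φ) ?_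
    rw [← LinearMap.ker_eq_bot, eq_bot_iff]
    intro x hx
    rw [LinearMap.mem_ker] at hx
    have h3 : P (∑ i, V i (x i : H)) = 0 := by
      have h : P (L x) = 0 := congrArg Subtype.val hx
      rwa [hL] at h
    have h5 : ∀ i, p i (x i : H) = x i := by
      intro i
      obtain ⟨y, hy, hyx⟩ := (x i).2
      rw [← hyx]
      exact proj_fix (hp i) y
    have h4 := inj_sum hε hε0 h1 h2 (fun i => (x i : H)) h5 h3
    rw [Submodule.mem_bot]
    funext i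
    exact Subtype.ext (h4 i)

end part

theorem inj_close {P Q : H →L[ℂ] H} (h : ‖P - Q‖ < 1) {x : H} (hx : Q x = x) (hPx : P x = 0) :
    x = 0 := by
  by_contra hne
  have h0 : 0 < ‖x‖ := norm_pos_iff.2 hne
  have h1 : ‖(P - Q) x‖ = ‖x‖ := by
    show ‖P x - Q x‖ = _
    rw [hPx, hx, zero_sub, norm_neg]
  have h2 := (P - Q).le_opNorm x
  rw [h1] at h2
  nlinarith

theorem rk_le_of_close (W : Submodule ℂ H) [FiniteDimensional ℂ W] {P Q : H →L[ℂ] H}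
    (hQ : IsStarProjection Q)
    (hQW : ∀ ξ ∈ W, Q ξ ∈ W) (h : ‖P - Q‖ < 1) : rk W Q ≤ rk W P := by
  unfold rk
  let Φ : W.map (Q : H →ₗ[ℂ] H) →ₗ[ℂ] W.map (P : H →ₗ[ℂ] H) :=
    ((P : H →ₗ[ℂ] H) ∘ₗ (W.map (Q : H →ₗ[ℂ] H)).subtype).codRestrict _ (fun x => by
      obtain ⟨x, y, hy, rfl⟩ := x
      exact ⟨Q y, hQW y hy, rfl⟩)
  refine LinearMap.finrank_le_finrank_of_injective (f := Φ) ?_
  rw [← LinearMap.ker_eq_bot, eq_bot_iff]
  intro x hx
  obtain ⟨x, y, hy, rfl⟩ := x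
  rw [LinearMap.mem_ker] at hx
  have h3 : P (Q y) = 0 := congrArg Subtype.val hx
  rw [Submodule.mem_bot]
  exact Subtype.ext (inj_close h (proj_fix hQ y) h3)

/-- PIECE 2c. Close projections have the same rank. -/
theorem rk_eq_of_close' (W : Submodule ℂ H) [FiniteDimensional ℂ W] {P Q : H →L[ℂ] H}
    (hP : IsStarProjection P) (hQ : IsStarProjection Q)
    (hPW : ∀ ξ ∈ W, P ξ ∈ W) (hQW : ∀ ξ ∈ W, Q ξ ∈ W) (h : ‖P - Q‖ < 1) : rk W P = rk W Q :=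
  le_antisymm (rk_le_of_close W hP hPW (by rwa [norm_sub_rev])) (rk_le_of_close W hQ hQW h)

/-- finite rank of close projections -/
theorem finRk_close {P Q : H →L[ℂ] H} (hP : IsStarProjection P) (hQ : FinRk Q)
    (h : ‖P - Q‖ < 1) : FinRk P ∧ Module.finrank ℂ (LinearMap.range (P : H →ₗ[ℂ] H)) ≤
      Module.finrank ℂ (LinearMap.range (Q : H →ₗ[ℂ] H)) := by
  have := hQ
  unfold FinRk at this
  let Φ : LinearMap.range (P : H →ₗ[ℂ] H) →ₗ[ℂ] LinearMap.range (Q : H →ₗ[ℂ] H) :=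
    ((Q : H →ₗ[ℂ] H) ∘ₗ (LinearMap.range (P : H →ₗ[ℂ] H)).subtype).codRestrict _ (fun x => ⟨_, rfl⟩)
  have hinj : Function.Injective Φ := by
    rw [← LinearMap.ker_eq_bot, eq_bot_iff]
    intro x hx
    obtain ⟨x, y, rfl⟩ := x
    rw [LinearMap.mem_ker] at hx
    have h3 : Q (P y) = 0 := congrArg Subtype.val hx
    rw [Submodule.mem_bot]
    exact Subtype.ext (inj_close (P := Q) (Q := P) (by rwa [norm_sub_rev]) (proj_fix hP y) h3)
  exact ⟨Module.Finite.of_injective Φ hinj, LinearMap.finrank_le_finrank_of_injective hinj⟩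

end Run7.h836
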