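import Mathlib
import Pool.Agent.Run7.h836.P3a

set_option autoImplicit false

/-!
Sequences of elements and of projections in the increasing union.
-/

open scoped Topology InnerProductSpace
open Filter

namespace Run7.h836

universe u v

variable {H : Type u} [NormedAddCommGroup H] [InnerProductSpace ℂ H] [CompleteSpace H]

/-- PIECE 2d. Elements of the closure of the union are limits of sequences of elements `a n ∈ B n`. -/
theorem exists_seq' (B : ℕ → NonUnitalStarSubalgebra ℂ (H →L[ℂ] H)) (hmono : Monotone B)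
    {a : H →L[ℂ] H} (ha : a ∈ AA B) :
    ∃ s : ℕ → (H →L[ℂ] H), (∀ n, s n ∈ B n) ∧ Tendsto s atTop (𝓝 a) := by
  have h1 : ∀ n, ∃ b ∈ B n, dist a b < Metric.infDist a (B n : Set (H →L[ℂ] H)) + 1 / (n + 1) := by
    intro n
    have hne : (B n : Set (H →L[ℂ] H)).Nonempty := ⟨0, zero_mem (B n)⟩
    have : Metric.infDist a (B n : Set (H →L[ℂ] H)) <
        Metric.infDist a (B n : Set (H →L[ℂ] H)) + 1 / (n + 1) := by
      have : (0 : ℝ) < 1 / (n + 1) := by positivity
      linarith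
    exact (Metric.infDist_lt_iff hne).1 this
  choose s hs hd using h1
  refine ⟨s, hs, ?_⟩
  rw [Metric.tendsto_atTop]
  intro ε hε
  obtain ⟨b, hb, hab⟩ := Metric.mem_closure_iff.1 ha (ε / 2) (by positivity)
  obtain ⟨m, hm⟩ := Set.mem_iUnion.1 hb
  obtain ⟨k, hk⟩ := exists_nat_one_div_lt (show (0 : ℝ) < ε / 2 by positivity)
  refine ⟨max m k, fun n hn => ?_⟩
  have h2 : Metric.infDist a (B n : Set (H →L[ℂ] H)) ≤ dist a b :=
    Metric.infDist_le_dist_of_mem (hmono ((le_max_left _ _).trans hn) hm)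
  have h3 : (1 : ℝ) / (n + 1) ≤ 1 / (k + 1) := by
    have : (k : ℝ) ≤ n := by exact_mod_cast (le_max_right _ _).trans hn
    gcongr
  rw [dist_comm]
  have := hd n
  linarith

/-- rounding function -/
noncomputable def rd (t : ℝ) : ℝ := max 0 (min 1 (3 * t - 1))

theorem rd_cont : Continuous rd := by unfold rd; fun_prop
theorem rd_zero : rd 0 = 0 := by unfold rd; norm_num

theorem rd_low {t : ℝ} (h : t ≤ 1 / 3) : rd t = 0 := by
  unfold rd
  have : min 1 (3 * t - 1) ≤ 0 := (min_le_right _ _).trans (by linarith)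
  exact max_eq_left this

theorem rd_high {t : ℝ} (h : 2 / 3 ≤ t) : rd t = 1 := by
  unfold rd
  rw [min_eq_left (by linarith)]
  norm_num

theorem rd_cases {t d : ℝ} (hd : d < 2 / 9) (h : |t * t - t| ≤ d) :
    rd t * rd t = rd t ∧ |rd t - t| ≤ 3 / 2 * d := by
  have h0 := abs_le.1 h
  rcases le_or_gt t (1 / 3) with h1 | h1
  · rw [rd_low h1]
    refine ⟨by ring, ?_⟩
    rw [abs_le] 
    constructor <;> nlinarith
  · rcases le_or_gt (2 / 3) t with h2 | h2
    · rw [rd_high h2]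
      refine ⟨by ring, ?_⟩
      rw [abs_le]
      constructor <;> nlinarith
    · exfalso
      nlinarith

/-- rounding an almost projection -/
theorem round_proj (B : NonUnitalStarSubalgebra ℂ (H →L[ℂ] H))
    (hB : IsClosed (B : Set (H →L[ℂ] H))) {t : H →L[ℂ] H} (ht : t ∈ B) (hsa : IsSelfAdjoint t)
    {d : ℝ} (hd : d < 2 / 9) (h : ‖t * t - t‖ ≤ d) :
    ∃ p ∈ B, IsStarProjection p ∧ ‖p - t‖ ≤ 3 / 2 * d := by
  have hid : cfcₙ (fun x : ℝ => x) t = t := cfcₙ_id' ℝ t
  have h1 : ∀ x ∈ quasispectrum ℝ t, |x * x - x| ≤ d := by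
    intro x hx
    have h2 : cfcₙ (fun x : ℝ => x * x - x) t = t * t - t := by
      rw [cfcₙ_sub (fun x : ℝ => x * x) (fun x => x) t (by fun_prop) (by simp) (by fun_prop) rfl,
        cfcₙ_mul (fun x : ℝ => x) (fun x => x) t (by fun_prop) rfl (by fun_prop) rfl, hid]
    have h3 := norm_apply_le_norm_cfcₙ (fun x : ℝ => x * x - x) t hx (by fun_prop) (by simp)
    rw [h2] at h3
    exact h3.trans h
  refine ⟨cfcₙ rd t, ?_, ?_, ?_⟩
  · have := coe_cfcₙ B rd rd_cont rd_zero ⟨t, ht⟩ (Subtype.ext hsa)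
    rw [← this]
    exact (cfcₙ rd (⟨t, ht⟩ : B)).2
  · refine ⟨?_, cfcₙ_predicate _ _⟩
    show cfcₙ rd t * cfcₙ rd t = cfcₙ rd t
    rw [← cfcₙ_mul rd rd t rd_cont.continuousOn rd_zero rd_cont.continuousOn rd_zero]
    refine cfcₙ_congr fun x hx => ?_
    exact (rd_cases hd (h1 x hx)).1
  · have hc := rd_cont
    have h2 : cfcₙ rd t - t = cfcₙ (fun x => rd x - x) t := by
      rw [cfcₙ_sub rd (fun x => x) t hc.continuousOn rd_zero (by fun_prop) rfl, hid]
    rw [h2]
    exact norm_cfcₙ_le fun x hx => (rd_cases hd (h1 x hx)).2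

/-- PIECE 2e. Projections in the closure of the union are limits of projections `p n ∈ B n`. -/
theorem exists_seq_proj' (B : ℕ → NonUnitalStarSubalgebra ℂ (H →L[ℂ] H))
    (hB : ∀ n, IsClosed (B n : Set (H →L[ℂ] H))) (hmono : Monotone B)
    {P : H →L[ℂ] H} (hP : IsStarProjection P) (ha : P ∈ AA B) :
    ∃ s : ℕ → (H →L[ℂ] H), (∀ n, s n ∈ B n ∧ IsStarProjection (s n)) ∧
      Tendsto s atTop (𝓝 P) := by
  obtain ⟨s, hs, hlim⟩ := exists_seq' B hmono ha
  let t : ℕ → (H →L[ℂ] H) := fun n => (2⁻¹ : ℂ) • (s n + star (s n))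
  have ht : ∀ n, t n ∈ B n := fun n => SMulMemClass.smul_mem _ (add_mem (hs n) (star_mem (hs n)))
  have htsa : ∀ n, IsSelfAdjoint (t n) := by
    intro n
    show star ((2⁻¹ : ℂ) • (s n + star (s n))) = _
    rw [star_smul, star_add, star_star, add_comm]
    congr 1
    simp
  have htlim : Tendsto t atTop (𝓝 P) := by
    have h1 : Tendsto t atTop (𝓝 ((2⁻¹ : ℂ) • (P + star P))) :=
      (hlim.add (hlim.star)).const_smul _
    have h2 : (2⁻¹ : ℂ) • (P + star P) = P := by
      rw [hP.isSelfAdjoint.star_eq, ← two_smul ℂ P, smul_smul]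
      norm_num
    rwa [h2] at h1
  have hdlim : Tendsto (fun n => ‖t n * t n - t n‖) atTop (𝓝 0) := by
    have h1 : Tendsto (fun n => ‖t n * t n - t n‖) atTop (𝓝 ‖P * P - P‖) :=
      ((htlim.mul htlim).sub htlim).norm
    rwa [hP.isIdempotentElem.eq, sub_self, norm_zero] at h1
  have hex : ∀ n, ∃ p ∈ B n, IsStarProjection p ∧
      (‖t n * t n - t n‖ < 2 / 9 → ‖p - t n‖ ≤ 3 / 2 * ‖t n * t n - t n‖) := by
    intro n
    by_cases h : ‖t n * t n - t n‖ < 2 / 9
    · obtain ⟨p, hp, hpp, hpt⟩ := round_proj (B n) (hB n) (ht n) (htsa n) h le_rfl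
      exact ⟨p, hp, hpp, fun _ => hpt⟩
    · exact ⟨0, zero_mem _, IsStarProjection.zero _, fun h' => absurd h' h⟩
  choose p hp hpp hpt using hex
  refine ⟨p, fun n => ⟨hp n, hpp n⟩, ?_⟩
  have h1 : Tendsto (fun n => p n - t n) atTop (𝓝 0) := by
    rw [tendsto_zero_iff_norm_tendsto_zero]
    refine squeeze_zero' (Eventually.of_forall fun n => norm_nonneg _) ?_
      (show Tendsto (fun n => 3 / 2 * ‖t n * t n - t n‖) atTop (𝓝 0) by
        simpa using hdlim.const_mul (3 / 2))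
    filter_upwards [hdlim.eventually (gt_mem_nhds (show (0 : ℝ) < 2 / 9 by norm_num))] with n hn
    exact hpt n hn
  have h2 := h1.add htlim
  simpa using h2

end Run7.h836
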