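import Mathlib
import Pool.Agent.Run7.h836.P2a
import Pool.Agent.Run7.h836.P2b
import Pool.Agent.Run7.h836.P2c

set_option autoImplicit false

open scoped Topology InnerProductSpace
open Filter

namespace Run7.h836

universe u v

variable {H : Type u} [NormedAddCommGroup H] [InnerProductSpace ℂ H] [CompleteSpace H]

/-- PIECE 2a. Finite subsets of the socle lie in finite dimensional invariant subspaces. -/
theorem exists_inv_of_subset_soc (B : NonUnitalStarSubalgebra ℂ (H →L[ℂ] H))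
    (_hB : IsClosed (B : Set (H →L[ℂ] H))) {N : ℕ} (hsub : SubhomOn B N) (F : Finset H)
    (hF : (F : Set H) ⊆ Soc B) : ∃ W : Submodule ℂ H, Inv B W ∧ (F : Set H) ⊆ W ∧ W ≤ Soc B :=
  exists_inv_of_subset_soc' B hsub F hF

/-- PIECE 2b. Rank comparison in an invariant subspace. `ε` may be changed to any explicit small
number depending on the cardinality of `ι`. -/
theorem rk_partition {ι : Type v} [Fintype ι] [DecidableEq ι] (W : Submodule ℂ H)
    [FiniteDimensional ℂ W] {P : H →L[ℂ] H} {p V : ι → (H →L[ℂ] H)} {ε : ℝ}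
    (hε : 100 * (Fintype.card ι + 1) * ε ≤ 1)
    (hP : IsStarProjection P) (hp : ∀ i, IsStarProjection (p i))
    (hPW : ∀ ξ ∈ W, P ξ ∈ W) (hpW : ∀ i, ∀ ξ ∈ W, p i ξ ∈ W) (hVW : ∀ i, ∀ ξ ∈ W, V i ξ ∈ W)
    (hVW' : ∀ i, ∀ ξ ∈ W, (star (V i)) ξ ∈ W)
    (h1 : ∀ i j, ‖star (V i) * V j - if i = j then p i else 0‖ ≤ ε)
    (h2 : ‖∑ i, V i * star (V i) - P‖ ≤ ε) : rk W P = ∑ i, rk W (p i) :=
  rk_partition' W hε hP hp hPW hpW hVW hVW' h1 h2

/-- PIECE 2c. Close projections have the same rank. -/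
theorem rk_eq_of_close (W : Submodule ℂ H) [FiniteDimensional ℂ W] {P Q : H →L[ℂ] H}
    (hP : IsStarProjection P) (hQ : IsStarProjection Q)
    (hPW : ∀ ξ ∈ W, P ξ ∈ W) (hQW : ∀ ξ ∈ W, Q ξ ∈ W) (h : ‖P - Q‖ < 1) : rk W P = rk W Q :=
  rk_eq_of_close' W hP hQ hPW hQW h

/-- PIECE 2d. Elements of the closure of the union are limits of sequences of elements `a n ∈ B n`. -/
theorem exists_seq (B : ℕ → NonUnitalStarSubalgebra ℂ (H →L[ℂ] H)) (hmono : Monotone B)
    {a : H →L[ℂ] H} (ha : a ∈ AA B) :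
    ∃ s : ℕ → (H →L[ℂ] H), (∀ n, s n ∈ B n) ∧ Tendsto s atTop (𝓝 a) :=
  exists_seq' B hmono ha

/-- PIECE 2e. Projections in the closure of the union are limits of projections `p n ∈ B n`. -/
theorem exists_seq_proj (B : ℕ → NonUnitalStarSubalgebra ℂ (H →L[ℂ] H))
    (hB : ∀ n, IsClosed (B n : Set (H →L[ℂ] H))) (hmono : Monotone B)
    {P : H →L[ℂ] H} (hP : IsStarProjection P) (ha : P ∈ AA B) :
    ∃ s : ℕ → (H →L[ℂ] H), (∀ n, s n ∈ B n ∧ IsStarProjection (s n)) ∧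
      Tendsto s atTop (𝓝 P) :=
  exists_seq_proj' B hB hmono hP ha

/-- eventually close -/
theorem ev_close {s t : ℕ → (H →L[ℂ] H)} {a : H →L[ℂ] H} (hs : Tendsto s atTop (𝓝 a))
    (ht : Tendsto t atTop (𝓝 a)) {ε : ℝ} (hε : 0 < ε) : ∀ᶠ n in atTop, ‖s n - t n‖ < ε := by
  have h1 : Tendsto (fun n => ‖s n - t n‖) atTop (𝓝 0) := by
    have := (hs.sub ht).norm
    rwa [sub_self, norm_zero] at this
  exact h1.eventually (gt_mem_nhds hε)

variable {B : ℕ → NonUnitalStarSubalgebra ℂ (H →L[ℂ] H)}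

/-- PIECE 2f. -/
theorem Rel.unique (hB : ∀ n, IsClosed (B n : Set (H →L[ℂ] H))) (_hmono : Monotone B)
    (hsub : ∀ n, ∃ N, SubhomOn (B n) N) {P Q : H →L[ℂ] H} {c c' : ℤ} (h : Rel B P Q c)
    (h' : Rel B P Q c') : c = c' := by
  classical
  obtain ⟨p, q, hp, hq, hpl, hql, hF⟩ := h
  obtain ⟨p', q', hp', hq', hpl', hql', hF'⟩ := h'
  obtain ⟨n, ⟨F, hFs, hFr⟩, ⟨F', hFs', hFr'⟩, c1, c2⟩ :=
    (hF.and (hF'.and ((ev_close hpl hpl' zero_lt_one).and (ev_close hql hql' zero_lt_one)))).exists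
  obtain ⟨N, hN⟩ := hsub n
  obtain ⟨W, hW, hFW, -⟩ := exists_inv_of_subset_soc (B n) (hB n) hN (F ∪ F') (by
    rw [Finset.coe_union]; exact Set.union_subset hFs hFs')
  rw [Finset.coe_union, Set.union_subset_iff] at hFW
  have := hW.1
  rw [← hFr W hW hFW.1, ← hFr' W hW hFW.2,
    rk_eq_of_close W (hp n).2 (hp' n).2 (hW.2 _ (hp n).1) (hW.2 _ (hp' n).1) c1,
    rk_eq_of_close W (hq n).2 (hq' n).2 (hW.2 _ (hq n).1) (hW.2 _ (hq' n).1) c2]

/-- the approximation step for partitions -/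
theorem ev_partition {ι : Type v} [Fintype ι] [DecidableEq ι] {P : H →L[ℂ] H}
    {p V : ι → (H →L[ℂ] H)} {Pn : ℕ → (H →L[ℂ] H)} {pn Vn : ι → ℕ → (H →L[ℂ] H)}
    (hPn : ∀ n, Pn n ∈ B n ∧ IsStarProjection (Pn n)) (hPl : Tendsto Pn atTop (𝓝 P))
    (hpn : ∀ i n, pn i n ∈ B n ∧ IsStarProjection (pn i n))
    (hpl : ∀ i, Tendsto (pn i) atTop (𝓝 (p i)))
    (hVn : ∀ i n, Vn i n ∈ B n) (hVl : ∀ i, Tendsto (Vn i) atTop (𝓝 (V i)))
    (h1 : ∀ i j, star (V i) * V j = if i = j then p i else 0) (h2 : ∑ i, V i * star (V i) = P) :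
    ∀ᶠ n in atTop, ∀ W : Submodule ℂ H, Inv (B n) W → rk W (Pn n) = ∑ i, rk W (pn i n) := by
  set ε : ℝ := 1 / (100 * (((Fintype.card ι : ℕ) : ℝ) + 1)) with hε
  have hε0 : 0 < ε := by positivity
  have hε1 : 100 * (((Fintype.card ι : ℕ) : ℝ) + 1) * ε ≤ 1 := by
    rw [hε]; field_simp; exact le_refl _
  have e1 : ∀ i j, ∀ᶠ n in atTop,
      ‖star (Vn i n) * Vn j n - if i = j then pn i n else 0‖ < ε := by
    intro i j
    have hlim : Tendsto (fun n => star (Vn i n) * Vn j n) atTop (𝓝 (if i = j then p i else 0)) := by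
      rw [← h1]
      exact ((hVl i).star).mul (hVl j)
    have hlim' : Tendsto (fun n => if i = j then pn i n else 0) atTop
        (𝓝 (if i = j then p i else 0)) := by
      by_cases h : i = j
      · simp only [if_pos h]; exact hpl i
      · simp only [if_neg h]; exact tendsto_const_nhds
    exact ev_close hlim hlim' hε0
  have e2 : ∀ᶠ n in atTop, ‖∑ i, Vn i n * star (Vn i n) - Pn n‖ < ε := by
    have hlim : Tendsto (fun n => ∑ i, Vn i n * star (Vn i n)) atTop (𝓝 P) := by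
      rw [← h2]
      exact tendsto_finsetSum _ fun i _ => (hVl i).mul (hVl i).star
    exact ev_close hlim hPl hε0
  have e1' : ∀ᶠ n in atTop, ∀ i j,
      ‖star (Vn i n) * Vn j n - if i = j then pn i n else 0‖ < ε := by
    rw [eventually_all]; intro i
    rw [eventually_all]; intro j
    exact e1 i j
  filter_upwards [e1', e2] with n h3 h4 W hW
  have := hW.1
  exact rk_partition W hε1 (hPn n).2 (fun i => (hpn i n).2) (hW.2 _ (hPn n).1)
    (fun i => hW.2 _ (hpn i n).1) (fun i => hW.2 _ (hVn i n))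
    (fun i => hW.2 _ (star_mem (hVn i n))) (fun i j => (h3 i j).le) h4.le

/-- PIECE 2g. -/
theorem Rel.partition (hB : ∀ n, IsClosed (B n : Set (H →L[ℂ] H))) (hmono : Monotone B)
    {ι : Type v} [Fintype ι] [DecidableEq ι] {P Q : H →L[ℂ] H} {p q V U : ι → (H →L[ℂ] H)}
    {c : ι → ℤ} (hP : IsStarProjection P) (hQ : IsStarProjection Q) (hPA : P ∈ AA B)
    (hQA : Q ∈ AA B) (hV : ∀ i, V i ∈ AA B) (hU : ∀ i, U i ∈ AA B)
    (h1 : ∀ i j, star (V i) * V j = if i = j then p i else 0) (h2 : ∑ i, V i * star (V i) = P)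
    (h1' : ∀ i j, star (U i) * U j = if i = j then q i else 0) (h2' : ∑ i, U i * star (U i) = Q)
    (hrel : ∀ i, Rel B (p i) (q i) (c i)) : Rel B P Q (∑ i, c i) := by
  obtain ⟨Pn, hPn, hPl⟩ := exists_seq_proj B hB hmono hP hPA
  obtain ⟨Qn, hQn, hQl⟩ := exists_seq_proj B hB hmono hQ hQA
  have hV' := fun i => exists_seq B hmono (hV i)
  have hU' := fun i => exists_seq B hmono (hU i)
  choose Vn hVn hVl using hV'
  choose Un hUn hUl using hU'
  choose pn qn hpn hqn hpl hql hF using hrel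
  refine ⟨Pn, Qn, hPn, hQn, hPl, hQl, ?_⟩
  have e1 := ev_partition hPn hPl hpn hpl hVn hVl h1 h2
  have e2 := ev_partition hQn hQl hqn hql hUn hUl h1' h2'
  have e3 := eventually_all.2 hF
  classical
  filter_upwards [e1, e2, e3] with n h3 h4 h5
  choose F hFs hFr using h5
  refine ⟨Finset.univ.biUnion F, ?_, fun W hW hFW => ?_⟩
  · rw [Finset.coe_biUnion]
    exact Set.iUnion₂_subset fun i _ => hFs i
  · rw [h3 W hW, h4 W hW]
    push_cast
    rw [← Finset.sum_sub_distrib]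
    refine Finset.sum_congr rfl fun i _ => hFr i W hW ?_
    refine Set.Subset.trans ?_ hFW
    rw [Finset.coe_biUnion]
    exact Set.subset_biUnion_of_mem (u := fun i => (F i : Set H)) (Finset.mem_coe.2 (Finset.mem_univ i))

/-- PIECE 2h. -/
theorem Rel.of_equiv (hB : ∀ n, IsClosed (B n : Set (H →L[ℂ] H))) (hmono : Monotone B)
    {P Q V : H →L[ℂ] H} (hP : IsStarProjection P) (hQ : IsStarProjection Q) (hPA : P ∈ AA B)
    (hQA : Q ∈ AA B) (hV : V ∈ AA B) (h1 : star V * V = P) (h2 : V * star V = Q) :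
    Rel B P Q 0 := by
  obtain ⟨Pn, hPn, hPl⟩ := exists_seq_proj B hB hmono hP hPA
  obtain ⟨Qn, hQn, hQl⟩ := exists_seq_proj B hB hmono hQ hQA
  obtain ⟨Vn, hVn, hVl⟩ := exists_seq B hmono hV
  refine ⟨Pn, Qn, hPn, hQn, hPl, hQl, ?_⟩
  have e1 := ev_partition (ι := Unit) (p := fun _ => P) (V := fun _ => V) (pn := fun _ => Pn)
    (Vn := fun _ => Vn) hQn hQl (fun _ => hPn) (fun _ => hPl) (fun _ => hVn) (fun _ => hVl)
    (fun i j => by rw [if_pos rfl]; exact h1) (by simpa using h2)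
  filter_upwards [e1] with n h3
  refine ⟨∅, by simp, fun W hW _ => ?_⟩
  have := h3 W hW
  simp only [Finset.univ_unique, Finset.sum_singleton] at this
  rw [this, sub_self]

/-- PIECE 2i. -/
theorem Rel.of_finRk (hB : ∀ n, IsClosed (B n : Set (H →L[ℂ] H))) (hmono : Monotone B)
    {P Q : H →L[ℂ] H} (hP : IsStarProjection P) (hQ : IsStarProjection Q) (hPA : P ∈ AA B)
    (hQA : Q ∈ AA B) (hPf : FinRk P) (hQf : FinRk Q) :
    Rel B P Q ((Module.finrank ℂ (LinearMap.range (P : H →ₗ[ℂ] H)) : ℤ) -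
      Module.finrank ℂ (LinearMap.range (Q : H →ₗ[ℂ] H))) := by
  obtain ⟨Pn, hPn, hPl⟩ := exists_seq_proj B hB hmono hP hPA
  obtain ⟨Qn, hQn, hQl⟩ := exists_seq_proj B hB hmono hQ hQA
  refine ⟨Pn, Qn, hPn, hQn, hPl, hQl, ?_⟩
  have key : ∀ {R : H →L[ℂ] H} {Rn : ℕ → (H →L[ℂ] H)} (_ : IsStarProjection R) (_ : FinRk R)
      (_ : ∀ n, Rn n ∈ B n ∧ IsStarProjection (Rn n)) (_ : Tendsto Rn atTop (𝓝 R)),
      ∀ᶠ n in atTop, ∃ F : Finset H, (F : Set H) ⊆ Soc (B n) ∧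
        ∀ W : Submodule ℂ H, Inv (B n) W → (F : Set H) ⊆ W →
          rk W (Rn n) = Module.finrank ℂ (LinearMap.range (R : H →ₗ[ℂ] H)) := by
    intro R Rn hR hRf hRn hRl
    filter_upwards [ev_close hRl tendsto_const_nhds zero_lt_one] with n hn
    have f1 := finRk_close (hRn n).2 hRf hn
    have f2 := finRk_close hR f1.1 (by rwa [norm_sub_rev])
    have hfr : Module.finrank ℂ (LinearMap.range (Rn n : H →ₗ[ℂ] H)) =
        Module.finrank ℂ (LinearMap.range (R : H →ₗ[ℂ] H)) := le_antisymm f1.2 f2.2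
    have hfin := f1.1
    unfold FinRk at hfin
    obtain ⟨F, hF⟩ := (Submodule.fg_iff_finiteDimensional _).2 hfin
    refine ⟨F, ?_, fun W hW hFW => ?_⟩
    · intro x hx
      have h1 : x ∈ LinearMap.range (Rn n : H →ₗ[ℂ] H) := by
        rw [← hF]; exact Submodule.subset_span hx
      have h2 : LinearMap.range (Rn n : H →ₗ[ℂ] H) ≤ Soc (B n) :=
        le_iSup₂_of_le (Rn n) ⟨(hRn n).1, f1.1⟩ le_rfl
      exact h2 h1
    · have h1 : LinearMap.range (Rn n : H →ₗ[ℂ] H) ≤ W := by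
        rw [← hF]; exact Submodule.span_le.2 hFW
      rw [← hfr]
      have h2 : W.map (Rn n : H →ₗ[ℂ] H) = LinearMap.range (Rn n : H →ₗ[ℂ] H) := by
        apply le_antisymm
        · exact LinearMap.map_le_range
        · rintro _ ⟨x, rfl⟩
          exact ⟨Rn n x, h1 ⟨x, rfl⟩, proj_fix (hRn n).2 x⟩
      unfold rk
      rw [h2]
  classical
  filter_upwards [key hP hPf hPn hPl, key hQ hQf hQn hQl] with n h1 h2
  obtain ⟨F, hFs, hFr⟩ := h1
  obtain ⟨F', hFs', hFr'⟩ := h2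
  refine ⟨F ∪ F', ?_, fun W hW hFW => ?_⟩
  · rw [Finset.coe_union]; exact Set.union_subset hFs hFs'
  · rw [Finset.coe_union, Set.union_subset_iff] at hFW
    rw [hFr W hW hFW.1, hFr' W hW hFW.2]

end Run7.h836
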