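import Mathlib
import Pool.Agent.Run7.h836.P3d

set_option autoImplicit false

open scoped Topology InnerProductSpace
open Filter

namespace Run7.h836

universe u v

section
variable {A : Type u} [NonUnitalCStarAlgebra A] {K : Type v} [NormedAddCommGroup K]
  [InnerProductSpace ℂ K] [CompleteSpace K]

theorem finrank_range_restr (ρ : A →⋆ₙₐ[ℂ] (K →L[ℂ] K)) (W : Submodule ℂ K) [CompleteSpace W]
    (hW : ∀ a, ∀ ξ ∈ W, ρ a ξ ∈ W) (a : A) :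
    Module.finrank ℂ (LinearMap.range (restr ρ W hW a : W →ₗ[ℂ] W)) = rk W (ρ a) := by
  unfold rk
  have h : (LinearMap.range (restr ρ W hW a : W →ₗ[ℂ] W)).map W.subtype =
      W.map (ρ a : K →ₗ[ℂ] K) := by
    ext x
    constructor
    · rintro ⟨y, ⟨z, rfl⟩, rfl⟩
      exact ⟨z, z.2, rfl⟩
    · rintro ⟨z, hz, rfl⟩
      exact ⟨restr ρ W hW a ⟨z, hz⟩, ⟨⟨z, hz⟩, rfl⟩, rfl⟩
  rw [← h, Submodule.finrank_map_subtype_eq]

theorem orth_inv (ρ : A →⋆ₙₐ[ℂ] (K →L[ℂ] K)) (W : Submodule ℂ K)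
    (hW : ∀ a, ∀ ξ ∈ W, ρ a ξ ∈ W) : ∀ a, ∀ ξ ∈ Wᗮ, ρ a ξ ∈ Wᗮ := by
  intro a ξ hξ
  rw [Submodule.mem_orthogonal] at hξ ⊢
  intro y hy
  have h1 : ⟪y, ρ a ξ⟫_ℂ = ⟪ρ (star a) y, ξ⟫_ℂ := by
    rw [map_star, ContinuousLinearMap.star_eq_adjoint, ContinuousLinearMap.adjoint_inner_left]
  rw [h1]
  exact hξ _ (hW (star a) y hy)

theorem rk_top [FiniteDimensional ℂ K] (p : K →L[ℂ] K) :
    Module.finrank ℂ (LinearMap.range (p : K →ₗ[ℂ] K)) = rk ⊤ p := by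
  unfold rk
  rw [Submodule.map_top]

end

variable {H : Type u} [NormedAddCommGroup H] [InnerProductSpace ℂ H] [CompleteSpace H]

theorem cert_rep_aux (B : NonUnitalStarSubalgebra ℂ (H →L[ℂ] H))
    [hB : IsClosed (B : Set (H →L[ℂ] H))] {A : Set (H →L[ℂ] H)} (hBA : (B : Set (H →L[ℂ] H)) ⊆ A)
    {P Q F T₁ T₂ : H →L[ℂ] H} (h : Cert A P Q F T₁ T₂) (P' Q' F' T₁' T₂' : B)
    (hP' : IsStarProjection (P' : H →L[ℂ] H)) (hQ' : IsStarProjection (Q' : H →L[ℂ] H))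
    (hP : ‖(P' : H →L[ℂ] H) - P‖ ≤ 1 / 1000) (hQ : ‖(Q' : H →L[ℂ] H) - Q‖ ≤ 1 / 1000)
    (hF : ‖(F' : H →L[ℂ] H) - F‖ ≤ 1 / 1000) (hT₁ : ‖(T₁' : H →L[ℂ] H) - T₁‖ ≤ 1 / 1000)
    (hT₂ : ‖(T₂' : H →L[ℂ] H) - T₂‖ ≤ 1 / 1000) (n : ℕ) :
    ∀ (K : Type v) [NormedAddCommGroup K] [InnerProductSpace ℂ K] [CompleteSpace K]
    [FiniteDimensional ℂ K] 
    (ρ : B →⋆ₙₐ[ℂ] (K →L[ℂ] K)) (_hρ : ∀ T : B, FinRk (T : H →L[ℂ] H) → ρ T = 0)
    (_hn : Module.finrank ℂ K = n),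
    Module.finrank ℂ (LinearMap.range (ρ P' : K →ₗ[ℂ] K)) =
      Module.finrank ℂ (LinearMap.range (ρ Q' : K →ₗ[ℂ] K)) := by
  induction n using Nat.strong_induction_on with
  | _ n ih =>
    intro K _ _ _ _ ρ hρ hn
    by_cases hirr : ∀ W : Submodule ℂ K, (∀ a, ∀ ξ ∈ W, ρ a ξ ∈ W) → W = ⊥ ∨ W = ⊤
    · apply le_antisymm
      · exact irr_le B h.P_proj h.Q_proj h.F_sa h.F_norm h.FP h.T₁_eq h.T₂_eq h.T₁_norm h.T₂_norm
          (fun a ha => h.comm_P a (hBA ha)) h.c₁ h.c₃ P' Q' F' T₁' T₂' hP' hQ' hP hQ hF hT₁ hT₂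
          ρ hρ hirr
      · have e₁ : P * star T₁ * Q = star T₁ := by
          have := congrArg star h.T₁_eq
          rw [star_mul, star_mul, h.P_proj.isSelfAdjoint.star_eq,
            h.Q_proj.isSelfAdjoint.star_eq, ← mul_assoc] at this
          exact this
        have e₂ : P * star T₂ * Q = star T₂ := by
          have := congrArg star h.T₂_eq
          rw [star_mul, star_mul, h.P_proj.isSelfAdjoint.star_eq,
            h.Q_proj.isSelfAdjoint.star_eq, ← mul_assoc] at this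
          exact this
        refine irr_le B h.Q_proj h.P_proj h.F_sa h.F_norm h.FQ e₁ e₂ (by rw [norm_star]; exact h.T₁_norm)
          (by rw [norm_star]; exact h.T₂_norm)
          (fun a ha => h.comm_Q a (hBA ha)) ?_ ?_ Q' P' F' (star T₁') (star T₂') hQ' hP' hQ hP hF
          ?_ ?_ ρ hρ hirr
        · rw [star_star]; exact h.c₂
        · rw [star_star]; exact h.c₄
        · show ‖star (T₁' : H →L[ℂ] H) - star T₁‖ ≤ _
          rw [← star_sub, norm_star]; exact hT₁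
        · show ‖star (T₂' : H →L[ℂ] H) - star T₂‖ ≤ _
          rw [← star_sub, norm_star]; exact hT₂
    · push Not at hirr
      obtain ⟨W, hW, hb, ht⟩ := hirr
      have hW' := orth_inv ρ W hW
      have hsum : Module.finrank ℂ W + Module.finrank ℂ Wᗮ = Module.finrank ℂ K :=
        W.finrank_add_finrank_orthogonal
      have h1 : Module.finrank ℂ W < n := by
        rw [← hn]; exact Submodule.finrank_lt ht
      have h2 : Module.finrank ℂ Wᗮ < n := by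
        rw [← hn]; refine Submodule.finrank_lt (fun h => hb ?_)
        have := W.isCompl_orthogonal.disjoint
        rw [h, disjoint_top] at this
        exact this
      have r1 := ih _ h1 W (restr ρ W hW) (fun T hT => by
        ext x; show ρ T (x : K) = 0; rw [hρ T hT]; rfl) rfl
      have r2 := ih _ h2 Wᗮ (restr ρ Wᗮ hW') (fun T hT => by
        ext x; show ρ T (x : K) = 0; rw [hρ T hT]; rfl) rfl
      rw [finrank_range_restr, finrank_range_restr] at r1 r2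
      have hsup : W ⊔ Wᗮ = ⊤ := Submodule.sup_orthogonal_of_hasOrthogonalProjection
      have hd : Disjoint W Wᗮ := W.isCompl_orthogonal.disjoint
      rw [rk_top, rk_top, ← hsup, rk_sup _ (hW P') (hW' P') hd, rk_sup _ (hW Q') (hW' Q') hd, r1, r2]

/-- PIECE 3c. -/
theorem cert_rep {K : Type v} [NormedAddCommGroup K] [InnerProductSpace ℂ K] [CompleteSpace K]
    [FiniteDimensional ℂ K] (B : NonUnitalStarSubalgebra ℂ (H →L[ℂ] H))
    [hB : IsClosed (B : Set (H →L[ℂ] H))] {A : Set (H →L[ℂ] H)} (hBA : (B : Set (H →L[ℂ] H)) ⊆ A)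
    {P Q F T₁ T₂ : H →L[ℂ] H} (h : Cert A P Q F T₁ T₂) (P' Q' F' T₁' T₂' : B)
    (hP' : IsStarProjection (P' : H →L[ℂ] H)) (hQ' : IsStarProjection (Q' : H →L[ℂ] H))
    (hP : ‖(P' : H →L[ℂ] H) - P‖ ≤ 1 / 1000) (hQ : ‖(Q' : H →L[ℂ] H) - Q‖ ≤ 1 / 1000)
    (hF : ‖(F' : H →L[ℂ] H) - F‖ ≤ 1 / 1000) (hT₁ : ‖(T₁' : H →L[ℂ] H) - T₁‖ ≤ 1 / 1000)
    (hT₂ : ‖(T₂' : H →L[ℂ] H) - T₂‖ ≤ 1 / 1000)
    (ρ : B →⋆ₙₐ[ℂ] (K →L[ℂ] K)) (hρ : ∀ T : B, FinRk (T : H →L[ℂ] H) → ρ T = 0) :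
    Module.finrank ℂ (LinearMap.range (ρ P' : K →ₗ[ℂ] K)) =
      Module.finrank ℂ (LinearMap.range (ρ Q' : K →ₗ[ℂ] K)) :=
  cert_rep_aux B hBA h P' Q' F' T₁' T₂' hP' hQ' hP hQ hF hT₁ hT₂ _ K ρ hρ rfl

end Run7.h836
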