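import Mathlib
import Pool.Agent.Run7.h836.P2
import Pool.Agent.Run7.h836.P3

set_option autoImplicit false

/-!
Compressions to finite dimensional invariant subspaces and their limits.
-/

open scoped Topology InnerProductSpace
open Filter

namespace Run7.h836

universe u v

section compress
variable {H : Type u} [NormedAddCommGroup H] [InnerProductSpace ℂ H] [CompleteSpace H]

/-- the model space -/
abbrev KK (N : ℕ) : Type := EuclideanSpace ℂ (Fin N)

/-- a partial isometry onto a finite dimensional subspace -/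
theorem exists_pi (W : Submodule ℂ H) [FiniteDimensional ℂ W] {N : ℕ}
    (hN : Module.finrank ℂ W ≤ N) : ∃ V : KK N →L[ℂ] H,
      (∀ v, V v ∈ W) ∧ (∀ w ∈ W, V (V.adjoint w) = w) := by
  classical
  let e := stdOrthonormalBasis ℂ W
  let f : Fin N → H := fun k => if h : (k : ℕ) < Module.finrank ℂ W then (e ⟨k, h⟩ : H) else 0
  let V : KK N →L[ℂ] H := ∑ k, (ContinuousLinearMap.toSpanSingleton ℂ (f k)).comp
    (EuclideanSpace.proj k : KK N →L[ℂ] ℂ)
  have hV : ∀ v, V v = ∑ k, v k • f k := by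
    intro v
    simp [V]
  have hf : ∀ k, f k ∈ W := by
    intro k
    simp only [f]
    split_ifs with h
    · exact (e ⟨k, h⟩).2
    · exact W.zero_mem
  have hVs : ∀ k, V (EuclideanSpace.single k 1) = f k := by
    intro k
    rw [hV]
    simp [Pi.single_apply]
  have hVa : ∀ w k, V.adjoint w k = ⟪f k, w⟫_ℂ := by
    intro w k
    have h1 : ⟪EuclideanSpace.single k (1 : ℂ), V.adjoint w⟫_ℂ = ⟪f k, w⟫_ℂ := by
      rw [ContinuousLinearMap.adjoint_inner_right, hVs]
    rw [EuclideanSpace.inner_single_left] at h1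
    simpa using h1
  refine ⟨V, fun v => ?_, fun w hw => ?_⟩
  · rw [hV]
    exact W.sum_mem fun k _ => W.smul_mem _ (hf k)
  · rw [hV]
    simp_rw [hVa]
    have h1 : (∑ j, ⟪e j, (⟨w, hw⟩ : W)⟫_ℂ • e j) = (⟨w, hw⟩ : W) := e.sum_repr' _
    have h2 : ∑ j, ⟪(e j : H), w⟫_ℂ • (e j : H) = w := by
      have := congrArg Subtype.val h1
      simpa using this
    conv_rhs => rw [← h2]
    have h3 : ∀ j : Fin (Module.finrank ℂ W), f (Fin.castLE hN j) = (e j : H) := by
      intro j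
      simp only [f, Fin.val_castLE]
      rw [dif_pos j.2]
    symm
    refine Finset.sum_of_injOn (Fin.castLE hN) (Fin.castLE_injective hN).injOn
      (fun _ _ => Finset.mem_coe.2 (Finset.mem_univ _)) (fun k _ hk => ?_) (fun j _ => by rw [h3])
    have hk' : ¬ (k : ℕ) < Module.finrank ℂ W := by
      intro h
      apply hk
      exact ⟨⟨k, h⟩, by simp, rfl⟩
    simp only [f]
    rw [dif_neg hk']
    simp

variable {N : ℕ} {W : Submodule ℂ H} {V : KK N →L[ℂ] H}

theorem pi_orth (h1 : ∀ v, V v ∈ W) {x : H} (hx : x ∈ Wᗮ) : V.adjoint x = 0 := by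
  apply ext_inner_left ℂ
  intro v
  rw [ContinuousLinearMap.adjoint_inner_right, inner_zero_right]
  exact hx _ (h1 v)

theorem pi_norm (h1 : ∀ v, V v ∈ W) (h2 : ∀ w ∈ W, V (V.adjoint w) = w) : ‖V‖ ≤ 1 := by
  have h3 : ‖V ∘L V.adjoint‖ = ‖V‖ * ‖V‖ := by
    have := ContinuousLinearMap.norm_adjoint_comp_self V.adjoint
    rwa [ContinuousLinearMap.adjoint_adjoint, LinearIsometryEquiv.norm_map] at this
  have h4 : IsStarProjection (V ∘L V.adjoint : H →L[ℂ] H) := by
    refine ⟨?_, ?_⟩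
    · show (V ∘L V.adjoint) * (V ∘L V.adjoint) = V ∘L V.adjoint
      ext x
      show V (V.adjoint (V (V.adjoint x))) = V (V.adjoint x)
      exact h2 _ (h1 _)
    · rw [isSelfAdjoint_iff, ContinuousLinearMap.star_eq_adjoint, ContinuousLinearMap.adjoint_comp,
        ContinuousLinearMap.adjoint_adjoint]
  have h5 := proj_norm_le h4
  rw [h3] at h5
  by_contra h
  push Not at h
  nlinarith

/-- the compression -/
noncomputable def cmp (V : KK N →L[ℂ] H) (b : H →L[ℂ] H) : KK N →L[ℂ] KK N :=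
  V.adjoint ∘L b ∘L V

theorem cmp_apply (V : KK N →L[ℂ] H) (b : H →L[ℂ] H) (v : KK N) :
    cmp V b v = V.adjoint (b (V v)) := rfl

theorem cmp_add (V : KK N →L[ℂ] H) (b c : H →L[ℂ] H) : cmp V (b + c) = cmp V b + cmp V c := by
  ext1 v
  show V.adjoint (b (V v) + c (V v)) = V.adjoint (b (V v)) + V.adjoint (c (V v))
  rw [map_add]

theorem cmp_smul (V : KK N →L[ℂ] H) (r : ℂ) (b : H →L[ℂ] H) : cmp V (r • b) = r • cmp V b := by
  ext1 v
  show V.adjoint (r • b (V v)) = r • V.adjoint (b (V v))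
  rw [map_smul]

theorem cmp_star (V : KK N →L[ℂ] H) (b : H →L[ℂ] H) : cmp V (star b) = star (cmp V b) := by
  unfold cmp
  rw [ContinuousLinearMap.star_eq_adjoint, ContinuousLinearMap.star_eq_adjoint,
    ContinuousLinearMap.adjoint_comp, ContinuousLinearMap.adjoint_comp,
    ContinuousLinearMap.adjoint_adjoint]
  rfl

theorem cmp_mul (h1 : ∀ v, V v ∈ W) (h2 : ∀ w ∈ W, V (V.adjoint w) = w) {b c : H →L[ℂ] H}
    (hc : ∀ w ∈ W, c w ∈ W) : cmp V (b * c) = cmp V b * cmp V c := by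
  ext1 v
  show V.adjoint (b (c (V v))) = V.adjoint (b (V (V.adjoint (c (V v)))))
  rw [h2 _ (hc _ (h1 v))]

theorem cmp_norm (h : ‖V‖ ≤ 1) (b : H →L[ℂ] H) : ‖cmp V b‖ ≤ ‖b‖ := by
  unfold cmp
  calc _ ≤ ‖V.adjoint‖ * ‖b ∘L V‖ := ContinuousLinearMap.opNorm_comp_le _ _
    _ ≤ 1 * (‖b‖ * 1) := by
        gcongr
        · rw [LinearIsometryEquiv.norm_map]; exact h
        · exact (ContinuousLinearMap.opNorm_comp_le _ _).trans (by gcongr)
    _ = ‖b‖ := by ring

theorem cmp_rank [FiniteDimensional ℂ W] (h1 : ∀ v, V v ∈ W) (h2 : ∀ w ∈ W, V (V.adjoint w) = w)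
    {p : H →L[ℂ] H} (hp : ∀ w ∈ W, p w ∈ W) :
    Module.finrank ℂ (LinearMap.range (cmp V p : KK N →ₗ[ℂ] KK N)) = rk W p := by
  unfold rk
  have e1 : LinearMap.range (cmp V p : KK N →ₗ[ℂ] KK N) =
      (W.map (p : H →ₗ[ℂ] H)).map (V.adjoint : H →ₗ[ℂ] KK N) := by
    apply le_antisymm
    · rintro _ ⟨v, rfl⟩
      exact ⟨p (V v), ⟨V v, h1 v, rfl⟩, rfl⟩
    · rintro _ ⟨_, ⟨w, hw, rfl⟩, rfl⟩
      refine ⟨V.adjoint w, ?_⟩
      show V.adjoint (p (V (V.adjoint w))) = V.adjoint (p w)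
      rw [h2 w hw]
  have e2 : ((W.map (p : H →ₗ[ℂ] H)).map (V.adjoint : H →ₗ[ℂ] KK N)).map (V : KK N →ₗ[ℂ] H) =
      W.map (p : H →ₗ[ℂ] H) := by
    apply le_antisymm
    · rintro _ ⟨_, ⟨_, ⟨w, hw, rfl⟩, rfl⟩, rfl⟩
      refine ⟨w, hw, ?_⟩
      exact (h2 _ (hp w hw)).symm
    · rintro _ ⟨w, hw, rfl⟩
      exact ⟨V.adjoint (p w), ⟨p w, ⟨w, hw, rfl⟩, rfl⟩, h2 _ (hp w hw)⟩
  rw [e1]
  apply le_antisymm
  · exact Submodule.finrank_map_le _ _
  · conv_lhs => rw [← e2]
    exact Submodule.finrank_map_le _ _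

end compress

section limit
variable {H : Type u} [NormedAddCommGroup H] [InnerProductSpace ℂ H] [CompleteSpace H]

/-- the limit of compressions -/
theorem exists_limit_rep (B : NonUnitalStarSubalgebra ℂ (H →L[ℂ] H)) {I : Type v} {N : ℕ}
    (𝒰 : Ultrafilter I) (W : I → Submodule ℂ H) (V : I → (KK N →L[ℂ] H))
    (hW : ∀ i, ∀ T ∈ B, ∀ ξ ∈ W i, T ξ ∈ W i)
    (h1 : ∀ i v, V i v ∈ W i) (h2 : ∀ i, ∀ w ∈ W i, V i ((V i).adjoint w) = w) :
    ∃ ρ : B →⋆ₙₐ[ℂ] (KK N →L[ℂ] KK N),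
      ∀ b : B, Tendsto (fun i => cmp (V i) (b : H →L[ℂ] H)) 𝒰 (𝓝 (ρ b)) := by
  have hex : ∀ b : B, ∃ L : KK N →L[ℂ] KK N,
      Tendsto (fun i => cmp (V i) (b : H →L[ℂ] H)) 𝒰 (𝓝 L) := by
    intro b
    have hc : IsCompact (Metric.closedBall (0 : KK N →L[ℂ] KK N) ‖(b : H →L[ℂ] H)‖) := by
      have : ProperSpace (KK N →L[ℂ] KK N) := FiniteDimensional.proper ℂ _
      exact isCompact_closedBall _ _
    obtain ⟨L, -, hL⟩ := hc.ultrafilter_le_nhds (𝒰.map fun i => cmp (V i) (b : H →L[ℂ] H)) (by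
      rw [Ultrafilter.coe_map, le_principal_iff, mem_map]
      refine Filter.univ_mem' fun i => ?_
      show cmp (V i) (b : H →L[ℂ] H) ∈ Metric.closedBall (0 : KK N →L[ℂ] KK N) ‖(b : H →L[ℂ] H)‖
      rw [mem_closedBall_zero_iff]
      exact cmp_norm (pi_norm (h1 i) (h2 i)) _)
    exact ⟨L, hL⟩
  choose L hL using hex
  refine ⟨{ toFun := L
            map_smul' := fun r b => ?_
            map_zero' := ?_
            map_add' := fun b c => ?_
            map_mul' := fun b c => ?_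
            map_star' := fun b => ?_ }, hL⟩
  · refine tendsto_nhds_unique (hL (r • b)) ?_
    have := (hL b).const_smul r
    refine this.congr fun i => ?_
    exact (cmp_smul _ _ _).symm
  · refine tendsto_nhds_unique (hL 0) ?_
    refine tendsto_const_nhds.congr fun i => ?_
    ext1 v
    show (0 : KK N) = (V i).adjoint ((0 : H →L[ℂ] H) (V i v))
    rw [show (0 : H →L[ℂ] H) (V i v) = 0 from rfl, map_zero]
  · refine tendsto_nhds_unique (hL (b + c)) ?_
    refine ((hL b).add (hL c)).congr fun i => ?_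
    exact (cmp_add _ _ _).symm
  · refine tendsto_nhds_unique (hL (b * c)) ?_
    refine ((hL b).mul (hL c)).congr fun i => ?_
    exact (cmp_mul (h1 i) (h2 i) (hW i c c.2)).symm
  · refine tendsto_nhds_unique (hL (star b)) ?_
    have hc : Continuous (fun T : KK N →L[ℂ] KK N => T.adjoint) :=
      (ContinuousLinearMap.adjoint (𝕜 := ℂ) (E := KK N) (F := KK N)).continuous
    have h3 := (hc.tendsto (L b)).comp (hL b)
    refine h3.congr fun i => ?_
    exact (cmp_star _ _).symm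

end limit

end Run7.h836
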