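import Mathlib
import Pool.Agent.Run7.h836.P4a

set_option autoImplicit false

/-!
The certificate forces equal ranks away from a finite subset of the socle.
-/

open scoped Topology InnerProductSpace
open Filter

namespace Run7.h836

universe u v

variable {H : Type u} [NormedAddCommGroup H] [InnerProductSpace ℂ H] [CompleteSpace H]

/-- splitting an invariant subspace -/
theorem rk_split {B : NonUnitalStarSubalgebra ℂ (H →L[ℂ] H)} {W W' : Submodule ℂ H}
    (hW : Inv B W) (hW' : BInv B W') (hle : W' ≤ W) {p : H →L[ℂ] H} (hp : p ∈ B) :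
    rk W p = rk W' p + rk (W'ᗮ ⊓ W) p := by
  have := hW.1
  have : FiniteDimensional ℂ W' := Submodule.finiteDimensional_of_le hle
  have : FiniteDimensional ℂ (W'ᗮ ⊓ W : Submodule ℂ H) :=
    Submodule.finiteDimensional_of_le inf_le_right
  have hsup : W' ⊔ W'ᗮ ⊓ W = W := Submodule.sup_orthogonal_inf_of_hasOrthogonalProjection hle
  have hd : Disjoint W' (W'ᗮ ⊓ W) := W'.isCompl_orthogonal.disjoint.mono_right inf_le_left
  have hi : BInv B (W'ᗮ ⊓ W) := hW'.orth.inf hW.2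
  conv_lhs => rw [← hsup]
  exact rk_sup p (hW' p hp) (hi p hp) hd

theorem rk_zero_of {W : Submodule ℂ H} {p : H →L[ℂ] H} (h : ∀ ξ ∈ W, p ξ = 0) : rk W p = 0 := by
  unfold rk
  have : W.map (p : H →ₗ[ℂ] H) = ⊥ := by
    rw [eq_bot_iff]
    rintro _ ⟨x, hx, rfl⟩
    exact (Submodule.mem_bot ℂ).2 (h x hx)
  rw [this, finrank_bot]

theorem red_dim (B : NonUnitalStarSubalgebra ℂ (H →L[ℂ] H)) {N : ℕ} (hsub : SubhomOn B N)
    {p q : H →L[ℂ] H} (hp : p ∈ B) (hq : q ∈ B) (d : ℕ) : ∀ W : Submodule ℂ H, Inv B W →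
    rk W p ≠ rk W q → Module.finrank ℂ W = d →
    ∃ W' : Submodule ℂ H, Inv B W' ∧ W' ≤ W ∧ rk W' p ≠ rk W' q ∧ Module.finrank ℂ W' ≤ N := by
  induction d using Nat.strong_induction_on with
  | _ d ih =>
    intro W hW hne hd
    have := hW.1
    by_cases hirr : ∀ W' : Submodule ℂ H, W' ≤ W → IsClosed (W' : Set H) → BInv B W' →
        W' = ⊥ ∨ W' = W
    · refine ⟨W, hW, le_rfl, hne, ?_⟩
      have hex : ∃ T ∈ B, ∃ ξ ∈ W, T ξ ≠ 0 := by
        by_contra hcon
        push Not at hcon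
        exact hne (by rw [rk_zero_of (hcon p hp), rk_zero_of (hcon q hq)])
      exact Module.finrank_le_of_rank_le (hsub W W.closed_of_finiteDimensional hW.2 hex hirr)
    · push Not at hirr
      obtain ⟨W', hle, -, hi, h0, hneq⟩ := hirr
      have s1 := rk_split hW hi hle hp
      have s2 := rk_split hW hi hle hq
      have hf : FiniteDimensional ℂ W' := Submodule.finiteDimensional_of_le hle
      have hf' : FiniteDimensional ℂ (W'ᗮ ⊓ W : Submodule ℂ H) :=
        Submodule.finiteDimensional_of_le inf_le_right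
      by_cases hr : rk W' p = rk W' q
      · have hr' : rk (W'ᗮ ⊓ W) p ≠ rk (W'ᗮ ⊓ W) q := by omega
        have hlt : (W'ᗮ ⊓ W) < W := by
          refine lt_of_le_of_ne inf_le_right fun h => h0 ?_
          rw [eq_bot_iff]
          have h1 : W' ≤ W'ᗮ := by
            calc W' ≤ W := hle
              _ = W'ᗮ ⊓ W := h.symm
              _ ≤ W'ᗮ := inf_le_left
          have := W'.isCompl_orthogonal.disjoint
          exact this le_rfl h1
        obtain ⟨W₁, h1, h2, h3, h4⟩ := ih _ (by rw [← hd]; exact Submodule.finrank_lt_finrank_of_lt hlt)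
          (W'ᗮ ⊓ W) ⟨hf', hi.orth.inf hW.2⟩ hr' rfl
        exact ⟨W₁, h1, h2.trans inf_le_right, h3, h4⟩
      · obtain ⟨W₁, h1, h2, h3, h4⟩ := ih _ (by
          rw [← hd]; exact Submodule.finrank_lt_finrank_of_lt (lt_of_le_of_ne hle hneq))
          W' ⟨hf, hi⟩ hr rfl
        exact ⟨W₁, h1, h2.trans hle, h3, h4⟩

theorem lemmaF (B : NonUnitalStarSubalgebra ℂ (H →L[ℂ] H))
    [hB : IsClosed (B : Set (H →L[ℂ] H))] {N : ℕ} (hsub : SubhomOn B N)
    {A : Set (H →L[ℂ] H)} (hBA : (B : Set (H →L[ℂ] H)) ⊆ A)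
    {P Q F T₁ T₂ : H →L[ℂ] H} (h : Cert A P Q F T₁ T₂) (P' Q' F' T₁' T₂' : B)
    (hP' : IsStarProjection (P' : H →L[ℂ] H)) (hQ' : IsStarProjection (Q' : H →L[ℂ] H))
    (hP : ‖(P' : H →L[ℂ] H) - P‖ ≤ 1 / 1000) (hQ : ‖(Q' : H →L[ℂ] H) - Q‖ ≤ 1 / 1000)
    (hF : ‖(F' : H →L[ℂ] H) - F‖ ≤ 1 / 1000) (hT₁ : ‖(T₁' : H →L[ℂ] H) - T₁‖ ≤ 1 / 1000)
    (hT₂ : ‖(T₂' : H →L[ℂ] H) - T₂‖ ≤ 1 / 1000) :
    ∃ F0 : Finset H, (F0 : Set H) ⊆ Soc B ∧ ∀ W : Submodule ℂ H, Inv B W →
      (∀ x ∈ F0, ∀ w ∈ W, ⟪x, w⟫_ℂ = 0) → rk W (P' : H →L[ℂ] H) = rk W (Q' : H →L[ℂ] H) := by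
  classical
  by_contra hcon
  push Not at hcon
  have hex : ∀ i : Finset (Soc B), ∃ W : Submodule ℂ H, Inv B W ∧
      (∀ x ∈ i, ∀ w ∈ W, ⟪(x : H), w⟫_ℂ = 0) ∧ rk W (P' : H →L[ℂ] H) ≠ rk W (Q' : H →L[ℂ] H) ∧
      Module.finrank ℂ W ≤ N := by
    intro i
    obtain ⟨W, hW, horth, hne⟩ := hcon (i.map (Function.Embedding.subtype _)) (by
      intro x hx
      simp only [Finset.coe_map, Set.mem_image] at hx
      obtain ⟨y, -, rfl⟩ := hx
      exact y.2)
    obtain ⟨W', hW', hle, hne', hfr⟩ := red_dim B hsub P'.2 Q'.2 _ W hW hne rfl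
    refine ⟨W', hW', fun x hx w hw => horth x ?_ w (hle hw), hne', hfr⟩
    exact Finset.mem_map.2 ⟨x, hx, rfl⟩
  choose W hWi horth hne hfr using hex
  have hfin : ∀ i, FiniteDimensional ℂ (W i) := fun i => (hWi i).1
  have hpi := fun i => exists_pi (W i) (hfr i)
  choose V h1 h2 using hpi
  let 𝒰 : Ultrafilter (Finset (Soc B)) := Ultrafilter.of atTop
  have hU : (𝒰 : Filter (Finset (Soc B))) ≤ atTop := Ultrafilter.of_le _
  obtain ⟨ρ, hρ⟩ := exists_limit_rep B 𝒰 W V (fun i => (hWi i).2) h1 h2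
  -- finite rank elements are killed
  have hkill : ∀ T : B, FinRk (T : H →L[ℂ] H) → ρ T = 0 := by
    intro T hT
    have hTf := hT
    unfold FinRk at hTf
    obtain ⟨G, hG⟩ := (Submodule.fg_iff_finiteDimensional _).2 hTf
    have hGs : (G : Set H) ⊆ Soc B := by
      intro x hx
      have h3 : x ∈ LinearMap.range ((T : H →L[ℂ] H) : H →ₗ[ℂ] H) := by
        rw [← hG]; exact Submodule.subset_span hx
      have h4 : LinearMap.range ((T : H →L[ℂ] H) : H →ₗ[ℂ] H) ≤ Soc B :=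
        le_iSup₂_of_le (T : H →L[ℂ] H) ⟨T.2, hT⟩ le_rfl
      exact h4 h3
    have hev : ∀ᶠ i in (𝒰 : Filter (Finset (Soc B))), cmp (V i) (T : H →L[ℂ] H) = 0 := by
      have h5 := hU (eventually_ge_atTop (G.subtype (· ∈ Soc B)))
      filter_upwards [h5] with i hi
      have h6 : ∀ w ∈ W i, (T : H →L[ℂ] H) w = 0 := by
        intro w hw
        have h7 : (T : H →L[ℂ] H) w ∈ W i := (hWi i).2 T T.2 w hw
        have h8 : (T : H →L[ℂ] H) w ∈ Submodule.span ℂ (G : Set H) := by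
          rw [hG]; exact ⟨w, rfl⟩
        have h9 : Submodule.span ℂ (G : Set H) ≤ (W i)ᗮ := by
          rw [Submodule.span_le]
          intro x hx
          show x ∈ (W i)ᗮ
          rw [Submodule.mem_orthogonal']
          intro w' hw'
          exact horth i ⟨x, hGs hx⟩ (hi (Finset.mem_subtype.2 hx)) w' hw'
        exact inner_self_eq_zero.1 ((h9 h8) _ h7)
      ext1 v
      rw [cmp_apply, h6 _ (h1 i v), map_zero]; rfl
    refine tendsto_nhds_unique (hρ T) ?_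
    exact tendsto_const_nhds.congr' (hev.mono fun i hi => hi.symm)
  -- ranks
  have hrank : ∀ p : B, IsStarProjection (p : H →L[ℂ] H) →
      ∀ᶠ i in (𝒰 : Filter (Finset (Soc B))), rk (W i) (p : H →L[ℂ] H) =
        Module.finrank ℂ (LinearMap.range (ρ p : KK N →ₗ[ℂ] KK N)) := by
    intro p hp
    have hρp : IsStarProjection (ρ p) := by
      refine ⟨?_, ?_⟩
      · show ρ p * ρ p = ρ p
        rw [← map_mul]; congr 1; exact Subtype.ext hp.isIdempotentElem.eq
      · show star (ρ p) = ρ p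
        rw [← map_star]; congr 1; exact Subtype.ext hp.isSelfAdjoint.star_eq
    have hlim : Tendsto (fun i => ‖cmp (V i) (p : H →L[ℂ] H) - ρ p‖) 𝒰 (𝓝 0) := by
      have := ((hρ p).sub_const (ρ p)).norm
      rwa [sub_self, norm_zero] at this
    filter_upwards [hlim.eventually (gt_mem_nhds zero_lt_one)] with i hi
    have hc : IsStarProjection (cmp (V i) (p : H →L[ℂ] H)) := by
      refine ⟨?_, ?_⟩
      · show cmp (V i) (p : H →L[ℂ] H) * cmp (V i) (p : H →L[ℂ] H) = _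
        rw [← cmp_mul (h1 i) (h2 i) ((hWi i).2 _ p.2), hp.isIdempotentElem.eq]
      · show star (cmp (V i) (p : H →L[ℂ] H)) = _
        rw [← cmp_star, hp.isSelfAdjoint.star_eq]
    rw [← cmp_rank (h1 i) (h2 i) ((hWi i).2 _ p.2)]
    have f1 : FinRk (ρ p) := by unfold FinRk; infer_instance
    have f2 : FinRk (cmp (V i) (p : H →L[ℂ] H)) := by unfold FinRk; infer_instance
    exact le_antisymm (finRk_close hc f1 hi).2 (finRk_close hρp f2 (by rwa [norm_sub_rev])).2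
  have hcert := cert_rep B hBA h P' Q' F' T₁' T₂' hP' hQ' hP hQ hF hT₁ hT₂ ρ hkill
  obtain ⟨i, hi1, hi2⟩ := ((hrank P' hP').and (hrank Q' hQ')).exists
  exact hne i (by rw [hi1, hi2, hcert])

end Run7.h836
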