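import Mathlib
import Pool.Agent.Run7.h836.P2
import Pool.Agent.Run7.h836.P3
import Pool.Agent.Run7.h836.P4b

set_option autoImplicit false

open scoped Topology InnerProductSpace
open Filter

namespace Run7.h836

universe u v

variable {H : Type u} [NormedAddCommGroup H] [InnerProductSpace ℂ H] [CompleteSpace H]

theorem soc_mono {B B' : NonUnitalStarSubalgebra ℂ (H →L[ℂ] H)} (h : B ≤ B') : Soc B ≤ Soc B' :=
  iSup₂_le fun T hT => le_iSup₂_of_le (f := fun (T : H →L[ℂ] H) (_ : T ∈ {T | T ∈ B' ∧ FinRk T}) =>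
    LinearMap.range (T : H →ₗ[ℂ] H)) T ⟨h hT.1, hT.2⟩ le_rfl

/-- PIECE 4. -/
theorem exists_rel_of_cert {B : ℕ → NonUnitalStarSubalgebra ℂ (H →L[ℂ] H)}
    (hB : ∀ n, IsClosed (B n : Set (H →L[ℂ] H))) (hmono : Monotone B)
    (hsub : ∀ n, ∃ N, SubhomOn (B n) N) {P Q F T₁ T₂ : H →L[ℂ] H}
    (h : Cert (AA B) P Q F T₁ T₂) : ∃ c, Rel B P Q c := by
  classical
  obtain ⟨p, hp, hpl⟩ := exists_seq_proj B hB hmono h.P_proj h.P_mem
  obtain ⟨q, hq, hql⟩ := exists_seq_proj B hB hmono h.Q_proj h.Q_mem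
  obtain ⟨f, hf, hfl⟩ := exists_seq B hmono h.F_mem
  obtain ⟨t₁, ht₁, ht₁l⟩ := exists_seq B hmono h.T₁_mem
  obtain ⟨t₂, ht₂, ht₂l⟩ := exists_seq B hmono h.T₂_mem
  have hε : (0 : ℝ) < 1 / 1000 := by norm_num
  have hev := (ev_close hpl tendsto_const_nhds hε).and ((ev_close hql tendsto_const_nhds hε).and
    ((ev_close hfl tendsto_const_nhds hε).and ((ev_close ht₁l tendsto_const_nhds hε).and
      (ev_close ht₂l tendsto_const_nhds hε))))
  obtain ⟨n₀, hn₀⟩ := eventually_atTop.1 hev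
  have hBA : ∀ n, (B n : Set (H →L[ℂ] H)) ⊆ AA B := fun n =>
    (Set.subset_iUnion (fun n => (B n : Set (H →L[ℂ] H))) n).trans subset_closure
  -- a constant for each `n`
  have hgood : ∀ n, n₀ ≤ n → ∃ c : ℤ, ∃ F : Finset H, (F : Set H) ⊆ Soc (B n) ∧
      ∀ W : Submodule ℂ H, Inv (B n) W → (F : Set H) ⊆ W → (rk W (p n) : ℤ) - rk W (q n) = c := by
    intro n hn
    obtain ⟨e1, e2, e3, e4, e5⟩ := hn₀ n hn
    obtain ⟨N, hN⟩ := hsub n
    have hBn : IsClosed (B n : Set (H →L[ℂ] H)) := hB n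
    obtain ⟨F0, hF0, hF0r⟩ := lemmaF (B n) hN (hBA n) h ⟨p n, (hp n).1⟩ ⟨q n, (hq n).1⟩ ⟨f n, hf n⟩
      ⟨t₁ n, ht₁ n⟩ ⟨t₂ n, ht₂ n⟩ (hp n).2 (hq n).2 e1.le e2.le e3.le e4.le e5.le
    obtain ⟨W0, hW0, hFW0, hW0s⟩ := exists_inv_of_subset_soc (B n) (hB n) hN F0 hF0
    have hfin := hW0.1
    obtain ⟨G, hG⟩ := (Submodule.fg_iff_finiteDimensional _).2 hfin
    refine ⟨(rk W0 (p n) : ℤ) - rk W0 (q n), G, ?_, fun W hW hGW => ?_⟩
    · intro x hx
      have : x ∈ W0 := by rw [← hG]; exact Submodule.subset_span hx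
      exact hW0s this
    · have hle : W0 ≤ W := by rw [← hG]; exact Submodule.span_le.2 hGW
      have s1 := rk_split hW hW0.2 hle (hp n).1
      have s2 := rk_split hW hW0.2 hle (hq n).1
      have hWf := hW.1
      have s3 : rk (W0ᗮ ⊓ W) (p n) = rk (W0ᗮ ⊓ W) (q n) := by
        refine hF0r (W0ᗮ ⊓ W) ⟨Submodule.finiteDimensional_of_le inf_le_right,
          (BInv.orth hW0.2).inf hW.2⟩ fun x hx w hw => ?_
        exact hw.1 x (hFW0 hx)
      rw [s1, s2, s3]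
      push_cast
      ring
  choose! c hc using hgood
  -- the constants agree
  have hstep : ∀ n, n₀ ≤ n → c (n + 1) = c n := by
    intro n hn
    obtain ⟨F1, hF1s, hF1r⟩ := hc n hn
    obtain ⟨F2, hF2s, hF2r⟩ := hc (n + 1) (by omega)
    obtain ⟨N, hN⟩ := hsub (n + 1)
    have hle : B n ≤ B (n + 1) := hmono (Nat.le_succ n)
    obtain ⟨W, hW, hFW, -⟩ := exists_inv_of_subset_soc (B (n + 1)) (hB (n + 1)) hN (F1 ∪ F2) (by
      rw [Finset.coe_union]
      exact Set.union_subset (hF1s.trans (soc_mono hle)) hF2s)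
    rw [Finset.coe_union, Set.union_subset_iff] at hFW
    have hW' : Inv (B n) W := ⟨hW.1, fun T hT => hW.2 T (hle hT)⟩
    have hfin := hW.1
    have d1 : ‖p (n + 1) - p n‖ < 1 := by
      have a1 := (hn₀ n hn).1
      have a2 := (hn₀ (n + 1) (by omega)).1
      have e : p (n + 1) - p n = (p (n + 1) - P) - (p n - P) := by abel
      rw [e]
      exact (norm_sub_le _ _).trans_lt (by linarith)
    have d2 : ‖q (n + 1) - q n‖ < 1 := by
      have a1 := (hn₀ n hn).2.1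
      have a2 := (hn₀ (n + 1) (by omega)).2.1
      have e : q (n + 1) - q n = (q (n + 1) - Q) - (q n - Q) := by abel
      rw [e]
      exact (norm_sub_le _ _).trans_lt (by linarith)
    rw [← hF1r W hW' hFW.1, ← hF2r W hW hFW.2,
      rk_eq_of_close W (hp (n + 1)).2 (hp n).2 (hW.2 _ (hp (n + 1)).1) (hW'.2 _ (hp n).1) d1,
      rk_eq_of_close W (hq (n + 1)).2 (hq n).2 (hW.2 _ (hq (n + 1)).1) (hW'.2 _ (hq n).1) d2]
  have hconst : ∀ n, n₀ ≤ n → c n = c n₀ := by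
    intro n hn
    induction n, hn using Nat.le_induction with
    | base => rfl
    | succ n hn ih => rw [hstep n hn, ih]
  refine ⟨c n₀, p, q, hp, hq, hpl, hql, ?_⟩
  filter_upwards [eventually_ge_atTop n₀] with n hn
  obtain ⟨F1, h1, h2⟩ := hc n hn
  rw [hconst n hn] at h2
  exact ⟨F1, h1, h2⟩

end Run7.h836
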