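import Mathlib
import Pool.Agent.Run7.h836.NonAsh3
import Pool.Agent.Run7.h836.P4

set_option autoImplicit false

open scoped Topology InnerProductSpace
open Filter

namespace Run7.h836

universe u v

variable {V : Type} {G : GD V} {H : Type u} [NormedAddCommGroup H] [InnerProductSpace ℂ H]
  [CompleteSpace H]

open Classical in
noncomputable def cSs (G : GD V) (s : Bool) (ω : Om V) : ℂ :=
  if G.Valid ω ∧ ω.2.2.2.2.1 = s then 1 else 0

open Classical in
noncomputable def cWs (G : GD V) (x : V) (s : Bool) (ω : Om V) : ℂ :=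
  if G.Valid ω ∧ ω.1 = x ∧ ω.2.1 = [] ∧ ω.2.2.1 ≠ none ∧ ω.2.2.2.2.1 = s then 1 else 0

open Classical in
noncomputable def cXs (G : GD V) (x : V) (s : Bool) (ω : Om V) : ℂ :=
  if G.Valid ω ∧ ω.1 = x ∧ ω.2.1 = [] ∧ ω.2.2.1 = none ∧ ω.2.2.2.2.1 = s then 1 else 0

open Classical in
noncomputable def cHs (G : GD V) (x : V) (s : Bool) (i : ℕ) (ω : Om V) : ℂ :=
  if G.Valid ω ∧ ω.1 = x ∧ ω.2.1.head? = some i ∧ ω.2.2.2.2.1 = s then 1 else 0

theorem bSs (G : GD V) (s : Bool) : Bdd (cSs G s) :=
  ⟨1, zero_le_one, fun ω => by unfold cSs; split_ifs <;> simp⟩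
theorem bWs (G : GD V) (x : V) (s : Bool) : Bdd (cWs G x s) :=
  ⟨1, zero_le_one, fun ω => by unfold cWs; split_ifs <;> simp⟩
theorem bXs (G : GD V) (x : V) (s : Bool) : Bdd (cXs G x s) :=
  ⟨1, zero_le_one, fun ω => by unfold cXs; split_ifs <;> simp⟩
theorem bHs (G : GD V) (x : V) (s : Bool) (i : ℕ) : Bdd (cHs G x s i) :=
  ⟨1, zero_le_one, fun ω => by unfold cHs; split_ifs <;> simp⟩

/-- the step operator restricted to the part `s` -/
noncomputable def Vop (G : GD V) (b : HilbertBasis (Om V) ℂ H) (x : V) (s : Bool) (i : ℕ) :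
    H →L[ℂ] H := (G.ch x i).elim 0 fun x' => gen G b (.S x i) * gen G b (.E x' s)

theorem Vop_mem (G : GD V) (b : HilbertBasis (Om V) ℂ H) (x : V) (s : Bool) (i : ℕ) :
    Vop G b x s i ∈ AG G b := by
  unfold Vop
  cases G.ch x i with
  | none => exact zero_mem _
  | some x' => exact mul_mem (gen_mem G b _) (gen_mem G b _)

theorem Vop_eq (G : GD V) (b : HilbertBasis (Om V) ℂ H) (x : V) (s : Bool) (i : ℕ) :
    Vop G b x s i = pop b (consE G x i) (cSs G s) := by
  classical
  apply ext_basis b
  intro ω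
  rw [pop_basis b _ (bSs G s)]
  unfold Vop
  rcases h : G.ch x i with _ | x'
  · have : consE G x i ω = none := by simp [consE, h]
    simp [this]
  · simp only [Option.elim_some]
    show (pop b (consE G x i) (cS G)) (dop b (cE G x' s) (b ω)) = _
    rw [dop_basis b (bE G x' s), map_smul, pop_basis b _ (bS G)]
    by_cases hx : x' = ω.1
    · subst hx
      have : consE G x i ω = some (x, i :: ω.2.1, ω.2.2) := by simp [consE, h]
      simp only [this, Option.elim_some, smul_smul]
      congr 1
      unfold cE cS cSs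
      split_ifs <;> simp_all
    · have : consE G x i ω = none := by simp [consE, h, hx]
      simp [this]

theorem star_Vop_mul_self (G : GD V) (b : HilbertBasis (Om V) ℂ H) (x : V) (s : Bool) (i : ℕ) :
    star (Vop G b x s i) * Vop G b x s i = (G.ch x i).elim 0 fun x' => gen G b (.E x' s) := by
  classical
  rw [Vop_eq, star_pop_mul_self b _ (bSs G s)]
  rcases h : G.ch x i with _ | x'
  · simp only [Option.elim_none]
    have hz : (fun ω => (consE G x i ω).elim 0 fun _ => star (cSs G s ω) * cSs G s ω) =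
        fun _ => 0 := by
      funext ω
      have : consE G x i ω = none := by simp [consE, h]
      simp [this]
    rw [hz]
    apply ext_basis b
    intro ω
    rw [dop_basis b ⟨0, le_rfl, fun _ => by simp⟩]
    simp
  · simp only [Option.elim_some]
    show _ = dop b (cE G x' s)
    congr 1
    funext ω
    by_cases hx : x' = ω.1
    · subst hx
      have : consE G x i ω = some (x, i :: ω.2.1, ω.2.2) := by simp [consE, h]
      simp only [this, Option.elim_some]
      unfold cE cSs
      split_ifs <;> simp_all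
    · have : consE G x i ω = none := by simp [consE, h, hx]
      have h2 : cE G x' s ω = 0 := by
        unfold cE; rw [if_neg]; rintro ⟨-, h3, -⟩; exact hx h3.symm
      simp [this, h2]

theorem consE_symm_some {x : V} {i : ℕ} {ω ω' : Om V} (h : (consE G x i).symm ω' = some ω) :
    ω'.2.1.head? = some i := by
  rw [PEquiv.eq_some_iff] at h
  obtain ⟨-, -, h3, -⟩ := consE_some h
  rw [h3]; rfl

theorem star_Vop_mul_ne (G : GD V) (b : HilbertBasis (Om V) ℂ H) (x : V) (s : Bool) {i j : ℕ}
    (hij : i ≠ j) : star (Vop G b x s i) * Vop G b x s j = 0 := by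
  rw [Vop_eq, Vop_eq]
  apply ext_basis b
  intro ω
  rw [mulA, pop_basis b _ (bSs G s)]
  rcases h : consE G x j ω with _ | ω'
  · simp
  · simp only [Option.elim_some, map_smul]
    rw [star_pop_basis b _ (bSs G s)]
    rcases h2 : (consE G x i).symm ω' with _ | ω2
    · simp
    · exfalso
      have h3 := consE_symm_some h2
      have h4 := consE_symm_some ((PEquiv.eq_some_iff _).2 h)
      rw [h3] at h4
      exact hij (Option.some_injective _ h4)

theorem Vop_mul_star (G : GD V) (b : HilbertBasis (Om V) ℂ H) (x : V) (s : Bool) (i : ℕ) :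
    Vop G b x s i * star (Vop G b x s i) = dop b (cHs G x s i) := by
  classical
  rw [Vop_eq, pop_mul_star_self b _ (bSs G s)]
  congr 1
  funext ω
  rcases h : (consE G x i).symm ω with _ | ω'
  · simp only [Option.elim_none]
    unfold cHs
    rw [if_neg]
    rintro ⟨hv, rfl, hh, -⟩
    obtain ⟨y, l, r⟩ := ω
    rcases l with _ | ⟨j, l⟩
    · simp at hh
    · simp only [List.head?_cons, Option.some.injEq] at hh
      subst hh
      obtain ⟨e, he, -⟩ := hv
      rw [GD.endp_cons] at he
      rcases h3 : G.ch y j with _ | x'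
      · rw [h3] at he; simp at he
      · have h4 : consE G y j (x', l, r) = some (y, j :: l, r) := by simp [consE, h3]
        rw [← PEquiv.eq_some_iff] at h4
        rw [h4] at h
        cases h
  · simp only [Option.elim_some]
    have hh := consE_symm_some h
    rw [PEquiv.eq_some_iff] at h
    obtain ⟨h1, h2, h3, h4⟩ := consE_some h
    unfold cHs cSs
    rw [valid_consE h, h4, h2]
    split_ifs <;> simp_all

theorem sw_ne_none {r : T3} (hr : r.2.1 = false) : sw r ≠ none := by
  obtain ⟨_ | _, _ | _, _ | a⟩ := r <;> simp_all [sw]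

theorem sw_symm_ne_none {r : T3} (hr : r.2.1 = true) : sw.symm r ≠ none := by
  obtain ⟨_ | _, _ | _, _ | a⟩ := r <;> simp_all [sw, PEquiv.symm]

theorem sw_q {ω ω' : Om V} (h : liftS sw ω = some ω') :
    ω.2.2.2.2.1 = false ∧ ω'.2.2.2.2.1 = true :=
  ⟨(sw_spec (liftS_some h).2.2.2).1, (sw_spec (liftS_some h).2.2.2).2.1⟩

theorem starW_mul_W (G : GD V) (b : HilbertBasis (Om V) ℂ H) (x : V) :
    star (gen G b (.W x)) * gen G b (.W x) = dop b (cWs G x false) := by
  show star (pop b (liftS sw) (cW G x)) * pop b (liftS sw) (cW G x) = _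
  rw [star_pop_mul_self b _ (bW G x)]
  congr 1
  funext ω
  rcases h : liftS sw ω with _ | ω'
  · simp only [Option.elim_none]
    unfold cWs
    rw [if_neg]
    rintro ⟨-, -, -, -, hs⟩
    exact sw_ne_none hs (liftS_eq_none h)
  · simp only [Option.elim_some]
    have := (sw_q h).1
    unfold cWs cW
    split_ifs <;> simp_all

theorem W_mul_starW (G : GD V) (b : HilbertBasis (Om V) ℂ H) (x : V) :
    gen G b (.W x) * star (gen G b (.W x)) = dop b (cWs G x true) := by
  show pop b (liftS sw) (cW G x) * star (pop b (liftS sw) (cW G x)) = _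
  rw [pop_mul_star_self b _ (bW G x)]
  congr 1
  funext ω
  rcases h : (liftS sw).symm ω with _ | ω'
  · simp only [Option.elim_none]
    unfold cWs
    rw [if_neg]
    rintro ⟨-, -, -, -, hs⟩
    exact sw_symm_ne_none hs (liftS_symm_eq_none h)
  · simp only [Option.elim_some]
    rw [PEquiv.eq_some_iff] at h
    have h1 := (sw_q h).2
    obtain ⟨h2, h3, h4, h5⟩ := liftS_some h
    unfold cWs cW
    by_cases ho : ω'.2.2.1 = none
    · rw [if_neg (by rintro ⟨-, -, -, h6⟩; exact h6 ho),
        if_neg (by rintro ⟨-, -, -, h6, -⟩; rw [h4] at h6; exact h6 ho)]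
      simp
    · rw [valid_sw h ho, h2, h3, h4]
      split_ifs <;> simp_all

theorem muSpan_subset (G : GD V) (b : HilbertBasis (Om V) ℂ H) :
    closure (muSpan b {ω | G.Valid ω} : Set (H →L[ℂ] H)) ⊆ (AG G b : Set (H →L[ℂ] H)) := by
  apply closure_minimal _ (inferInstance : IsClosed (AG G b : Set (H →L[ℂ] H)))
  have : muSpan b {ω | G.Valid ω} ≤ (AG G b).toNonUnitalSubalgebra.toSubmodule := by
    rw [muSpan, Submodule.span_le]
    rintro _ ⟨ω, hω, ω', hω', rfl⟩
    have := gen_mem G b (.mu ω' ω)
    simp only [gen] at this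
    rw [if_pos ⟨hω', hω⟩] at this
    exact this
  exact this

theorem dop_mem_of_finite (G : GD V) (b : HilbertBasis (Om V) ℂ H) {c : Om V → ℂ} (hb : Bdd c)
    (h1 : ∀ ω, c ω ≠ 0 → G.Valid ω) (h2 : {ω | c ω ≠ 0}.Finite) : dop b c ∈ AG G b := by
  apply muSpan_subset G b
  apply pop_mem_closure b _ _ _ hb
  · intro ε hε
    refine h2.subset ?_
    intro ω hω h0
    simp only [Set.mem_ofPred_eq, h0, norm_zero] at hω
    linarith
  · intro ω hω ω' hω'
    simp only [PEquiv.refl_apply, Option.mem_def, Option.some.injEq] at hω'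
    subst hω'
    exact ⟨h1 ω hω, h1 ω hω⟩

/-- range of the diagonal projection of a finite set -/
theorem range_dop_indicator (b : HilbertBasis (Om V) ℂ H) {c : Om V → ℂ}
    (hc : ∀ ω, c ω = 0 ∨ c ω = 1) (S : Finset (Om V)) (hS : ∀ ω, ω ∈ S ↔ c ω = 1) :
    LinearMap.range (dop b c : H →ₗ[ℂ] H) = Submodule.span ℂ (b '' (S : Set (Om V))) := by
  have hb : Bdd c := ⟨1, zero_le_one, fun ω => by rcases hc ω with h | h <;> simp [h]⟩
  apply le_antisymm
  · have hcl : IsClosed (Submodule.span ℂ (b '' (S : Set (Om V))) : Set H) := by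
      have : FiniteDimensional ℂ (Submodule.span ℂ (b '' (S : Set (Om V)))) :=
        FiniteDimensional.span_of_finite ℂ (S.finite_toSet.image _)
      exact Submodule.closed_of_finiteDimensional _
    rintro _ ⟨x, rfl⟩
    have h1 : ∀ x ∈ Submodule.span ℂ (Set.range b), dop b c x ∈
        Submodule.span ℂ (b '' (S : Set (Om V))) := by
      intro x hx
      induction hx using Submodule.span_induction with
      | mem x hx =>
        obtain ⟨ω, rfl⟩ := hx
        rw [dop_basis b hb]
        rcases hc ω with h | h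
        · simp [h]
        · rw [h, one_smul]
          exact Submodule.subset_span ⟨ω, (hS ω).2 h, rfl⟩
      | zero => simp
      | add x y _ _ hx hy => rw [map_add]; exact add_mem hx hy
      | smul r x _ hx => rw [map_smul]; exact Submodule.smul_mem _ _ hx
    have h2 : x ∈ closure (Submodule.span ℂ (Set.range b) : Set H) := by
      rw [← Submodule.topologicalClosure_coe, b.dense_span]; trivial
    exact (closure_minimal (s := (Submodule.span ℂ (Set.range b) : Set H))
      (t := (dop b c) ⁻¹' (Submodule.span ℂ (b '' (S : Set (Om V))) : Set H)) h1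
      (hcl.preimage (dop b c).continuous)) h2
  · rw [Submodule.span_le]
    rintro _ ⟨ω, hω, rfl⟩
    refine ⟨b ω, ?_⟩
    show dop b c (b ω) = b ω
    rw [dop_basis b hb, (hS ω).1 hω, one_smul]

theorem finrank_dop_indicator (b : HilbertBasis (Om V) ℂ H) {c : Om V → ℂ}
    (hc : ∀ ω, c ω = 0 ∨ c ω = 1) (S : Finset (Om V)) (hS : ∀ ω, ω ∈ S ↔ c ω = 1) :
    FinRk (dop b c) ∧ Module.finrank ℂ (LinearMap.range (dop b c : H →ₗ[ℂ] H)) = S.card := by
  classical
  have h1 := range_dop_indicator b hc S hS
  constructor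
  · unfold FinRk
    rw [h1]
    exact FiniteDimensional.span_of_finite ℂ (S.finite_toSet.image _)
  · rw [h1]
    have hli : LinearIndependent ℂ (fun ω : S => b ω) :=
      b.orthonormal.linearIndependent.comp _ Subtype.val_injective
    have := finrank_span_eq_card hli
    rw [Set.image_eq_range]
    simpa using this

/-- indices of the extra half at a marked vertex -/
noncomputable def extS (G : GD V) (x : V) (s : Bool) : Finset (Om V) :=
  if G.bt x = true then (Finset.range (dimS false s (G.lev x))).map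
    ⟨fun a => ((x, [], none, false, s, a) : Om V), fun a a' h => by simpa using h⟩ else ∅

theorem mem_extS (G : GD V) (x : V) (s : Bool) (ω : Om V) :
    ω ∈ extS G x s ↔ cXs G x s ω = 1 := by
  unfold extS cXs
  obtain ⟨y, l, o, side, s', a⟩ := ω
  split_ifs with h1 h2 h2
  · simp only [Finset.mem_map, Finset.mem_range, iff_true]
    obtain ⟨⟨e, he, ho, ha⟩, rfl, h3, h4, rfl⟩ := h2
    simp only at he ho ha h3 h4
    subst h3 h4
    simp only [GD.endp_nil, Option.some.injEq] at he
    subst he
    obtain ⟨-, rfl⟩ := ho rfl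
    exact ⟨a, by simpa [GD.ex] using ha, rfl⟩
  · simp only [Finset.mem_map, Finset.mem_range, zero_ne_one, iff_false]
    rintro ⟨a', ha', h3⟩
    cases h3
    apply h2
    exact ⟨⟨x, rfl, fun _ => ⟨h1, rfl⟩, by simpa [GD.ex] using ha'⟩, rfl, rfl, rfl, rfl⟩
  · exfalso
    obtain ⟨⟨e, he, ho, ha⟩, rfl, h3, h4, rfl⟩ := h2
    simp only at he ho ha h3 h4
    subst h3 h4
    simp only [GD.endp_nil, Option.some.injEq] at he
    subst he
    exact h1 (ho rfl).1
  · simp

theorem sum_cHs (hG : G.Good) (x : V) (s : Bool) (ω : Om V) :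
    ∑ i : Fin (G.bd x), cHs G x s i ω + (cWs G x s ω + cXs G x s ω) = cE G x s ω := by
  classical
  by_cases hv : G.Valid ω ∧ ω.1 = x ∧ ω.2.2.2.2.1 = s
  · have hE : cE G x s ω = 1 := by unfold cE; rw [if_pos hv]
    rw [hE]
    obtain ⟨hv, hx, hs⟩ := hv
    rcases h : ω.2.1 with _ | ⟨i, l⟩
    · have h1 : ∀ i : Fin (G.bd x), cHs G x s i ω = 0 := by
        intro i; unfold cHs; rw [if_neg]; rintro ⟨-, -, h2, -⟩; rw [h] at h2; simp at h2
      rw [Finset.sum_eq_zero fun i _ => h1 i, zero_add]
      unfold cWs cXs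
      by_cases ho : ω.2.2.1 = none
      · rw [if_neg (by rintro ⟨-, -, -, h2, -⟩; exact h2 ho), if_pos ⟨hv, hx, h, ho, hs⟩]; simp
      · rw [if_pos ⟨hv, hx, h, ho, hs⟩, if_neg (by rintro ⟨-, -, -, h2, -⟩; exact ho h2)]; simp
    · have h2 : cWs G x s ω = 0 := by
        unfold cWs; rw [if_neg]; rintro ⟨-, -, h2, -⟩; rw [h] at h2; simp at h2
      have h3 : cXs G x s ω = 0 := by
        unfold cXs; rw [if_neg]; rintro ⟨-, -, h2, -⟩; rw [h] at h2; simp at h2
      rw [h2, h3, add_zero, add_zero]
      have hi : i < G.bd x := by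
        by_contra hcon
        obtain ⟨e, he, -⟩ := hv
        rw [h, hx, GD.endp_cons, hG.ch_bd x i (by omega)] at he
        simp at he
      rw [Finset.sum_eq_single ⟨i, hi⟩]
      · unfold cHs; rw [if_pos ⟨hv, hx, by rw [h]; rfl, hs⟩]
      · intro j _ hj
        unfold cHs; rw [if_neg]; rintro ⟨-, -, h4, -⟩
        rw [h] at h4
        simp only [List.head?_cons, Option.some.injEq] at h4
        exact hj (Fin.ext h4.symm)
      · simp
  · have hE : cE G x s ω = 0 := by unfold cE; rw [if_neg hv]
    rw [hE]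
    have h1 : ∀ i : Fin (G.bd x), cHs G x s i ω = 0 := by
      intro i; unfold cHs; rw [if_neg]; rintro ⟨h1, h2, -, h3⟩; exact hv ⟨h1, h2, h3⟩
    have h2 : cWs G x s ω = 0 := by
      unfold cWs; rw [if_neg]; rintro ⟨h1, h2, -, -, h3⟩; exact hv ⟨h1, h2, h3⟩
    have h3 : cXs G x s ω = 0 := by
      unfold cXs; rw [if_neg]; rintro ⟨h1, h2, -, -, h3⟩; exact hv ⟨h1, h2, h3⟩
    rw [Finset.sum_eq_zero fun i _ => h1 i, h2, h3]; simp

theorem dop_sum {ι : Type v} (t : Finset ι) (b : HilbertBasis (Om V) ℂ H) (c : ι → Om V → ℂ)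
    (hc : ∀ i, Bdd (c i)) :
    (∑ i ∈ t, dop b (c i)) = dop b (fun ω => ∑ i ∈ t, c i ω) := by
  classical
  have hb : ∀ t : Finset ι, Bdd (fun ω => ∑ i ∈ t, c i ω) := by
    intro t
    induction t using Finset.induction_on with
    | empty => exact ⟨0, le_rfl, fun _ => by simp⟩
    | insert i t hi ih =>
      obtain ⟨C, hC0, hC⟩ := ih
      obtain ⟨D, hD0, hD⟩ := hc i
      refine ⟨D + C, by positivity, fun ω => ?_⟩
      show ‖∑ i ∈ insert i t, c i ω‖ ≤ D + C
      rw [Finset.sum_insert hi]
      exact (norm_add_le _ _).trans (add_le_add (hD ω) (hC ω))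
  apply ext_basis b
  intro ω
  rw [sum_apply, dop_basis b (hb t), Finset.sum_smul]
  exact Finset.sum_congr rfl fun i _ => dop_basis b (hc i) ω

theorem Xproj (G : GD V) (b : HilbertBasis (Om V) ℂ H) (x : V) (s : Bool) :
    IsStarProjection (dop b (cXs G x s)) :=
  dop_isStarProjection b fun ω => by unfold cXs; split_ifs <;> simp

theorem Wproj (G : GD V) (b : HilbertBasis (Om V) ℂ H) (x : V) (s : Bool) :
    IsStarProjection (dop b (cWs G x s)) :=
  dop_isStarProjection b fun ω => by unfold cWs; split_ifs <;> simp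

theorem Xmem (G : GD V) (b : HilbertBasis (Om V) ℂ H) (x : V) (s : Bool) :
    dop b (cXs G x s) ∈ AG G b := by
  apply dop_mem_of_finite G b (bXs G x s)
  · intro ω hω
    unfold cXs at hω
    split_ifs at hω with h
    · exact h.1
    · simp at hω
  · refine (extS G x s).finite_toSet.subset ?_
    intro ω hω
    simp only [Finset.mem_coe]
    rw [mem_extS]
    simp only [Set.mem_ofPred_eq, ne_eq] at hω
    unfold cXs at hω ⊢
    split_ifs at hω ⊢ with h
    · rfl
    · simp at hω

theorem Wmem (G : GD V) (b : HilbertBasis (Om V) ℂ H) (x : V) (s : Bool) :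
    dop b (cWs G x s) ∈ AG G b := by
  cases s
  · rw [← starW_mul_W]; exact mul_mem (star_mem (gen_mem G b _)) (gen_mem G b _)
  · rw [← W_mul_starW]; exact mul_mem (gen_mem G b _) (star_mem (gen_mem G b _))

theorem starVop_mul_dop (G : GD V) (b : HilbertBasis (Om V) ℂ H) (x : V) (s : Bool) (i : ℕ)
    {c' : Om V → ℂ} (hc' : Bdd c') (h : ∀ ω, c' ω ≠ 0 → ω.2.1 = []) :
    star (Vop G b x s i) * dop b c' = 0 := by
  rw [Vop_eq]
  apply ext_basis b
  intro ω
  rw [mulA, dop_basis b hc', map_smul, star_pop_basis b _ (bSs G s)]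
  by_cases h0 : c' ω = 0
  · simp [h0]
  · rcases h2 : (consE G x i).symm ω with _ | ω2
    · simp
    · have := consE_symm_some h2
      rw [h ω h0] at this
      simp at this

/-- the partial isometries decomposing `E_x^s` -/
noncomputable def Uop (G : GD V) (b : HilbertBasis (Om V) ℂ H) (x : V) (s : Bool) :
    Fin (G.bd x) ⊕ Bool → (H →L[ℂ] H)
  | .inl i => Vop G b x s i
  | .inr false => dop b (cXs G x s)
  | .inr true => dop b (cWs G x s)

noncomputable def pUop (G : GD V) (b : HilbertBasis (Om V) ℂ H) (x : V) (s : Bool) :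
    Fin (G.bd x) ⊕ Bool → (H →L[ℂ] H)
  | .inl i => (G.ch x i).elim 0 fun x' => gen G b (.E x' s)
  | .inr false => dop b (cXs G x s)
  | .inr true => dop b (cWs G x s)

theorem Uop_mem (G : GD V) (b : HilbertBasis (Om V) ℂ H) (x : V) (s : Bool)
    (i : Fin (G.bd x) ⊕ Bool) : Uop G b x s i ∈ AG G b := by
  rcases i with i | _ | _
  · exact Vop_mem G b x s i
  · exact Xmem G b x s
  · exact Wmem G b x s

theorem star_dop_mul_Vop (G : GD V) (b : HilbertBasis (Om V) ℂ H) (x : V) (s : Bool) (i : ℕ)
    {c' : Om V → ℂ} (hc' : Bdd c') (h : ∀ ω, c' ω ≠ 0 → ω.2.1 = []) :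
    star (dop b c') * Vop G b x s i = 0 := by
  have := congrArg star (starVop_mul_dop G b x s i hc' h)
  rwa [star_mul, star_star, star_zero] at this

theorem cXs_path {x : V} {s : Bool} (ω : Om V) (hω : cXs G x s ω ≠ 0) : ω.2.1 = [] := by
  unfold cXs at hω
  split_ifs at hω with h
  · exact h.2.2.1
  · simp at hω

theorem cWs_path {x : V} {s : Bool} (ω : Om V) (hω : cWs G x s ω ≠ 0) : ω.2.1 = [] := by
  unfold cWs at hω
  split_ifs at hω with h
  · exact h.2.2.1
  · simp at hω

theorem XW (G : GD V) (b : HilbertBasis (Om V) ℂ H) (x : V) (s : Bool) :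
    dop b (cXs G x s) * dop b (cWs G x s) = 0 := by
  rw [dop_mul b (bXs G x s) (bWs G x s)]
  have : (fun ω => cXs G x s ω * cWs G x s ω) = fun _ => 0 := by
    funext ω
    unfold cXs cWs
    split_ifs <;> simp_all
  rw [this]
  apply ext_basis b
  intro ω
  rw [dop_basis b ⟨0, le_rfl, fun _ => by simp⟩]
  simp

theorem Uop_orth (G : GD V) (b : HilbertBasis (Om V) ℂ H) (x : V) (s : Bool)
    (i j : Fin (G.bd x) ⊕ Bool) :
    star (Uop G b x s i) * Uop G b x s j = if i = j then pUop G b x s i else 0 := by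
  have hX := (Xproj G b x s)
  have hW := (Wproj G b x s)
  rcases i with i | _ | _ <;> rcases j with j | _ | _
  · by_cases hij : i = j
    · subst hij
      rw [if_pos rfl]
      exact star_Vop_mul_self G b x s i
    · rw [if_neg (by simpa using hij)]
      exact star_Vop_mul_ne G b x s (fun h => hij (Fin.ext h))
  · rw [if_neg (by simp)]
    exact starVop_mul_dop G b x s i (bXs G x s) cXs_path
  · rw [if_neg (by simp)]
    exact starVop_mul_dop G b x s i (bWs G x s) cWs_path
  · rw [if_neg (by simp)]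
    exact star_dop_mul_Vop G b x s j (bXs G x s) cXs_path
  · rw [if_pos rfl]
    show star (dop b (cXs G x s)) * dop b (cXs G x s) = dop b (cXs G x s)
    rw [hX.isSelfAdjoint.star_eq, hX.isIdempotentElem.eq]
  · rw [if_neg (by simp)]
    show star (dop b (cXs G x s)) * dop b (cWs G x s) = 0
    rw [hX.isSelfAdjoint.star_eq, XW]
  · rw [if_neg (by simp)]
    exact star_dop_mul_Vop G b x s j (bWs G x s) cWs_path
  · rw [if_neg (by simp)]
    show star (dop b (cWs G x s)) * dop b (cXs G x s) = 0
    have := congrArg star (XW G b x s)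
    rwa [star_mul, hX.isSelfAdjoint.star_eq, star_zero] at this
  · rw [if_pos rfl]
    show star (dop b (cWs G x s)) * dop b (cWs G x s) = dop b (cWs G x s)
    rw [hW.isSelfAdjoint.star_eq, hW.isIdempotentElem.eq]

theorem Uop_sum (hG : G.Good) (b : HilbertBasis (Om V) ℂ H) (x : V) (s : Bool) :
    ∑ i, Uop G b x s i * star (Uop G b x s i) = gen G b (.E x s) := by
  have hX := (Xproj G b x s)
  have hW := (Wproj G b x s)
  rw [Fintype.sum_sum_type, Fintype.sum_bool]
  have e1 : ∀ i : Fin (G.bd x), Uop G b x s (.inl i) * star (Uop G b x s (.inl i)) =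
      dop b (cHs G x s i) := fun i => Vop_mul_star G b x s i
  have e2 : Uop G b x s (.inr true) * star (Uop G b x s (.inr true)) = dop b (cWs G x s) := by
    show dop b (cWs G x s) * star (dop b (cWs G x s)) = dop b (cWs G x s)
    rw [hW.isSelfAdjoint.star_eq, hW.isIdempotentElem.eq]
  have e3 : Uop G b x s (.inr false) * star (Uop G b x s (.inr false)) = dop b (cXs G x s) := by
    show dop b (cXs G x s) * star (dop b (cXs G x s)) = dop b (cXs G x s)
    rw [hX.isSelfAdjoint.star_eq, hX.isIdempotentElem.eq]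
  rw [Finset.sum_congr rfl fun i _ => e1 i, e2, e3,
    dop_sum Finset.univ b (fun (i : Fin (G.bd x)) => cHs G x s i) (fun i => bHs G x s i)]
  show _ = dop b (cE G x s)
  have hb1 : Bdd (fun ω => ∑ i : Fin (G.bd x), cHs G x s i ω) := by
    refine ⟨∑ i : Fin (G.bd x), 1, by positivity, fun ω => ?_⟩
    refine (norm_sum_le _ _).trans (Finset.sum_le_sum fun i _ => ?_)
    unfold cHs; split_ifs <;> simp
  apply ext_basis b
  intro ω
  rw [add_apply, add_apply, dop_basis b hb1, dop_basis b (bWs G x s), dop_basis b (bXs G x s),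
    dop_basis b (bE G x s), ← add_smul, ← add_smul, ← sum_cHs hG x s ω]

/-- The main result of the first half: an increasing sequence of subhomogeneous subalgebras with
dense union gives an integer solution. -/
theorem exists_int_solution (hG : G.Good) (b : HilbertBasis (Om V) ℂ H)
    {B : ℕ → NonUnitalStarSubalgebra ℂ (H →L[ℂ] H)}
    (hB : ∀ n, IsClosed (B n : Set (H →L[ℂ] H))) (hmono : Monotone B)
    (hsub : ∀ n, ∃ N, SubhomOn (B n) N) (hAB : AA B = (AG G b : Set (H →L[ℂ] H))) :
    ∃ γ : V → ℤ, ∀ x, γ x + (if G.bt x then 1 else 0) =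
      ∑ i ∈ Finset.range (G.bd x), (G.ch x i).elim 0 γ := by
  classical
  have hrel : ∀ x, ∃ c, Rel B (gen G b (.E x false)) (gen G b (.E x true)) c := fun x =>
    exists_rel_of_cert hB hmono hsub (by rw [hAB]; exact cert_graph hG b x)
  choose γ hγ using hrel
  refine ⟨γ, fun x => ?_⟩
  have hmem : ∀ {T : H →L[ℂ] H}, T ∈ AG G b → T ∈ AA B := by
    intro T hT; rw [hAB]; exact hT
  let c : Fin (G.bd x) ⊕ Bool → ℤ := Sum.elim (fun i => (G.ch x i).elim 0 γ)
    (fun t => if t then 0 else if G.bt x then -1 else 0)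
  have hrel' : ∀ i, Rel B (pUop G b x false i) (pUop G b x true i) (c i) := by
    rintro (i | _ | _)
    · show Rel B ((G.ch x i).elim 0 fun x' => gen G b (.E x' false))
        ((G.ch x i).elim 0 fun x' => gen G b (.E x' true)) ((G.ch x i).elim 0 γ)
      rcases h : G.ch x i with _ | x'
      · simp only [Option.elim_none]
        exact Rel.of_equiv hB hmono (V := 0) (by constructor <;> simp [IsIdempotentElem])
          (by constructor <;> simp [IsIdempotentElem])
          (hmem (zero_mem _)) (hmem (zero_mem _)) (hmem (zero_mem _)) (by simp) (by simp)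
      · simp only [Option.elim_some]
        exact hγ x'
    · have hfr := fun s => finrank_dop_indicator b (c := cXs G x s)
        (fun ω => by unfold cXs; split_ifs <;> simp) (extS G x s) (mem_extS G x s)
      have := Rel.of_finRk hB hmono (Xproj G b x false) (Xproj G b x true)
        (hmem (Xmem G b x false)) (hmem (Xmem G b x true)) (hfr false).1 (hfr true).1
      rw [(hfr false).2, (hfr true).2] at this
      have hcard : ((extS G x false).card : ℤ) - ((extS G x true).card : ℤ) =
          c (Sum.inr false) := by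
        show _ = if false then (0 : ℤ) else if G.bt x then -1 else 0
        unfold extS
        by_cases hbt : G.bt x = true
        · simp [hbt, dimS]
        · simp [hbt]
      rw [hcard] at this
      exact this
    · exact Rel.of_equiv hB hmono (V := gen G b (.W x)) (Wproj G b x false) (Wproj G b x true)
        (hmem (Wmem G b x false)) (hmem (Wmem G b x true)) (hmem (gen_mem G b _))
        (starW_mul_W G b x) (W_mul_starW G b x)
  have hcert := cert_graph hG b x
  have hfin := Rel.partition hB hmono hcert.P_proj hcert.Q_proj (hmem hcert.P_mem)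
    (hmem hcert.Q_mem) (fun i => hmem (Uop_mem G b x false i)) (fun i => hmem (Uop_mem G b x true i))
    (Uop_orth G b x false) (Uop_sum hG b x false) (Uop_orth G b x true) (Uop_sum hG b x true) hrel'
  have := Rel.unique hB hmono hsub (hγ x) hfin
  rw [this, Fintype.sum_sum_type, Fintype.sum_bool]
  have e1 : c (Sum.inr true) = 0 := rfl
  have e2 : c (Sum.inr false) = if G.bt x then -1 else 0 := rfl
  have e3 : ∀ i : Fin (G.bd x), c (Sum.inl i) = (G.ch x i).elim 0 γ := fun i => rfl
  rw [e1, e2, Finset.sum_congr rfl fun i _ => e3 i,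
    Finset.sum_range fun i => (G.ch x i).elim 0 γ]
  by_cases hbt : G.bt x = true <;> simp [hbt]

end Run7.h836
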