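import Mathlib
import Pool.Agent.Run7.h836.Ash3
import Pool.Agent.Run7.h836.NonAsh4

set_option autoImplicit false

/-!
The subhomogeneous subalgebras and their invariant subspaces.
-/

open scoped Topology InnerProductSpace
open Filter

namespace Run7.h836

universe u v

variable {V : Type} {G : GD V} {γ : V → ℕ}

/-- bounds for the copies -/
structure RB (G : GD V) (γ : V → ℕ) where
  R : ℕ → ℕ
  mono : Monotone R
  lt : ∀ j, j < R j
  le : ∀ j e, G.lev e ≤ j → γ e ≤ R j

theorem exists_RB (hG : G.Good) (γ : V → ℕ) : Nonempty (RB G γ) := by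
  classical
  refine ⟨⟨fun j => j + 1 + ∑ e ∈ (hG.finite_lev j).toFinset, γ e, ?_, ?_, ?_⟩⟩
  · intro i j hij
    have : ∑ e ∈ (hG.finite_lev i).toFinset, γ e ≤ ∑ e ∈ (hG.finite_lev j).toFinset, γ e := by
      apply Finset.sum_le_sum_of_subset
      intro e he
      simp only [Set.Finite.mem_toFinset, Set.mem_ofPred_eq] at he ⊢
      omega
    show i + 1 + _ ≤ j + 1 + _
    omega
  · intro j; show j < j + 1 + _; omega
  · intro j e he
    have : γ e ≤ ∑ e ∈ (hG.finite_lev j).toFinset, γ e :=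
      Finset.single_le_sum (f := γ) (fun _ _ => Nat.zero_le _) (by simpa using he)
    show γ e ≤ j + 1 + _
    omega

/-- basis vectors of the finite part at stage `j` -/
def InF (R : RB G γ) (j : ℕ) (ω : Om V) : Prop :=
  G.Valid ω ∧ ∃ e, G.endp ω.1 ω.2.1 = some e ∧
    ((G.lev e < j ∧ ω.2.2.1.getD 0 < R.R j) ∨
      (G.lev e = j ∧ ω.2.2.2.1 = true ∧ ω.2.2.1.getD 0 < γ e))

theorem InF.lev_le (hG : G.Good) {R : RB G γ} {j : ℕ} {ω : Om V} (h : InF R j ω) :
    G.lev ω.1 ≤ j := by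
  obtain ⟨-, e, he, h⟩ := h
  have := hG.lev_endp he
  omega

theorem finite_InF (hG : G.Good) (R : RB G γ) (j : ℕ) : {ω | InF R j ω}.Finite := by
  refine (hG.finite_valid (j + R.R j)).subset ?_
  rintro ω ⟨hv, e, he, h⟩
  refine ⟨hv, ?_⟩
  have hn : G.nn ω = G.lev e + ω.2.2.1.getD 0 := by simp [GD.nn, he, GD.ex]
  rw [hn]
  rcases h with ⟨h1, h2⟩ | ⟨h1, -, h2⟩
  · omega
  · have := R.le j e h1.le
    omega

theorem InF.mono {R : RB G γ} {i j : ℕ} (hij : i ≤ j) {ω : Om V} (h : InF R i ω) : InF R j ω := by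
  obtain ⟨hv, e, he, h⟩ := h
  refine ⟨hv, e, he, ?_⟩
  have h1 := R.mono hij
  rcases h with ⟨h2, h3⟩ | ⟨h2, h3, h4⟩
  · left; omega
  · rcases hij.eq_or_lt with rfl | hlt
    · right; exact ⟨h2, h3, h4⟩
    · left
      have := R.le j e (by omega)
      omega

theorem InF_exists (R : RB G γ) {ω : Om V} (h : G.Valid ω) : ∃ j, InF R j ω := by
  obtain ⟨e, he, -⟩ := id h
  refine ⟨G.lev e + ω.2.2.1.getD 0 + 1, h, e, he, Or.inl ⟨by omega, ?_⟩⟩
  have := R.lt (G.lev e + ω.2.2.1.getD 0 + 1)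
  omega

/-- transfer of `InF` to a vector in the same half -/
theorem InF.congr {R : RB G γ} {j : ℕ} {ω ω' : Om V} (h : InF R j ω) (hv : G.Valid ω')
    (h1 : G.endp ω'.1 ω'.2.1 = G.endp ω.1 ω.2.1) (h2 : ω'.2.2.1 = ω.2.2.1)
    (h3 : ω'.2.2.2.1 = ω.2.2.2.1) : InF R j ω' := by
  obtain ⟨-, e, he, h⟩ := h
  exact ⟨hv, e, by rw [h1, he], by rw [h2, h3]; exact h⟩

theorem InF_emb_iff (hG : G.Good) (M : Mat G γ) (R : RB G γ) (j : ℕ) (s : Bool) {x : V}
    {l : List ℕ} {e : V} {o : Option ℕ} (h : Mat.Ok G x l e o) (X : XX (G.ex e o) (M.n2 e o)) :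
    InF R j (M.emb s x l e o X) ↔ G.lev e < j ∧ o.getD 0 < R.R j := by
  obtain ⟨e', p1, p2, p3⟩ := M.endp_partner hG h
  have hside : ((M.emb s x l e o X).2.2.2.1 = false ∧ (M.emb s x l e o X).2.1 = l ∧
        (M.emb s x l e o X).2.2.1 = o) ∨
      ((M.emb s x l e o X).2.2.2.1 = true ∧ (M.emb s x l e o X).2.1 = l ++ M.dl e o ∧
        (M.emb s x l e o X).2.2.1 = some (M.jj e o)) := by
    rcases X with ⟨a, ha⟩ | ⟨a, ha⟩ <;> cases s <;> simp only [Mat.emb] <;> split_ifs <;> simp_all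
  have hst := M.emb_start s x l e o X
  have hv := M.valid_emb hG h s X
  constructor
  · rintro ⟨-, f, hf, h1⟩
    rw [hst] at hf
    rcases hside with ⟨a1, a2, a3⟩ | ⟨a1, a2, a3⟩
    · rw [a2, h.1] at hf
      cases hf
      rw [a1, a3] at h1
      rcases h1 with h1 | ⟨-, h1, -⟩
      · exact h1
      · simp at h1
    · rw [a2, p1] at hf
      cases hf
      rw [a3] at h1
      simp only [Option.getD_some] at h1
      rcases p3 with ⟨b1, b2, b3, b4⟩ | ⟨b1, b2, b3, b4, b5⟩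
      · rw [b2] at p2
        refine ⟨by omega, ?_⟩
        have hlt : G.lev e < j := by omega
        rcases o with _ | i
        · have := R.lt j
          simp only [Option.getD_none]; omega
        · have h3 : i < γ e := b1
          have := R.le j e hlt.le
          simp only [Option.getD_some]; omega
      · subst b3
        rcases h1 with h1 | ⟨-, -, h1⟩
        · rw [b4]; exact h1
        · omega
  · rintro ⟨h1, h2⟩
    refine ⟨hv, ?_⟩
    rw [hst]
    rcases hside with ⟨a1, a2, a3⟩ | ⟨a1, a2, a3⟩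
    · rw [a2, a3]
      exact ⟨e, h.1, Or.inl ⟨h1, h2⟩⟩
    · rw [a1, a2, a3]
      refine ⟨e', p1, ?_⟩
      simp only [Option.getD_some]
      rcases p3 with ⟨b1, b2, b3, b4⟩ | ⟨b1, b2, b3, b4, b5⟩
      · rw [b2] at p2
        rcases (show G.lev e' < j ∨ G.lev e' = j by omega) with h3 | h3
        · left
          have := R.le j e' h3.le
          omega
        · right; exact ⟨h3, trivial, b4⟩
      · subst b3
        left
        refine ⟨h1, ?_⟩
        rw [b4] at h2
        simpa using h2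

/-- keys of the classes of modes -/
structure Key (M : Mat G γ) where
  m : V
  l2 : List ℕ
  e : V
  o : Option ℕ
  c : XX (G.ex e o) (M.n2 e o)

def Key.Good {M : Mat G γ} (R : RB G γ) (j : ℕ) (k : Key M) : Prop :=
  G.endp k.m k.l2 = some k.e ∧ (k.o = none → G.bt k.e = true) ∧
    (G.lev k.m = j ∨ (G.lev k.m < j ∧ k.l2 = [] ∧ R.R j ≤ k.o.getD 0))

theorem Key.Good.ok {M : Mat G γ} {R : RB G γ} {j : ℕ} {k : Key M} (h : k.Good R j) {x : V}
    {l1 : List ℕ} (h1 : G.endp x l1 = some k.m) : Mat.Ok G x (l1 ++ k.l2) k.e k.o :=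
  ⟨by rw [GD.endp_append, h1]; exact h.1, h.2.1⟩

theorem Key.Good.not_InF (hG : G.Good) {M : Mat G γ} {R : RB G γ} {j : ℕ} {k : Key M}
    (h : k.Good R j) {x : V} {l1 : List ℕ} (h1 : G.endp x l1 = some k.m) (s : Bool)
    (X : XX (G.ex k.e k.o) (M.n2 k.e k.o)) : ¬ InF R j (M.emb s x (l1 ++ k.l2) k.e k.o X) := by
  rw [InF_emb_iff hG M R j s (h.ok h1)]
  rintro ⟨h2, h3⟩
  have h4 := hG.lev_endp h.1
  rcases h.2.2 with h5 | ⟨-, -, h6⟩ <;> omega

theorem Key.Good.lev_le (hG : G.Good) {M : Mat G γ} {R : RB G γ} {j : ℕ} {k : Key M}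
    (h : k.Good R j) {x : V} {l1 : List ℕ} (h1 : G.endp x l1 = some k.m) : G.lev x ≤ j := by
  have h4 := hG.lev_endp h1
  rcases h.2.2 with h5 | ⟨h5, -, -⟩ <;> omega

/-- index set of the invariant subspaces -/
inductive Cl (M : Mat G γ) : Type
  | fin
  | out (ω : Om V)
  | key (k : Key M)

section sub
variable {M : Mat G γ} (R : RB G γ) (D : Dat) {H : Type u} [NormedAddCommGroup H]
  [InnerProductSpace ℂ H] (b : HilbertBasis (Om V) ℂ H)

/-- generating sets of the invariant subspaces -/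
def gs (j : ℕ) : Cl M → Set H
  | .fin => {v | ∃ ω, InF R j ω ∧ v = b ω}
  | .out ω => {v | (¬ G.Valid ω ∨ j < G.lev ω.1) ∧ v = b ω}
  | .key k => {v | k.Good R j ∧ ∃ s x l1, G.endp x l1 = some k.m ∧
      v = md M D b s x (l1 ++ k.l2) k.e k.o k.c}

/-- the invariant subspaces -/
def Mk (j : ℕ) (κ : Cl M) : Submodule ℂ H := Submodule.span ℂ (gs R D b j κ)

theorem gs_finite (hG : G.Good) (j : ℕ) : ∃ m : ℕ, ∀ κ : Cl M, (gs R D b j κ).Finite ∧
    (gs R D b j κ).ncard ≤ m := by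
  classical
  have hp := hG.finite_paths j
  let A := (fun ω => b ω) '' {ω | InF R j ω}
  have hA : A.Finite := (finite_InF hG R j).image _
  refine ⟨A.ncard + 1 + ((Set.univ : Set Bool) ×ˢ
    {p : V × List ℕ | ∃ e, G.endp p.1 p.2 = some e ∧ G.lev e ≤ j}).ncard, ?_⟩
  rintro (_ | ω | k)
  · have : gs R D b j (.fin : Cl M) ⊆ A := by
      rintro _ ⟨ω, hω, rfl⟩; exact ⟨ω, hω, rfl⟩
    exact ⟨hA.subset this, (Set.ncard_le_ncard this hA).trans (by omega)⟩
  · have : gs R D b j (.out ω : Cl M) ⊆ {b ω} := by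
      rintro _ ⟨-, rfl⟩; rfl
    exact ⟨(Set.finite_singleton _).subset this,
      (Set.ncard_le_ncard this (Set.finite_singleton _)).trans (by simp; omega)⟩
  · have hfin : ((Set.univ : Set Bool) ×ˢ
      {p : V × List ℕ | ∃ e, G.endp p.1 p.2 = some e ∧ G.lev e ≤ j}).Finite :=
      Set.finite_univ.prod hp
    have : gs R D b j (.key k : Cl M) ⊆ (fun q : Bool × V × List ℕ =>
        md M D b q.1 q.2.1 (q.2.2 ++ k.l2) k.e k.o k.c) '' ((Set.univ : Set Bool) ×ˢ
      {p : V × List ℕ | ∃ e, G.endp p.1 p.2 = some e ∧ G.lev e ≤ j}) := by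
      rintro _ ⟨hk, s, x, l1, h1, rfl⟩
      refine ⟨(s, x, l1), ⟨trivial, k.m, h1, ?_⟩, rfl⟩
      rcases hk.2.2 with h | ⟨h, -, -⟩
      · exact h.le
      · exact h.le
    refine ⟨(hfin.image _).subset this, (Set.ncard_le_ncard this (hfin.image _)).trans
      ((Set.ncard_image_le hfin).trans (by omega))⟩

theorem rank_Mk (hG : G.Good) (j : ℕ) : ∃ m : ℕ, ∀ κ : Cl M,
    Module.rank ℂ (Mk R D b j κ) ≤ (m : Cardinal) := by
  obtain ⟨m, hm⟩ := gs_finite (M := M) R D b hG j
  refine ⟨m, fun κ => ?_⟩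
  obtain ⟨h1, h2⟩ := hm κ
  have h3 : Module.rank ℂ (Mk R D b j κ) ≤ Cardinal.mk (gs R D b j κ) := rank_span_le _
  refine h3.trans ?_
  rw [← Set.cast_ncard h1]
  exact_mod_cast h2

/-- inner product of vectors in spans of different basis vectors -/
theorem inner_JJ_zero {s : Bool} {x : V} {l : List ℕ} {e : V} {o : Option ℕ}
    (v : EuclideanSpace ℂ (XX (G.ex e o) (M.n2 e o))) {w : H}
    (h : ∀ X, ⟪b (M.emb s x l e o X), w⟫_ℂ = 0) : ⟪JJ M b s x l e o v, w⟫_ℂ = 0 := by
  show ⟪∑ X, v X • b (M.emb s x l e o X), w⟫_ℂ = 0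
  rw [sum_inner]
  refine Finset.sum_eq_zero fun X _ => ?_
  rw [inner_smul_left, h X, mul_zero]

theorem inner_basis_JJ {s : Bool} {x : V} {l : List ℕ} {e : V} {o : Option ℕ}
    (v : EuclideanSpace ℂ (XX (G.ex e o) (M.n2 e o))) {ω : Om V}
    (h : ∀ X, M.emb s x l e o X ≠ ω) : ⟪b ω, JJ M b s x l e o v⟫_ℂ = 0 := by
  rw [← inner_conj_symm, inner_JJ_zero b v (fun X => b.orthonormal.2 (h X)), map_zero]

theorem inner_JJ_JJ {s : Bool} {x : V} {l : List ℕ} {e : V} {o : Option ℕ}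
    (v w : EuclideanSpace ℂ (XX (G.ex e o) (M.n2 e o))) :
    ⟪JJ M b s x l e o v, JJ M b s x l e o w⟫_ℂ = ⟪v, w⟫_ℂ := by
  have ho : Orthonormal ℂ (fun X => b (M.emb s x l e o X)) :=
    b.orthonormal.comp _ (M.emb_injective s x l e o)
  have := ho.inner_sum v w Finset.univ
  show ⟪∑ X, v X • b (M.emb s x l e o X), ∑ X, w X • b (M.emb s x l e o X)⟫_ℂ = _
  rw [this, PiLp.inner_apply]
  refine Finset.sum_congr rfl fun X _ => ?_
  simp [mul_comm]

theorem Key.Good.key_eq (hG : G.Good) {k k' : Key M} {j : ℕ} (h : k.Good R j) (h' : k'.Good R j)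
    {x : V} {l1 l1' : List ℕ} (h1 : G.endp x l1 = some k.m) (h1' : G.endp x l1' = some k'.m)
    (hl : l1 ++ k.l2 = l1' ++ k'.l2) (he : k.e = k'.e) : k.m = k'.m ∧ k.l2 = k'.l2 ∧ l1 = l1' := by
  have a1 := hG.lev_endp h1
  have a2 := hG.lev_endp h1'
  have a3 := hG.lev_endp h.1
  have a4 := hG.lev_endp h'.1
  rw [← he] at a4
  have hlen : l1.length = l1'.length := by
    rcases h.2.2 with c1 | ⟨c1, c2, -⟩ <;> rcases h'.2.2 with c3 | ⟨c3, c4, -⟩
    · omega
    · rw [c4] at a4; simp only [List.length_nil] at a4; omega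
    · rw [c2] at a3; simp only [List.length_nil] at a3; omega
    · rw [c2, c4, List.append_nil, List.append_nil] at hl
      rw [hl]
  obtain ⟨e1, e2⟩ := List.append_inj hl hlen
  subst e1
  exact ⟨Option.some_injective _ (h1.symm.trans h1'), e2, rfl⟩

theorem gs_orth (hG : G.Good) (j : ℕ) {κ κ' : Cl M} (hne : κ ≠ κ') {v w : H}
    (hv : v ∈ gs R D b j κ) (hw : w ∈ gs R D b j κ') : ⟪v, w⟫_ℂ = 0 := by
  classical
  rcases κ with _ | ω | k <;> rcases κ' with _ | ω' | k'
  · exact absurd rfl hne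
  · obtain ⟨ω, hω, rfl⟩ := hv
    obtain ⟨hω', rfl⟩ := hw
    apply b.orthonormal.2
    rintro rfl
    rcases hω' with h | h
    · exact h hω.1
    · have := hω.lev_le hG; omega
  · obtain ⟨ω, hω, rfl⟩ := hv
    obtain ⟨hk, s, x, l1, h1, rfl⟩ := hw
    apply inner_basis_JJ
    rintro X rfl
    exact hk.not_InF hG h1 s X hω
  · obtain ⟨hω, rfl⟩ := hv
    obtain ⟨ω', hω', rfl⟩ := hw
    apply b.orthonormal.2
    rintro rfl
    rcases hω with h | h
    · exact h hω'.1
    · have := hω'.lev_le hG; omega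
  · obtain ⟨hω, rfl⟩ := hv
    obtain ⟨hω', rfl⟩ := hw
    apply b.orthonormal.2
    rintro rfl
    exact hne rfl
  · obtain ⟨hω, rfl⟩ := hv
    obtain ⟨hk, s, x, l1, h1, rfl⟩ := hw
    apply inner_basis_JJ
    rintro X rfl
    rcases hω with h | h
    · exact h (M.valid_emb hG (hk.ok h1) s X)
    · rw [M.emb_start] at h
      have := hk.lev_le hG h1
      omega
  · obtain ⟨ω, hω, rfl⟩ := hw
    obtain ⟨hk, s, x, l1, h1, rfl⟩ := hv
    apply inner_JJ_zero
    intro X
    apply b.orthonormal.2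
    rintro rfl
    exact hk.not_InF hG h1 s X hω
  · obtain ⟨hω, rfl⟩ := hw
    obtain ⟨hk, s, x, l1, h1, rfl⟩ := hv
    apply inner_JJ_zero
    intro X
    apply b.orthonormal.2
    rintro rfl
    rcases hω with h | h
    · exact h (M.valid_emb hG (hk.ok h1) s X)
    · rw [M.emb_start] at h
      have := hk.lev_le hG h1
      omega
  · obtain ⟨hk, s, x, l1, h1, rfl⟩ := hv
    obtain ⟨hk', s', x', l1', h1', rfl⟩ := hw
    by_cases hsame : s = s' ∧ x = x' ∧ l1 ++ k.l2 = l1' ++ k'.l2 ∧ k.e = k'.e ∧ k.o = k'.o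
    · obtain ⟨rfl, rfl, hl, he, ho⟩ := hsame
      obtain ⟨e1, e2, e3⟩ := hk.key_eq R hG hk' h1 h1' hl he
      obtain ⟨m, l2, e, o, c⟩ := k
      obtain ⟨m', l2', e', o', c'⟩ := k'
      simp only at e1 e2 he ho
      subst e1 e2 he ho e3
      unfold md
      rw [inner_JJ_JJ]
      apply (D.eta _ _).orthonormal.2
      rintro rfl
      exact hne rfl
    · apply inner_JJ_zero
      intro X
      apply inner_basis_JJ
      intro X' heq
      apply hsame
      have := M.emb_half hG (hk'.ok h1') (hk.ok h1) heq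
      exact ⟨this.1.symm, this.2.1.symm, this.2.2.1.symm, this.2.2.2.1.symm, this.2.2.2.2.symm⟩

theorem exists_split (hG : G.Good) {x e : V} {l : List ℕ} (h : G.endp x l = some e) {j : ℕ}
    (h1 : G.lev x ≤ j) (h2 : j ≤ G.lev e) : ∃ l1 l2 m, l = l1 ++ l2 ∧ G.endp x l1 = some m ∧
      G.endp m l2 = some e ∧ G.lev m = j := by
  induction l generalizing x with
  | nil =>
    simp only [GD.endp_nil, Option.some.injEq] at h
    subst h
    exact ⟨[], [], x, rfl, rfl, rfl, by omega⟩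
  | cons i l ih =>
    by_cases hx : G.lev x = j
    · exact ⟨[], i :: l, x, rfl, rfl, h, hx⟩
    · have h' := h
      rw [GD.endp_cons] at h
      rcases h3 : G.ch x i with _ | x'
      · rw [h3] at h; simp at h
      · rw [h3] at h
        simp only [Option.bind_some] at h
        have := hG.lev_ch x i x' h3
        obtain ⟨l1, l2, m, p1, p2, p3, p4⟩ := ih h (by omega)
        refine ⟨i :: l1, l2, m, by rw [p1]; rfl, ?_, p3, p4⟩
        rw [GD.endp_cons, h3]; exact p2

theorem JJ_mem_of_md {s : Bool} {x : V} {l : List ℕ} {e : V} {o : Option ℕ} {W : Submodule ℂ H}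
    (h : ∀ c, md M D b s x l e o c ∈ W) (v : EuclideanSpace ℂ (XX (G.ex e o) (M.n2 e o))) :
    JJ M b s x l e o v ∈ W := by
  have hv := (D.eta (G.ex e o) (M.n2 e o)).sum_repr v
  rw [← hv, map_sum]
  refine Submodule.sum_mem _ fun c _ => ?_
  rw [map_smul]
  exact Submodule.smul_mem _ _ (h c)

theorem Mk_dense (hG : G.Good) (j : ℕ) :
    Dense ((⨆ κ : Cl M, Mk R D b j κ : Submodule ℂ H) : Set H) := by
  have hb : ∀ ω, b ω ∈ (⨆ κ : Cl M, Mk R D b j κ : Submodule ℂ H) := by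
    intro ω
    by_cases h1 : ¬ G.Valid ω ∨ j < G.lev ω.1
    · exact Submodule.mem_iSup_of_mem (.out ω) (Submodule.subset_span ⟨h1, rfl⟩)
    by_cases h2 : InF R j ω
    · exact Submodule.mem_iSup_of_mem .fin (Submodule.subset_span ⟨ω, h2, rfl⟩)
    push Not at h1
    obtain ⟨hv, hlev⟩ := h1
    rcases M.cover hG hv with ⟨l, e, o, hok, X, hX⟩ | ⟨hl1, hl2, i, hl3, hl4⟩
    · rw [← hX, InF_emb_iff hG M R j _ hok] at h2
      have hkey : ∃ l1 l2 m, l = l1 ++ l2 ∧ G.endp ω.1 l1 = some m ∧ G.endp m l2 = some e ∧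
          (G.lev m = j ∨ (G.lev m < j ∧ l2 = [] ∧ R.R j ≤ o.getD 0)) := by
        by_cases hle : j ≤ G.lev e
        · obtain ⟨l1, l2, m, p1, p2, p3, p4⟩ := exists_split hG hok.1 hlev hle
          exact ⟨l1, l2, m, p1, p2, p3, Or.inl p4⟩
        · push Not at hle
          refine ⟨l, [], e, by simp, hok.1, rfl, Or.inr ⟨hle, rfl, ?_⟩⟩
          by_contra hcon
          exact h2 ⟨hle, by omega⟩
      obtain ⟨l1, l2, m, p1, p2, p3, p4⟩ := hkey
      rw [← hX, ← JJ_single]
      apply JJ_mem_of_md D b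
      intro c
      rw [p1]
      exact Submodule.mem_iSup_of_mem (.key ⟨m, l2, e, o, c⟩) (Submodule.subset_span
        ⟨⟨p3, hok.2, p4⟩, _, _, l1, p2, rfl⟩)
    · exfalso
      apply h2
      refine ⟨hv, ω.1, by rw [hl1]; rfl, ?_⟩
      rw [hl3]
      simp only [Option.getD_some]
      rcases hlev.lt_or_eq with h3 | h3
      · left
        have := R.le j ω.1 hlev
        omega
      · right; exact ⟨h3, hl2, hl4⟩
  have hd := b.dense_span
  rw [← Submodule.dense_iff_topologicalClosure_eq_top] at hd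
  refine hd.mono ?_
  have : Submodule.span ℂ (Set.range b) ≤ (⨆ κ : Cl M, Mk R D b j κ : Submodule ℂ H) := by
    rw [Submodule.span_le]
    rintro _ ⟨ω, rfl⟩
    exact hb ω
  exact this

theorem Mk_orth (hG : G.Good) (j : ℕ) {κ κ' : Cl M} (hne : κ ≠ κ') {v w : H}
    (hv : v ∈ Mk R D b j κ) (hw : w ∈ Mk R D b j κ') : ⟪v, w⟫_ℂ = 0 := by
  unfold Mk at hv hw
  induction hv using Submodule.span_induction with
  | mem v hv =>
    induction hw using Submodule.span_induction with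
    | mem w hw => exact gs_orth R D b hG j hne hv hw
    | zero => simp
    | add x y _ _ hx hy => rw [inner_add_right, hx, hy, add_zero]
    | smul r x _ hx => rw [inner_smul_right, hx, mul_zero]
  | zero => simp
  | add x y _ _ hx hy => rw [inner_add_left, hx, hy, add_zero]
  | smul r x _ hx => rw [inner_smul_left, hx, mul_zero]

end sub

/-- adjoint invariance from orthogonality -/
theorem star_inv {H : Type u} [NormedAddCommGroup H] [InnerProductSpace ℂ H] [CompleteSpace H]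
    {κ : Type v} (M : κ → Submodule ℂ H) [∀ k, FiniteDimensional ℂ (M k)]
    (horth : ∀ k k', k ≠ k' → ∀ x ∈ M k, ∀ y ∈ M k', ⟪x, y⟫_ℂ = 0)
    (hdense : Dense ((⨆ k, M k : Submodule ℂ H) : Set H)) {T : H →L[ℂ] H}
    (hT : ∀ k, ∀ x ∈ M k, T x ∈ M k) (k : κ) (x : H) (hx : x ∈ M k) : star T x ∈ M k := by
  set y := star T x with hy
  have h0 : y - (M k).starProjection y = 0 := by
    have hz : ∀ w ∈ (⨆ k, M k : Submodule ℂ H), ⟪w, y - (M k).starProjection y⟫_ℂ = 0 := by
      intro w hw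
      induction hw using Submodule.iSup_induction' with
      | mem k' w hw =>
        by_cases hk : k' = k
        · subst hk
          exact (M k').sub_starProjection_mem_orthogonal y w hw
        · rw [inner_sub_right, horth k' k hk w hw _ ((M k).starProjection_apply_mem y), sub_zero,
            hy, ContinuousLinearMap.star_eq_adjoint, ContinuousLinearMap.adjoint_inner_right]
          exact horth k' k hk _ (hT k' w hw) x hx
      | zero => simp
      | add x y _ _ hx hy => rw [inner_add_left, hx, hy, add_zero]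
    exact hdense.eq_zero_of_inner_right ℂ (fun w hw => hz w hw)
  have h1 : y = (M k).starProjection y := sub_eq_zero.1 h0
  rw [h1]
  exact (M k).starProjection_apply_mem y

theorem inv_closure {H : Type u} [NormedAddCommGroup H] [InnerProductSpace ℂ H] [CompleteSpace H]
    {κ : Type v} (M : κ → Submodule ℂ H) [∀ k, FiniteDimensional ℂ (M k)]
    (horth : ∀ k k', k ≠ k' → ∀ x ∈ M k, ∀ y ∈ M k', ⟪x, y⟫_ℂ = 0)
    (hdense : Dense ((⨆ k, M k : Submodule ℂ H) : Set H)) {S : Set (H →L[ℂ] H)}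
    (hS : ∀ T ∈ S, ∀ k, ∀ x ∈ M k, T x ∈ M k) :
    ∀ T ∈ (NonUnitalStarAlgebra.adjoin ℂ S).topologicalClosure, ∀ k, ∀ x ∈ M k, T x ∈ M k := by
  have hcl : IsClosed {T : H →L[ℂ] H | ∀ k, ∀ x ∈ M k, T x ∈ M k} := by
    simp only [Set.ofPred_forall]
    refine isClosed_iInter fun k => isClosed_iInter fun x => isClosed_iInter fun _ => ?_
    exact (Submodule.closed_of_finiteDimensional (M k)).preimage
      (by fun_prop : Continuous fun T : H →L[ℂ] H => T x)
  have hsub : ((NonUnitalStarAlgebra.adjoin ℂ S) : Set (H →L[ℂ] H)) ⊆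
      {T : H →L[ℂ] H | ∀ k, ∀ x ∈ M k, T x ∈ M k} := by
    intro T hT
    induction hT using NonUnitalStarAlgebra.adjoin_induction with
    | mem T hT => exact hS T hT
    | add S T _ _ hS hT => exact fun k x hx => add_mem (hS k x hx) (hT k x hx)
    | zero => intro k x _; simp
    | mul S T _ _ hS hT => exact fun k x hx => hS k _ (hT k x hx)
    | smul r T _ hT => exact fun k x hx => Submodule.smul_mem _ _ (hT k x hx)
    | star T _ hT => exact fun k x hx => star_inv M horth hdense hT k x hx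
  exact closure_minimal hsub hcl

end Run7.h836
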