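import Mathlib
import Pool.Agent.Run7.h836.Ash4

set_option autoImplicit false

/-!
The subhomogeneous subalgebras.
-/

open scoped Topology InnerProductSpace
open Filter

namespace Run7.h836

universe u v

variable {V : Type} {G : GD V} {γ : V → ℕ} {M : Mat G γ} (R : RB G γ) (D : Dat) {H : Type u}
  [NormedAddCommGroup H] [InnerProductSpace ℂ H] (b : HilbertBasis (Om V) ℂ H)

theorem inv_of_gs {j : ℕ} {T : H →L[ℂ] H} (h : ∀ κ : Cl M, ∀ v ∈ gs R D b j κ, T v ∈ Mk R D b j κ)
    (κ : Cl M) (v : H) (hv : v ∈ Mk R D b j κ) : T v ∈ Mk R D b j κ := by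
  unfold Mk at hv
  induction hv using Submodule.span_induction with
  | mem v hv => exact h κ v hv
  | zero => simp
  | add x y _ _ hx hy => rw [map_add]; exact add_mem hx hy
  | smul r x _ hx => rw [map_smul]; exact Submodule.smul_mem _ _ hx

theorem b_mem_fin {j : ℕ} {ω : Om V} (h : InF R j ω) : b ω ∈ Mk R D b j (.fin : Cl M) :=
  Submodule.subset_span ⟨ω, h, rfl⟩

theorem JJ_mem_fin {j : ℕ} {s : Bool} {x : V} {l : List ℕ} {e : V} {o : Option ℕ}
    (h : ∀ X, InF R j (M.emb s x l e o X)) (v : EuclideanSpace ℂ (XX (G.ex e o) (M.n2 e o))) :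
    JJ M b s x l e o v ∈ Mk R D b j (.fin : Cl M) := by
  show ∑ X, v X • b (M.emb s x l e o X) ∈ _
  exact Submodule.sum_mem _ fun X _ => Submodule.smul_mem _ _ (b_mem_fin R D b (h X))

theorem mu_inv (hG : G.Good) {j : ℕ} {ω ω' : Om V} (hω : InF R j ω) (hω' : InF R j ω')
    (κ : Cl M) (v : H) (hv : v ∈ gs R D b j κ) : mu b ω' ω v ∈ Mk R D b j κ := by
  classical
  rcases κ with _ | ω1 | k
  · obtain ⟨ω1, hω1, rfl⟩ := hv
    rw [mu_basis]
    split_ifs
    · exact b_mem_fin R D b hω'
    · exact zero_mem _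
  · obtain ⟨h1, rfl⟩ := hv
    rw [mu_basis, if_neg]
    · exact zero_mem _
    · rintro rfl
      rcases h1 with h | h
      · exact h hω.1
      · have := hω.lev_le hG; omega
  · obtain ⟨hk, s, x, l1, h1, rfl⟩ := hv
    rw [mu_apply, md, inner_basis_JJ, zero_smul]
    · exact zero_mem _
    · rintro X rfl
      exact hk.not_InF hG h1 s X hω

theorem E_inv (hG : G.Good) {j : ℕ} (x : V) (s : Bool)
    (κ : Cl M) (v : H) (hv : v ∈ gs R D b j κ) : gen G b (.E x s) v ∈ Mk R D b j κ := by
  classical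
  rcases κ with _ | ω1 | k
  · obtain ⟨ω1, hω1, rfl⟩ := hv
    show dop b (cE G x s) (b ω1) ∈ _
    rw [dop_basis b (bE G x s)]
    exact Submodule.smul_mem _ _ (b_mem_fin R D b hω1)
  · obtain ⟨h1, rfl⟩ := hv
    show dop b (cE G x s) (b ω1) ∈ _
    rw [dop_basis b (bE G x s)]
    exact Submodule.smul_mem _ _ (Submodule.subset_span ⟨h1, rfl⟩)
  · obtain ⟨hk, s', x', l1, h1, rfl⟩ := hv
    by_cases h : x' = x ∧ s' = s
    · have : gen G b (.E x s) (JJ M b s' x' (l1 ++ k.l2) k.e k.o (D.eta _ _ k.c)) =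
          JJ M b s' x' (l1 ++ k.l2) k.e k.o
            ((ContinuousLinearMap.id ℂ _) (D.eta _ _ k.c)) := by
        apply JJ_ext
        intro X
        rw [ContinuousLinearMap.id_apply, JJ_single]
        show dop b (cE G x s) _ = _
        rw [dop_basis b (bE G x s)]
        unfold cE
        rw [if_pos ⟨M.valid_emb hG (hk.ok h1) s' X, by rw [M.emb_start]; exact h.1,
          by rw [M.emb_part]; exact h.2⟩, one_smul]
      rw [md, this]
      exact Submodule.subset_span ⟨hk, s', x', l1, h1, rfl⟩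
    · have : gen G b (.E x s) (JJ M b s' x' (l1 ++ k.l2) k.e k.o (D.eta _ _ k.c)) = 0 := by
        apply JJ_zero
        intro X
        show dop b (cE G x s) _ = _
        rw [dop_basis b (bE G x s)]
        unfold cE
        rw [if_neg, zero_smul]
        rintro ⟨-, h2, h3⟩
        rw [M.emb_start] at h2
        rw [M.emb_part] at h3
        exact h ⟨h2, h3⟩
      rw [md, this]
      exact zero_mem _

theorem cF_zero {x : V} {ω : Om V} (h : ¬ (G.Valid ω ∧ ω.1 = x)) : cF G x ω = 0 := by
  unfold cF; rw [if_neg h]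
theorem cT2_zero {x : V} {ω : Om V} (h : ¬ (G.Valid ω ∧ ω.1 = x)) : cT2 G x ω = 0 := by
  unfold cT2; rw [if_neg h]

theorem gens_zero {x : V} {ω : Om V} (h : ¬ (G.Valid ω ∧ ω.1 = x)) :
    gen G b (.F x) (b ω) = 0 ∧ gen G b (.T1 x) (b ω) = 0 ∧ gen G b (.T2 x) (b ω) = 0 := by
  refine ⟨?_, ?_, ?_⟩
  · show dop b (cF G x) _ = _
    rw [dop_basis b (bF G x), cF_zero h, zero_smul]
  · show pop b (liftS s1) (cF G x) _ = _
    rw [pop_basis b _ (bF G x), cF_zero h]
    cases liftS s1 ω <;> simp
  · show pop b (liftS s2) (cT2 G x) _ = _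
    rw [pop_basis b _ (bT2 G x), cT2_zero h]
    cases liftS s2 ω <;> simp

theorem gens_fin {j : ℕ} {x : V} {ω : Om V} (h : InF R j ω) :
    gen G b (.F x) (b ω) ∈ Mk R D b j (.fin : Cl M) ∧
      gen G b (.T1 x) (b ω) ∈ Mk R D b j (.fin : Cl M) ∧
        gen G b (.T2 x) (b ω) ∈ Mk R D b j (.fin : Cl M) := by
  refine ⟨?_, ?_, ?_⟩
  · show dop b (cF G x) _ ∈ _
    rw [dop_basis b (bF G x)]
    exact Submodule.smul_mem _ _ (b_mem_fin R D b h)
  · show pop b (liftS s1) (cF G x) _ ∈ _
    rw [pop_basis b _ (bF G x)]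
    rcases h1 : liftS s1 ω with _ | ω'
    · exact zero_mem _
    · simp only [Option.elim_some]
      apply Submodule.smul_mem
      obtain ⟨h2, h3, h4, h5⟩ := liftS_some h1
      obtain ⟨h6, -⟩ := s1_spec h5
      exact b_mem_fin R D b (h.congr ((valid_s1 h1).1 h.1) (by rw [h2, h3]) h4 h6.symm)
  · show pop b (liftS s2) (cT2 G x) _ ∈ _
    rw [pop_basis b _ (bT2 G x)]
    rcases h1 : liftS s2 ω with _ | ω'
    · exact zero_mem _
    · simp only [Option.elim_some]
      by_cases hc : cT2 G x ω = 0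
      · rw [hc, zero_smul]; exact zero_mem _
      · apply Submodule.smul_mem
        obtain ⟨h2, h3, h4, h5⟩ := liftS_some h1
        obtain ⟨h6, -⟩ := s2_spec h5
        have hf : G.fw ω ≠ 1 := by
          intro hf
          apply hc
          unfold cT2
          rw [hf]
          simp
        exact b_mem_fin R D b (h.congr (valid_s2 h1 h.1 hf) (by rw [h2, h3]) h4 h6.symm)

variable [CompleteSpace H]

/-- A common form of the three modified operators. -/
theorem op_inv (hG : G.Good) {j : ℕ} {x : V} (hx : G.lev x ≤ j) {T T0 : H →L[ℂ] H}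
    (hA : ∀ (s : Bool) (l : List ℕ) (e : V) (o : Option ℕ), Mat.Ok G x l e o →
      ∃ (s' : Bool) (K : EuclideanSpace ℂ (XX (G.ex e o) (M.n2 e o)) →L[ℂ]
        EuclideanSpace ℂ (XX (G.ex e o) (M.n2 e o))) (μ : XX (G.ex e o) (M.n2 e o) → ℂ),
        (∀ v, T (JJ M b s x l e o v) = JJ M b s' x l e o (K v)) ∧
        ∀ c, K (D.eta _ _ c) = μ c • D.eta _ _ c)
    (hB : ∀ ω, (∀ s l e o X, Mat.Ok G x l e o → M.emb s x l e o X ≠ ω) → T (b ω) = T0 (b ω))
    (hC : ∀ ω, ¬ (G.Valid ω ∧ ω.1 = x) → T0 (b ω) = 0)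
    (hD : ∀ ω, InF R j ω → T0 (b ω) ∈ Mk R D b j (.fin : Cl M))
    (κ : Cl M) (v : H) (hv : v ∈ gs R D b j κ) : T v ∈ Mk R D b j κ := by
  rcases κ with _ | ω1 | k
  · obtain ⟨ω, hω, rfl⟩ := hv
    by_cases h : ∀ s l e o X, Mat.Ok G x l e o → M.emb s x l e o X ≠ ω
    · rw [hB ω h]; exact hD ω hω
    · push Not at h
      obtain ⟨s, l, e, o, X, hok, rfl⟩ := h
      obtain ⟨s', K, μ, h1, -⟩ := hA s l e o hok
      rw [← JJ_single M b s x l e o X, h1]
      apply JJ_mem_fin
      intro Y
      rw [InF_emb_iff hG M R j s' hok]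
      exact (InF_emb_iff hG M R j s hok X).1 hω
  · obtain ⟨hω, rfl⟩ := hv
    have h1 : ¬ (G.Valid ω1 ∧ ω1.1 = x) := by
      rintro ⟨h2, h3⟩
      rcases hω with h | h
      · exact h h2
      · rw [h3] at h; omega
    rw [hB ω1, hC ω1 h1]
    · exact zero_mem _
    · rintro s l e o X hok rfl
      exact h1 ⟨M.valid_emb hG hok s X, M.emb_start s x l e o X⟩
  · obtain ⟨hk, s, x', l1, h1, rfl⟩ := hv
    by_cases hxx : x' = x
    · subst hxx
      obtain ⟨s', K, μ, h2, h3⟩ := hA s (l1 ++ k.l2) k.e k.o (hk.ok h1)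
      rw [md, h2, h3, map_smul]
      exact Submodule.smul_mem _ _ (Submodule.subset_span ⟨hk, s', x', l1, h1, rfl⟩)
    · rw [md, JJ_zero]
      · exact zero_mem _
      · intro X
        have h2 : ¬ (G.Valid (M.emb s x' (l1 ++ k.l2) k.e k.o X) ∧
            (M.emb s x' (l1 ++ k.l2) k.e k.o X).1 = x) := by
          rintro ⟨-, h3⟩
          rw [M.emb_start] at h3
          exact hxx h3
        rw [hB, hC _ h2]
        intro s'' l e o X' _ heq
        apply h2
        rw [← heq]
        exact ⟨by rw [heq]; exact M.valid_emb hG (hk.ok h1) s X, M.emb_start s'' x l e o X'⟩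

theorem f1_inv (hG : G.Good) {j : ℕ} {x : V} (hx : G.lev x ≤ j)
    (κ : Cl M) (v : H) (hv : v ∈ gs R D b j κ) : f1 M D b x v ∈ Mk R D b j κ := by
  refine op_inv R D b hG hx (T0 := gen G b (.F x)) ?_ (fun ω h => (ops_basis M D b hG h).1)
    (fun ω h => (gens_zero b h).1) (fun ω h => (gens_fin R D b h).1) κ v hv
  intro s l e o hok
  exact ⟨s, _, _, f1_JJ M D b hG s hok, D.MX_eta _ _ _⟩

theorem t1_inv (hG : G.Good) {j : ℕ} {x : V} (hx : G.lev x ≤ j)
    (κ : Cl M) (v : H) (hv : v ∈ gs R D b j κ) : t1 M D b x v ∈ Mk R D b j κ := by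
  refine op_inv R D b hG hx (T0 := gen G b (.T1 x)) ?_ (fun ω h => (ops_basis M D b hG h).2.1)
    (fun ω h => (gens_zero b h).2.1) (fun ω h => (gens_fin R D b h).2.1) κ v hv
  intro s l e o hok
  cases s
  · exact ⟨true, _, _, t1_JJ M D b hG hok, D.MX_eta _ _ _⟩
  · exact ⟨true, 0, fun _ => 0, fun v => by rw [t1_JJ_true M D b hG]; simp, fun c => by simp⟩

theorem t2_inv (hG : G.Good) {j : ℕ} {x : V} (hx : G.lev x ≤ j)
    (κ : Cl M) (v : H) (hv : v ∈ gs R D b j κ) : t2 M D b x v ∈ Mk R D b j κ := by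
  refine op_inv R D b hG hx (T0 := gen G b (.T2 x)) ?_ (fun ω h => (ops_basis M D b hG h).2.2)
    (fun ω h => (gens_zero b h).2.2) (fun ω h => (gens_fin R D b h).2.2) κ v hv
  intro s l e o hok
  cases s
  · exact ⟨true, _, _, t2_JJ M D b hG hok, D.MX_eta _ _ _⟩
  · exact ⟨true, 0, fun _ => 0, fun v => by rw [t2_JJ_true M D b hG]; simp, fun c => by simp⟩

omit [CompleteSpace H] in
theorem S_inv (hG : G.Good) {j : ℕ} {x : V} (i : ℕ) (hx : G.lev x < j)
    (κ : Cl M) (v : H) (hv : v ∈ gs R D b j κ) : gen G b (.S x i) v ∈ Mk R D b j κ := by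
  have hS : ∀ ω, gen G b (.S x i) (b ω) = (consE G x i ω).elim 0 fun ω' => cS G ω • b ω' :=
    fun ω => pop_basis b _ (bS G) ω
  rcases κ with _ | ω1 | k
  · obtain ⟨ω, hω, rfl⟩ := hv
    rw [hS]
    rcases h : consE G x i ω with _ | ω'
    · exact zero_mem _
    · simp only [Option.elim_some]
      apply Submodule.smul_mem
      obtain ⟨h1, h2, h3, h4⟩ := consE_some h
      exact b_mem_fin R D b (hω.congr ((valid_consE h).1 hω.1) (endp_consE h) (by rw [h4])
        (by rw [h4]))
  · obtain ⟨hω, rfl⟩ := hv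
    rw [hS]
    rcases h : consE G x i ω1 with _ | ω'
    · exact zero_mem _
    · obtain ⟨h1, h2, h3, h4⟩ := consE_some h
      have hlev := hG.lev_ch x i _ h1
      rcases hω with h5 | h5
      · have : cS G ω1 = 0 := by unfold cS; rw [if_neg h5]
        simp only [Option.elim_some, this, zero_smul]
        exact zero_mem _
      · omega
  · obtain ⟨hk, s, x', l1, h1, rfl⟩ := hv
    by_cases hc : G.ch x i = some x'
    · have h2 : G.endp x (i :: l1) = some k.m := by rw [GD.endp_cons, hc]; exact h1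
      have h3 : ∀ X, consE G x i (M.emb s x' (l1 ++ k.l2) k.e k.o X) =
          some (M.emb s x ((i :: l1) ++ k.l2) k.e k.o X) := by
        intro X
        have h4 : G.ch x i = some (M.emb s x' (l1 ++ k.l2) k.e k.o X).1 := by
          rw [M.emb_start]; exact hc
        simp only [consE, PEquiv.coe_mk]
        rw [if_pos h4]
        congr 1
        rcases X with ⟨a, ha⟩ | ⟨a, ha⟩ <;> cases s <;> simp only [Mat.emb] <;> split_ifs <;>
          simp_all
      have h5 : gen G b (.S x i) (JJ M b s x' (l1 ++ k.l2) k.e k.o (D.eta _ _ k.c)) =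
          JJ M b s x ((i :: l1) ++ k.l2) k.e k.o
            ((ContinuousLinearMap.id ℂ _) (D.eta _ _ k.c)) := by
        apply JJ_ext
        intro X
        rw [ContinuousLinearMap.id_apply, JJ_single, hS, h3]
        simp only [Option.elim_some]
        have : cS G (M.emb s x' (l1 ++ k.l2) k.e k.o X) = 1 := by
          unfold cS; rw [if_pos (M.valid_emb hG (hk.ok h1) s X)]
        rw [this, one_smul]
      rw [md, h5]
      exact Submodule.subset_span ⟨hk, s, x, i :: l1, h2, rfl⟩
    · rw [md, JJ_zero]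
      · exact zero_mem _
      · intro X
        rw [hS]
        have : consE G x i (M.emb s x' (l1 ++ k.l2) k.e k.o X) = none := by
          simp only [consE, PEquiv.coe_mk]
          rw [if_neg]
          rw [M.emb_start]; exact hc
        rw [this]; rfl

theorem liftS_sw_emb {x : V} {l : List ℕ} {e : V} {i : ℕ} (hs : ¬ Src G γ e (some i))
    (X : XX (G.ex e (some i)) (M.n2 e (some i))) :
    liftS sw (M.emb false x l e (some i) X) = some (M.emb true x l e (some i) X) := by
  have hd : M.dl e (some i) = [] := by unfold Mat.dl; rw [if_neg hs]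
  have hjj : M.jj e (some i) = i := by unfold Mat.jj; rw [if_neg hs]; rfl
  rcases X with ⟨a, ha⟩ | ⟨a, ha⟩
  · rcases a with _ | a
    · simp [Mat.emb, liftS, sw, hd, hjj]
    · simp [Mat.emb, liftS, sw]
  · simp [Mat.emb, liftS, sw]

theorem liftS_sw_emb_true {x : V} {l : List ℕ} {e : V} {o : Option ℕ}
    (X : XX (G.ex e o) (M.n2 e o)) : liftS sw (M.emb true x l e o X) = none := by
  rcases X with ⟨a, ha⟩ | ⟨a, ha⟩
  · by_cases h : a = 0 <;> simp [Mat.emb, liftS, sw, h]
  · simp [Mat.emb, liftS, sw]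

omit [CompleteSpace H] in
theorem W_inv (hG : G.Good) {j : ℕ} {x : V} (hx : G.lev x < j)
    (κ : Cl M) (v : H) (hv : v ∈ gs R D b j κ) : gen G b (.W x) v ∈ Mk R D b j κ := by
  have hW : ∀ ω, gen G b (.W x) (b ω) = (liftS sw ω).elim 0 fun ω' => cW G x ω • b ω' :=
    fun ω => pop_basis b _ (bW G x) ω
  rcases κ with _ | ω1 | k
  · obtain ⟨ω, hω, rfl⟩ := hv
    rw [hW]
    rcases h : liftS sw ω with _ | ω'
    · exact zero_mem _
    · simp only [Option.elim_some]
      by_cases hc : G.Valid ω ∧ ω.1 = x ∧ ω.2.1 = [] ∧ ω.2.2.1 ≠ none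
      · apply Submodule.smul_mem
        obtain ⟨h1, h2, h3, h4⟩ := hc
        obtain ⟨h5, h6, h7, h8⟩ := liftS_some h
        apply b_mem_fin R D b
        obtain ⟨hv, e, he, h9⟩ := hω
        refine ⟨(valid_sw h h4).1 hv, e, by rw [h5, h6]; exact he, Or.inl ?_⟩
        have hee : e = x := by
          rw [h3, h2] at he
          simp only [GD.endp_nil, Option.some.injEq] at he
          exact he.symm
        subst hee
        rw [h7]
        rcases h9 with h9 | h9
        · exact h9
        · omega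
      · have : cW G x ω = 0 := by unfold cW; rw [if_neg hc]
        rw [this, zero_smul]; exact zero_mem _
  · obtain ⟨hω, rfl⟩ := hv
    rw [hW]
    have : cW G x ω1 = 0 := by
      unfold cW; rw [if_neg]
      rintro ⟨h1, h2, -⟩
      rcases hω with h | h
      · exact h h1
      · rw [h2] at h; omega
    rw [this]
    cases liftS sw ω1 <;> simp
  · obtain ⟨hk, s, x', l1, h1, rfl⟩ := hv
    cases s
    swap
    · rw [md, JJ_zero]
      · exact zero_mem _
      · intro X
        rw [hW, liftS_sw_emb_true]; rfl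
    by_cases hcase : x' = x ∧ l1 ++ k.l2 = []
    · obtain ⟨rfl, hl⟩ := hcase
      obtain ⟨m, l2, e, o, c⟩ := k
      simp only [List.append_eq_nil_iff] at hl
      obtain ⟨rfl, rfl⟩ := hl
      simp only [GD.endp_nil, Option.some.injEq] at h1
      subst h1
      obtain ⟨h2, h3, h4⟩ := hk
      simp only [GD.endp_nil, Option.some.injEq] at h2 h3 h4
      subst h2
      have hR : R.R j ≤ o.getD 0 := by
        rcases h4 with h4 | ⟨-, -, h4⟩
        · omega
        · exact h4
      have hR0 := R.lt j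
      rcases o with _ | i
      · simp only [Option.getD_none] at hR; omega
      simp only [Option.getD_some] at hR
      have hs : ¬ Src G γ x' (some i) := by
        intro h5
        have h6 : i < γ x' := h5
        have := R.le j x' hx.le
        omega
      have hk' : (⟨x', [], x', some i, c⟩ : Key M).Good R j := ⟨rfl, by simp, Or.inr ⟨hx, rfl, hR⟩⟩
      have h5 : gen G b (.W x') (JJ M b false x' [] x' (some i) (D.eta _ _ c)) =
          JJ M b true x' [] x' (some i) ((ContinuousLinearMap.id ℂ _) (D.eta _ _ c)) := by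
        apply JJ_ext
        intro X
        rw [ContinuousLinearMap.id_apply, JJ_single, hW, liftS_sw_emb hs]
        simp only [Option.elim_some]
        have hok : Mat.Ok G x' [] x' (some i) := ⟨rfl, by simp⟩
        have hd : M.dl x' (some i) = [] := by unfold Mat.dl; rw [if_neg hs]
        have : cW G x' (M.emb false x' [] x' (some i) X) = 1 := by
          unfold cW
          rw [if_pos]
          refine ⟨M.valid_emb hG hok false X, M.emb_start _ _ _ _ _ _, ?_, ?_⟩
          · rcases X with ⟨a, ha⟩ | ⟨a, ha⟩ <;> simp [Mat.emb, hd]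
          · rcases X with ⟨a, ha⟩ | ⟨a, ha⟩ <;> simp [Mat.emb]
        rw [this, one_smul]
      show gen G b (.W x') (JJ M b false x' ([] ++ []) x' (some i) (D.eta _ _ c)) ∈ _
      rw [List.append_nil, h5]
      exact Submodule.subset_span ⟨hk', true, x', [], rfl, rfl⟩
    · rw [md, JJ_zero]
      · exact zero_mem _
      · intro X
        rw [hW]
        have : cW G x (M.emb false x' (l1 ++ k.l2) k.e k.o X) = 0 := by
          unfold cW; rw [if_neg]
          rintro ⟨-, h2, h3, -⟩
          rw [M.emb_start] at h2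
          apply hcase
          refine ⟨h2, ?_⟩
          rcases X with ⟨a, ha⟩ | ⟨a, ha⟩
          · simp only [Mat.emb, if_true, List.append_eq_nil_iff] at h3
            simpa using h3.1
          · simpa [Mat.emb] using h3
        rw [this]
        cases liftS sw (M.emb false x' (l1 ++ k.l2) k.e k.o X) <;> simp

end Run7.h836
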