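import Mathlib
import Pool.Agent.Run7.h836.P3c
import Pool.Agent.Run7.h836.P3a

set_option autoImplicit false

/-!
Irreducible representations of an algebra with many small invariant subspaces: the spectral bound.
-/

open scoped Topology InnerProductSpace
open Filter

namespace Run7.h836

universe u v

/-- tent function -/
noncomputable def tent (s δ t : ℝ) : ℝ := max 0 (1 - |t - s| / δ)

theorem tent_cont (s δ : ℝ) : Continuous (tent s δ) := by unfold tent; fun_prop
theorem tent_self (s δ : ℝ) : tent s δ s = 1 := by unfold tent; simp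
theorem tent_zero_of {s δ t : ℝ} (hδ : 0 < δ) (h : δ ≤ |t - s|) : tent s δ t = 0 := by
  unfold tent
  apply max_eq_left
  rw [sub_nonpos, le_div_iff₀ hδ, one_mul]
  exact h

section prime
variable {A : Type u} [NonUnitalCStarAlgebra A] {K : Type v} [NormedAddCommGroup K]
  [InnerProductSpace ℂ K] [CompleteSpace K]

/-- irreducibility, universe polymorphic -/
def Irr (π : A →⋆ₙₐ[ℂ] (K →L[ℂ] K)) : Prop :=
  (∃ a, π a ≠ 0) ∧ ∀ W : Submodule ℂ K, IsClosed (W : Set K) →
    (∀ a : A, ∀ ξ ∈ W, π a ξ ∈ W) → W = ⊥ ∨ W = ⊤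

theorem Irr.dense {π : A →⋆ₙₐ[ℂ] (K →L[ℂ] K)} (hπ : Irr π) {u : K} (hu : u ≠ 0) :
    (LinearMap.range (orb π u)).topologicalClosure = ⊤ := by
  have hinv : ∀ a : A, ∀ ξ ∈ (LinearMap.range (orb π u)).topologicalClosure,
      π a ξ ∈ (LinearMap.range (orb π u)).topologicalClosure := by
    intro a ξ hξ
    have h1 : Set.MapsTo (π a) (LinearMap.range (orb π u) : Set K)
        (LinearMap.range (orb π u) : Set K) := by
      rintro _ ⟨c, rfl⟩
      refine ⟨a * c, ?_⟩
      show π (a * c) u = π a (π c u)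
      rw [map_mul]; rfl
    have h2 := h1.closure (π a).continuous
    rw [← SetLike.mem_coe, Submodule.topologicalClosure_coe] at hξ ⊢
    exact h2 hξ
  rcases hπ.2 _ (Submodule.isClosed_topologicalClosure _) hinv with h | h
  · exfalso
    let Z : Submodule ℂ K :=
      { carrier := {v | ∀ a, π a v = 0}
        add_mem' := fun {x y} hx hy a => by rw [map_add, hx a, hy a, add_zero]
        zero_mem' := fun a => map_zero _
        smul_mem' := fun r x hx a => by rw [map_smul, hx a, smul_zero] }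
    have hZc : IsClosed (Z : Set K) := by
      have : (Z : Set K) = ⋂ a, {v | π a v = 0} := by
        ext v; simp only [Set.mem_iInter]; rfl
      rw [this]
      exact isClosed_iInter fun a => isClosed_eq (π a).continuous continuous_const
    have hZ : u ∈ Z := fun a => by
      have h1 : π a u ∈ (LinearMap.range (orb π u)).topologicalClosure :=
        Submodule.le_topologicalClosure _ ⟨a, rfl⟩
      rw [h] at h1
      exact (Submodule.mem_bot ℂ).1 h1
    rcases hπ.2 Z hZc (fun a ξ hξ => by rw [hξ a]; exact Z.zero_mem) with h2 | h2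
    · rw [h2] at hZ
      exact hu ((Submodule.mem_bot ℂ).1 hZ)
    · obtain ⟨a, ha⟩ := hπ.1
      apply ha
      ext v
      have : v ∈ Z := by rw [h2]; trivial
      exact this a
  · exact h

theorem Irr.prime {π : A →⋆ₙₐ[ℂ] (K →L[ℂ] K)} (hπ : Irr π) {x y : K →L[ℂ] K} (hx : x ≠ 0)
    (hy : y ≠ 0) : ∃ b, x * π b * y ≠ 0 := by
  have h0 : ∃ ζ, y ζ ≠ 0 := by
    by_contra hcon
    push Not at hcon
    exact hy (by ext v; exact hcon v)
  obtain ⟨ζ, hζ⟩ := h0
  by_contra hcon
  push Not at hcon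
  apply hx
  have hd := hπ.dense hζ
  have h1 : ∀ v ∈ (LinearMap.range (orb π (y ζ)) : Set K), x v = 0 := by
    rintro _ ⟨b, rfl⟩
    exact congrArg (fun S : K →L[ℂ] K => S ζ) (hcon b)
  ext v
  have h2 : v ∈ closure (LinearMap.range (orb π (y ζ)) : Set K) := by
    rw [← Submodule.topologicalClosure_coe, hd]; trivial
  have hcl : IsClosed {v : K | x v = 0} := isClosed_eq x.continuous continuous_const
  exact closure_minimal (fun v hv => h1 v hv) hcl h2

end prime

section spec
variable {H : Type u} [NormedAddCommGroup H] [InnerProductSpace ℂ H] [CompleteSpace H]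
variable {K : Type v} [NormedAddCommGroup K] [InnerProductSpace ℂ K] [CompleteSpace K]

theorem exists_prod (B : NonUnitalStarSubalgebra ℂ (H →L[ℂ] H))
    [hB : IsClosed (B : Set (H →L[ℂ] H))] {κ : Type*} (M : κ → Submodule ℂ H)
    (hinv : ∀ T ∈ B, ∀ k, ∀ ξ ∈ M k, T ξ ∈ M k)
    {π : B →⋆ₙₐ[ℂ] (K →L[ℂ] K)} (hπ : Irr π) {J : Type*} [DecidableEq J] (a : J → B)
    (ha : ∀ j, π (a j) ≠ 0) (S : Finset J) :
    ∃ x : B, π x ≠ 0 ∧ ∀ k, (∃ j ∈ S, ∀ ξ ∈ M k, (a j : H →L[ℂ] H) ξ = 0) →
      ∀ ξ ∈ M k, (x : H →L[ℂ] H) ξ = 0 := by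
  induction S using Finset.induction_on with
  | empty =>
    obtain ⟨x, hx⟩ := hπ.1
    exact ⟨x, hx, fun k ⟨j, hj, _⟩ => absurd hj (Finset.notMem_empty j)⟩
  | insert j S _ ih =>
    obtain ⟨x, hx, hxk⟩ := ih
    obtain ⟨b, hb⟩ := hπ.prime hx (ha j)
    refine ⟨x * b * a j, ?_, fun k hk ξ hξ => ?_⟩
    · rw [map_mul, map_mul]; exact hb
    · obtain ⟨i, hi, hik⟩ := hk
      show (x : H →L[ℂ] H) ((b : H →L[ℂ] H) ((a j : H →L[ℂ] H) ξ)) = 0
      rcases Finset.mem_insert.1 hi with rfl | hi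
      · rw [hik ξ hξ, map_zero, map_zero]
      · exact hxk k ⟨i, hi, hik⟩ _ (hinv _ b.2 k _ (hinv _ (a j).2 k _ hξ))

/-- The spectral bound. -/
theorem spec_card (B : NonUnitalStarSubalgebra ℂ (H →L[ℂ] H))
    [hB : IsClosed (B : Set (H →L[ℂ] H))] {κ : Type*} (M : κ → Submodule ℂ H) (m : ℕ)
    (hM : ∀ k, Module.rank ℂ (M k) ≤ (m : Cardinal))
    (hinv : ∀ T ∈ B, ∀ k, ∀ ξ ∈ M k, T ξ ∈ M k)
    (hdense : Dense ((⨆ k, M k : Submodule ℂ H) : Set H))
    {π : B →⋆ₙₐ[ℂ] (K →L[ℂ] K)} (hπ : Irr π) {h : B} (hsa : IsSelfAdjoint h)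
    (S : Finset ℝ) (hS : ∀ s ∈ S, s ∈ quasispectrum ℝ (π h)) (hS0 : (0 : ℝ) ∉ S) : S.card ≤ m := by
  classical
  by_contra hcard
  push Not at hcard
  have hne : S.Nonempty := by
    rw [← Finset.card_pos]; omega
  obtain ⟨s₀, hs₀⟩ := hne
  -- separation
  let S' : Finset ℝ := insert 0 S
  have hS'n : (S' : Set ℝ).Nontrivial :=
    ⟨0, by simp [S'], s₀, by simp [S', hs₀], fun h => hS0 (h ▸ hs₀)⟩
  have hsep : 0 < (S' : Set ℝ).infsep := S'.finite_toSet.infsep_pos_iff_nontrivial.2 hS'n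
  set δ : ℝ := (S' : Set ℝ).infsep / 2 with hδ
  have hδ0 : 0 < δ := by positivity
  have hdist : ∀ s ∈ S', ∀ t ∈ S', s ≠ t → 2 * δ ≤ |s - t| := by
    intro s hs t ht hst
    have := hS'n.le_infsep_iff.1 le_rfl s hs t ht hst
    rw [Real.dist_eq] at this
    rw [hδ]; linarith
  have hmem : ∀ s ∈ S, s ∈ S' := fun s hs => Finset.mem_insert_of_mem hs
  let g : S → ℝ → ℝ := fun s => tent s δ
  have hg0 : ∀ s : S, g s 0 = 0 := by
    intro s
    refine tent_zero_of hδ0 ?_
    have := hdist 0 (by simp [S']) s (hmem s s.2) (fun h => hS0 (h ▸ s.2))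
    linarith
  have hgc : ∀ s : S, Continuous (g s) := fun s => tent_cont _ _
  let a : S → B := fun s => cfcₙ (g s) h
  have hasa : ∀ s, IsSelfAdjoint (a s) := fun s => cfcₙ_predicate _ _
  have hπc : Continuous π := AddMonoidHomClass.continuous_of_bound π 1
    (fun x => by rw [one_mul]; exact NonUnitalStarAlgHom.norm_apply_le π x)
  have hπa : ∀ s, π (a s) ≠ 0 := by
    intro s h0
    have h1 : π (a s) = cfcₙ (g s) (π h) :=
      NonUnitalStarAlgHomClass.map_cfcₙ (S := ℂ) π (g s) h (hgc s).continuousOn (hg0 s) hπc hsa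
        (hsa.map π)
    have h2 := norm_apply_le_norm_cfcₙ (g s) (π h) (hS s s.2) (hgc s).continuousOn (hg0 s)
      (hsa.map π)
    rw [← h1, h0, norm_zero] at h2
    have h3 : g s s = 1 := tent_self _ _
    rw [h3] at h2
    norm_num at h2
  have horth : ∀ s t : S, s ≠ t → a s * a t = 0 := by
    intro s t hst
    show cfcₙ (g s) h * cfcₙ (g t) h = 0
    rw [← cfcₙ_mul (g s) (g t) h (hgc s).continuousOn (hg0 s) (hgc t).continuousOn (hg0 t)]
    have : (fun x => g s x * g t x) = fun _ => (0 : ℝ) := by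
      funext x
      have hst' : (s : ℝ) ≠ t := fun h => hst (Subtype.ext h)
      have h1 := hdist s (hmem s s.2) t (hmem t t.2) hst'
      rcases le_or_gt δ |x - s| with h2 | h2
      · rw [show g s x = 0 from tent_zero_of hδ0 h2, zero_mul]
      · have h3 : δ ≤ |x - t| := by
          have : |(s : ℝ) - t| ≤ |x - s| + |x - t| := by
            have e : (s : ℝ) - t = (x - t) - (x - s) := by ring
            rw [e]
            exact (abs_sub _ _).trans (by rw [add_comm])
          linarith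
        rw [show g t x = 0 from tent_zero_of hδ0 h3, mul_zero]
    rw [this, cfcₙ_const_zero]
  obtain ⟨x, hx, hxk⟩ := exists_prod B M hinv hπ a hπa Finset.univ
  apply hx
  have hx0 : x = 0 := by
    have h1 : ∀ ξ : H, (x : H →L[ℂ] H) ξ = 0 := by
      have hk : ∀ k, ∀ ξ ∈ M k, (x : H →L[ℂ] H) ξ = 0 := by
        intro k
        apply hxk k
        by_contra hcon
        push Not at hcon
        -- choose vectors
        have hcon' : ∀ j : S, ∃ ξ ∈ M k, (a j : H →L[ℂ] H) ξ ≠ 0 := fun j =>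
          hcon j (Finset.mem_univ j)
        choose w hw hwne using hcon'
        let v : S → M k := fun j => ⟨(a j : H →L[ℂ] H) (w j), hinv _ (a j).2 k _ (hw j)⟩
        have hv0 : ∀ j, v j ≠ 0 := fun j h => hwne j (congrArg Subtype.val h)
        have hvo : Pairwise fun i j => ⟪v i, v j⟫_ℂ = 0 := by
          intro i j hij
          show ⟪(a i : H →L[ℂ] H) (w i), (a j : H →L[ℂ] H) (w j)⟫_ℂ = 0
          have hai : IsSelfAdjoint (a i : H →L[ℂ] H) := congrArg Subtype.val (hasa i)
          rw [sa_inner hai]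
          have h2 : (a i : H →L[ℂ] H) ((a j : H →L[ℂ] H) (w j)) = 0 := by
            have := congrArg (fun b : B => (b : H →L[ℂ] H) (w j)) (horth i j hij)
            exact this
          rw [h2, inner_zero_right]
        have hli := linearIndependent_of_ne_zero_of_inner_eq_zero hv0 hvo
        have hfd : FiniteDimensional ℂ (M k) :=
          Module.rank_lt_aleph0_iff.1 ((hM k).trans_lt (Cardinal.natCast_lt_aleph0))
        have hc := hli.fintype_card_le_finrank
        have hc2 := Module.finrank_le_of_rank_le (hM k)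
        rw [Fintype.card_coe] at hc
        omega
      intro ξ
      have hcl : IsClosed {ξ : H | (x : H →L[ℂ] H) ξ = 0} :=
        isClosed_eq (x : H →L[ℂ] H).continuous continuous_const
      have hsub : (⨆ k, M k : Submodule ℂ H) ≤
          LinearMap.ker ((x : H →L[ℂ] H) : H →ₗ[ℂ] H) :=
        iSup_le fun k ξ hξ => LinearMap.mem_ker.2 (hk k ξ hξ)
      have h3 : closure ((⨆ k, M k : Submodule ℂ H) : Set H) ⊆
          {ξ : H | (x : H →L[ℂ] H) ξ = 0} :=
        closure_minimal (fun ξ hξ => LinearMap.mem_ker.1 (hsub hξ)) hcl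
      exact h3 (by rw [hdense.closure_eq]; trivial)
    apply Subtype.ext
    ext ξ
    exact h1 ξ
  rw [hx0, map_zero]

end spec

end Run7.h836
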