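import Mathlib
import Pool.Agent.Run7.h836.P1a

set_option autoImplicit false

/-!
Irreducible representations with the spectral bound are finite dimensional.
-/

open scoped Topology InnerProductSpace
open Filter

namespace Run7.h836

universe u v

variable {A : Type u} [NonUnitalCStarAlgebra A] {K : Type v} [NormedAddCommGroup K]
  [InnerProductSpace ℂ K] [CompleteSpace K]

/-- the spectral bound -/
def SBd (π : A →⋆ₙₐ[ℂ] (K →L[ℂ] K)) (m : ℕ) : Prop :=
  ∀ h : A, IsSelfAdjoint h → ∀ S : Finset ℝ, (∀ s ∈ S, s ∈ quasispectrum ℝ (π h)) → (0 : ℝ) ∉ S →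
    S.card ≤ m

variable {π : A →⋆ₙₐ[ℂ] (K →L[ℂ] K)} {m : ℕ}

theorem sa_lift {c : K →L[ℂ] K} (hc : c ∈ Set.range π) (hsa : IsSelfAdjoint c) :
    ∃ h : A, IsSelfAdjoint h ∧ π h = c := by
  obtain ⟨a, rfl⟩ := hc
  refine ⟨(2⁻¹ : ℂ) • (a + star a), ?_, ?_⟩
  · rw [isSelfAdjoint_iff, star_smul, star_add, star_star, add_comm]
    congr 1
    simp
  · rw [map_smul, map_add, map_star, hsa.star_eq, ← two_smul ℂ (π a), smul_smul]
    norm_num

theorem isolate (hb : SBd π m) {c : K →L[ℂ] K} (hc : c ∈ Set.range π) (hsa : IsSelfAdjoint c)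
    (hc0 : c ≠ 0) : ∃ lam : ℂ, lam ≠ 0 ∧ ∃ e : K →L[ℂ] K, e ∈ Set.range π ∧ IsStarProjection e ∧
      e ≠ 0 ∧ c * e = lam • e := by
  obtain ⟨h, hh, rfl⟩ := sa_lift hc hsa
  have hex : ∃ l ∈ quasispectrum ℝ (π h), l ≠ 0 := by
    by_contra hcon
    push Not at hcon
    apply hc0
    have h1 : ‖cfcₙ (id : ℝ → ℝ) (π h)‖ ≤ 0 := norm_cfcₙ_le fun x hx => by
      rw [hcon x hx]; simp
    rw [cfcₙ_id ℝ (π h) hsa] at h1
    exact norm_le_zero_iff.1 h1
  obtain ⟨l, hl, hl0⟩ := hex
  have hfin : (quasispectrum ℝ (π h) \ {0}).Finite := by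
    by_contra hinf
    obtain ⟨t, ht, htc⟩ := Set.Infinite.exists_subset_card_eq (s := quasispectrum ℝ (π h) \ {0})
      hinf (m + 1)
    have := hb h hh t (fun s hs => (ht hs).1) (fun h0 => (ht h0).2 rfl)
    omega
  set T : Set ℝ := quasispectrum ℝ (π h) \ {l} with hT
  have hTfin : T.Finite := by
    refine (hfin.insert 0).subset ?_
    intro x hx
    by_cases h0 : x = 0
    · rw [h0]; exact Set.mem_insert _ _
    · exact Set.mem_insert_of_mem _ ⟨hx.1, h0⟩
  have h0T : (0 : ℝ) ∈ T := ⟨quasispectrum.zero_mem ℝ _, fun h => hl0 h.symm⟩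
  have hlT : l ∉ T := fun h => h.2 rfl
  set δ := Metric.infDist l T with hδ
  have hδ0 : 0 < δ := (hTfin.isClosed.notMem_iff_infDist_pos ⟨0, h0T⟩).1 hlT
  have hg1 : ∀ x ∈ T, tent l δ x = 0 := by
    intro x hx
    refine tent_zero_of hδ0 ?_
    have := Metric.infDist_le_dist_of_mem (x := l) hx
    rwa [Real.dist_eq, abs_sub_comm] at this
  have hg2 : tent l δ l = 1 := tent_self _ _
  have hgc := tent_cont l δ
  have hg0 : tent l δ 0 = 0 := hg1 0 h0T
  have hπc : Continuous π := AddMonoidHomClass.continuous_of_bound π 1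
    (fun x => by rw [one_mul]; exact NonUnitalStarAlgHom.norm_apply_le π x)
  refine ⟨(l : ℂ), by exact_mod_cast hl0, cfcₙ (tent l δ) (π h), ?_, ⟨?_, cfcₙ_predicate _ _⟩, ?_, ?_⟩
  · exact ⟨cfcₙ (tent l δ) h, NonUnitalStarAlgHomClass.map_cfcₙ (S := ℂ) π (tent l δ) h
      hgc.continuousOn hg0 hπc hh hsa⟩
  · show cfcₙ (tent l δ) (π h) * cfcₙ (tent l δ) (π h) = cfcₙ (tent l δ) (π h)
    rw [← cfcₙ_mul (tent l δ) (tent l δ) (π h) hgc.continuousOn hg0 hgc.continuousOn hg0]
    refine cfcₙ_congr fun x hx => ?_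
    by_cases hxl : x = l
    · simp only [hxl, hg2, mul_one]
    · simp only [hg1 x ⟨hx, hxl⟩, mul_zero]
  · intro h0
    have h2 := norm_apply_le_norm_cfcₙ (tent l δ) (π h) hl hgc.continuousOn hg0 hsa
    rw [h0, norm_zero, hg2] at h2
    norm_num at h2
  · have hid : cfcₙ (fun x : ℝ => x) (π h) = π h := cfcₙ_id' ℝ (π h)
    have h1 : π h * cfcₙ (tent l δ) (π h) = cfcₙ (fun x => x * tent l δ x) (π h) := by
      rw [cfcₙ_mul (fun x => x) (tent l δ) (π h) (by fun_prop) rfl hgc.continuousOn hg0, hid]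
    have h2 : cfcₙ (fun x => x * tent l δ x) (π h) = cfcₙ (fun x => l * tent l δ x) (π h) := by
      refine cfcₙ_congr fun x hx => ?_
      by_cases hxl : x = l
      · simp only [hxl]
      · simp only [hg1 x ⟨hx, hxl⟩, mul_zero]
    have h3 : cfcₙ (fun x => l * tent l δ x) (π h) = l • cfcₙ (tent l δ) (π h) :=
      cfcₙ_smul l (tent l δ) (π h) hgc.continuousOn hg0
    rw [h1, h2, h3]
    ext v
    show l • (cfcₙ (tent l δ) (π h)) v = (l : ℂ) • (cfcₙ (tent l δ) (π h)) v
    rw [Complex.coe_smul]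

/-- orthogonal families of projections in the image -/
def IsFam (π : A →⋆ₙₐ[ℂ] (K →L[ℂ] K)) {r : ℕ} (p : Fin r → (K →L[ℂ] K)) : Prop :=
  (∀ i, p i ∈ Set.range π ∧ IsStarProjection (p i) ∧ p i ≠ 0) ∧ ∀ i j, i ≠ j → p i * p j = 0

theorem range_add {c d : K →L[ℂ] K} (hc : c ∈ Set.range π) (hd : d ∈ Set.range π) :
    c + d ∈ Set.range π := by
  obtain ⟨a, rfl⟩ := hc; obtain ⟨b, rfl⟩ := hd; exact ⟨a + b, map_add _ _ _⟩
theorem range_sub {c d : K →L[ℂ] K} (hc : c ∈ Set.range π) (hd : d ∈ Set.range π) :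
    c - d ∈ Set.range π := by
  obtain ⟨a, rfl⟩ := hc; obtain ⟨b, rfl⟩ := hd; exact ⟨a - b, map_sub _ _ _⟩
theorem range_mul {c d : K →L[ℂ] K} (hc : c ∈ Set.range π) (hd : d ∈ Set.range π) :
    c * d ∈ Set.range π := by
  obtain ⟨a, rfl⟩ := hc; obtain ⟨b, rfl⟩ := hd; exact ⟨a * b, map_mul _ _ _⟩
theorem range_star {c : K →L[ℂ] K} (hc : c ∈ Set.range π) :
    star c ∈ Set.range π := by
  obtain ⟨a, rfl⟩ := hc; exact ⟨star a, map_star _ _⟩
theorem range_smul (r : ℂ) {c : K →L[ℂ] K} (hc : c ∈ Set.range π) :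
    r • c ∈ Set.range π := by
  obtain ⟨a, rfl⟩ := hc; exact ⟨r • a, map_smul _ _ _⟩
theorem range_sum {ι : Type*} (S : Finset ι) {c : ι → (K →L[ℂ] K)}
    (hc : ∀ i ∈ S, c i ∈ Set.range π) : ∑ i ∈ S, c i ∈ Set.range π := by
  classical
  induction S using Finset.induction_on with
  | empty => exact ⟨0, by simp⟩
  | insert j S hj ih =>
    rw [Finset.sum_insert hj]
    exact range_add (hc j (Finset.mem_insert_self _ _))
      (ih fun i hi => hc i (Finset.mem_insert_of_mem hi))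

theorem fam_le (hb : SBd π m) {r : ℕ} {p : Fin r → (K →L[ℂ] K)} (hp : IsFam π p) : r ≤ m := by
  classical
  set c : K →L[ℂ] K := ∑ i : Fin r, (((i : ℕ) : ℂ) + 1) • p i with hc
  have hcr : c ∈ Set.range π := range_sum _ fun i _ => range_smul _ (hp.1 i).1
  have hcsa : IsSelfAdjoint c := by
    rw [isSelfAdjoint_iff, hc, star_sum]
    refine Finset.sum_congr rfl fun i _ => ?_
    rw [star_smul, (hp.1 i).2.1.isSelfAdjoint.star_eq]
    congr 1
    simp
  obtain ⟨h, hh, hhc⟩ := sa_lift hcr hcsa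
  have hcp : ∀ i, c * p i = (((i : ℕ) : ℂ) + 1) • p i := by
    intro i
    rw [hc, Finset.sum_mul, Finset.sum_eq_single i]
    · rw [smul_mul_assoc, (hp.1 i).2.1.isIdempotentElem.eq]
    · intro j _ hj
      rw [smul_mul_assoc, hp.2 j i hj, smul_zero]
    · intro h; exact absurd (Finset.mem_univ i) h
  have hspec : ∀ i : Fin r, ((i : ℕ) : ℝ) + 1 ∈ quasispectrum ℝ c := by
    intro i
    refine spectrum_subset_quasispectrum ℝ c ?_
    rw [spectrum.mem_iff]
    intro hu
    apply (hp.1 i).2.2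
    have h1 : (algebraMap ℝ (K →L[ℂ] K) (((i : ℕ) : ℝ) + 1) - c) * p i = 0 := by
      rw [sub_mul, hcp, Algebra.algebraMap_eq_smul_one, smul_mul_assoc, one_mul, sub_eq_zero]
      ext v
      show (((i : ℕ) : ℝ) + 1) • p i v = (((i : ℕ) : ℂ) + 1) • p i v
      rw [← Complex.coe_smul]
      push_cast
      rfl
    exact (hu.mul_right_eq_zero).1 h1
  have := hb h hh (Finset.univ.image fun i : Fin r => ((i : ℕ) : ℝ) + 1) (by
    intro s hs
    obtain ⟨i, -, rfl⟩ := Finset.mem_image.1 hs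
    rw [hhc]; exact hspec i) (by
    intro h0
    obtain ⟨i, -, hi⟩ := Finset.mem_image.1 h0
    have : (0 : ℝ) ≤ ((i : ℕ) : ℝ) := Nat.cast_nonneg _
    linarith)
  rw [Finset.card_image_of_injective _ (fun i j hij => by
    have h2 : ((i : ℕ) : ℝ) = ((j : ℕ) : ℝ) := by
      have h3 : ((i : ℕ) : ℝ) + 1 = ((j : ℕ) : ℝ) + 1 := hij
      linarith
    exact Fin.ext (by exact_mod_cast h2))] at this
  simpa using this

theorem fam_snoc {r : ℕ} {p : Fin r → (K →L[ℂ] K)} (hp : IsFam π p) {f : K →L[ℂ] K}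
    (hf : f ∈ Set.range π) (hfp : IsStarProjection f) (hf0 : f ≠ 0) (hpf : ∀ i, p i * f = 0) :
    IsFam π (Fin.snoc p f : Fin (r + 1) → (K →L[ℂ] K)) := by
  have hfp' : ∀ i, f * p i = 0 := by
    intro i
    have := congrArg star (hpf i)
    rwa [star_mul, hfp.isSelfAdjoint.star_eq, (hp.1 i).2.1.isSelfAdjoint.star_eq, star_zero] at this
  refine ⟨fun i => ?_, fun i j hij => ?_⟩
  · refine Fin.lastCases ?_ (fun i => ?_) i
    · rw [Fin.snoc_last]; exact ⟨hf, hfp, hf0⟩
    · rw [Fin.snoc_castSucc]; exact hp.1 i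
  · revert hij
    refine Fin.lastCases ?_ (fun i => ?_) i
    · refine Fin.lastCases ?_ (fun j => ?_) j
      · intro h; exact absurd rfl h
      · intro _; rw [Fin.snoc_last, Fin.snoc_castSucc]; exact hfp' j
    · refine Fin.lastCases ?_ (fun j => ?_) j
      · intro _; rw [Fin.snoc_last, Fin.snoc_castSucc]; exact hpf i
      · intro h
        rw [Fin.snoc_castSucc, Fin.snoc_castSucc]
        exact hp.2 i j (fun h' => h (by rw [h']))

theorem proj_sub {p e : K →L[ℂ] K} (hp : IsStarProjection p) (he : IsStarProjection e)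
    (hpe : p * e = e) : IsStarProjection (p - e) ∧ e * p = e := by
  have h1 : e * p = e := by
    have := congrArg star hpe
    rwa [star_mul, hp.isSelfAdjoint.star_eq, he.isSelfAdjoint.star_eq] at this
  refine ⟨⟨?_, hp.isSelfAdjoint.sub he.isSelfAdjoint⟩, h1⟩
  show (p - e) * (p - e) = p - e
  rw [mul_sub, sub_mul, sub_mul, hp.isIdempotentElem.eq, he.isIdempotentElem.eq, hpe, h1]
  abel

/-- minimality of the members of a maximal family -/
theorem fam_min (hb : SBd π m) {r : ℕ} {p : Fin r → (K →L[ℂ] K)} (hp : IsFam π p)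
    (hmax : ∀ q : Fin (r + 1) → (K →L[ℂ] K), ¬ IsFam π q) (i : Fin r) {c : K →L[ℂ] K}
    (hc : c ∈ Set.range π) (hcsa : IsSelfAdjoint c) : ∃ lam : ℂ, p i * c * p i = lam • p i := by
  classical
  set c' := p i * c * p i with hc'
  have hpi := (hp.1 i).2.1
  have hc'r : c' ∈ Set.range π := range_mul (range_mul (hp.1 i).1 hc) (hp.1 i).1
  have hc'sa : IsSelfAdjoint c' := by
    rw [isSelfAdjoint_iff, hc', star_mul, star_mul, hpi.isSelfAdjoint.star_eq, hcsa.star_eq,
      mul_assoc]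
  by_cases h0 : c' = 0
  · exact ⟨0, by rw [h0, zero_smul]⟩
  obtain ⟨lam, hlam, e, her, hep, he0, hce⟩ := isolate hb hc'r hc'sa h0
  have hpc : p i * c' = c' := by
    rw [hc', ← mul_assoc, ← mul_assoc, hpi.isIdempotentElem.eq]
  have hcp : c' * p i = c' := by
    rw [hc', mul_assoc, hpi.isIdempotentElem.eq]
  have hpe : p i * e = e := by
    have h1 : e = lam⁻¹ • (c' * e) := by rw [hce, smul_smul, inv_mul_cancel₀ hlam, one_smul]
    conv_lhs => rw [h1, mul_smul_comm, ← mul_assoc, hpc]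
    exact h1.symm
  by_cases hee : p i - e = 0
  · refine ⟨lam, ?_⟩
    rw [sub_eq_zero] at hee
    calc c' = c' * p i := hcp.symm
      _ = c' * e := by rw [hee]
      _ = lam • e := hce
      _ = lam • p i := by rw [hee]
  · exfalso
    obtain ⟨h2, h3⟩ := proj_sub hpi hep hpe
    -- replace `p i` by `e` and add `p i - e`
    have hfam : IsFam π (Function.update p i e) := by
      refine ⟨fun j => ?_, fun j k hjk => ?_⟩
      · by_cases hj : j = i
        · rw [hj, Function.update_self]; exact ⟨her, hep, he0⟩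
        · rw [Function.update_of_ne hj]; exact hp.1 j
      · by_cases hj : j = i
        · have hk : k ≠ i := fun h => hjk (by rw [hj, h])
          rw [hj, Function.update_self, Function.update_of_ne hk, ← h3, mul_assoc,
            hp.2 i k (Ne.symm hk), mul_zero]
        · rw [Function.update_of_ne hj]
          by_cases hk : k = i
          · rw [hk, Function.update_self, ← hpe, ← mul_assoc, hp.2 j i hj, zero_mul]
          · rw [Function.update_of_ne hk]; exact hp.2 j k hjk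
    refine hmax _ (fam_snoc hfam (range_sub (hp.1 i).1 her) h2 hee fun j => ?_)
    by_cases hj : j = i
    · rw [hj, Function.update_self, mul_sub, h3, hep.isIdempotentElem.eq, sub_self]
    · rw [Function.update_of_ne hj, mul_sub, hp.2 j i hj, ← hpe, ← mul_assoc, hp.2 j i hj,
        zero_mul, sub_zero]

theorem fam_min' (hb : SBd π m) {r : ℕ} {p : Fin r → (K →L[ℂ] K)} (hp : IsFam π p)
    (hmax : ∀ q : Fin (r + 1) → (K →L[ℂ] K), ¬ IsFam π q) (i : Fin r) {c : K →L[ℂ] K}
    (hc : c ∈ Set.range π) : ∃ lam : ℂ, p i * c * p i = lam • p i := by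
  obtain ⟨l₁, h₁⟩ := fam_min hb hp hmax i (range_add hc (range_star hc)) (by
    rw [isSelfAdjoint_iff, star_add, star_star, add_comm])
  obtain ⟨l₂, h₂⟩ := fam_min hb hp hmax i (c := Complex.I • (c - star c))
    (range_smul _ (range_sub hc (range_star hc))) (by
      rw [isSelfAdjoint_iff, star_smul, star_sub, star_star]
      rw [show star Complex.I = - Complex.I from Complex.conj_I, neg_smul, ← smul_neg, neg_sub])
  refine ⟨2⁻¹ * (l₁ - Complex.I * l₂), ?_⟩
  have h3 : c = (2⁻¹ : ℂ) • ((c + star c) - Complex.I • (Complex.I • (c - star c))) := by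
    rw [smul_smul, Complex.I_mul_I, neg_smul, one_smul, sub_neg_eq_add]
    have : c + star c + (c - star c) = (2 : ℂ) • c := by rw [two_smul]; abel
    rw [this, smul_smul]; norm_num
  conv_lhs => rw [h3]
  rw [mul_smul_comm, smul_mul_assoc, mul_sub, sub_mul, h₁, mul_smul_comm, smul_mul_assoc, h₂,
    smul_smul, ← sub_smul, smul_smul]

/-- a maximal family is a partition of unity -/
theorem fam_sum (hπ : Irr π) (hb : SBd π m) {r : ℕ} {p : Fin r → (K →L[ℂ] K)} (hp : IsFam π p)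
    (hmax : ∀ q : Fin (r + 1) → (K →L[ℂ] K), ¬ IsFam π q) : ∑ i, p i = 1 := by
  set e := ∑ i, p i with he
  set q : K →L[ℂ] K := 1 - e with hq
  have her : e ∈ Set.range π := range_sum _ fun i _ => (hp.1 i).1
  have hesa : IsSelfAdjoint e := by
    rw [isSelfAdjoint_iff, he, star_sum]
    exact Finset.sum_congr rfl fun i _ => (hp.1 i).2.1.isSelfAdjoint.star_eq
  have hpe : ∀ i, p i * e = p i := by
    intro i
    rw [he, Finset.mul_sum, Finset.sum_eq_single i]
    · exact (hp.1 i).2.1.isIdempotentElem.eq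
    · intro j _ hj
      exact hp.2 i j (Ne.symm hj)
    · intro h; exact absurd (Finset.mem_univ i) h
  have hee : e * e = e := by
    conv_lhs => rw [he, Finset.sum_mul]
    rw [he]
    exact Finset.sum_congr rfl fun i _ => hpe i
  have hqsa : star q = q := by rw [hq, star_sub, star_one, hesa.star_eq]
  have hqq : q * q = q := by
    rw [hq, mul_sub, sub_mul, sub_mul, hee]; simp
  have hpq : ∀ i, p i * q = 0 := fun i => by rw [hq, mul_sub, mul_one, hpe, sub_self]
  have hzero : ∀ c ∈ Set.range π, IsSelfAdjoint c → q * c * q = 0 := by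
    intro c hc hcsa
    by_contra h0
    have hr : q * c * q ∈ Set.range π := by
      have : q * c * q = c - e * c - c * e + e * c * e := by
        rw [hq]; noncomm_ring
      rw [this]
      exact range_add (range_sub (range_sub hc (range_mul her hc)) (range_mul hc her))
        (range_mul (range_mul her hc) her)
    have hsa : IsSelfAdjoint (q * c * q) := by
      rw [isSelfAdjoint_iff, star_mul, star_mul, hqsa, hcsa.star_eq, mul_assoc]
    obtain ⟨lam, hlam, f, hfr, hfp, hf0, hcf⟩ := isolate hb hr hsa h0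
    have hqf : q * f = f := by
      have h1 : f = lam⁻¹ • (q * c * q * f) := by
        rw [hcf, smul_smul, inv_mul_cancel₀ hlam, one_smul]
      conv_lhs => rw [h1, mul_smul_comm, ← mul_assoc, ← mul_assoc, ← mul_assoc, hqq]
      exact h1.symm
    refine hmax _ (fam_snoc hp hfr hfp hf0 fun i => ?_)
    rw [← hqf, ← mul_assoc, hpq, zero_mul]
  have hxq : ∀ x ∈ Set.range π, x * q = 0 := by
    intro x hx
    have h1 := hzero (star x * x) (range_mul (range_star hx) hx) (.star_mul_self x)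
    have h2 : star (x * q) * (x * q) = 0 := by
      rw [star_mul, hqsa]
      calc q * star x * (x * q) = q * (star x * x) * q := by noncomm_ring
        _ = 0 := h1
    exact (CStarRing.star_mul_self_eq_zero_iff _).1 h2
  have hq0 : q = 0 := by
    by_contra h0
    obtain ⟨a, ha⟩ := hπ.1
    obtain ⟨b, hb'⟩ := hπ.prime ha h0
    exact hb' (hxq _ (range_mul ⟨a, rfl⟩ ⟨b, rfl⟩))
  rw [hq, sub_eq_zero] at hq0
  exact hq0.symm

/-- The dimension bound. -/
theorem rank_le_of_SBd (hπ : Irr π) (hb : SBd π m) : Module.rank ℂ K ≤ (m : Cardinal) := by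
  classical
  have hex : ∃ (r : ℕ) (p : Fin r → (K →L[ℂ] K)), IsFam π p ∧
      ∀ q : Fin (r + 1) → (K →L[ℂ] K), ¬ IsFam π q := by
    by_contra hcon
    push Not at hcon
    have h1 : ∀ r : ℕ, ∃ p : Fin r → (K →L[ℂ] K), IsFam π p := by
      intro r
      induction r with
      | zero => exact ⟨Fin.elim0, ⟨fun i => i.elim0, fun i => i.elim0⟩⟩
      | succ r ih =>
        obtain ⟨p, hp⟩ := ih
        exact hcon r p hp
    obtain ⟨p, hp⟩ := h1 (m + 1)
    have := fam_le hb hp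
    omega
  obtain ⟨r, p, hp, hmax⟩ := hex
  have hrm := fam_le hb hp
  have hsum := fam_sum hπ hb hp hmax
  have hvec : ∀ i, ∃ ξ : K, p i ξ = ξ ∧ ∀ v, p i v = v → ∃ α : ℂ, v = α • ξ := by
    intro i
    have h0 : ∃ v, p i v ≠ 0 := by
      by_contra hcon
      push Not at hcon
      exact (hp.1 i).2.2 (by ext v; exact hcon v)
    obtain ⟨w, hw⟩ := h0
    set ξ := p i w with hξ
    have hpi := (hp.1 i).2.1
    have hfix : p i ξ = ξ := congrArg (fun S : K →L[ℂ] K => S w) hpi.isIdempotentElem.eq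
    refine ⟨ξ, hfix, fun v hv => ?_⟩
    have hξξ : ⟪ξ, ξ⟫_ℂ ≠ 0 := inner_self_ne_zero.2 hw
    set α : ℂ := ⟪ξ, v⟫_ℂ / ⟪ξ, ξ⟫_ℂ with hα
    refine ⟨α, ?_⟩
    set ζ := v - α • ξ with hζ
    have hpζ : p i ζ = ζ := by rw [hζ, map_sub, map_smul, hfix, hv]
    have hζξ : ⟪ξ, ζ⟫_ℂ = 0 := by
      rw [hζ, inner_sub_right, inner_smul_right, hα]
      field_simp
      ring
    have hζξ' : ⟪ζ, ξ⟫_ℂ = 0 := inner_eq_zero_symm.1 hζξ
    have horb : ∀ b, ⟪ζ, π b ξ⟫_ℂ = 0 := by
      intro b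
      obtain ⟨lam, hlam⟩ := fam_min' hb hp hmax i (c := π b) ⟨b, rfl⟩
      calc ⟪ζ, π b ξ⟫_ℂ = ⟪p i ζ, π b (p i ξ)⟫_ℂ := by rw [hpζ, hfix]
        _ = ⟪ζ, p i (π b (p i ξ))⟫_ℂ := sa_inner hpi.isSelfAdjoint _ _
        _ = ⟪ζ, (p i * π b * p i) ξ⟫_ℂ := rfl
        _ = ⟪ζ, lam • p i ξ⟫_ℂ := by rw [hlam]; rfl
        _ = 0 := by rw [hfix, inner_smul_right, hζξ', mul_zero]
    have hd := hπ.dense hw
    have hcl : IsClosed {x : K | ⟪ζ, x⟫_ℂ = 0} := isClosed_eq (by fun_prop) continuous_const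
    have h2 : ζ ∈ closure (LinearMap.range (orb π ξ) : Set K) := by
      rw [← Submodule.topologicalClosure_coe, hd]; trivial
    have h3 : ⟪ζ, ζ⟫_ℂ = 0 := closure_minimal (by rintro _ ⟨b, rfl⟩; exact horb b) hcl h2
    have h4 : ζ = 0 := inner_self_eq_zero.1 h3
    rw [hζ, sub_eq_zero] at h4
    exact h4
  choose ξ hξ hξs using hvec
  have hspan : Submodule.span ℂ (Set.range ξ) = ⊤ := by
    rw [eq_top_iff]
    intro v _
    have h1 : v = ∑ i, p i v := by
      have := congrArg (fun S : K →L[ℂ] K => S v) hsum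
      simpa using this.symm
    rw [h1]
    refine Submodule.sum_mem _ fun i _ => ?_
    obtain ⟨α, hα⟩ := hξs i (p i v)
      (congrArg (fun S : K →L[ℂ] K => S v) (hp.1 i).2.1.isIdempotentElem.eq)
    rw [hα]
    exact Submodule.smul_mem _ _ (Submodule.subset_span ⟨i, rfl⟩)
  have hfd : FiniteDimensional ℂ K :=
    Module.finite_def.2 (Submodule.fg_def.2 ⟨Set.range ξ, Set.finite_range ξ, hspan⟩)
  have hfr : Module.finrank ℂ K ≤ r := by
    have h1 := finrank_range_le_card (R := ℂ) ξ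
    unfold Set.finrank at h1
    rw [hspan, finrank_top, Fintype.card_fin] at h1
    exact h1
  rw [← Module.finrank_eq_rank]
  exact_mod_cast hfr.trans hrm

end Run7.h836
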