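import Mathlib
import Pool.Agent.Run7.h836.Base
import Pool.Agent.Run7.h836.P1b

set_option autoImplicit false

open scoped Topology
open Filter

namespace Run7.h836

universe u v

/-- PIECE 1 (SH lemma). A closed *-algebra `B` of operators with a family of invariant subspaces of
dimension `≤ m` whose sum is dense is subhomogeneous. -/
theorem subhomogeneous_of_invariant {H : Type u} [NormedAddCommGroup H] [InnerProductSpace ℂ H]
    [CompleteSpace H] (B : NonUnitalStarSubalgebra ℂ (H →L[ℂ] H))
    [hB : IsClosed (B : Set (H →L[ℂ] H))] {κ : Type v} (M : κ → Submodule ℂ H) (m : ℕ)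
    (hM : ∀ k, Module.rank ℂ (M k) ≤ (m : Cardinal))
    (hinv : ∀ T ∈ B, ∀ k, ∀ ξ ∈ M k, T ξ ∈ M k)
    (hdense : Dense ((⨆ k, M k : Submodule ℂ H) : Set H)) : Subhomogeneous B := by
  refine ⟨m, fun K _ _ _ π hπ => ?_⟩
  have hπ' : Irr π := hπ
  exact rank_le_of_SBd hπ' fun h hh S hS hS0 => spec_card B M m hM hinv hdense hπ' hh S hS hS0

end Run7.h836
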