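import Mathlib
import Pool.Agent.Run7.h836.Restr

set_option autoImplicit false

open scoped Topology
open Filter

namespace Run7.h836

universe u v

variable {H : Type u} [NormedAddCommGroup H] [InnerProductSpace ℂ H] [CompleteSpace H]

/-- A sequence of subhomogeneous algebras gives concrete subhomogeneous closed subalgebras. -/
theorem subhomOn_of_rep {A : Type u} [NonUnitalCStarAlgebra A] (h : Subhomogeneous A)
    (ρ : A →⋆ₙₐ[ℂ] (H →L[ℂ] H)) :
    ∃ N, SubhomOn (NonUnitalStarAlgHom.range ρ).topologicalClosure N := by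
  obtain ⟨N, hN⟩ := h
  refine ⟨N, fun W hWc hW hne hirr => ?_⟩
  have hWr : ∀ a, ∀ ξ ∈ W, ρ a ξ ∈ W := fun a ξ hξ =>
    hW (ρ a) (NonUnitalStarSubalgebra.le_topologicalClosure _ ⟨a, rfl⟩) ξ hξ
  have : CompleteSpace W := hWc.completeSpace_coe
  -- invariance under the closure
  have hclos : ∀ W' : Submodule ℂ H, IsClosed (W' : Set H) → (∀ a, ∀ ξ ∈ W', ρ a ξ ∈ W') →
      ∀ T ∈ (NonUnitalStarAlgHom.range ρ).topologicalClosure, ∀ ξ ∈ W', T ξ ∈ W' := by
    intro W' hW'c hW' T hT ξ hξ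
    have hcl : IsClosed {T : H →L[ℂ] H | T ξ ∈ W'} :=
      hW'c.preimage (by fun_prop : Continuous fun T : H →L[ℂ] H => T ξ)
    have hsub : ((NonUnitalStarAlgHom.range ρ) : Set (H →L[ℂ] H)) ⊆
        {T : H →L[ℂ] H | T ξ ∈ W'} := by
      rintro _ ⟨a, rfl⟩
      exact hW' a ξ hξ
    exact closure_minimal hsub hcl hT
  refine hN W (restr ρ W hWr) ⟨?_, ?_⟩
  · by_contra hcon
    push Not at hcon
    obtain ⟨T, hT, ξ, hξ, hTξ⟩ := hne
    apply hTξ
    have hz : ∀ a, ρ a ξ = 0 := by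
      intro a
      have := congrArg (fun S : W →L[ℂ] W => (S ⟨ξ, hξ⟩ : H)) (hcon a)
      simpa [restr_apply] using this
    have hcl : IsClosed {T : H →L[ℂ] H | T ξ = 0} :=
      isClosed_singleton.preimage (by fun_prop : Continuous fun T : H →L[ℂ] H => T ξ)
    have hsub : ((NonUnitalStarAlgHom.range ρ) : Set (H →L[ℂ] H)) ⊆
        {T : H →L[ℂ] H | T ξ = 0} := by
      rintro _ ⟨a, rfl⟩
      exact hz a
    exact closure_minimal hsub hcl hT
  · intro W' hW'c hW'
    have h1 : (W'.map W.subtype) ≤ W := Submodule.map_subtype_le W W'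
    have h2 : IsClosed ((W'.map W.subtype : Submodule ℂ H) : Set H) := by
      rw [Submodule.map_coe]
      exact (hWc.isClosedEmbedding_subtypeVal).isClosedMap _ hW'c
    have h3 : ∀ T ∈ (NonUnitalStarAlgHom.range ρ).topologicalClosure,
        ∀ ξ ∈ (W'.map W.subtype), T ξ ∈ (W'.map W.subtype) := by
      apply hclos _ h2
      rintro a _ ⟨ξ, hξ, rfl⟩
      exact ⟨restr ρ W hWr a ξ, hW' a ξ hξ, rfl⟩
    rcases hirr _ h1 h2 h3 with h4 | h4
    · left
      rw [eq_bot_iff]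
      intro ξ hξ
      have h5 : (ξ : H) ∈ W'.map W.subtype := ⟨ξ, hξ, rfl⟩
      rw [h4, Submodule.mem_bot] at h5
      exact (Submodule.mem_bot ℂ).2 (Subtype.ext h5)
    · right
      rw [eq_top_iff]
      intro ξ _
      have : (ξ : H) ∈ W'.map W.subtype := by rw [h4]; exact ξ.2
      obtain ⟨ζ, hζ, h5⟩ := this
      have : ζ = ξ := Subtype.ext h5
      rw [← this]; exact hζ

/-- PIECE 7a. -/
theorem exists_seq_of_isASH (A : NonUnitalStarSubalgebra ℂ (H →L[ℂ] H))
    [hA : IsClosed (A : Set (H →L[ℂ] H))] (h : IsASH A) :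
    ∃ B : ℕ → NonUnitalStarSubalgebra ℂ (H →L[ℂ] H),
      (∀ n, IsClosed (B n : Set (H →L[ℂ] H))) ∧ Monotone B ∧ (∀ n, ∃ N, SubhomOn (B n) N) ∧
      AA B = (A : Set (H →L[ℂ] H)) := by
  obtain ⟨An, inst, φ, ψ, hsub, hlim⟩ := h
  let ι : A →⋆ₙₐ[ℂ] (H →L[ℂ] H) := NonUnitalStarSubalgebraClass.subtype A
  let ρ : ∀ n, An n →⋆ₙₐ[ℂ] (H →L[ℂ] H) := fun n => ι.comp (ψ n)
  refine ⟨fun n => (NonUnitalStarAlgHom.range (ρ n)).topologicalClosure, fun n =>
    NonUnitalStarSubalgebra.isClosed_topologicalClosure _, ?_, fun n => subhomOn_of_rep (hsub n) _,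
    ?_⟩
  · apply monotone_nat_of_le_succ
    intro n
    apply NonUnitalStarSubalgebra.topologicalClosure_mono
    rintro _ ⟨a, rfl⟩
    refine ⟨φ n a, ?_⟩
    show ι (ψ (n + 1) (φ n a)) = ι (ψ n a)
    rw [hlim.compat]
  · apply Set.Subset.antisymm
    · apply closure_minimal _ hA
      intro T hT
      simp only [Set.mem_iUnion] at hT
      obtain ⟨n, hT⟩ := hT
      have : (NonUnitalStarAlgHom.range (ρ n)).topologicalClosure ≤ A := by
        apply NonUnitalStarSubalgebra.topologicalClosure_minimal _ _ hA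
        rintro _ ⟨a, rfl⟩
        exact (ψ n a).2
      exact this hT
    · intro a ha
      have h1 : (⟨a, ha⟩ : A) ∈ closure (⋃ n, Set.range (ψ n)) := hlim.dense ⟨a, ha⟩
      have h2 : a ∈ closure ((Subtype.val : A → (H →L[ℂ] H)) '' (⋃ n, Set.range (ψ n))) :=
        image_closure_subset_closure_image continuous_subtype_val ⟨_, h1, rfl⟩
      refine closure_mono ?_ h2
      rintro _ ⟨x, hx, rfl⟩
      simp only [Set.mem_iUnion] at hx ⊢
      obtain ⟨n, y, rfl⟩ := hx
      exact ⟨n, NonUnitalStarSubalgebra.le_topologicalClosure _ ⟨y, rfl⟩⟩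

/-- PIECE 7b. -/
theorem isASH_of_seq (A : NonUnitalStarSubalgebra ℂ (H →L[ℂ] H))
    [hA : IsClosed (A : Set (H →L[ℂ] H))] (B : ℕ → NonUnitalStarSubalgebra ℂ (H →L[ℂ] H))
    [hB : ∀ n, IsClosed (B n : Set (H →L[ℂ] H))] (hmono : Monotone B)
    (hsub : ∀ n, Subhomogeneous (B n)) (hAB : AA B = (A : Set (H →L[ℂ] H))) : IsASH A := by
  have hle : ∀ n, B n ≤ A := by
    intro n T hT
    have : T ∈ AA B := subset_closure (Set.mem_iUnion.2 ⟨n, hT⟩)
    rw [hAB] at this
    exact this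
  refine ⟨fun n => B n, fun n => inferInstance,
    fun n => NonUnitalStarSubalgebra.inclusion (hmono (Nat.le_succ n)),
    fun n => NonUnitalStarSubalgebra.inclusion (hle n), hsub, ?_, ?_, ?_⟩
  · intro n a; rfl
  · intro a
    have ha : (a : H →L[ℂ] H) ∈ AA B := by rw [hAB]; exact a.2
    rw [mem_closure_iff_nhds_basis (Metric.nhds_basis_ball)]
    intro ε hε
    obtain ⟨c, hc, hd⟩ := Metric.mem_closure_iff.1 ha ε hε
    obtain ⟨n, hn⟩ := Set.mem_iUnion.1 hc
    refine ⟨⟨c, hle n hn⟩, Set.mem_iUnion.2 ⟨n, ⟨c, hn⟩, rfl⟩, ?_⟩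
    rw [Metric.mem_ball, dist_comm]
    exact hd
  · intro n a
    have h1 : ∀ m, ((iter (A := fun n => B n)
        (fun n => NonUnitalStarSubalgebra.inclusion (hmono (Nat.le_succ n))) n m a :
          B (n + m)) : H →L[ℂ] H) = a := by
      intro m
      induction m with
      | zero => rfl
      | succ m ih => exact ih
    have h2 : ∀ m, ‖iter (A := fun n => B n)
        (fun n => NonUnitalStarSubalgebra.inclusion (hmono (Nat.le_succ n))) n m a‖ =
          ‖(a : H →L[ℂ] H)‖ := by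
      intro m
      rw [← h1 m]; rfl
    simp only [h2]
    exact tendsto_const_nhds

end Run7.h836
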