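import Mathlib
import Pool.Agent.Run7.h836.Ash5
import Pool.Agent.Run7.h836.P1
import Pool.Agent.Run7.h836.P7

set_option autoImplicit false

/-!
A nonnegative integer solution makes the algebra ASH.
-/

open scoped Topology InnerProductSpace
open Filter

namespace Run7.h836

universe u v

variable {V : Type} {G : GD V} {γ : V → ℕ} {M : Mat G γ} (R : RB G γ) (D : Dat) {H : Type u}
  [NormedAddCommGroup H] [InnerProductSpace ℂ H] [CompleteSpace H] (b : HilbertBasis (Om V) ℂ H)

/-- generators of the stage `j` algebra -/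
def GSet (M : Mat G γ) (j : ℕ) : Set (H →L[ℂ] H) :=
  {T | (∃ ω ω', InF R j ω ∧ InF R j ω' ∧ T = mu b ω' ω) ∨
    (∃ x s, G.lev x ≤ j ∧ T = gen G b (.E x s)) ∨
    (∃ x, G.lev x ≤ j ∧ (T = f1 M D b x ∨ T = t1 M D b x ∨ T = t2 M D b x)) ∨
    (∃ x i, G.lev x < j ∧ T = gen G b (.S x i)) ∨ ∃ x, G.lev x < j ∧ T = gen G b (.W x)}

/-- the stage `j` algebra -/
noncomputable def BB (M : Mat G γ) (j : ℕ) : NonUnitalStarSubalgebra ℂ (H →L[ℂ] H) :=
  (NonUnitalStarAlgebra.adjoin ℂ (GSet R D b M j)).topologicalClosure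

theorem GSet_mono {i j : ℕ} (hij : i ≤ j) : GSet R D b M i ⊆ GSet R D b M j := by
  rintro T (⟨ω, ω', h1, h2, h3⟩ | ⟨x, s, h1, h2⟩ | ⟨x, h1, h2⟩ | ⟨x, i', h1, h2⟩ | ⟨x, h1, h2⟩)
  · exact Or.inl ⟨ω, ω', h1.mono hij, h2.mono hij, h3⟩
  · exact Or.inr (Or.inl ⟨x, s, h1.trans hij, h2⟩)
  · exact Or.inr (Or.inr (Or.inl ⟨x, h1.trans hij, h2⟩))
  · exact Or.inr (Or.inr (Or.inr (Or.inl ⟨x, i', h1.trans_le hij, h2⟩)))
  · exact Or.inr (Or.inr (Or.inr (Or.inr ⟨x, h1.trans_le hij, h2⟩)))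

theorem BB_mono : Monotone (BB R D b M) := by
  intro i j hij
  exact NonUnitalStarSubalgebra.topologicalClosure_mono
    (NonUnitalStarAlgebra.adjoin_mono (GSet_mono R D b hij))

instance BB_closed (j : ℕ) : IsClosed (BB R D b M j : Set (H →L[ℂ] H)) :=
  NonUnitalStarSubalgebra.isClosed_topologicalClosure _

theorem gset_mem {j : ℕ} {T : H →L[ℂ] H} (h : T ∈ GSet R D b M j) : T ∈ BB R D b M j :=
  NonUnitalStarSubalgebra.le_topologicalClosure _ (NonUnitalStarAlgebra.subset_adjoin ℂ _ h)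

theorem GSet_inv (hG : G.Good) {j : ℕ} {T : H →L[ℂ] H} (hT : T ∈ GSet R D b M j) (κ : Cl M)
    (v : H) (hv : v ∈ Mk R D b j κ) : T v ∈ Mk R D b j κ := by
  refine inv_of_gs R D b ?_ κ v hv
  intro κ v hv
  rcases hT with ⟨ω, ω', h1, h2, rfl⟩ | ⟨x, s, h1, rfl⟩ | ⟨x, h1, rfl | rfl | rfl⟩ |
    ⟨x, i', h1, rfl⟩ | ⟨x, h1, rfl⟩
  · exact mu_inv R D b hG h1 h2 κ v hv
  · exact E_inv R D b hG x s κ v hv
  · exact f1_inv R D b hG h1 κ v hv
  · exact t1_inv R D b hG h1 κ v hv
  · exact t2_inv R D b hG h1 κ v hv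
  · exact S_inv R D b hG i' h1 κ v hv
  · exact W_inv R D b hG h1 κ v hv

theorem BB_sub (hG : G.Good) (j : ℕ) : Subhomogeneous (BB R D b M j) := by
  obtain ⟨m, hm⟩ := rank_Mk (M := M) R D b hG j
  have hfd : ∀ κ : Cl M, FiniteDimensional ℂ (Mk R D b j κ) := by
    intro κ
    obtain ⟨m', h'⟩ := gs_finite (M := M) R D b hG j
    exact FiniteDimensional.span_of_finite ℂ (h' κ).1
  refine subhomogeneous_of_invariant (BB R D b M j) (Mk (M := M) R D b j) m hm ?_
    (Mk_dense R D b hG j)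
  exact inv_closure (Mk (M := M) R D b j) (fun κ κ' hne x hx y hy => Mk_orth R D b hG j hne hx hy)
    (Mk_dense R D b hG j) (fun T hT κ x hx => GSet_inv R D b hG hT κ x hx)

omit [CompleteSpace H] in
theorem muSpan_mono (S S' : Set (Om V)) (h : S ⊆ S') : muSpan b S ≤ muSpan b S' := by
  apply Submodule.span_mono
  rintro T ⟨ω, h1, ω', h2, h3⟩
  exact ⟨ω, h h1, ω', h h2, h3⟩

theorem BB_le (hG : G.Good) (j : ℕ) : BB R D b M j ≤ AG G b := by
  apply NonUnitalStarSubalgebra.topologicalClosure_minimal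
  · rw [NonUnitalStarAlgebra.adjoin_le_iff]
    rintro T (⟨ω, ω', h1, h2, rfl⟩ | ⟨x, s, h1, rfl⟩ | ⟨x, h1, rfl | rfl | rfl⟩ |
      ⟨x, i', h1, rfl⟩ | ⟨x, h1, rfl⟩)
    · have := gen_mem G b (.mu ω' ω)
      simp only [gen] at this
      rw [if_pos ⟨h2.1, h1.1⟩] at this
      exact this
    · exact gen_mem G b _
    · exact add_mem (gen_mem G b _) (add_mem (muSpan_subset G b (Df_mem M D b hG x false))
        (muSpan_subset G b (Df_mem M D b hG x true)))
    · exact add_mem (gen_mem G b _) (muSpan_subset G b (D1_mem M D b hG x))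
    · exact add_mem (gen_mem G b _) (muSpan_subset G b (D2_mem M D b hG x))
    · exact gen_mem G b _
    · exact gen_mem G b _
  · exact (inferInstance : IsClosed (AG G b : Set (H →L[ℂ] H)))

/-- The closure of an increasing union of *-subalgebras, as a *-subalgebra. -/
def unionAlg (B : ℕ → NonUnitalStarSubalgebra ℂ (H →L[ℂ] H)) (hmono : Monotone B) :
    NonUnitalStarSubalgebra ℂ (H →L[ℂ] H) where
  carrier := ⋃ n, (B n : Set (H →L[ℂ] H))
  add_mem' := by
    intro a c ha hc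
    simp only [Set.mem_iUnion, SetLike.mem_coe] at ha hc ⊢
    obtain ⟨n, ha⟩ := ha
    obtain ⟨m, hc⟩ := hc
    exact ⟨max n m, add_mem (hmono (le_max_left n m) ha) (hmono (le_max_right n m) hc)⟩
  zero_mem' := by
    simp only [Set.mem_iUnion, SetLike.mem_coe]
    exact ⟨0, zero_mem _⟩
  mul_mem' := by
    intro a c ha hc
    simp only [Set.mem_iUnion, SetLike.mem_coe] at ha hc ⊢
    obtain ⟨n, ha⟩ := ha
    obtain ⟨m, hc⟩ := hc
    exact ⟨max n m, mul_mem (hmono (le_max_left n m) ha) (hmono (le_max_right n m) hc)⟩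
  smul_mem' := by
    intro r a ha
    simp only [Set.mem_iUnion, SetLike.mem_coe] at ha ⊢
    obtain ⟨n, ha⟩ := ha
    exact ⟨n, SMulMemClass.smul_mem r ha⟩
  star_mem' := by
    intro a ha
    simp only [Set.mem_iUnion] at ha ⊢
    obtain ⟨n, ha⟩ := ha
    exact ⟨n, star_mem (S := NonUnitalStarSubalgebra ℂ (H →L[ℂ] H)) ha⟩

theorem AA_eq (B : ℕ → NonUnitalStarSubalgebra ℂ (H →L[ℂ] H)) (hmono : Monotone B) :
    AA B = ((unionAlg B hmono).topologicalClosure : Set (H →L[ℂ] H)) := rfl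

theorem AA_BB (hG : G.Good) : AA (BB R D b M) = (AG G b : Set (H →L[ℂ] H)) := by
  apply Set.Subset.antisymm
  · apply closure_minimal _ (inferInstance : IsClosed (AG G b : Set (H →L[ℂ] H)))
    intro T hT
    simp only [Set.mem_iUnion] at hT
    obtain ⟨j, hT⟩ := hT
    exact BB_le R D b hG j hT
  · rw [AA_eq _ (BB_mono R D b)]
    have hU : ∀ j, BB R D b M j ≤ (unionAlg (BB R D b M) (BB_mono R D b)).topologicalClosure := by
      intro j T hT
      apply NonUnitalStarSubalgebra.le_topologicalClosure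
      exact Set.mem_iUnion.2 ⟨j, hT⟩
    set U := (unionAlg (BB R D b M) (BB_mono R D b)).topologicalClosure with hUdef
    have hcl : IsClosed (U : Set (H →L[ℂ] H)) :=
      NonUnitalStarSubalgebra.isClosed_topologicalClosure _
    have hmuS : closure (muSpan b {ω | G.Valid ω} : Set (H →L[ℂ] H)) ⊆ (U : Set (H →L[ℂ] H)) := by
      apply closure_minimal _ hcl
      have : muSpan b {ω | G.Valid ω} ≤ U.toNonUnitalSubalgebra.toSubmodule := by
        rw [muSpan, Submodule.span_le]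
        rintro _ ⟨ω, hω, ω', hω', rfl⟩
        obtain ⟨j, hj⟩ := InF_exists R hω
        obtain ⟨j', hj'⟩ := InF_exists R hω'
        exact hU (max j j') (gset_mem R D b (Or.inl ⟨ω, ω', hj.mono (le_max_left _ _),
          hj'.mono (le_max_right _ _), rfl⟩))
      exact this
    have hmain : AG G b ≤ U := by
      refine NonUnitalStarSubalgebra.topologicalClosure_minimal _ ?_ hcl
      rw [NonUnitalStarAlgebra.adjoin_le_iff]
      rintro _ ⟨g, rfl⟩
      cases g with
      | mu ω' ω =>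
        simp only [gen]
        split_ifs with h
        · exact hmuS (subset_closure (Submodule.subset_span ⟨ω, h.2, ω', h.1, rfl⟩))
        · exact zero_mem _
      | E x s =>
        exact hU (G.lev x) (gset_mem R D b (Or.inr (Or.inl ⟨x, s, le_rfl, rfl⟩)))
      | F x =>
        have h1 : f1 M D b x ∈ U :=
          hU (G.lev x) (gset_mem R D b (Or.inr (Or.inr (Or.inl ⟨x, le_rfl, Or.inl rfl⟩))))
        have h2 : gen G b (.F x) = f1 M D b x - (Df M D b x false + Df M D b x true) := by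
          rw [f1]; abel
        rw [h2]
        exact sub_mem h1 (add_mem (hmuS (Df_mem M D b hG x false)) (hmuS (Df_mem M D b hG x true)))
      | T1 x =>
        have h1 : t1 M D b x ∈ U := hU (G.lev x)
          (gset_mem R D b (Or.inr (Or.inr (Or.inl ⟨x, le_rfl, Or.inr (Or.inl rfl)⟩))))
        have h2 : gen G b (.T1 x) = t1 M D b x - D1 M D b x := by
          rw [t1]; abel
        rw [h2]
        exact sub_mem h1 (hmuS (D1_mem M D b hG x))
      | T2 x =>
        have h1 : t2 M D b x ∈ U := hU (G.lev x)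
          (gset_mem R D b (Or.inr (Or.inr (Or.inl ⟨x, le_rfl, Or.inr (Or.inr rfl)⟩))))
        have h2 : gen G b (.T2 x) = t2 M D b x - D2 M D b x := by
          rw [t2]; abel
        rw [h2]
        exact sub_mem h1 (hmuS (D2_mem M D b hG x))
      | S x i =>
        exact hU (G.lev x + 1) (gset_mem R D b (Or.inr (Or.inr (Or.inr (Or.inl
          ⟨x, i, by omega, rfl⟩)))))
      | W x =>
        exact hU (G.lev x + 1) (gset_mem R D b (Or.inr (Or.inr (Or.inr (Or.inr
          ⟨x, by omega, rfl⟩)))))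
    exact hmain

/-- Main result of the second half. -/
theorem isASH_of_sol (hG : G.Good) {γ : V → ℕ}
    (hγ : ∀ x, γ x + (if G.bt x then 1 else 0) =
      ∑ i ∈ Finset.range (G.bd x), (G.ch x i).elim 0 γ) : IsASH (AG G b) := by
  obtain ⟨M⟩ := exists_mat hG hγ
  obtain ⟨R⟩ := exists_RB hG γ
  obtain ⟨D⟩ := exists_dat
  exact isASH_of_seq (AG G b) (BB R D b M) (BB_mono R D b) (BB_sub R D b hG) (AA_BB R D b hG)

end Run7.h836
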