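import Mathlib
import Pool.Agent.H731R3.NB

set_option autoImplicit false

/-!
Coding of trees by graded graphs.
-/

open scoped Topology
open Filter

namespace Run7.h836

open Pool.Agent.H731R3.Tame (Tr IF br br_length)

/-- vertices of the graph -/
inductive Vx : Type
  | y (t : List ℕ) (n : ℕ)
  | z (t : List ℕ) (n : ℕ)
  | v (k : ℕ)

instance : Countable Vx := by
  let f : Vx → (List ℕ × ℕ) ⊕ (List ℕ × ℕ) ⊕ ℕ := fun x =>
    match x with
    | .y t n => .inl (t, n)
    | .z t n => .inr (.inl (t, n))
    | .v k => .inr (.inr k)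
  have hf : Function.Injective f := by
    intro g g' h
    cases g <;> cases g' <;> simp_all [f]
  exact hf.countable

/-- weight -/
def wtl : List ℕ → ℕ
  | [] => 0
  | a :: t => wtl t + a + 1

def levV : Vx → ℕ
  | .y t n => wtl t + n
  | .z t n => wtl t + n
  | .v k => k

/-- all pairs of weight `k` -/
def lv : ℕ → List (List ℕ × ℕ)
  | 0 => [([], 0)]
  | k + 1 => (lv k).flatMap fun p => [(p.2 :: p.1, 0), (p.1, p.2 + 1)]

/-- validity of a node -/
def vd (τ : Tr) : List ℕ → Bool
  | [] => τ []
  | a :: t => τ (a :: t) && vd τ t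

def bdV : Vx → ℕ
  | .y _ _ => 2
  | .z _ n => n + 3
  | .v k => (lv (k + 1)).length + (k + 2)

def btV : Vx → Bool
  | .v _ => true
  | _ => false

/-- child given by a pair -/
def cy (τ : Tr) (p : List ℕ × ℕ) : Option Vx := if vd τ p.1 = true then some (.y p.1 p.2) else none

def chV (τ : Tr) : Vx → ℕ → Option Vx
  | .y t n, i => if i = 0 then cy τ (n :: t, 0) else if i = 1 then some (.y t (n + 1)) else none
  | .z t n, i => if i = 0 then some (.y t (n + 1)) else
      if i < n + 3 then some (.z t (n + 1)) else none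
  | .v k, i => if h : i < (lv (k + 1)).length then cy τ ((lv (k + 1))[i]) else
      if i < (lv (k + 1)).length + (k + 2) then some (.v (k + 1)) else none

theorem lv_lev (k : ℕ) : ∀ p ∈ lv k, wtl p.1 + p.2 = k := by
  induction k with
  | zero => intro p hp; simp only [lv, List.mem_singleton] at hp; subst hp; rfl
  | succ k ih =>
    intro p hp
    simp only [lv, List.mem_flatMap] at hp
    obtain ⟨q, hq, hp⟩ := hp
    have := ih q hq
    simp only [List.mem_cons, List.not_mem_nil, or_false] at hp
    rcases hp with rfl | rfl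
    · simp only [wtl]; omega
    · simp only; omega

theorem cy_lev {τ : Tr} {p : List ℕ × ℕ} {x : Vx} (h : cy τ p = some x) :
    levV x = wtl p.1 + p.2 := by
  unfold cy at h
  split_ifs at h
  cases h
  rfl

theorem chV_lev (τ : Tr) (x : Vx) (i : ℕ) (x' : Vx) (h : chV τ x i = some x') :
    levV x' = levV x + 1 := by
  rcases x with ⟨t, n⟩ | ⟨t, n⟩ | k
  · simp only [chV] at h
    split_ifs at h with h1 h2
    · rw [cy_lev h]; simp only [wtl, levV, add_zero]
    · cases h; simp only [levV]; omega
  · simp only [chV] at h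
    split_ifs at h with h1 h2
    · cases h; simp only [levV]; omega
    · cases h; simp only [levV]; omega
  · simp only [chV] at h
    split_ifs at h with h1 h2
    · rw [cy_lev h, lv_lev (k + 1) _ (List.getElem_mem h1)]; rfl
    · cases h; rfl

theorem chV_bd (τ : Tr) (x : Vx) (i : ℕ) (h : bdV x ≤ i) : chV τ x i = none := by
  rcases x with ⟨t, n⟩ | ⟨t, n⟩ | k
  · simp only [bdV] at h
    simp only [chV]
    rw [if_neg (by omega), if_neg (by omega)]
  · simp only [bdV] at h
    simp only [chV]
    rw [if_neg (by omega), if_neg (by omega)]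
  · simp only [bdV] at h
    simp only [chV]
    rw [dif_neg (by omega), if_neg (by omega)]

theorem mem_lv (t : List ℕ) (n : ℕ) : (t, n) ∈ lv (wtl t + n) := by
  induction t generalizing n with
  | nil =>
    induction n with
    | zero => simp [lv, wtl]
    | succ n ih =>
      rw [← add_assoc]
      simp only [lv, List.mem_flatMap]
      exact ⟨_, ih, by simp⟩
  | cons a t ih =>
    induction n with
    | zero =>
      simp only [wtl, add_zero, lv, List.mem_flatMap]
      exact ⟨_, ih a, by simp⟩
    | succ n ih2 =>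
      rw [← add_assoc]
      simp only [lv, List.mem_flatMap]
      exact ⟨_, ih2, by simp⟩

theorem fin_levV (k : ℕ) : {x | levV x = k}.Finite := by
  have h1 : (((fun p : List ℕ × ℕ => Vx.y p.1 p.2) '' {p | p ∈ lv k}) ∪
      ((fun p : List ℕ × ℕ => Vx.z p.1 p.2) '' {p | p ∈ lv k}) ∪ {Vx.v k}).Finite :=
    (((List.finite_toSet _).image _).union ((List.finite_toSet _).image _)).union
      (Set.finite_singleton _)
  refine h1.subset ?_
  rintro (⟨t, n⟩ | ⟨t, n⟩ | j) hx
  · left; left
    exact ⟨(t, n), by rw [← (show wtl t + n = k from hx)]; exact mem_lv t n, rfl⟩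
  · left; right
    exact ⟨(t, n), by rw [← (show wtl t + n = k from hx)]; exact mem_lv t n, rfl⟩
  · right
    rw [← (show j = k from hx)]; rfl

theorem vd_locconst (t : List ℕ) : IsLocallyConstant (fun τ : Tr => vd τ t) := by
  have hap : ∀ s, IsLocallyConstant (fun τ : Tr => τ s) := fun s =>
    (IsLocallyConstant.iff_continuous _).2 (continuous_apply s)
  induction t with
  | nil => exact hap []
  | cons a t ih => exact (hap (a :: t)).comp₂ ih (fun a c => a && c)

theorem cy_locconst (p : List ℕ × ℕ) : IsLocallyConstant (fun τ : Tr => cy τ p) :=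
  (vd_locconst p.1).comp (fun c => if c = true then some (Vx.y p.1 p.2) else none)

theorem chV_locconst (x : Vx) (i : ℕ) : IsLocallyConstant (fun τ : Tr => chV τ x i) := by
  rcases x with ⟨t, n⟩ | ⟨t, n⟩ | k
  · simp only [chV]
    split_ifs
    · exact cy_locconst _
    · exact IsLocallyConstant.const _
    · exact IsLocallyConstant.const _
  · simp only [chV]
    split_ifs
    · exact IsLocallyConstant.const _
    · exact IsLocallyConstant.const _
    · exact IsLocallyConstant.const _
  · simp only [chV]
    split_ifs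
    · exact cy_locconst _
    · exact IsLocallyConstant.const _
    · exact IsLocallyConstant.const _

section sums
variable {R : Type} [AddCommMonoid R]

theorem sum_dite {α : Type} (l : List α) (F : α → R) (G : ℕ → R) :
    ∑ i ∈ Finset.range l.length, (if h : i < l.length then F l[i] else G i) = (l.map F).sum := by
  induction l generalizing G with
  | nil => simp
  | cons a l ih =>
    show ∑ i ∈ Finset.range (l.length + 1),
      (if h : i < (a :: l).length then F (a :: l)[i] else G i) = _
    rw [Finset.sum_range_succ', List.map_cons, List.sum_cons, add_comm]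
    congr 1
    rw [← ih (fun i => G (i + 1))]
    refine Finset.sum_congr rfl fun i _ => ?_
    by_cases h : i < l.length
    · rw [dif_pos h, dif_pos (by simpa using h)]; rfl
    · rw [dif_neg h, dif_neg (by simpa using h)]

theorem sum_flat (L : List (List ℕ × ℕ)) (g : List ℕ × ℕ → R) :
    ((L.flatMap fun p => [(p.2 :: p.1, 0), (p.1, p.2 + 1)]).map g).sum =
      (L.map fun p => g (p.2 :: p.1, 0) + g (p.1, p.2 + 1)).sum := by
  induction L with
  | nil => rfl
  | cons a L ih =>
    rw [List.flatMap_cons, List.map_append, List.sum_append, List.map_cons, List.sum_cons, ih]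
    simp

/-- level sums -/
def SS (τ : Tr) (γ : Vx → R) (k : ℕ) : R := ((lv k).map fun p => (cy τ p).elim 0 γ).sum

theorem SS_succ (τ : Tr) (γ : Vx → R)
    (hy : ∀ t n, γ (.y t n) = (cy τ (n :: t, 0)).elim 0 γ + γ (.y t (n + 1))) (k : ℕ) :
    SS τ γ (k + 1) = SS τ γ k := by
  unfold SS
  rw [lv, sum_flat]
  congr 1
  apply List.map_congr_left
  rintro ⟨t, n⟩ _
  by_cases h : vd τ t = true
  · have h1 : cy τ (t, n) = some (.y t n) := by simp [cy, h]
    have h2 : cy τ (t, n + 1) = some (.y t (n + 1)) := by simp [cy, h]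
    simp only [h1, h2, Option.elim_some]
    exact (hy t n).symm
  · have h1 : cy τ (t, n) = none := by simp [cy, h]
    have h2 : cy τ (t, n + 1) = none := by simp [cy, h]
    have h3 : cy τ (n :: t, 0) = none := by simp [cy, vd, h]
    simp [h1, h2, h3]

theorem eq_y (τ : Tr) (γ : Vx → R) (t : List ℕ) (n : ℕ) :
    ∑ i ∈ Finset.range (bdV (.y t n)), (chV τ (.y t n) i).elim 0 γ =
      (cy τ (n :: t, 0)).elim 0 γ + γ (.y t (n + 1)) := by
  simp only [bdV]
  rw [Finset.sum_range_succ, Finset.sum_range_one]
  simp [chV]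

theorem eq_z (τ : Tr) (γ : Vx → R) (t : List ℕ) (n : ℕ) :
    ∑ i ∈ Finset.range (bdV (.z t n)), (chV τ (.z t n) i).elim 0 γ =
      γ (.y t (n + 1)) + (n + 2) • γ (.z t (n + 1)) := by
  simp only [bdV]
  rw [Finset.sum_range_succ', add_comm]
  congr 1
  have h1 : ∀ i ∈ Finset.range (n + 2), (chV τ (.z t n) (i + 1)).elim 0 γ =
      γ (.z t (n + 1)) := by
    intro i hi
    rw [Finset.mem_range] at hi
    simp only [chV]
    rw [if_neg (by omega), if_pos (by omega)]
    rfl
  rw [Finset.sum_congr rfl h1, Finset.sum_const, Finset.card_range]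

theorem eq_v (τ : Tr) (γ : Vx → R) (k : ℕ) :
    ∑ i ∈ Finset.range (bdV (.v k)), (chV τ (.v k) i).elim 0 γ =
      SS τ γ (k + 1) + (k + 2) • γ (.v (k + 1)) := by
  simp only [bdV]
  rw [Finset.sum_range_add]
  congr 1
  · unfold SS
    rw [← sum_dite (lv (k + 1)) (fun p => (cy τ p).elim 0 γ) (fun _ => 0)]
    refine Finset.sum_congr rfl fun i hi => ?_
    rw [Finset.mem_range] at hi
    simp only [chV]
    rw [dif_pos hi, dif_pos hi]
  · have h1 : ∀ i ∈ Finset.range (k + 2), (chV τ (.v k) ((lv (k + 1)).length + i)).elim 0 γ =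
        γ (.v (k + 1)) := by
      intro i hi
      rw [Finset.mem_range] at hi
      simp only [chV]
      rw [dif_neg (by omega), if_pos (by omega)]
      rfl
    rw [Finset.sum_congr rfl h1, Finset.sum_const, Finset.card_range]

end sums

/-- divisibility descent -/
theorem descend (a : ℕ → ℤ) (c : ℤ) (h : ∀ k, a k = c + (k + 2 : ℕ) • a (k + 1)) : c = 0 := by
  set Mx := |a 0| + |c| with hMx
  have hc : |c| ≤ Mx := by have := abs_nonneg (a 0); omega
  have h0 : 0 ≤ |c| := abs_nonneg c
  have hstep : ∀ k : ℕ, ((k : ℤ) + 2) * |a (k + 1)| ≤ |a k| + |c| := by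
    intro k
    have h1 : ((k : ℤ) + 2) * a (k + 1) = a k - c := by
      rw [h k]; push_cast [nsmul_eq_mul]; ring
    have h2 : |((k : ℤ) + 2) * a (k + 1)| = ((k : ℤ) + 2) * |a (k + 1)| := by
      rw [abs_mul, abs_of_nonneg (by positivity : (0 : ℤ) ≤ (k : ℤ) + 2)]
    rw [← h2, h1]
    exact abs_sub _ _
  have hb : ∀ k, |a k| ≤ Mx := by
    intro k
    induction k with
    | zero => omega
    | succ k ih =>
      have h1 := hstep k
      have h2 : 0 ≤ |a (k + 1)| := abs_nonneg _
      nlinarith
  have hz : ∀ k : ℕ, 2 * Mx ≤ k → a (k + 1) = 0 := by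
    intro k hk
    by_contra hne
    have h1 : 1 ≤ |a (k + 1)| := Int.one_le_abs hne
    have h2 := hstep k
    have h3 := hb k
    nlinarith
  have hMx0 : 0 ≤ Mx := le_trans h0 hc
  obtain ⟨K, hK⟩ : ∃ K : ℕ, 2 * Mx ≤ K := ⟨(2 * Mx).toNat, by omega⟩
  have e1 := hz K hK
  have e2 := hz (K + 1) (by push_cast; omega)
  have := h (K + 1)
  rw [e1, e2] at this
  simpa using this.symm

theorem vd_br {τ : Tr} {z : ℕ → ℕ} (hz : ∀ n, τ (br z n) = true) (k : ℕ) :
    vd τ (br z k) = true := by
  induction k with
  | zero => exact hz 0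
  | succ k ih =>
    have := hz (k + 1)
    simp only [br] at this ⊢
    simp [vd, this, ih]

theorem vd_self {τ : Tr} {t : List ℕ} (h : vd τ t = true) : τ t = true := by
  cases t with
  | nil => exact h
  | cons a t => simp only [vd, Bool.and_eq_true] at h; exact h.1

theorem IF_of_sol (τ : Tr) (γ : Vx → ℤ) (hγ : ∀ x, γ x + (if btV x then 1 else 0) =
      ∑ i ∈ Finset.range (bdV x), (chV τ x i).elim 0 γ) : τ ∈ IF := by
  have hy : ∀ t n, γ (.y t n) = (cy τ (n :: t, 0)).elim 0 γ + γ (.y t (n + 1)) := by
    intro t n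
    have := hγ (.y t n)
    rw [eq_y] at this
    simpa [btV] using this
  have hz : ∀ t n, γ (.z t n) = γ (.y t (n + 1)) + (n + 2) • γ (.z t (n + 1)) := by
    intro t n
    have := hγ (.z t n)
    rw [eq_z] at this
    simpa [btV] using this
  have hv : ∀ k, γ (.v k) + 1 = SS τ γ (k + 1) + (k + 2) • γ (.v (k + 1)) := by
    intro k
    have := hγ (.v k)
    rw [eq_v] at this
    simpa [btV] using this
  have hS : ∀ k, SS τ γ k = SS τ γ 0 := by
    intro k
    induction k with
    | zero => rfl
    | succ k ih => rw [SS_succ τ γ hy, ih]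
  have hS1 : SS τ γ 0 = 1 := by
    have h1 : SS τ γ 0 - 1 = 0 := by
      apply descend (fun k => γ (.v k))
      intro k
      have := hv k
      rw [hS] at this
      linarith
    linarith
  have hS0 : SS τ γ 0 = (cy τ ([], 0)).elim 0 γ := by simp [SS, lv]
  have hroot : vd τ [] = true ∧ γ (.y [] 0) ≠ 0 := by
    rw [hS0] at hS1
    unfold cy at hS1
    split_ifs at hS1 with h
    · refine ⟨h, ?_⟩
      simp only [Option.elim_some] at hS1
      rw [hS1]; exact one_ne_zero
    · simp at hS1
  have hnext : ∀ t, vd τ t = true ∧ γ (.y t 0) ≠ 0 →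
      ∃ n, vd τ (n :: t) = true ∧ γ (.y (n :: t) 0) ≠ 0 := by
    rintro t ⟨ht, hne⟩
    by_contra hcon
    push Not at hcon
    have h1 : ∀ n, (cy τ (n :: t, 0)).elim 0 γ = 0 := by
      intro n
      unfold cy
      split_ifs with h
      · exact hcon n h
      · rfl
    have h2 : ∀ n, γ (.y t n) = γ (.y t 0) := by
      intro n
      induction n with
      | zero => rfl
      | succ n ih =>
        have := hy t n
        rw [h1, zero_add] at this
        rw [← this, ih]
    apply hne
    apply descend (fun n => γ (.z t n))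
    intro n
    have := hz t n
    rw [h2] at this
    exact this
  choose! nx hnx using hnext
  let T : ℕ → {t : List ℕ // vd τ t = true ∧ γ (.y t 0) ≠ 0} := fun k =>
    Nat.rec ⟨[], hroot⟩ (fun _ p => ⟨nx p.1 :: p.1, hnx p.1 p.2⟩) k
  have hT : ∀ k, (T (k + 1)).1 = nx (T k).1 :: (T k).1 := fun k => rfl
  refine ⟨fun k => nx (T k).1, fun n => ?_⟩
  have hbr : ∀ k, br (fun k => nx (T k).1) k = (T k).1 := by
    intro k
    induction k with
    | zero => rfl
    | succ k ih => rw [hT, br, ih]
  rw [hbr]
  exact vd_self (T n).2.1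

/-- solution on the `z` vertices -/
def ww : ℕ → ℕ → ℕ
  | 0, _ => 0
  | f + 1, n => 1 + (n + 2) * ww f (n + 1)

open Classical in
/-- the solution given by a branch -/
noncomputable def gsol (z0 : ℕ → ℕ) : Vx → ℕ
  | .y t n => if t = br z0 t.length ∧ n ≤ z0 t.length then 1 else 0
  | .z t n => if t = br z0 t.length then ww (z0 t.length - n) n else 0
  | .v _ => 0

theorem sol_of_IF (τ : Tr) (hτ : τ ∈ IF) : ∃ γ : Vx → ℕ, ∀ x, γ x + (if btV x then 1 else 0) =
      ∑ i ∈ Finset.range (bdV x), (chV τ x i).elim 0 γ := by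
  obtain ⟨z0, hz0⟩ := hτ
  refine ⟨gsol z0, ?_⟩
  have hon : ∀ t n, (n :: t = br z0 (n :: t).length) ↔ (t = br z0 t.length ∧ n = z0 t.length) := by
    intro t n
    simp only [List.length_cons, br, List.cons.injEq]
    tauto
  have hy : ∀ t n, gsol z0 (.y t n) = (cy τ (n :: t, 0)).elim 0 (gsol z0) +
      gsol z0 (.y t (n + 1)) := by
    intro t n
    by_cases ht : t = br z0 t.length
    · have hvd : n = z0 t.length → vd τ (n :: t) = true := by
        intro hn
        have h1 := (hon t n).2 ⟨ht, hn⟩
        rw [h1]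
        exact vd_br hz0 _
      rcases lt_trichotomy n (z0 t.length) with h | h | h
      · have h1 : (cy τ (n :: t, 0)).elim 0 (gsol z0) = 0 := by
          unfold cy
          split_ifs
          · simp only [Option.elim_some, gsol]
            rw [if_neg]
            rintro ⟨h2, -⟩
            have := ((hon t n).1 h2).2
            omega
          · rfl
        rw [h1]
        simp only [gsol]
        rw [if_pos ⟨ht, h.le⟩, if_pos ⟨ht, h⟩]
      · have h1 : (cy τ (n :: t, 0)).elim 0 (gsol z0) = 1 := by
          unfold cy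
          rw [if_pos (hvd h)]
          simp only [Option.elim_some, gsol]
          rw [if_pos ⟨(hon t n).2 ⟨ht, h⟩, Nat.zero_le _⟩]
        rw [h1]
        simp only [gsol]
        rw [if_pos ⟨ht, h.le⟩, if_neg (by omega)]
      · have h1 : (cy τ (n :: t, 0)).elim 0 (gsol z0) = 0 := by
          unfold cy
          split_ifs
          · simp only [Option.elim_some, gsol]
            rw [if_neg]
            rintro ⟨h2, -⟩
            have := ((hon t n).1 h2).2
            omega
          · rfl
        rw [h1]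
        simp only [gsol]
        rw [if_neg (by omega), if_neg (by omega)]
    · have h1 : (cy τ (n :: t, 0)).elim 0 (gsol z0) = 0 := by
        unfold cy
        split_ifs
        · simp only [Option.elim_some, gsol]
          rw [if_neg]
          rintro ⟨h2, -⟩
          exact ht ((hon t n).1 h2).1
        · rfl
      rw [h1]
      simp only [gsol]
      rw [if_neg (fun h => ht h.1), if_neg (fun h => ht h.1)]
  rintro (⟨t, n⟩ | ⟨t, n⟩ | k)
  · rw [eq_y, ← hy]; simp [btV]
  · rw [eq_z]
    simp only [btV, gsol, Bool.false_eq_true, if_false, add_zero]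
    by_cases ht : t = br z0 t.length
    · rw [if_pos ht, if_pos ht]
      by_cases h : n < z0 t.length
      · rw [if_pos ⟨ht, h⟩]
        obtain ⟨f, hf⟩ : ∃ f, z0 t.length - n = f + 1 := ⟨z0 t.length - n - 1, by omega⟩
        have hf' : z0 t.length - (n + 1) = f := by omega
        rw [hf, hf', ww, smul_eq_mul]
      · rw [if_neg (by omega)]
        have hf : z0 t.length - n = 0 := by omega
        have hf' : z0 t.length - (n + 1) = 0 := by omega
        rw [hf, hf']
        simp [ww]
    · rw [if_neg ht, if_neg ht, if_neg (fun h => ht h.1)]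
      simp
  · rw [eq_v]
    have hS : ∀ k, SS τ (gsol z0) k = SS τ (gsol z0) 0 := by
      intro k
      induction k with
      | zero => rfl
      | succ k ih => rw [SS_succ τ _ hy, ih]
    have h0 : vd τ [] = true := hz0 0
    have hS0 : SS τ (gsol z0) 0 = 1 := by simp [SS, lv, cy, h0, gsol, br]
    rw [hS, hS0]
    simp [btV, gsol]

/-- PIECE 6 (coding of trees by graded graphs). -/
theorem exists_coding : ∃ (V : Type) (_ : Countable V) (lev bd : V → ℕ) (bt : V → Bool)
    (ch : Tr → V → ℕ → Option V),
    (∀ τ x i, bd x ≤ i → ch τ x i = none) ∧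
    (∀ τ x i x', ch τ x i = some x' → lev x' = lev x + 1) ∧
    (∀ k, {x | lev x = k}.Finite) ∧
    (∀ x i, IsLocallyConstant (fun τ : Tr => ch τ x i)) ∧
    (∀ τ : Tr, (∃ γ : V → ℤ, ∀ x, γ x + (if bt x then 1 else 0) =
      ∑ i ∈ Finset.range (bd x), (ch τ x i).elim 0 γ) → τ ∈ IF) ∧
    (∀ τ ∈ IF, ∃ γ : V → ℕ, ∀ x, γ x + (if bt x then 1 else 0) =
      ∑ i ∈ Finset.range (bd x), (ch τ x i).elim 0 γ) :=
  ⟨Vx, inferInstance, levV, bdV, btV, chV, chV_bd, chV_lev, fin_levV, chV_locconst,
    fun τ ⟨γ, hγ⟩ => IF_of_sol τ γ hγ, sol_of_IF⟩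

end Run7.h836
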