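import Mathlib
import Pool.Agent.Run7.h836.Ash6
import Pool.Agent.Run7.h836.P6

set_option autoImplicit false

/-!
The reduction from ill-founded trees and the main theorem.
-/

open scoped Topology InnerProductSpace
open Filter

namespace Run7.h836

universe u v

open Pool.Agent.H731R3.Tame (Tr IF br not_measurable_IF)

/-- Countable reindexing of a Hilbert basis. -/
theorem exists_basis (Ω : Type) [Countable Ω] [Infinite Ω] (H : Type u) [NormedAddCommGroup H]
    [InnerProductSpace ℂ H] [CompleteSpace H] [TopologicalSpace.SeparableSpace H]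
    (hinf : ¬ FiniteDimensional ℂ H) : Nonempty (HilbertBasis Ω ℂ H) := by
  classical
  obtain ⟨w, b, hb⟩ := exists_hilbertBasis ℂ H
  -- `w` is countable
  have hcount : Countable w := by
    have hd : Pairwise (Function.onFun Disjoint fun i : w => Metric.ball (b i) (1 / 2)) := by
      intro i j hij
      apply Metric.ball_disjoint_ball
      have h1 : ‖b i - b j‖ ^ 2 = 2 := by
        rw [@norm_sub_sq ℂ, b.orthonormal.1 i, b.orthonormal.1 j, b.orthonormal.2 hij]
        simp; norm_num
      rw [dist_eq_norm]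
      by_contra hcon
      push Not at hcon
      have : ‖b i - b j‖ ^ 2 < 1 := by
        have h0 := norm_nonneg (b i - b j)
        nlinarith
      linarith
    exact hd.countable_of_isOpen_disjoint (fun i => Metric.isOpen_ball)
      (fun i => ⟨b i, Metric.mem_ball_self (by norm_num)⟩)
  have hinfw : Infinite w := by
    by_contra hfin
    rw [not_infinite_iff_finite] at hfin
    have := Fintype.ofFinite w
    apply hinf
    exact (b.toOrthonormalBasis.toBasis).finiteDimensional_of_finite
  obtain ⟨φ⟩ : Nonempty (Ω ≃ w) := by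
    have h1 := (nonempty_denumerable Ω).some
    have h2 := (nonempty_denumerable w).some
    exact ⟨Denumerable.equiv₂ Ω w⟩
  refine ⟨HilbertBasis.mk (v := fun ω => b (φ ω)) (b.orthonormal.comp _ φ.injective) ?_⟩
  have : Set.range (fun ω => b (φ ω)) = Set.range b := by
    ext x; constructor
    · rintro ⟨ω, rfl⟩; exact ⟨φ ω, rfl⟩
    · rintro ⟨i, rfl⟩; exact ⟨φ.symm i, by simp⟩
  rw [this, b.dense_span]

instance {V : Type} [Countable V] : Countable (Gen V) := by
  let f : Gen V → (Om V × Om V) ⊕ (V × Bool) ⊕ V ⊕ V ⊕ V ⊕ (V × ℕ) ⊕ V := fun g =>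
    match g with
    | .mu ω' ω => .inl (ω', ω)
    | .E x s => .inr (.inl (x, s))
    | .F x => .inr (.inr (.inl x))
    | .T1 x => .inr (.inr (.inr (.inl x)))
    | .T2 x => .inr (.inr (.inr (.inr (.inl x))))
    | .S x i => .inr (.inr (.inr (.inr (.inr (.inl (x, i))))))
    | .W x => .inr (.inr (.inr (.inr (.inr (.inr x)))))
  have hf : Function.Injective f := by
    intro g g' h
    cases g <;> cases g' <;> simp_all [f]
  exact hf.countable

section cont
variable {V : Type} {lev bd : V → ℕ} {bt : V → Bool} {ch : Tr → V → ℕ → Option V}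

/-- the graph of a code -/
def GT (lev bd : V → ℕ) (bt : V → Bool) (ch : Tr → V → ℕ → Option V) (τ : Tr) : GD V :=
  ⟨lev, bd, bt, ch τ⟩

theorem endp_locconst (hch : ∀ x i, IsLocallyConstant (fun τ : Tr => ch τ x i)) (x : V)
    (l : List ℕ) (τ : Tr) : ∀ᶠ τ' in 𝓝 τ,
      (GT lev bd bt ch τ').endp x l = (GT lev bd bt ch τ).endp x l := by
  induction l generalizing x with
  | nil => exact Eventually.of_forall fun _ => rfl
  | cons i l ih =>
    have h1 := (IsLocallyConstant.iff_eventually_eq _).1 (hch x i) τ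
    have h2 : ∀ᶠ τ' in 𝓝 τ, ∀ x', ch τ x i = some x' →
        (GT lev bd bt ch τ').endp x' l = (GT lev bd bt ch τ).endp x' l := by
      rcases h : ch τ x i with _ | x'
      · simp
      · filter_upwards [ih x'] with τ' h3 x'' hx''
        cases hx''
        exact h3
    filter_upwards [h1, h2] with τ' h3 h4
    rw [GD.endp_cons, GD.endp_cons]
    show (ch τ' x i).bind _ = (ch τ x i).bind _
    rw [h3]
    rcases h : ch τ x i with _ | x'
    · rfl
    · exact h4 x' h

theorem valid_congr {τ τ' : Tr} {ω : Om V}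
    (h : (GT lev bd bt ch τ').endp ω.1 ω.2.1 = (GT lev bd bt ch τ).endp ω.1 ω.2.1) :
    (GT lev bd bt ch τ').Valid ω ↔ (GT lev bd bt ch τ).Valid ω := by
  unfold GD.Valid
  rw [h]
  rfl

theorem fw_congr {τ τ' : Tr} {ω : Om V}
    (h : (GT lev bd bt ch τ').endp ω.1 ω.2.1 = (GT lev bd bt ch τ).endp ω.1 ω.2.1) :
    (GT lev bd bt ch τ').fw ω = (GT lev bd bt ch τ).fw ω := by
  unfold GD.fw GD.nn
  rw [h]
  rfl

variable {H : Type u} [NormedAddCommGroup H] [InnerProductSpace ℂ H]

theorem gen_locconst (hch : ∀ x i, IsLocallyConstant (fun τ : Tr => ch τ x i))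
    (b : HilbertBasis (Om V) ℂ H) (g : Gen V) (ω : Om V) (τ : Tr) : ∀ᶠ τ' in 𝓝 τ,
      gen (GT lev bd bt ch τ') b g (b ω) = gen (GT lev bd bt ch τ) b g (b ω) := by
  have hω := endp_locconst (lev := lev) (bd := bd) (bt := bt) hch ω.1 ω.2.1 τ
  cases g with
  | mu ω2 ω1 =>
    filter_upwards [endp_locconst (lev := lev) (bd := bd) (bt := bt) hch ω1.1 ω1.2.1 τ,
      endp_locconst (lev := lev) (bd := bd) (bt := bt) hch ω2.1 ω2.2.1 τ] with τ' h1 h2
    simp only [gen]
    rw [valid_congr h1, valid_congr h2]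
  | E x s =>
    filter_upwards [hω] with τ' h
    show dop b (cE _ x s) (b ω) = dop b (cE _ x s) (b ω)
    rw [dop_basis b (bE _ x s), dop_basis b (bE _ x s)]
    unfold cE
    rw [valid_congr h]
  | F x =>
    filter_upwards [hω] with τ' h
    show dop b (cF _ x) (b ω) = dop b (cF _ x) (b ω)
    rw [dop_basis b (bF _ x), dop_basis b (bF _ x)]
    unfold cF
    rw [valid_congr h, fw_congr h]
  | T1 x =>
    filter_upwards [hω] with τ' h
    show pop b _ (cF _ x) (b ω) = pop b _ (cF _ x) (b ω)
    rw [pop_basis b _ (bF _ x), pop_basis b _ (bF _ x)]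
    unfold cF
    rw [valid_congr h, fw_congr h]
  | T2 x =>
    filter_upwards [hω] with τ' h
    show pop b _ (cT2 _ x) (b ω) = pop b _ (cT2 _ x) (b ω)
    rw [pop_basis b _ (bT2 _ x), pop_basis b _ (bT2 _ x)]
    unfold cT2
    rw [valid_congr h, fw_congr h]
  | S x i =>
    filter_upwards [hω, (IsLocallyConstant.iff_eventually_eq _).1 (hch x i) τ] with τ' h h2
    show pop b (consE _ x i) (cS _) (b ω) = pop b (consE _ x i) (cS _) (b ω)
    rw [pop_basis b _ (bS _), pop_basis b _ (bS _)]
    have h3 : consE (GT lev bd bt ch τ') x i ω = consE (GT lev bd bt ch τ) x i ω := by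
      have h2' : (GT lev bd bt ch τ').ch x i = (GT lev bd bt ch τ).ch x i := h2
      simp only [consE, PEquiv.coe_mk]
      by_cases hc : (GT lev bd bt ch τ).ch x i = some ω.1
      · rw [if_pos hc, if_pos (h2'.trans hc)]
      · rw [if_neg hc, if_neg (fun h5 => hc (h2'.symm.trans h5))]
    rw [h3]
    unfold cS
    rw [valid_congr h]
  | W x =>
    filter_upwards [hω] with τ' h
    show pop b _ (cW _ x) (b ω) = pop b _ (cW _ x) (b ω)
    rw [pop_basis b _ (bW _ x), pop_basis b _ (bW _ x)]
    unfold cW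
    rw [valid_congr h]

end cont

section wot
variable {Ω : Type v} {H : Type u} [NormedAddCommGroup H] [InnerProductSpace ℂ H]
  {X : Type} [TopologicalSpace X]

/-- Weak continuity of a bounded family of operators can be checked on a basis. -/
theorem inner_continuous (b : HilbertBasis Ω ℂ H) (T : X → (H →L[ℂ] H)) (hT : ∀ t, ‖T t‖ ≤ 1)
    (h : ∀ ω, Continuous fun t => T t (b ω)) (x : H) : Continuous fun t => T t x := by
  have hcl : IsClosed {x : H | Continuous fun t => T t x} := by
    rw [← closure_subset_iff_isClosed]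
    intro x hx
    show Continuous fun t => T t x
    apply continuous_of_uniform_approx_of_continuous
    intro u hu
    obtain ⟨ε, hε, hu⟩ := Metric.mem_uniformity_dist.1 hu
    obtain ⟨y, hy, hxy⟩ := Metric.mem_closure_iff.1 hx ε hε
    refine ⟨fun t => T t y, hy, fun t => hu ?_⟩
    rw [dist_eq_norm, ← map_sub]
    calc ‖T t (x - y)‖ ≤ 1 * ‖x - y‖ := (T t).le_of_opNorm_le (hT t) _
      _ < ε := by rw [one_mul, ← dist_eq_norm]; exact hxy
  have hspan : (Submodule.span ℂ (Set.range b) : Set H) ⊆ {x : H | Continuous fun t => T t x} := by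
    intro x hx
    induction hx using Submodule.span_induction with
    | mem x hx => obtain ⟨ω, rfl⟩ := hx; exact h ω
    | zero => simp only [Set.mem_ofPred_eq, map_zero]; exact continuous_const
    | add x y _ _ hx hy =>
      simp only [Set.mem_ofPred_eq, map_add] at hx hy ⊢
      exact hx.add hy
    | smul r x _ hx =>
      simp only [Set.mem_ofPred_eq, map_smul] at hx ⊢
      exact hx.const_smul r
  have h2 : x ∈ closure (Submodule.span ℂ (Set.range b) : Set H) := by
    rw [← Submodule.topologicalClosure_coe, b.dense_span]; trivial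
  exact closure_minimal hspan hcl h2

end wot

theorem isASH_congr {H : Type u} [NormedAddCommGroup H] [InnerProductSpace ℂ H] [CompleteSpace H]
    (A B : NonUnitalStarSubalgebra ℂ (H →L[ℂ] H)) [IsClosed (A : Set (H →L[ℂ] H))]
    [IsClosed (B : Set (H →L[ℂ] H))] (h : A = B) : IsASH A ↔ IsASH B := by
  subst h; rfl

/-- The set of sequences generating an ASH algebra is not Borel. -/
theorem ash_not_borel (H : Type u) [NormedAddCommGroup H] [InnerProductSpace ℂ H]
    [CompleteSpace H] [TopologicalSpace.SeparableSpace H] (hinf : ¬ FiniteDimensional ℂ H) :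
    ¬ @MeasurableSet (ℕ → Ball1 H) (borel _) {γ | IsASH (cstar γ)} := by
  intro hmeas
  obtain ⟨V, hV, lev, bd, bt, ch, h1, h2, h3, h4, h5, h6⟩ := exists_coding
  have hgood : ∀ τ, (GT lev bd bt ch τ).Good := fun τ => ⟨h1 τ, h2 τ, h3⟩
  -- `V` is nonempty and the index set is infinite
  have hVne : Nonempty V := by
    by_contra hne
    rw [not_nonempty_iff] at hne
    obtain ⟨τ, hτ⟩ : ∃ τ : Tr, τ ∉ IF := by
      refine ⟨fun _ => false, ?_⟩
      rintro ⟨z, hz⟩
      simpa using hz 0
    exact hτ (h5 τ ⟨fun _ => 0, fun x => hne.elim x⟩)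
  obtain ⟨v0⟩ := hVne
  have : Infinite (Om V) :=
    Infinite.of_injective (fun n : ℕ => ((v0, [], none, false, false, n) : Om V))
      (by intro a c h; simpa using h)
  obtain ⟨b⟩ := exists_basis (Om V) H hinf
  have : Nonempty (Gen V) := ⟨.F v0⟩
  obtain ⟨g, hg⟩ := exists_surjective_nat (Gen V)
  let Θ : Tr → (ℕ → Ball1 H) := fun τ n =>
    ⟨gen (GT lev bd bt ch τ) b (g n), gen_norm_le _ b _⟩
  have hΘc : Continuous Θ := by
    refine continuous_pi fun n => ?_
    refine continuous_induced_rng.2 ?_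
    apply ContinuousLinearMapWOT.continuous_of_dual_apply_continuous
    intro x y
    have := inner_continuous b (fun τ : Tr => gen (GT lev bd bt ch τ) b (g n))
      (fun τ => gen_norm_le _ b _) (fun ω => ?_) x
    · exact y.continuous.comp this
    · have hl : IsLocallyConstant (fun τ : Tr => gen (GT lev bd bt ch τ) b (g n) (b ω)) :=
        (IsLocallyConstant.iff_eventually_eq _).2 fun τ => gen_locconst h4 b (g n) ω τ
      exact hl.continuous
  have hiff : ∀ τ, IsASH (cstar (Θ τ)) ↔ τ ∈ IF := by
    intro τ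
    have heq : cstar (Θ τ) = AG (GT lev bd bt ch τ) b := by
      unfold cstar AG
      congr 2
      ext T
      constructor
      · rintro ⟨n, rfl⟩; exact ⟨g n, rfl⟩
      · rintro ⟨g', rfl⟩
        obtain ⟨n, rfl⟩ := hg g'
        exact ⟨n, rfl⟩
    have : IsClosed (cstar (Θ τ) : Set (H →L[ℂ] H)) :=
      NonUnitalStarSubalgebra.isClosed_topologicalClosure _
    have h7 : IsASH (cstar (Θ τ)) ↔ IsASH (AG (GT lev bd bt ch τ) b) :=
      isASH_congr (cstar (Θ τ)) (AG (GT lev bd bt ch τ) b) heq
    rw [h7]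
    constructor
    · intro h
      obtain ⟨B, hB, hmono, hsub, hAB⟩ := exists_seq_of_isASH _ h
      exact h5 τ (exists_int_solution (hgood τ) b hB hmono hsub hAB)
    · intro h
      obtain ⟨γ, hγ⟩ := h6 τ h
      exact isASH_of_sol b (hgood τ) hγ
  have hpre : IF = Θ ⁻¹' {γ | IsASH (cstar γ)} := by
    ext τ; exact (hiff τ).symm
  apply not_measurable_IF
  rw [hpre]
  let : MeasurableSpace (ℕ → Ball1 H) := borel _
  have : BorelSpace (ℕ → Ball1 H) := ⟨rfl⟩
  exact hΘc.measurable hmeas

end Run7.h836
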